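import Pool.Agent.Lib.MP_f2d99b_co.Cluster

namespace Pool.Agent.Lib.MP_f2d99b_co

noncomputable section

open Finset Complex Polynomial

lemma exists_fun (K : Subfield ℂ) {x y : ℂ} (h : ∀ κ ∈ K, y ≠ κ * x) :
    ∃ φ : ℂ →ₗ[K] ℂ, φ x = 0 ∧ φ y = 1 ∧ ∀ t, φ t ∈ K := by
  have hy : y ∉ Submodule.span K {x} := by
    rw [Submodule.mem_span_singleton]
    rintro ⟨κ, hκ⟩
    exact h κ κ.2 hκ.symm
  obtain ⟨f, h1, h2⟩ := Submodule.exists_dual_map_eq_bot_of_notMem hy inferInstance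
  have h3 : f x = 0 := by
    have : f x ∈ (Submodule.span K {x}).map f :=
      Submodule.mem_map_of_mem (Submodule.mem_span_singleton_self x)
    rw [h2] at this
    simpa using this
  refine ⟨(Algebra.linearMap K ℂ) ∘ₗ ((f y)⁻¹ • f), ?_, ?_, fun t => ?_⟩
  · simp [h3]
  · simp [h1]
  · exact (((f y)⁻¹ • f) t).2

lemma finish (K : Subfield ℂ) {rA rB : ℝ} {v w x : ℂ} (hv : v ≠ 0)
    (nn : ∀ s ∈ K, ∀ t ∈ K, rA * ‖s‖ ^ 2 = rB * ‖t‖ ^ 2 → s = 0 ∧ t = 0)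
    (hr : rA * ‖v‖ ^ 2 = rB * ‖w‖ ^ 2)
    (hx : ∀ φ : ℂ →ₗ[K] ℂ, φ x = 0 → rA * ‖φ v‖ ^ 2 = rB * ‖φ w‖ ^ 2) : False := by
  by_cases h1 : ∀ κ ∈ K, v ≠ κ * x
  · obtain ⟨φ, h2, h3, h4⟩ := exists_fun K h1
    have := (nn _ (h4 v) _ (h4 w) (hx φ h2)).1
    rw [h3] at this; exact one_ne_zero this
  by_cases h1' : ∀ κ ∈ K, w ≠ κ * x
  · obtain ⟨φ, h2, h3, h4⟩ := exists_fun K h1'
    have := (nn _ (h4 v) _ (h4 w) (hx φ h2)).2
    rw [h3] at this; exact one_ne_zero this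
  push Not at h1 h1'
  obtain ⟨s, hs, rfl⟩ := h1
  obtain ⟨t, ht, rfl⟩ := h1'
  have hx0 : x ≠ 0 := right_ne_zero_of_mul hv
  have hx1 : ‖x‖ ^ 2 ≠ 0 := by positivity
  rw [norm_mul, norm_mul, mul_pow, mul_pow, ← mul_assoc, ← mul_assoc] at hr
  exact left_ne_zero_of_mul hv (nn s hs t ht (mul_right_cancel₀ hx1 hr)).1

lemma E_eq_im (a b : ℂ) : E a b = ((starRingEnd ℂ) a * b).im := by
  simp [E]; ring

lemma shadow_area {m : ℕ} {z α n : ℕ → ℂ} (hu : ∀ j, ‖α j‖ = 1) (htot : ∀ o, walk z α 0 m o = o)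
    {a v : ℂ} (hv : v ≠ 0) (hn : ∀ j < m, α j ≠ 1 → z j = a + v * n j) :
    ar z α 0 m 0 = ar n α 0 m 0 * ‖v‖ ^ 2 ∧ ∀ (K : Subfield ℂ), (∀ j, α j ∈ K) → (∀ j, n j ∈ K) →
      ∀ φ : ℂ →ₗ[K] ℂ, ar (fun j => φ (z j)) α 0 m 0 = ar n α 0 m 0 * ‖φ v‖ ^ 2 := by
  have hw : walk n α 0 m 0 = 0 := by
    have h1 := walk_affine n α a v 0 m 0
    rw [← walk_congr (z := z) (α := α) (fun j _ h2 => ⟨rfl, hn j (by omega)⟩), htot] at h1
    have : v * walk n α 0 m 0 = 0 := by linear_combination -h1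
    exact (mul_eq_zero.1 this).resolve_left hv
  have gen : ∀ (z' : ℕ → ℂ) (a' v' : ℂ), (∀ j < m, α j ≠ 1 → z' j = a' + v' * n j) →
      walk z' α 0 m 0 = 0 → ar z' α 0 m 0 = ar n α 0 m 0 * ‖v'‖ ^ 2 := by
    intro z' a' v' h1 h2
    have c : ∀ j, 0 ≤ j → j < 0 + m → α j = α j ∧ (α j ≠ 1 → z' j = a' + v' * n j) :=
      fun j _ h2 => ⟨rfl, h1 j (by omega)⟩
    have h3 := ar_base (z := z') hu 0 m 0 (a' + v' * 0)
    rw [h2, ar_congr c (a' + v' * 0), ar_affine, hw] at h3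
    simp at h3
    linarith
  refine ⟨gen z a v hn (htot 0), fun K hα hnK φ => gen _ (φ a) (φ v) (fun j hj h1 => ?_) ?_⟩
  · rw [hn j hj h1, map_add, mul_comm v, map_mul_mem φ (hnK j), mul_comm]
  · have := map_walk φ (z := z) hα 0 m 0
    rw [htot, map_zero] at this
    exact this.symm

lemma ar_mem (O : Subring ℂ) (hO : ∀ x ∈ O, (starRingEnd ℂ) x ∈ O) {n α : ℕ → ℂ}
    (hn : ∀ j, n j ∈ O) (hα : ∀ j, α j ∈ O) (m : ℕ) :
    walk n α 0 m 0 ∈ O ∧ ∃ y ∈ O, ar n α 0 m 0 = y.im := by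
  induction m with
  | zero => exact ⟨O.zero_mem, 0, O.zero_mem, by simp⟩
  | succ m ih =>
    obtain ⟨h1, y, h2, h3⟩ := ih
    have h4 : walk n α 0 (m + 1) 0 ∈ O :=
      O.add_mem (hn _) (O.mul_mem (hα _) (O.sub_mem h1 (hn _)))
    refine ⟨h4, y + ((starRingEnd ℂ) (walk n α 0 m 0) * n (0 + m) +
      (starRingEnd ℂ) (n (0 + m)) * walk n α 0 (m + 1) 0), O.add_mem h2 (O.add_mem
      (O.mul_mem (hO _ h1) (hn _)) (O.mul_mem (hO _ (hn _)) h4)), ?_⟩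
    rw [ar_succ, h3, E_eq_im, E_eq_im, add_im, add_im]

/-! ### Eisenstein integers -/

def w3 : ℂ := ⟨-1 / 2, √3 / 2⟩

lemma w3_sq : w3 ^ 2 = -1 - w3 := by
  have h : √3 * √3 = 3 := Real.mul_self_sqrt (by norm_num)
  apply Complex.ext <;> simp [w3, sq] <;> nlinarith

lemma conj_w3 : (starRingEnd ℂ) w3 = -1 - w3 := by
  apply Complex.ext <;> simp [w3]; norm_num

lemma w3_cube : w3 ^ 3 = 1 := by
  have := w3_sq
  linear_combination (w3 - 1) * this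

lemma prim3 {χ : ℂ} (h : IsPrimitiveRoot χ 3) : χ = w3 ∨ χ = -1 - w3 := by
  have h1 := h.pow_eq_one
  have h2 : χ ≠ 1 := h.ne_one (by norm_num)
  have h3 : (χ - 1) * ((χ - w3) * (χ - (-1 - w3))) = 0 := by
    have := w3_sq
    linear_combination h1 - (χ - 1) * this
  rcases mul_eq_zero.1 h3 with h4 | h4
  · exact absurd (sub_eq_zero.1 h4) h2
  · rcases mul_eq_zero.1 h4 with h5 | h5
    · exact Or.inl (sub_eq_zero.1 h5)
    · exact Or.inr (sub_eq_zero.1 h5)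

lemma prim6 {χ : ℂ} (h : IsPrimitiveRoot χ 6) : χ = -w3 ∨ χ = 1 + w3 := by
  have h1 : IsPrimitiveRoot (χ ^ 2) 3 := h.pow (by norm_num) (by norm_num)
  have h3 : χ ^ 3 = -1 := (h.pow (by norm_num) (by norm_num : 6 = 3 * 2)).eq_neg_one_of_two_right
  have h4 : χ = -(χ ^ 2) ^ 2 := by linear_combination χ * h3
  have := w3_sq
  rcases prim3 h1 with h2 | h2
  · right; rw [h4, h2]; linear_combination -this
  · left; rw [h4, h2]; linear_combination -this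

def Eis (x : ℂ) (c : ZMod 3) : Prop := ∃ p q : ℤ, x = p + q * w3 ∧ ((p + q : ℤ) : ZMod 3) = c

lemma Eis.add {x y : ℂ} {c d : ZMod 3} (h : Eis x c) (h' : Eis y d) : Eis (x + y) (c + d) := by
  obtain ⟨p, q, rfl, rfl⟩ := h
  obtain ⟨p', q', rfl, rfl⟩ := h'
  exact ⟨p + p', q + q', by push_cast; ring, by push_cast; ring⟩

lemma Eis.neg {x : ℂ} {c : ZMod 3} (h : Eis x c) : Eis (-x) (-c) := by
  obtain ⟨p, q, rfl, rfl⟩ := h
  exact ⟨-p, -q, by push_cast; ring, by push_cast; ring⟩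

lemma Eis.sub {x y : ℂ} {c d : ZMod 3} (h : Eis x c) (h' : Eis y d) : Eis (x - y) (c - d) := by
  rw [sub_eq_add_neg, sub_eq_add_neg]; exact h.add h'.neg

lemma three_eq_zero : (3 : ZMod 3) = 0 := rfl

lemma Eis.mul {x y : ℂ} {c d : ZMod 3} (h : Eis x c) (h' : Eis y d) : Eis (x * y) (c * d) := by
  obtain ⟨p, q, rfl, rfl⟩ := h
  obtain ⟨p', q', rfl, rfl⟩ := h'
  refine ⟨p * p' - q * q', p * q' + q * p' - q * q', ?_, ?_⟩
  · push_cast; linear_combination (q * q' : ℂ) * w3_sq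
  · push_cast; linear_combination (-(q * q') : ZMod 3) * three_eq_zero

lemma Eis_int (p : ℤ) : Eis p p := ⟨p, 0, by simp, by simp⟩
lemma Eis_zero : Eis 0 0 := ⟨0, 0, by simp, by simp⟩
lemma Eis_one : Eis 1 1 := ⟨1, 0, by simp, by simp⟩
lemma Eis_w3 : Eis w3 1 := ⟨0, 1, by simp, by simp⟩
lemma Eis_w3' : Eis (-1 - w3) 1 := ⟨-1, -1, by push_cast; ring, by decide⟩

lemma w3_inj {p q p' q' : ℝ} (h : (p : ℂ) + q * w3 = p' + q' * w3) : p = p' ∧ q = q' := by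
  have h1 := congrArg Complex.re h
  have h2 := congrArg Complex.im h
  simp [w3] at h1 h2
  subst h2
  exact ⟨by linarith, rfl⟩

lemma Eis.unique {x : ℂ} {c d : ZMod 3} (h : Eis x c) (h' : Eis x d) : c = d := by
  obtain ⟨p, q, h1, rfl⟩ := h
  obtain ⟨p', q', h2, rfl⟩ := h'
  have := w3_inj (p := p) (q := q) (p' := p') (q' := q') (by push_cast; rw [← h1, ← h2])
  obtain ⟨h3, h4⟩ := this
  rw [Int.cast_injective h3, Int.cast_injective h4]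

lemma Eis_prim3 {χ : ℂ} (h : IsPrimitiveRoot χ 3) : Eis χ 1 := by
  rcases prim3 h with rfl | rfl
  exacts [Eis_w3, Eis_w3']

lemma Eis_prim6 {χ : ℂ} (h : IsPrimitiveRoot χ 6) : Eis χ (-1) := by
  rcases prim6 h with rfl | rfl
  · exact Eis_w3.neg
  · exact ⟨1, 1, by simp, by decide⟩

lemma E_eis (p q p' q' : ℤ) : E (p + q * w3) (p' + q' * w3) = √3 / 2 * (p * q' - q * p' : ℤ) := by
  simp [E, w3]; ring

lemma octa_area {χ : ℂ} (hχ : IsPrimitiveRoot χ 3) {n α : ℕ → ℂ} {col : ℕ → ZMod 3}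
    (hα : ∀ j, α j = 1 ∨ α j = χ) (hn : ∀ j, Eis (n j) (col j)) :
    ∃ ε : ZMod 3, ε ≠ 0 ∧ ∀ m, Eis (walk n α 0 m 0) 0 ∧ ∃ N : ℤ, ar n α 0 m 0 = √3 / 2 * N ∧
      (N : ZMod 3) = ε * ∑ j ∈ (range m).filter (fun j => α j ≠ 1), col j ^ 2 := by
  have key : ∃ ε : ZMod 3, ε ≠ 0 ∧ ∀ o z c, Eis o 0 → Eis z c → ∃ N : ℤ,
      E o z + E z (rot z χ o) = √3 / 2 * N ∧ (N : ZMod 3) = ε * c ^ 2 := by
    rcases prim3 hχ with rfl | rfl
    · refine ⟨-1, by decide, ?_⟩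
      rintro _ _ _ ⟨p, q, rfl, h1⟩ ⟨p', q', rfl, rfl⟩
      have e : rot (p' + q' * w3) w3 (p + q * w3) =
          (p' - (q - q') : ℤ) + (q' + (p - p') - (q - q') : ℤ) * w3 := by
        unfold rot; push_cast; linear_combination (q - q' : ℂ) * w3_sq
      rw [e, E_eis, E_eis, ← mul_add, ← Int.cast_add]
      refine ⟨_, rfl, ?_⟩
      push_cast at h1 ⊢
      linear_combination (p' + q' : ZMod 3) * h1 + (p' * q' - p' * q : ZMod 3) * three_eq_zero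
    · refine ⟨1, by decide, ?_⟩
      rintro _ _ _ ⟨p, q, rfl, h1⟩ ⟨p', q', rfl, rfl⟩
      have e : rot (p' + q' * w3) (-1 - w3) (p + q * w3) =
          (p' - (p - p') + (q - q') : ℤ) + (q' - (p - p') : ℤ) * w3 := by
        unfold rot; push_cast; linear_combination (q' - q : ℂ) * w3_sq
      rw [e, E_eis, E_eis, ← mul_add, ← Int.cast_add]
      refine ⟨_, rfl, ?_⟩
      push_cast at h1 ⊢
      linear_combination (-(p' + q') : ZMod 3) * h1 + (p * q' - p' * q' : ZMod 3) * three_eq_zero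
  obtain ⟨ε, h0, key⟩ := key
  refine ⟨ε, h0, fun m => ?_⟩
  induction m with
  | zero => exact ⟨Eis_zero, 0, by simp, by simp⟩
  | succ m ih =>
    obtain ⟨h1, N, h2, h3⟩ := ih
    rw [ar_succ, walk_succ, zero_add, range_add_one, filter_insert]
    rcases hα m with h4 | h4
    · rw [h4, rot_one, E_swap (n m)]
      exact ⟨h1, N, by rw [h2]; ring, by simpa using h3⟩
    · have h5 : α m ≠ 1 := by rw [h4]; exact hχ.ne_one (by norm_num)
      rw [if_pos h5, sum_insert (by simp), h4]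
      obtain ⟨N', h6, h7⟩ := key _ _ _ h1 (hn m)
      refine ⟨?_, N + N', by rw [h2, h6]; push_cast; ring, by push_cast; rw [h3, h7]; ring⟩
      have := (hn m).add ((Eis_prim3 hχ).mul (h1.sub (hn m)))
      simpa [rot] using this

def K3 : Subfield ℂ where
  carrier := {x | ∃ p q : ℚ, x = p + q * w3}
  mul_mem' := by
    rintro _ _ ⟨p, q, rfl⟩ ⟨p', q', rfl⟩
    exact ⟨p * p' - q * q', p * q' + q * p' - q * q', by
      push_cast; linear_combination (q * q' : ℂ) * w3_sq⟩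
  one_mem' := ⟨1, 0, by simp⟩
  add_mem' := by
    rintro _ _ ⟨p, q, rfl⟩ ⟨p', q', rfl⟩
    exact ⟨p + p', q + q', by push_cast; ring⟩
  zero_mem' := ⟨0, 0, by simp⟩
  neg_mem' := by
    rintro _ ⟨p, q, rfl⟩
    exact ⟨-p, -q, by push_cast; ring⟩
  inv_mem' := by
    rintro _ ⟨p, q, rfl⟩
    by_cases h : (p : ℂ) + q * w3 = 0
    · exact ⟨0, 0, by simp [h]⟩
    have h1 : ((p : ℂ) + q * w3) * (p - q - q * w3) = (p ^ 2 - p * q + q ^ 2 : ℚ) := by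
      push_cast; linear_combination (-q ^ 2 : ℂ) * w3_sq
    have h2 : (p ^ 2 - p * q + q ^ 2 : ℚ) ≠ 0 := by
      intro h3
      have h4 : q = 0 := by nlinarith [sq_nonneg (2 * p - q), sq_nonneg q]
      have h5 : p = 0 := by subst h4; nlinarith
      simp [h4, h5] at h
    have h3 : ((p ^ 2 - p * q + q ^ 2 : ℚ) : ℂ) ≠ 0 := by exact_mod_cast h2
    refine ⟨(p - q) / (p ^ 2 - p * q + q ^ 2), -q / (p ^ 2 - p * q + q ^ 2), ?_⟩
    apply inv_eq_of_mul_eq_one_right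
    rw [Rat.cast_div, Rat.cast_div, ← div_self h3]
    nth_rewrite 3 [← h1]
    push_cast; ring

lemma Eis.mem {x : ℂ} {c : ZMod 3} (h : Eis x c) : x ∈ K3 := by
  obtain ⟨p, q, rfl, _⟩ := h
  exact ⟨p, q, by simp⟩

lemma norm_w3 (p q : ℝ) : ‖(p : ℂ) + q * w3‖ ^ 2 = p ^ 2 - p * q + q ^ 2 := by
  have h : √3 * √3 = 3 := Real.mul_self_sqrt (by norm_num)
  rw [Complex.sq_norm, Complex.normSq_apply]
  simp [w3]; nlinarith

lemma descent25 (n : ℕ) : ∀ a b c d : ℤ, a.natAbs + b.natAbs + c.natAbs + d.natAbs = n →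
    2 * (a ^ 2 - a * b + b ^ 2) = 5 * (c ^ 2 - c * d + d ^ 2) → a = 0 ∧ b = 0 ∧ c = 0 ∧ d = 0 := by
  induction n using Nat.strong_induction_on with
  | _ n ih =>
    intro a b c d hn h
    have ev : ∀ x y : ℤ, (x ^ 2 - x * y + y ^ 2) % 2 = 0 → x % 2 = 0 ∧ y % 2 = 0 := by
      intro x y
      rcases Int.emod_two_eq_zero_or_one x with h1 | h1 <;>
        rcases Int.emod_two_eq_zero_or_one y with h2 | h2 <;>
        simp [h1, h2, sq, Int.add_emod, Int.sub_emod, Int.mul_emod]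
    obtain ⟨h1, h2⟩ := ev c d (by omega)
    obtain ⟨c', rfl⟩ : ∃ c', c = 2 * c' := ⟨c / 2, by omega⟩
    obtain ⟨d', rfl⟩ : ∃ d', d = 2 * d' := ⟨d / 2, by omega⟩
    have h3 : a ^ 2 - a * b + b ^ 2 = 2 * (5 * (c' ^ 2 - c' * d' + d' ^ 2)) := by linarith
    obtain ⟨h4, h5⟩ := ev a b (by omega)
    obtain ⟨a', rfl⟩ : ∃ a', a = 2 * a' := ⟨a / 2, by omega⟩
    obtain ⟨b', rfl⟩ : ∃ b', b = 2 * b' := ⟨b / 2, by omega⟩
    by_cases h6 : n = 0
    · omega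
    · have := ih _ (by omega) a' b' c' d' rfl (by linarith)
      omega

lemma K3_den {x : ℂ} (h : x ∈ K3) : ∃ D : ℤ, D ≠ 0 ∧ ∃ p q : ℤ, D * x = p + q * w3 := by
  obtain ⟨p, q, rfl⟩ := h
  refine ⟨p.den * q.den, by positivity, p.num * q.den, q.num * p.den, ?_⟩
  have h1 : (p.num : ℂ) = p * p.den := by exact_mod_cast (Rat.mul_den_eq_num p).symm
  have h2 : (q.num : ℂ) = q * q.den := by exact_mod_cast (Rat.mul_den_eq_num q).symm
  push_cast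
  rw [h1, h2]; ring

lemma nonnorm25 {s t : ℂ} (hs : s ∈ K3) (ht : t ∈ K3) (h : 2 * ‖s‖ ^ 2 = 5 * ‖t‖ ^ 2) :
    s = 0 ∧ t = 0 := by
  obtain ⟨D, hD, p, q, h1⟩ := K3_den hs
  obtain ⟨D', hD', p', q', h2⟩ := K3_den ht
  have e1 : ((D * D' : ℤ) : ℂ) * s = ((D' * p : ℤ) : ℝ) + ((D' * q : ℤ) : ℝ) * w3 := by
    push_cast; linear_combination (D' : ℂ) * h1
  have e2 : ((D * D' : ℤ) : ℂ) * t = ((D * p' : ℤ) : ℝ) + ((D * q' : ℤ) : ℝ) * w3 := by
    push_cast; linear_combination (D : ℂ) * h2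
  have n1 := norm_w3 ((D' * p : ℤ) : ℝ) ((D' * q : ℤ) : ℝ)
  have n2 := norm_w3 ((D * p' : ℤ) : ℝ) ((D * q' : ℤ) : ℝ)
  rw [← e1, norm_mul, mul_pow] at n1
  rw [← e2, norm_mul, mul_pow] at n2
  have h3 : 2 * (((D' * p : ℤ) : ℝ) ^ 2 - (D' * p : ℤ) * (D' * q : ℤ) + (D' * q : ℤ) ^ 2) =
      5 * (((D * p' : ℤ) : ℝ) ^ 2 - (D * p' : ℤ) * (D * q' : ℤ) + (D * q' : ℤ) ^ 2) := by
    rw [← n1, ← n2]; linear_combination ‖((D * D' : ℤ) : ℂ)‖ ^ 2 * h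
  obtain ⟨h4, h5, h6, h7⟩ := descent25 _ (D' * p) (D' * q) (D * p') (D * q') rfl (by exact_mod_cast h3)
  have hDD : ((D * D' : ℤ) : ℂ) ≠ 0 := by exact_mod_cast mul_ne_zero hD hD'
  rw [h4, h5] at e1
  rw [h6, h7] at e2
  constructor
  · apply (mul_eq_zero.1 _).resolve_left hDD; simpa using e1
  · apply (mul_eq_zero.1 _).resolve_left hDD; simpa using e2

lemma eis_reduce (n : ℕ) : ∀ p q : ℤ, ∀ y : ℂ, ∀ c : ZMod 3, (p ^ 2 - p * q + q ^ 2).natAbs = n →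
    (p : ℂ) + q * w3 ≠ 0 → Eis y c → ∃ g ∈ K3, ∃ c1 c2 : ZMod 3, Eis (g * (p + q * w3)) c1 ∧
      Eis (g * y) c2 ∧ (c1 ≠ 0 ∨ c2 ≠ 0) := by
  induction n using Nat.strong_induction_on with
  | _ n ih =>
    intro p q y c hn h0 hy
    by_cases h1 : ((p + q : ℤ) : ZMod 3) ≠ 0 ∨ c ≠ 0
    · exact ⟨1, K3.one_mem, _, c, ⟨p, q, by simp, rfl⟩, by simpa using hy, h1⟩
    push Not at h1
    obtain ⟨h1, rfl⟩ := h1
    obtain ⟨p', q', rfl, h2⟩ := hy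
    obtain ⟨k, hk⟩ := (ZMod.intCast_zmod_eq_zero_iff_dvd _ 3).1 h1
    obtain ⟨k', hk'⟩ := (ZMod.intCast_zmod_eq_zero_iff_dvd _ 3).1 h2
    push_cast at hk hk'
    have hw : (1 - w3) * (2 + w3) = 3 := by linear_combination -w3_sq
    have dv : ∀ a b j : ℤ, a + b = 3 * j →
        (2 + w3) / 3 * ((a : ℂ) + b * w3) = (a - j : ℤ) + (j : ℤ) * w3 := by
      intro a b j hj
      have : (b : ℂ) = 3 * j - a := by
        have : (a : ℂ) + b = 3 * j := by exact_mod_cast hj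
        linear_combination this
      rw [this]; push_cast
      linear_combination (j - a / 3 : ℂ) * w3_sq
    have hg : (2 + w3) / 3 ∈ K3 := ⟨2 / 3, 1 / 3, by push_cast; ring⟩
    have hg0 : (2 + w3) / 3 ≠ 0 := by
      intro h3
      have : (3 : ℂ) = 0 := by linear_combination -hw + 3 * (1 - w3) * h3
      norm_num at this
    have hq : q = 3 * k - p := by omega
    have hpos : 0 < (p - k) ^ 2 - (p - k) * k + k ^ 2 := by
      by_contra h3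
      have h4 : k = 0 := by nlinarith [sq_nonneg (2 * (p - k) - k), sq_nonneg k]
      have h5 : p = 0 := by subst h4; nlinarith
      apply h0; rw [hq, h4, h5]; simp
    have hlt : ((p - k) ^ 2 - (p - k) * k + k ^ 2).natAbs < n := by
      have : p ^ 2 - p * q + q ^ 2 = 3 * ((p - k) ^ 2 - (p - k) * k + k ^ 2) := by
        rw [hq]; ring
      omega
    obtain ⟨g, h3, c1, c2, h4, h5, h6⟩ := ih _ hlt (p - k) k ((p' - k' : ℤ) + (k' : ℤ) * w3) _ rfl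
      (by rw [← dv p q k hk]; exact mul_ne_zero hg0 h0) ⟨_, _, rfl, rfl⟩
    refine ⟨g * ((2 + w3) / 3), K3.mul_mem h3 hg, c1, c2, ?_, ?_, h6⟩
    · rw [mul_assoc, dv p q k hk]; exact h4
    · rw [mul_assoc, dv p' q' k' hk']; exact h5

lemma exists_eis_fun {v w d : ℂ} (h : ∀ κ ∈ K3, v ≠ κ * w) :
    ∃ φ : ℂ →ₗ[K3] ℂ, φ w = 0 ∧ ∃ c1 c2 : ZMod 3, Eis (φ v) c1 ∧ Eis (φ d) c2 ∧
      (c1 ≠ 0 ∨ c2 ≠ 0) := by
  obtain ⟨φ, h1, h2, h3⟩ := exists_fun K3 h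
  obtain ⟨D, hD, p, q, h4⟩ := K3_den (h3 d)
  obtain ⟨g, h5, c1, c2, h6, h7, h8⟩ := eis_reduce _ D 0 (p + q * w3) _ rfl (by simpa using hD)
    ⟨p, q, rfl, rfl⟩
  have hDK : (D : ℂ) ∈ K3 := ⟨D, 0, by simp⟩
  refine ⟨(⟨g * D, K3.mul_mem h5 hDK⟩ : K3) • φ, by simp [h1], c1, c2, ?_, ?_, h8⟩
  · have : ((⟨g * D, K3.mul_mem h5 hDK⟩ : K3) • φ) v = g * D * φ v := rfl
    rw [this, h2]; simpa using h6
  · have : ((⟨g * D, K3.mul_mem h5 hDK⟩ : K3) • φ) d = g * D * φ d := rfl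
    rw [this, mul_assoc, h4]; exact h7

/-! ### The field of sixtieth roots of unity -/

def z60 : ℂ := Complex.exp (2 * Real.pi * I / (60 : ℕ))

lemma z60_prim : IsPrimitiveRoot z60 60 := Complex.isPrimitiveRoot_exp 60 (by norm_num)

def K60 : Subfield ℂ := (IntermediateField.adjoin ℚ {z60}).toSubfield

def O20 : Subring ℂ := Subring.closure {z60 ^ 3}

def Rel (x y : ℂ) : Prop := ∃ p : ℚ[X], x = aeval z60 p ∧ y = aeval (z60 ^ 41) p

lemma z41_prim : IsPrimitiveRoot (z60 ^ 41) 60 := z60_prim.pow_of_coprime 41 (by norm_num)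

lemma aeval_iff (p : ℚ[X]) : aeval z60 p = 0 ↔ aeval (z60 ^ 41) p = 0 := by
  have h1 := (Polynomial.cyclotomic_eq_minpoly_rat z60_prim (by norm_num))
  have h2 := (Polynomial.cyclotomic_eq_minpoly_rat z41_prim (by norm_num))
  rw [← minpoly.dvd_iff, ← minpoly.dvd_iff, ← h1, ← h2]

lemma Rel.add {x y x' y' : ℂ} (h : Rel x y) (h' : Rel x' y') : Rel (x + x') (y + y') := by
  obtain ⟨p, rfl, rfl⟩ := h
  obtain ⟨q, rfl, rfl⟩ := h'
  exact ⟨p + q, by simp, by simp⟩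

lemma Rel.mul {x y x' y' : ℂ} (h : Rel x y) (h' : Rel x' y') : Rel (x * x') (y * y') := by
  obtain ⟨p, rfl, rfl⟩ := h
  obtain ⟨q, rfl, rfl⟩ := h'
  exact ⟨p * q, by simp, by simp⟩

lemma Rel.neg {x y : ℂ} (h : Rel x y) : Rel (-x) (-y) := by
  obtain ⟨p, rfl, rfl⟩ := h
  exact ⟨-p, by simp, by simp⟩

lemma Rel.sub {x y x' y' : ℂ} (h : Rel x y) (h' : Rel x' y') : Rel (x - x') (y - y') := by
  rw [sub_eq_add_neg, sub_eq_add_neg]; exact h.add h'.neg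

lemma Rel.zero_iff {x y : ℂ} (h : Rel x y) : x = 0 ↔ y = 0 := by
  obtain ⟨p, rfl, rfl⟩ := h; exact aeval_iff p

lemma Rel_int (n : ℤ) : Rel n n := ⟨(n : ℚ[X]), by simp, by simp⟩

lemma Rel_pow (n : ℕ) : Rel (z60 ^ n) (z60 ^ (41 * n)) := ⟨X ^ n, by simp, by simp [pow_mul]⟩

lemma conj_root {ζ : ℂ} (h : ζ ^ 60 = 1) : (starRingEnd ℂ) ζ = ζ ^ 59 := by
  have h1 : ‖ζ‖ = 1 := Complex.norm_eq_one_of_pow_eq_one h (by norm_num)
  have h2 : ζ * (starRingEnd ℂ) ζ = 1 := by rw [Complex.mul_conj, Complex.normSq_eq_norm_sq, h1]; simp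
  linear_combination ζ ^ 59 * h2 - (starRingEnd ℂ) ζ * h

lemma conj_aeval {ζ : ℂ} (h : ζ ^ 60 = 1) (p : ℚ[X]) :
    (starRingEnd ℂ) (aeval ζ p) = aeval ζ (p.comp (X ^ 59)) := by
  rw [aeval_comp]
  simp only [map_pow, aeval_X]
  rw [← conj_root h]
  induction p using Polynomial.induction_on' with
  | add p q hp hq => simp [hp, hq]
  | monomial n a => simp [aeval_monomial]

lemma Rel.conj {x y : ℂ} (h : Rel x y) : Rel ((starRingEnd ℂ) x) ((starRingEnd ℂ) y) := by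
  obtain ⟨p, rfl, rfl⟩ := h
  exact ⟨_, conj_aeval z60_prim.pow_eq_one p, conj_aeval z41_prim.pow_eq_one p⟩

lemma exists_Rel {x : ℂ} (h : x ∈ K60) : ∃ y, Rel x y := by
  have hi : IsAlgebraic ℚ z60 := (z60_prim.isIntegral (by norm_num)).tower_top.isAlgebraic
  have h1 : x ∈ (IntermediateField.adjoin ℚ {z60}).toSubalgebra := h
  rw [IntermediateField.adjoin_simple_toSubalgebra_of_isAlgebraic hi,
    Algebra.adjoin_singleton_eq_range_aeval] at h1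
  obtain ⟨p, rfl⟩ := h1
  exact ⟨_, p, rfl, rfl⟩

lemma z60_pow_mod (n : ℕ) : z60 ^ n = z60 ^ (n % 60) := by
  conv_lhs => rw [← Nat.div_add_mod n 60, pow_add, pow_mul, z60_prim.pow_eq_one, one_pow, one_mul]

lemma Rel_O20 {x : ℂ} (h : x ∈ O20) : Rel x x := by
  induction h using Subring.closure_induction with
  | mem x hx =>
    rw [Set.mem_singleton_iff.1 hx]
    have := Rel_pow 3
    rwa [z60_pow_mod (41 * 3)] at this
  | zero => simpa using Rel_int 0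
  | one => simpa using Rel_int 1
  | add x y _ _ h1 h2 => exact h1.add h2
  | neg x _ h1 => exact h1.neg
  | mul x y _ _ h1 h2 => exact h1.mul h2

lemma mem_O20 {ζ : ℂ} (h : ζ ^ 20 = 1) : ζ ∈ O20 := by
  have h1 : IsPrimitiveRoot (z60 ^ 3) 20 := z60_prim.pow (by norm_num) (by norm_num)
  obtain ⟨i, _, rfl⟩ := h1.eq_pow_of_pow_eq_one h
  exact O20.pow_mem (Subring.subset_closure rfl) i

lemma conj_O20 {x : ℂ} (h : x ∈ O20) : (starRingEnd ℂ) x ∈ O20 := by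
  induction h using Subring.closure_induction with
  | mem x hx =>
    rw [Set.mem_singleton_iff.1 hx]
    apply mem_O20
    rw [← map_pow, ← pow_mul, z60_prim.pow_eq_one, map_one]
  | zero => simp
  | one => simp
  | add x y _ _ h1 h2 => rw [map_add]; exact O20.add_mem h1 h2
  | neg x _ h1 => rw [map_neg]; exact O20.neg_mem h1
  | mul x y _ _ h1 h2 => rw [map_mul]; exact O20.mul_mem h1 h2

lemma z60_mem : z60 ∈ K60 := IntermediateField.mem_adjoin_simple_self ℚ z60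

lemma O20_le {x : ℂ} (h : x ∈ O20) : x ∈ K60 := by
  have : O20 ≤ K60.toSubring := Subring.closure_le.2 (by
    rintro _ rfl
    exact K60.pow_mem z60_mem 3)
  exact this h

lemma Rel_w3 : w3 ∈ K60 ∧ Rel w3 (-1 - w3) := by
  have h1 : IsPrimitiveRoot (z60 ^ 20) 3 := z60_prim.pow (by norm_num) (by norm_num)
  have h2 := Rel_pow 20
  have h3 := Rel_pow 40
  rw [z60_pow_mod (41 * 20)] at h2
  rw [z60_pow_mod (41 * 40)] at h3
  have h4 : z60 ^ 40 = (z60 ^ 20) ^ 2 := by ring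
  norm_num at h2 h3
  rcases prim3 h1 with h5 | h5
  · refine ⟨h5 ▸ K60.pow_mem z60_mem 20, ?_⟩
    rwa [h4, h5, w3_sq] at h2
  · have h6 : z60 ^ 40 = w3 := by rw [h4, h5]; linear_combination w3_sq
    refine ⟨h6 ▸ K60.pow_mem z60_mem 40, ?_⟩
    rwa [h6, h5] at h3

lemma Eis.mem60 {x : ℂ} {c : ZMod 3} (h : Eis x c) : x ∈ K60 := by
  obtain ⟨p, q, rfl, _⟩ := h
  exact K60.add_mem (intCast_mem K60 p) (K60.mul_mem (intCast_mem K60 q) Rel_w3.1)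

lemma nonnorm60 {y : ℂ} (hy : y ∈ O20) {N : ℤ} (hpos : 0 < y.im * (√3 / 2 * N)) {s t : ℂ}
    (hs : s ∈ K60) (ht : t ∈ K60) (h : y.im * ‖s‖ ^ 2 = √3 / 2 * N * ‖t‖ ^ 2) : s = 0 ∧ t = 0 := by
  obtain ⟨s', hs'⟩ := exists_Rel hs
  obtain ⟨t', ht'⟩ := exists_Rel ht
  have r1 := ((Rel_O20 hy).sub (Rel_O20 hy).conj).mul (hs'.mul hs'.conj)
  have r2 := ((Rel_int N).mul (Rel_w3.2.sub Rel_w3.2.conj)).mul (ht'.mul ht'.conj)
  have e1 : ∀ u : ℂ, (y - (starRingEnd ℂ) y) * (u * (starRingEnd ℂ) u) =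
      ((2 * (y.im * ‖u‖ ^ 2) : ℝ) : ℂ) * I := by
    intro u; rw [Complex.mul_conj, Complex.sub_conj, Complex.normSq_eq_norm_sq]; push_cast; ring
  have e2 : ∀ u : ℂ, (N : ℂ) * (w3 - (starRingEnd ℂ) w3) * (u * (starRingEnd ℂ) u) =
      ((2 * (√3 / 2 * N * ‖u‖ ^ 2) : ℝ) : ℂ) * I := by
    intro u; rw [Complex.mul_conj, Complex.sub_conj, Complex.normSq_eq_norm_sq]
    simp only [w3]; push_cast; ring
  have e3 : (N : ℂ) * (-1 - w3 - (starRingEnd ℂ) (-1 - w3)) * (t' * (starRingEnd ℂ) t') =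
      -((N : ℂ) * (w3 - (starRingEnd ℂ) w3) * (t' * (starRingEnd ℂ) t')) := by
    simp only [map_sub, map_neg, map_one]; ring
  have r3 := (r1.sub r2).zero_iff
  rw [e3, e1, e1, e2, e2, h, sub_self, sub_neg_eq_add, ← add_mul, ← Complex.ofReal_add] at r3
  have h1 : 2 * (y.im * ‖s'‖ ^ 2) + 2 * (√3 / 2 * N * ‖t'‖ ^ 2) = 0 := by
    have := r3.1 rfl
    simpa [-Complex.ofReal_add, -Complex.ofReal_mul] using this
  generalize √3 / 2 * (N : ℝ) = b at *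
  generalize y.im = a at *
  have h2 : a * b * ‖s'‖ ^ 2 + b ^ 2 * ‖t'‖ ^ 2 = 0 := by linear_combination b / 2 * h1
  have hb : b ≠ 0 := by rintro rfl; simp at hpos
  have h3 : 0 ≤ a * b * ‖s'‖ ^ 2 := by positivity
  have h4 : 0 ≤ b ^ 2 * ‖t'‖ ^ 2 := by positivity
  have h5 : a * b * ‖s'‖ ^ 2 = 0 := by linarith
  have h6 : b ^ 2 * ‖t'‖ ^ 2 = 0 := by linarith
  have h7 : s' = 0 := by simpa [hpos.ne'] using (mul_eq_zero.1 h5).resolve_left hpos.ne'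
  have h8 : t' = 0 := by simpa [hb] using h6
  exact ⟨hs'.zero_iff.2 h7, ht'.zero_iff.2 h8⟩

end

end Pool.Agent.Lib.MP_f2d99b_co
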