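import Pool.Agent.Lib.MP_f2d99b_co.Main

namespace Pool.Agent.Lib.MP_f2d99b_co

noncomputable section

open Set Complex
open scoped Real RealInnerProductSpace

def IsSolid (V : Set E3) (k nF dg : ℕ) (s : ℝ) (cc : ℕ → ZMod 3) (col : E3 → ZMod 3) : Prop :=
  ∃ ψ l o nb, Solid V k nF dg s cc col ψ l o nb

lemma IsSolid.map {V : Set E3} {k nF dg : ℕ} {s : ℝ} {cc : ℕ → ZMod 3} {col : E3 → ZMod 3}
    (h : IsSolid V k nF dg s cc col) {c : ℝ} (hc : 0 < c) (g : E3 ≃ᵃⁱ[ℝ] E3) :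
    IsSolid ((fun x => g (c • x)) '' V) k nF dg (c * s) cc (fun x => col (c⁻¹ • g.symm x)) := by
  obtain ⟨ψ, l, o, nb, h⟩ := h
  set ψ' : Fin nF → ℂ →ᵃⁱ[ℝ] E3 := fun F => g.toAffineIsometry.comp
    ((AffineIsometryEquiv.constVAdd ℝ E3 ((c - 1) • ψ F 0)).toAffineIsometry.comp (ψ F)) with hψ
  set l' : Fin nF → E3 →ᵃ[ℝ] ℝ := fun F => (l F).comp (c⁻¹ • g.symm.toAffineEquiv.toAffineMap)
    with hl
  have e1 : ∀ F (η : ℂ), ψ' F ((c * s : ℝ) * η) = g (c • ψ F (s * η)) := by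
    intro F η
    have := (ψ F).toAffineMap.apply_lineMap 0 (s * η) c
    simp only [AffineMap.lineMap_apply, vsub_eq_sub, vadd_eq_add, AffineIsometry.coe_toAffineMap,
      sub_zero, add_zero, real_smul] at this
    simp only [hψ, AffineIsometry.coe_comp, Function.comp, AffineIsometryEquiv.coe_toAffineIsometry,
      AffineIsometryEquiv.coe_constVAdd, vadd_eq_add]
    rw [ofReal_mul, mul_assoc, this]
    congr 1; module
  have e2 : ∀ F x, l' F (g (c • x)) = l F x := by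
    intro F x
    simp [hl, inv_smul_smul₀ hc.ne']
  have e3 : ∀ F x, l' F x = l F (c⁻¹ • g.symm x) := fun F x => rfl
  refine ⟨ψ', l', g (c • o), nb, h.three, mul_pos hc h.spos, h.fin.image _, h.nfpos, ?_, ?_, ?_, ?_,
    ?_, ?_, ?_, ?_, ?_, ?_, ?_⟩
  · exact fun F j => ⟨_, h.mem F j, (e1 F _).symm⟩
  · rintro F _ ⟨v, hv, rfl⟩
    rw [e2]; exact h.le F v hv
  · intro F j; rw [e1, e2, h.zero]
  · rintro F _ ⟨v, hv, rfl⟩ h1
    rw [e2] at h1
    obtain ⟨j, hj, rfl⟩ := h.face F v hv h1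
    exact ⟨j, hj, (e1 F _).symm⟩
  · intro F i hi j hj; rw [e1, e2, h.nbz F i hi j hj]
  · intro F F' h1 i hi j hj h2
    rw [e1, e1, e2, e2]; exact h.two F F' h1 i hi j hj h2
  · rintro _ ⟨v, hv, rfl⟩
    simp only [e2]; exact h.deg v hv
  · intro F; rw [e2, h.cen]
  · have := (g.toAffineEquiv.toAffineMap.comp (c • AffineMap.id ℝ E3)).image_convexHull V
    exact this ▸ (⟨o, h.omem, rfl⟩ :
      g (c • o) ∈ (g.toAffineEquiv.toAffineMap.comp (c • AffineMap.id ℝ E3)) '' convexHull ℝ V)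
  · intro F
    obtain ⟨F', h1⟩ := h.opp F
    exact ⟨F', fun x => by rw [e3, e3, h1]⟩
  · intro F j
    rw [e1]
    simp [inv_smul_smul₀ hc.ne', h.colv]

lemma exists_chart {k : ℕ} (hk : 3 ≤ k) {s : ℝ} (hs : 0 < s) (v : ℕ → E3)
    (h0 : ⟪v 1 - v 0, v 1 - v 0⟫ = s ^ 2) (h1 : ⟪v 2 - v 1, v 2 - v 1⟫ = s ^ 2)
    (h2 : ⟪v 1 - v 0, v 2 - v 1⟫ = (zt k).re * s ^ 2)
    (h3 : ∀ j, v (j + 3) - v (j + 2) = (2 * (zt k).re) • (v (j + 2) - v (j + 1)) - (v (j + 1) - v j)) :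
    ∃ ψ : ℂ →ᵃⁱ[ℝ] E3, ∀ j, ψ (s * cor k j) = v j := by
  have hy : 0 < (zt k).im := by simpa [E] using E_zt_succ hk 0
  have hn := normSq_of_norm (norm_zt k)
  have hz : zt k ^ 2 = (2 * (zt k).re : ℝ) * zt k - 1 := by
    apply Complex.ext
    · simp [sq]; nlinarith
    · simp [sq]; ring
  set a := v 1 - v 0 with ha
  set b := v 2 - v 1 with hb
  set x := (zt k).re with hx
  set y := (zt k).im with hy'
  set u1 : E3 := s⁻¹ • a with hu1
  set u2 : E3 := (s * y)⁻¹ • (b - x • a) with hu2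
  have h2' : ⟪b, a⟫ = x * s ^ 2 := by rw [real_inner_comm, h2]
  have i11 : ⟪u1, u1⟫ = 1 := by
    simp only [hu1, inner_smul_left, inner_smul_right, h0, conj_trivial]; field_simp
  have i12 : ⟪u1, u2⟫ = 0 := by
    simp only [hu1, hu2, inner_smul_left, inner_smul_right, inner_sub_right, h0, h2, conj_trivial]
    ring
  have i22 : ⟪u2, u2⟫ = 1 := by
    simp only [hu2, inner_smul_left, inner_smul_right, inner_sub_right, inner_sub_left, h0, h1, h2,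
      h2', conj_trivial]
    field_simp
    linear_combination -hn
  let L : ℂ →ₗᵢ[ℝ] E3 := ⟨reLm.smulRight u1 + imLm.smulRight u2, fun η => by
    rw [← sq_eq_sq₀ (norm_nonneg _) (norm_nonneg _), ← real_inner_self_eq_norm_sq, Complex.sq_norm,
      Complex.normSq_apply]
    simp only [LinearMap.add_apply, LinearMap.smulRight_apply, inner_add_left, inner_add_right,
      inner_smul_left, inner_smul_right, i11, i12, i22, real_inner_comm u1 u2, conj_trivial,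
      reLm_coe, imLm_coe]
    ring⟩
  have hL : ∀ η, L η = η.re • u1 + η.im • u2 := fun η => rfl
  have key : ∀ j, L (s * zt k ^ j) = v (j + 1) - v j := by
    intro j
    induction j using Nat.twoStepInduction with
    | zero =>
      rw [hL, hu1]
      simp [smul_inv_smul₀ hs.ne', ha]
    | one =>
      rw [hL, hu1, hu2, pow_one, re_ofReal_mul, im_ofReal_mul, smul_inv_smul₀ (mul_pos hs hy).ne',
        smul_smul, ← hx, mul_comm s, mul_inv_cancel_right₀ hs.ne']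
      simp [hb]
    | more j ih1 ih2 =>
      rw [h3, ← ih1, ← ih2, ← map_smul, ← map_sub, pow_add, hz, real_smul]
      congr 1; ring
  refine ⟨(AffineIsometryEquiv.constVAdd ℝ E3 (v 0)).toAffineIsometry.comp L.toAffineIsometry,
    fun j => ?_⟩
  show v 0 + L (s * cor k j) = v j
  induction j with
  | zero => simp [cor_zero]
  | succ j ih => rw [cor_succ, mul_add, map_add, ← add_assoc, ih, key]; simp

/-! ### Computation in the golden ring -/

abbrev Zp := ℤ × ℤ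

def ev (a : Zp) : ℝ := a.1 + a.2 * Real.goldenRatio

def mulZ (a b : Zp) : Zp := (a.1 * b.1 + a.2 * b.2, a.1 * b.2 + a.2 * b.1 + a.2 * b.2)

def posZ (a : Zp) : Prop := 0 < 1000 * a.1 + 1618 * a.2 ∧ 0 < 1000 * a.1 + 1619 * a.2

instance : DecidablePred posZ := fun a => by unfold posZ; infer_instance

lemma ev_mul (a b : Zp) : ev (mulZ a b) = ev a * ev b := by
  simp only [ev, mulZ]; push_cast
  linear_combination (-(a.2 * b.2) : ℝ) * Real.goldenRatio_sq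

lemma ev_add (a b : Zp) : ev (a + b) = ev a + ev b := by simp [ev]; ring
lemma ev_sub (a b : Zp) : ev (a - b) = ev a - ev b := by simp [ev]; ring
lemma ev_neg (a : Zp) : ev (-a) = - ev a := by simp [ev]; ring

lemma gold_bounds : 1.618 < Real.goldenRatio ∧ Real.goldenRatio < 1.619 := by
  have h1 := Real.goldenRatio_sq
  have h2 := Real.one_lt_goldenRatio
  constructor <;> nlinarith

lemma ev_pos {a : Zp} (h : posZ a) : 0 < ev a := by
  obtain ⟨h1, h2⟩ := h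
  have h3 : (0 : ℝ) < 1000 * a.1 + 1618 * a.2 := by exact_mod_cast h1
  have h4 : (0 : ℝ) < 1000 * a.1 + 1619 * a.2 := by exact_mod_cast h2
  obtain ⟨h5, h6⟩ := gold_bounds
  unfold ev
  rcases le_total 0 (a.2 : ℝ) with h7 | h7 <;> nlinarith

lemma ev_inj {a b : Zp} (h : ev a = ev b) : a = b := by
  by_cases h1 : a.2 = b.2
  · refine Prod.ext ?_ h1
    simp only [ev, h1, add_left_inj] at h
    exact_mod_cast h
  · exfalso
    have h2 : ((a.2 - b.2 : ℤ) : ℝ) * Real.goldenRatio = (b.1 - a.1 : ℤ) := by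
      simp only [ev] at h; push_cast; linarith
    exact (Real.goldenRatio_irrational.intCast_mul (sub_ne_zero.2 h1)).ne_int _ h2

abbrev Z3 := Zp × Zp × Zp

def ev3 (a : Z3) : E3 := !₂[ev a.1, ev a.2.1, ev a.2.2]

def dot (a b : Z3) : Zp := mulZ a.1 b.1 + mulZ a.2.1 b.2.1 + mulZ a.2.2 b.2.2

def sm3 (t : Zp) (a : Z3) : Z3 := (mulZ t a.1, mulZ t a.2.1, mulZ t a.2.2)

lemma inner_ev3 (a b : Z3) : ⟪ev3 a, ev3 b⟫ = ev (dot a b) := by
  simp [ev3, dot, ev_add, ev_mul, PiLp.inner_apply, Fin.sum_univ_three, mul_comm]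

lemma ev3_sub (a b : Z3) : ev3 (a - b) = ev3 a - ev3 b := by
  ext i; fin_cases i <;> simp [ev3, ev_sub]

lemma ev3_neg (a : Z3) : ev3 (-a) = - ev3 a := by
  ext i; fin_cases i <;> simp [ev3, ev_neg]

lemma ev3_sm (t : Zp) (a : Z3) : ev3 (sm3 t a) = ev t • ev3 a := by
  ext i; fin_cases i <;> simp [ev3, sm3, ev_mul]

lemma ev3_inj {a b : Z3} (h : ev3 a = ev3 b) : a = b :=
  Prod.ext (ev_inj (congrArg (fun x : E3 => x 0) h)) (Prod.ext
    (ev_inj (congrArg (fun x : E3 => x 1) h)) (ev_inj (congrArg (fun x : E3 => x 2) h)))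

/-- Finite checks on the coordinates of a polyhedron. -/
structure Chk (k nV nF dg : ℕ) (P : ℕ → Z3) (fc : ℕ → ℕ → ℕ) (N : ℕ → Z3) (nb : ℕ → ℕ → ℕ)
    (h t s2 : Zp) (cv cc : ℕ → ZMod 3) : Prop where
  c0 : 3 ≤ k ∧ 0 < nF ∧ posZ h ∧ posZ s2
  c1 : ∀ F < nF, ∀ j < k, fc F j < nV ∧ nb F j < nF ∧ dot (N F) (P (fc F j)) = h ∧
    cv (fc F j) = cc j
  c2 : ∀ F < nF, ∀ i < nV, posZ (h - dot (N F) (P i)) ∨
    (dot (N F) (P i) = h ∧ ∃ j < k, i = fc F j)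
  c5 : ∀ F < nF, ∀ i < k, ∀ j < k, (dot (N (nb F i)) (P (fc F j)) = h ↔ j = i ∨ j = (i + 1) % k)
  c6 : ∀ F < nF, ∀ G < nF, ∀ i < k, ∀ j < k, ¬ (F ≠ G ∧ i ≠ j ∧ dot (N G) (P (fc F i)) = h ∧
    dot (N G) (P (fc F j)) = h) ∨ (j = (i + 1) % k ∧ G = nb F i) ∨ (i = (j + 1) % k ∧ G = nb F j)
  c7 : ∀ i < nV, (Finset.univ.filter (fun F : Fin nF => dot (N F) (P i) = h)).card = dg
  c8 : ∀ F < nF, ∃ G < nF, N G = - N F
  c9 : ∃ i < nV, ∃ j < nV, P j = - P i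
  c10 : ∀ F < nF, ∀ j < k, P (fc F ((j + 3) % k)) - P (fc F ((j + 2) % k)) =
    sm3 t (P (fc F ((j + 2) % k)) - P (fc F ((j + 1) % k))) - (P (fc F ((j + 1) % k)) - P (fc F j))
  c11 : ∀ F < nF, dot (P (fc F 1) - P (fc F 0)) (P (fc F 1) - P (fc F 0)) = s2 ∧
    dot (P (fc F 2) - P (fc F 1)) (P (fc F 2) - P (fc F 1)) = s2 ∧
    mulZ (2, 0) (dot (P (fc F 1) - P (fc F 0)) (P (fc F 2) - P (fc F 1))) = mulZ t s2
  c13 : ∀ i < nV, ∀ j < nV, P i = P j → i = j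

theorem Chk.solid {k nV nF dg : ℕ} {P : ℕ → Z3} {fc : ℕ → ℕ → ℕ} {N : ℕ → Z3} {nb : ℕ → ℕ → ℕ}
    {h t s2 : Zp} {cv cc : ℕ → ZMod 3} (H : Chk k nV nF dg P fc N nb h t s2 cv cc)
    (ht : ev t = 2 * (zt k).re) (hcc : ∀ j, cc (j % k) = cc j) :
    ∃ s col, IsSolid ((fun i => ev3 (P i)) '' Iio nV) k nF dg s cc col ∧
      ((fun i => ev3 (P i)) '' Iio nV).ncard = nV ∧
      ∀ c, ((fun i => ev3 (P i)) '' Iio nV ∩ {v | col v = c}).ncard =
        ((Finset.range nV).filter (fun i => cv i = c)).card := by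
  obtain ⟨hk, hF, hh, hs⟩ := H.c0
  have hh' := ev_pos hh
  have hs' := ev_pos hs
  have ml : ∀ j, j % k < k := fun j => Nat.mod_lt _ (by omega)
  have inj : InjOn (fun i => ev3 (P i)) (Iio nV) := fun i hi j hj he =>
    H.c13 i hi j hj (ev3_inj he)
  have ch : ∀ F : Fin nF, ∃ ψ : ℂ →ᵃⁱ[ℝ] E3, ∀ j, ψ ((√(ev s2) : ℝ) * cor k j) =
      ev3 (P (fc F (j % k))) := by
    intro F
    obtain ⟨h1, h2, h3⟩ := H.c11 F F.2
    have m0 : 0 % k = 0 := Nat.zero_mod k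
    have m1 : 1 % k = 1 := Nat.mod_eq_of_lt (by omega)
    have m2 : 2 % k = 2 := Nat.mod_eq_of_lt (by omega)
    refine exists_chart hk (Real.sqrt_pos.2 hs') _ ?_ ?_ ?_ fun j => ?_
    · rw [m0, m1, ← ev3_sub, inner_ev3, h1, Real.sq_sqrt hs'.le]
    · rw [m2, m1, ← ev3_sub, inner_ev3, h2, Real.sq_sqrt hs'.le]
    · have := congrArg ev h3
      rw [ev_mul, ev_mul, ht] at this
      rw [m0, m1, m2, ← ev3_sub, ← ev3_sub, inner_ev3, Real.sq_sqrt hs'.le]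
      have e : ev (2, 0) = 2 := by simp [ev]
      rw [e] at this
      linarith
    · have := congrArg ev3 (H.c10 F F.2 _ (ml j))
      simp only [Nat.mod_add_mod] at this
      rwa [ev3_sub, ev3_sub, ev3_sm, ev3_sub, ev3_sub, ht] at this
  choose ψ hψ using ch
  set l : Fin nF → E3 →ᵃ[ℝ] ℝ := fun F => ((ev h)⁻¹ • innerₗ E3 (ev3 (N F))).toAffineMap -
    AffineMap.const ℝ E3 1 with hl
  have l1 : ∀ F x, l F x = (ev h)⁻¹ * ⟪ev3 (N F), x⟫ - 1 := fun F x => rfl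
  have l2 : ∀ F a, l F (ev3 a) = 0 ↔ dot (N F) a = h := by
    intro F a
    rw [l1, inner_ev3, sub_eq_zero, inv_mul_eq_one₀ hh'.ne']
    exact ⟨fun h1 => (ev_inj h1).symm, fun h1 => by rw [h1]⟩
  refine ⟨√(ev s2), fun x => cv (Function.invFunOn (fun i => ev3 (P i)) (Iio nV) x),
    ⟨ψ, l, 0, fun F j => ⟨nb F (j % k), (H.c1 F F.2 _ (ml j)).2.1⟩, hk, Real.sqrt_pos.2 hs',
      (finite_Iio nV).image _, hF, ?_, ?_, ?_, ?_, ?_, ?_, ?_, ?_, ?_, ?_, ?_⟩, ?_, ?_⟩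
  · exact fun F j => ⟨_, (H.c1 F F.2 _ (ml j)).1, (hψ F j).symm⟩
  · rintro F _ ⟨i, hi, rfl⟩
    rcases H.c2 F F.2 i hi with h1 | h1
    · have := ev_pos h1
      rw [ev_sub] at this
      rw [l1, inner_ev3, sub_nonpos, inv_mul_le_iff₀ hh']
      linarith
    · exact ((l2 F _).2 h1.1).le
  · intro F j
    rw [hψ, l2]; exact (H.c1 F F.2 _ (ml j)).2.2.1
  · rintro F _ ⟨i, hi, rfl⟩ h1
    rw [l2] at h1
    rcases H.c2 F F.2 i hi with h2 | ⟨_, j, hj, rfl⟩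
    · rw [h1, sub_self] at h2
      exact absurd h2 (by decide)
    · exact ⟨j, hj, by rw [hψ, Nat.mod_eq_of_lt hj]⟩
  · intro F i hi j hj
    rw [hψ, l2]
    simp only [Nat.mod_eq_of_lt hi, Nat.mod_eq_of_lt hj]
    exact H.c5 F F.2 i hi j hj
  · intro F G h1 i hi j hj h2 h3 h4
    rw [hψ, l2, Nat.mod_eq_of_lt (by assumption)] at h3 h4
    simp only [Fin.ext_iff, Nat.mod_eq_of_lt hi, Nat.mod_eq_of_lt hj]
    exact (H.c6 F F.2 G G.2 i hi j hj).resolve_left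
      (not_not.2 ⟨fun h5 => h1 (Fin.ext h5), h2, h3, h4⟩)
  · rintro _ ⟨i, hi, rfl⟩
    simp only [l2]
    exact H.c7 i hi
  · intro F; simp [l1]
  · obtain ⟨i, hi, j, hj, h1⟩ := H.c9
    have := convex_convexHull ℝ _ (subset_convexHull ℝ ((fun i => ev3 (P i)) '' Iio nV) ⟨i, hi, rfl⟩)
      (subset_convexHull ℝ _ ⟨j, hj, rfl⟩) (a := 1 / 2) (b := 1 / 2) (by norm_num) (by norm_num)
      (by norm_num)
    simpa [h1, ev3_neg] using this
  · intro F
    obtain ⟨G, hG, h1⟩ := H.c8 F F.2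
    exact ⟨⟨G, hG⟩, fun x => by rw [l1, l1, h1, ev3_neg, inner_neg_left]; ring⟩
  · intro F j
    rw [hψ, inj.leftInvOn_invFunOn (H.c1 F F.2 _ (ml j)).1, (H.c1 F F.2 _ (ml j)).2.2.2, hcc]
  · rw [inj.ncard_image]; simp
  · intro c
    rw [← ncard_coe_finset, ← InjOn.ncard_image (f := fun i => ev3 (P i))
      (s := ((Finset.range nV).filter (fun i => cv i = c) : Finset ℕ)) (inj.mono fun i hi => by
        simp only [Finset.coe_filter, Finset.mem_range, mem_ofPred_eq] at hi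
        exact hi.1)]
    congr 1
    ext x
    simp only [Finset.coe_filter, Finset.mem_range, mem_inter_iff, mem_ofPred_eq]
    constructor
    · rintro ⟨⟨i, hi, rfl⟩, h1⟩
      rw [inj.leftInvOn_invFunOn hi] at h1
      exact ⟨i, ⟨hi, h1⟩, rfl⟩
    · rintro ⟨i, ⟨hi, h1⟩, rfl⟩
      exact ⟨⟨i, hi, rfl⟩, by rw [inj.leftInvOn_invFunOn hi]; exact h1⟩

end

end Pool.Agent.Lib.MP_f2d99b_co
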