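import Pool.Agent.Lib.MP_f2d99b_co.Collapse

namespace Pool.Agent.Lib.MP_f2d99b_co

noncomputable section

open Finset

def walkL : List ℂ → ℂ → ℂ
  | [], o => o
  | q :: L, o => walkL L (2 * q - o)

def arL : List ℂ → ℂ → ℝ
  | [], _ => 0
  | q :: L, o => 2 * E o q + arL L (2 * q - o)

lemma walkL_append (L : List ℂ) (q o : ℂ) : walkL (L ++ [q]) o = 2 * q - walkL L o := by
  induction L generalizing o with
  | nil => rfl
  | cons a L ih => simp only [List.cons_append, walkL, ih]

lemma arL_append (L : List ℂ) (q o : ℂ) :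
    arL (L ++ [q]) o = arL L o + 2 * E (walkL L o) q := by
  induction L generalizing o with
  | nil => simp [arL, walkL]
  | cons a L ih => simp only [List.cons_append, arL, walkL, ih]; ring

lemma exists_list {γ : ℕ → ℂ} (hγ : ∀ j, γ j = 1 ∨ γ j = -1) (m : ℕ) :
    ∃ I : List ℕ, I.length = ((range m).filter (fun j => γ j = -1)).card ∧
      ∀ w o, walk w γ 0 m o = walkL (I.map w) o ∧ ar w γ 0 m o = arL (I.map w) o := by
  induction m with
  | zero => exact ⟨[], by simp, fun w o => ⟨rfl, rfl⟩⟩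
  | succ m ih =>
    obtain ⟨I, h1, h2⟩ := ih
    rcases hγ m with h | h
    · refine ⟨I, ?_, fun w o => ?_⟩
      · have : ¬ γ m = -1 := by rw [h]; norm_num
        rw [range_add_one, filter_insert, if_neg this, h1]
      · rw [ar_succ, walk_succ, zero_add, h, rot_one, (h2 w o).1, (h2 w o).2, E_swap (w m)]
        simp
    · refine ⟨I ++ [m], ?_, fun w o => ?_⟩
      · rw [range_add_one, filter_insert, if_pos h, card_insert_of_notMem (by simp)]
        simp [h1]
      · rw [ar_succ, walk_succ, zero_add, h, (h2 w o).1, (h2 w o).2, List.map_append,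
          List.map_singleton, walkL_append, arL_append]
        constructor
        · unfold rot; ring
        · simp only [E, rot, Complex.add_re, Complex.add_im, Complex.mul_re, Complex.mul_im,
            Complex.neg_re, Complex.neg_im, Complex.one_re, Complex.one_im, Complex.sub_re,
            Complex.sub_im]
          ring

variable {K : Subfield ℂ}

lemma half_turns {z γ : ℕ → ℂ} (hγ : ∀ j, γ j = 1 ∨ γ j = -1) {m : ℕ}
    (hc : ((range m).filter (fun j => γ j = -1)).card ≤ 4) (hw : ∀ o, walk z γ 0 m o = o) :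
    ∃ x : ℂ, ∀ φ : ℂ →ₗ[K] ℂ, φ x = 0 → ar (fun j => φ (z j)) γ 0 m 0 = 0 := by
  obtain ⟨I, h1, h2⟩ := exists_list hγ m
  rw [← h1] at hc
  have h0 := hw 0
  have h1' := hw 1
  rw [(h2 _ _).1] at h0 h1'
  match I, hc, h0, h1', h2 with
  | [], _, _, _, h2 => exact ⟨0, fun φ _ => by rw [(h2 _ _).2]; rfl⟩
  | [a], _, h0, h1', _ =>
    simp only [List.map, walkL] at h0 h1'
    exfalso
    have : (2 : ℂ) = 0 := by linear_combination h0 - h1'
    norm_num at this
  | [a, b], _, h0, _, h2 =>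
    refine ⟨z b - z a, fun φ hφ => ?_⟩
    rw [(h2 _ _).2]
    rw [map_sub, sub_eq_zero] at hφ
    simp [arL, hφ, E]
    ring
  | [a, b, c], _, h0, h1', _ =>
    simp only [List.map, walkL] at h0 h1'
    exfalso
    have : (2 : ℂ) = 0 := by linear_combination h0 - h1'
    norm_num at this
  | [a, b, c, d], _, h0, _, h2 =>
    refine ⟨z b - z a, fun φ hφ => ?_⟩
    rw [(h2 _ _).2]
    simp only [List.map, walkL] at h0
    have h3 : z d - z c + (z b - z a) = 0 := by linear_combination h0 / 2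
    have h4 := congrArg φ h3
    rw [map_add, hφ, map_zero, add_zero, map_sub, sub_eq_zero] at h4
    rw [map_sub, sub_eq_zero] at hφ
    simp [arL, hφ, h4, E]
    ring
  | _ :: _ :: _ :: _ :: _ :: _, hc, _, _, _ => simp at hc; omega

def Rpow (R : ℕ → ℕ → Prop) : ℕ → ℕ → ℕ → Prop
  | 0, a, b => a = b
  | n + 1, a, b => ∃ x, R a x ∧ Rpow R n x b

lemma Rpow.rtg {R : ℕ → ℕ → Prop} {n a b : ℕ} (h : Rpow R n a b) : Relation.ReflTransGen R a b := by
  induction n generalizing a with
  | zero => rw [show a = b from h]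
  | succ n ih => obtain ⟨x, h1, h2⟩ := h; exact Relation.ReflTransGen.head h1 (ih h2)

lemma exists_Rpow {R : ℕ → ℕ → Prop} {a b : ℕ} (h : Relation.ReflTransGen R a b) :
    ∃ n, Rpow R n a b := by
  induction h using Relation.ReflTransGen.head_induction_on with
  | refl => exact ⟨0, rfl⟩
  | head h1 _ ih => obtain ⟨n, hn⟩ := ih; exact ⟨n + 1, _, h1, hn⟩

lemma exists_forest (R : ℕ → ℕ → Prop) (hR : ∀ a b, R a b → R b a) :
    ∃ c d : ℕ → ℕ, (∀ a b, c a = c b ↔ Relation.ReflTransGen R a b) ∧ (∀ j, c (c j) = c j) ∧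
      (∀ j, c j ≤ j) ∧ ∀ j, c j ≠ j → ∃ l, R j l ∧ c l = c j ∧ d l < d j := by
  classical
  have hs : ∀ a b, Relation.ReflTransGen R a b → Relation.ReflTransGen R b a :=
    fun a b h => by
      induction h with
      | refl => exact Relation.ReflTransGen.refl
      | tail _ h2 ih => exact Relation.ReflTransGen.head (hR _ _ h2) ih
  have ex : ∀ a, ∃ b, Relation.ReflTransGen R a b := fun a => ⟨a, Relation.ReflTransGen.refl⟩
  set c : ℕ → ℕ := fun a => Nat.find (ex a) with hc
  have hc1 : ∀ a, Relation.ReflTransGen R a (c a) := fun a => Nat.find_spec (ex a)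
  have hc2 : ∀ a b, Relation.ReflTransGen R a b → c a ≤ b := fun a b h => Nat.find_min' (ex a) h
  have hc3 : ∀ a b, c a = c b ↔ Relation.ReflTransGen R a b := by
    intro a b
    constructor
    · intro h; exact (hc1 a).trans (h ▸ hs _ _ (hc1 b))
    · intro h
      exact le_antisymm (hc2 _ _ (h.trans (hc1 b))) (hc2 _ _ ((hs _ _ h).trans (hc1 a)))
  have ex2 : ∀ a, ∃ n, Rpow R n a (c a) := fun a => exists_Rpow (hc1 a)
  refine ⟨c, fun a => Nat.find (ex2 a), hc3, fun j => ((hc3 _ _).2 (hc1 j)).symm,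
    fun j => hc2 _ _ Relation.ReflTransGen.refl, fun j hj => ?_⟩
  have h1 := Nat.find_spec (ex2 j)
  rcases h : Nat.find (ex2 j) with _ | n
  · rw [h] at h1; exact absurd (show j = c j from h1).symm hj
  · rw [h] at h1
    obtain ⟨x, h2, h3⟩ := h1
    have h4 : c x = c j := ((hc3 _ _).2 (Relation.ReflTransGen.single h2)).symm
    refine ⟨x, h2, h4, ?_⟩
    have : Nat.find (ex2 x) ≤ n := Nat.find_min' (ex2 x) (h4 ▸ h3)
    show Nat.find (ex2 x) < Nat.find (ex2 j)
    omega

open Classical in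
lemma prod_closed {m : ℕ} {r : ℕ → ℕ → Prop} (hr : Equivalence r) (g : ℕ → ℂ)
    (hg : ∀ k < m, (∏ l ∈ (range m).filter (fun l => r k l), g l) = 1) (n : ℕ) :
    ∀ Y : Finset ℕ, Y.card = n → Y ⊆ range m → (∀ a ∈ Y, ∀ b < m, r a b → b ∈ Y) →
      ∏ l ∈ Y, g l = 1 := by
  induction n using Nat.strong_induction_on with
  | _ n ih =>
    intro Y hn hY hcl
    rcases Y.eq_empty_or_nonempty with rfl | ⟨k, hk⟩
    · simp
    have hkm : k < m := mem_range.1 (hY hk)
    have hsub : (range m).filter (fun l => r k l) ⊆ Y := by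
      intro l hl
      obtain ⟨h1, h2⟩ := mem_filter.1 hl
      exact hcl k hk l (mem_range.1 h1) h2
    rw [← prod_sdiff hsub, hg k hkm, mul_one]
    refine ih _ ?_ _ rfl (sdiff_subset.trans hY) ?_
    · rw [← hn]
      apply card_lt_card
      refine ⟨sdiff_subset, fun h => ?_⟩
      have := h hk
      simp [hkm, hr.refl] at this
    · intro a ha b hb hab
      obtain ⟨h1, h2⟩ := mem_sdiff.1 ha
      refine mem_sdiff.2 ⟨hcl a h1 b hb hab, fun h3 => h2 ?_⟩
      exact mem_filter.2 ⟨hY h1, hr.trans (mem_filter.1 h3).2 (hr.symm hab)⟩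

/-- The combinatorial data extracted from one folding of the polygon. -/
structure Side (m : ℕ) (z τ α : ℕ → ℂ) (r : ℕ → ℕ → Prop) : Prop where
  equiv : Equivalence r
  nc : NC r
  unit : ∀ j, ‖α j‖ = 1
  off : ∀ j, m ≤ j → α j = 1
  hol : Hol (range m) z α r
  tot : ∀ o, walk z α 0 m o = o
  cls : ∀ k < m, open Classical in
    (∏ l ∈ (range m).filter (fun l => r k l), (τ l / α l) ^ 2) = 1

def Link (m : ℕ) (rA rB : ℕ → ℕ → Prop) (a b : ℕ) : Prop := a < m ∧ b < m ∧ (rA a b ∨ rB a b)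

theorem two_sides {m : ℕ} {z τ α β : ℕ → ℂ} {rA rB : ℕ → ℕ → Prop} (hA : Side m z τ α rA)
    (hB : Side m z τ β rB) (kA : ∀ j, α j ∈ K) (kB : ∀ j, β j ∈ K) :
    ∃ c : ℕ → ℕ, (∀ a b, c a = c b ↔ Relation.ReflTransGen (Link m rA rB) a b) ∧
      (∀ j, (∏ i ∈ (range m).filter (fun i => c i = j), α i / β i) ^ 2 = 1) ∧
      (((range m).filter (fun j => (∏ i ∈ (range m).filter (fun i => c i = j), α i / β i) = -1)).card
        ≤ 4 → ∃ x : ℂ, ∀ φ : ℂ →ₗ[K] ℂ, φ x = 0 → DD m z α β φ = 0) := by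
  obtain ⟨c, d, h1, h2, h3, h4⟩ := exists_forest (Link m rA rB) (by
    rintro a b ⟨ha, hb, h | h⟩
    · exact ⟨hb, ha, Or.inl (hA.equiv.symm h)⟩
    · exact ⟨hb, ha, Or.inr (hB.equiv.symm h)⟩)
  have hα0 : ∀ j, α j ≠ 0 := fun j h0 => by simpa [h0] using hA.unit j
  have hβ0 : ∀ j, β j ≠ 0 := fun j h0 => by simpa [h0] using hB.unit j
  have hsq : ∀ j, (∏ i ∈ (range m).filter (fun i => c i = j), α i / β i) ^ 2 = 1 := by
    intro j
    have e1 := prod_closed hA.equiv _ hA.cls _ ((range m).filter (fun i => c i = j)) rfl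
      (filter_subset _ _) (by
        intro a ha b hb hab
        obtain ⟨h5, h6⟩ := mem_filter.1 ha
        refine mem_filter.2 ⟨mem_range.2 hb, ?_⟩
        rw [← h6]
        exact ((h1 _ _).2 (Relation.ReflTransGen.single ⟨mem_range.1 h5, hb, Or.inl hab⟩)).symm)
    have e2 := prod_closed hB.equiv _ hB.cls _ ((range m).filter (fun i => c i = j)) rfl
      (filter_subset _ _) (by
        intro a ha b hb hab
        obtain ⟨h5, h6⟩ := mem_filter.1 ha
        refine mem_filter.2 ⟨mem_range.2 hb, ?_⟩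
        rw [← h6]
        exact ((h1 _ _).2 (Relation.ReflTransGen.single ⟨mem_range.1 h5, hb, Or.inr hab⟩)).symm)
    have e3 : (∏ i ∈ (range m).filter (fun i => c i = j), α i / β i) ^ 2 *
        ∏ l ∈ (range m).filter (fun i => c i = j), (τ l / α l) ^ 2 =
        ∏ l ∈ (range m).filter (fun i => c i = j), (τ l / β l) ^ 2 := by
      rw [← prod_pow, ← prod_mul_distrib]
      apply prod_congr rfl
      intro i _
      have := hα0 i
      have := hβ0 i
      field_simp
    rw [e1, e2, mul_one] at e3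
    exact e3
  refine ⟨c, h1, hsq, fun hcard => ?_⟩
  obtain ⟨z', γ, h5, h6, h7⟩ := collapse (K := K) hA.equiv hA.nc hB.equiv hB.nc c d h2 _ (range m)
    z α β rfl (fun j hj => mem_range.1 hj)
    ⟨hA.unit, hB.unit, kA, kB, fun o => by rw [hA.tot, hB.tot]⟩ hA.hol hB.hol
    (fun j hj => by
      have : m ≤ j := by simpa using hj
      rw [hA.off j this, hB.off j this, div_one])
    (fun j hj => mem_range.2 ((h3 j).trans_lt (mem_range.1 hj)))
    (fun j _ hj => by
      obtain ⟨l, ⟨_, h6, h7⟩, h8, h9⟩ := h4 j hj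
      exact ⟨l, mem_range.2 h6, h8, h9, h7⟩)
  have hγ : ∀ j, γ j = 1 ∨ γ j = -1 := by
    intro j
    have := hsq j
    rw [← h5] at this
    exact sq_eq_one_iff.1 this
  obtain ⟨x, hx⟩ := half_turns (K := K) hγ (by simpa only [h5] using hcard) h6
  exact ⟨x, fun φ hφ => by rw [h7, hx φ hφ]⟩

lemma prod_eq_pow {α : ℕ → ℂ} {χ : ℂ} (h : ∀ j, α j = 1 ∨ α j = χ) (Y : Finset ℕ) :
    ∏ i ∈ Y, α i = χ ^ (Y.filter (fun i => α i ≠ 1)).card := by
  rw [← prod_filter_mul_prod_filter_not Y (fun i => α i ≠ 1)]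
  rw [prod_eq_one (s := Y.filter (fun i => ¬ α i ≠ 1)), mul_one, ← prod_const]
  · apply prod_congr rfl
    intro i hi
    exact (h i).resolve_left (mem_filter.1 hi).2
  · intro i hi
    simpa using (mem_filter.1 hi).2

lemma card_le_four {m p : ℕ} (hp : 0 < p) (c : ℕ → ℕ) (q : ℕ → Prop) [DecidablePred q]
    (hq : ((range m).filter q).card = 4 * p) (J : Finset ℕ)
    (hJ : ∀ j ∈ J, p ≤ (((range m).filter (fun i => c i = j)).filter q).card) : J.card ≤ 4 := by
  have h1 : J.card * p ≤ ∑ j ∈ J, (((range m).filter (fun i => c i = j)).filter q).card := by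
    rw [← smul_eq_mul, ← sum_const]
    exact sum_le_sum hJ
  have h2 : ∑ j ∈ J, (((range m).filter (fun i => c i = j)).filter q).card ≤
      ((range m).filter q).card := by
    rw [← card_biUnion]
    · apply card_le_card
      intro i hi
      simp only [mem_biUnion, mem_filter] at hi ⊢
      obtain ⟨j, _, ⟨h3, _⟩, h5⟩ := hi
      exact ⟨h3, h5⟩
    · intro a _ b _ hab
      rw [Function.onFun, disjoint_left]
      intro i h3 h4
      simp only [mem_filter] at h3 h4
      exact hab (h3.1.2.symm.trans h4.1.2)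
  have : J.card * p ≤ 4 * p := by omega
  exact Nat.le_of_mul_le_mul_right this hp

end

end Pool.Agent.Lib.MP_f2d99b_co
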