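import Pool.Agent.Lib.MP_f2d99b_co.Walk

namespace Pool.Agent.Lib.MP_f2d99b_co

noncomputable section

def Hol (S : Finset ℕ) (z α : ℕ → ℂ) (r : ℕ → ℕ → Prop) : Prop :=
  ∀ a ∈ S, ∀ b ∈ S, a ≤ b → r a b → walk z α a (b - a) (z a) = z b

def NC (r : ℕ → ℕ → Prop) : Prop :=
  ∀ a b c d, a < b → b < c → c < d → r a c → r b d → r a b

lemma Hol.flip {S : Finset ℕ} {z α : ℕ → ℂ} {r : ℕ → ℕ → Prop} (h : Hol S z α r) (k : ℕ)
    (γ : ℂ) : Hol S (flipz z k γ) (flipa α k γ) r := by
  intro a ha b hb hab hr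
  have h0 := h a ha b hb hab hr
  by_cases h1 : b ≤ k
  · rw [walk_flip_before z α k γ (by omega)]
    have : ¬ k < a := by omega
    have : ¬ k < b := by omega
    simp [flipz, *]
  · by_cases h2 : a ≤ k
    · rw [walk_flip_through z α k γ h2 (by omega)]
      have : ¬ k < a := by omega
      have : k < b := by omega
      simp [flipz, *]
    · have h3 : k < a := by omega
      have h4 : k < b := by omega
      have e1 : flipz z k γ a = rot (z k) γ (z a) := by simp [flipz, h3]
      have e2 : flipz z k γ b = rot (z k) γ (z b) := by simp [flipz, h4]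
      rw [e1, e2, walk_flip_after z α k γ _ h3, h0]

lemma Hol.mono {S S' : Finset ℕ} {z α : ℕ → ℂ} {r : ℕ → ℕ → Prop} (h : Hol S z α r)
    (hS : S' ⊆ S) : Hol S' z α r := fun a ha b hb => h a (hS ha) b (hS hb)

lemma walk_fix {z α α' : ℕ → ℂ} {a b p : ℕ} (h1 : a ≤ p) (h2 : p < b)
    (h : ∀ j, a ≤ j → j < b → j ≠ p → α' j = α j) (hp : walk z α a (p - a) (z a) = z p) :
    walk z α' a (b - a) (z a) = walk z α a (b - a) (z a) := by
  obtain ⟨n, rfl⟩ := Nat.exists_eq_add_of_le h1
  obtain ⟨q, rfl⟩ : ∃ q, b = a + (n + 1 + q) := ⟨b - (a + n + 1), by omega⟩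
  rw [Nat.add_sub_cancel_left] at *
  have c1 : walk z α' a n (z a) = walk z α a n (z a) :=
    walk_congr (fun j h3 h4 => ⟨h j h3 (by omega) (by omega), fun _ => rfl⟩) _
  rw [walk_add, walk_add z α, walk_succ, walk_succ, c1, hp, rot_self, rot_self]
  exact walk_congr (fun j h3 h4 => ⟨h j (by omega) (by omega) (by omega), fun _ => rfl⟩) _

lemma slide_cover (z β : ℕ → ℂ) {k l : ℕ} (hkl : k ≠ l)
    (h : walk z β (min k l) (max k l - min k l) (z (min k l)) = z (max k l))
    {i n : ℕ} (hi : i ≤ min k l) (hn : max k l < i + n) (o : ℂ) :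
    walk z (slide β k l) i n o = walk z β i n o ∧
    ((∀ j, ‖β j‖ = 1) → ar z (slide β k l) i n o = ar z β i n o) := by
  have key : ∀ o, walk z (slide β k l) (min k l) (max k l - min k l + 1) o =
      walk z β (min k l) (max k l - min k l + 1) o ∧ ((∀ j, ‖β j‖ = 1) →
      ar z (slide β k l) (min k l) (max k l - min k l + 1) o =
      ar z β (min k l) (max k l - min k l + 1) o) := by
    intro o
    rcases lt_or_gt_of_ne hkl with h1 | h1
    · rw [min_eq_left h1.le, max_eq_right h1.le] at *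
      exact walk_slide_fwd z β h1 h o
    · rw [min_eq_right h1.le, max_eq_left h1.le] at *
      exact walk_slide_bwd z β h1 h o
  obtain ⟨a, ha⟩ := Nat.exists_eq_add_of_le hi
  obtain ⟨q, hq⟩ : ∃ q, n = a + (max k l - min k l + 1) + q :=
    ⟨n - (a + (max k l - min k l + 1)), by omega⟩
  have c1 : ∀ j, i ≤ j → j < i + a → slide β k l j = β j ∧ (slide β k l j ≠ 1 → z j = z j) := by
    intro j h1 h2
    have h3 : j ≠ k := by omega
    have h4 : j ≠ l := by omega
    simp [slide, h3, h4]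
  have c2 : ∀ j, i + (a + (max k l - min k l + 1)) ≤ j →
      j < i + (a + (max k l - min k l + 1)) + q →
      slide β k l j = β j ∧ (slide β k l j ≠ 1 → z j = z j) := by
    intro j h1 h2
    have h3 : j ≠ k := by omega
    have h4 : j ≠ l := by omega
    simp [slide, h3, h4]
  have hw : walk z (slide β k l) i (a + (max k l - min k l + 1)) o =
      walk z β i (a + (max k l - min k l + 1)) o := by
    rw [walk_add, walk_add z β i a, walk_congr c1, ← ha, (key _).1]
  rw [hq]
  refine ⟨?_, fun hβ => ?_⟩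
  · rw [walk_add, walk_add z β i _ q, hw, walk_congr c2]
  · rw [ar_add, ar_add z β i _ q, hw, ar_congr c2, ar_add, ar_add z β i a, ar_congr c1,
      walk_congr c1, ← ha, (key _).2 hβ]

lemma Hol.minmax {S : Finset ℕ} {z β : ℕ → ℂ} {r : ℕ → ℕ → Prop} (h : Hol S z β r)
    (hr : Equivalence r) {k l : ℕ} (hk : k ∈ S) (hl : l ∈ S) (hkl : r k l) :
    walk z β (min k l) (max k l - min k l) (z (min k l)) = z (max k l) := by
  rcases le_total k l with h1 | h1
  · rw [min_eq_left h1, max_eq_right h1]; exact h k hk l hl h1 hkl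
  · rw [min_eq_right h1, max_eq_left h1]; exact h l hl k hk h1 (hr.symm hkl)

lemma Hol.slide {S : Finset ℕ} {z β : ℕ → ℂ} {r : ℕ → ℕ → Prop} (h : Hol S z β r)
    (hr : Equivalence r) (hnc : NC r) {k l : ℕ} (hk : k ∈ S) (hl : l ∈ S) (hne : k ≠ l)
    (hkl : r k l) : Hol (S.erase k) z (slide β k l) r := by
  intro a ha b hb hab hrab
  obtain ⟨hak, ha⟩ := Finset.mem_erase.1 ha
  obtain ⟨hbk, hb⟩ := Finset.mem_erase.1 hb
  rw [← h a ha b hb hab hrab]
  by_cases h1 : a ≤ k ∧ k < b
  · by_cases h2 : a ≤ l ∧ l < b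
    · exact (slide_cover z β hne (h.minmax hr hk hl hkl) (by omega) (by omega) _).1
    · have hak' : r a k := by
        rcases lt_trichotomy l b with h3 | h3 | h3
        · have h4 : l < a := by omega
          exact hr.trans (hr.symm (hnc l a k b h4 (by omega) h1.2 (hr.symm hkl) hrab))
            (hr.symm hkl)
        · rw [h3] at hkl; exact hr.trans hrab (hr.symm hkl)
        · exact hnc a k b l (by omega) h1.2 h3 hrab hkl
      apply walk_fix h1.1 h1.2 _ (h a ha k hk h1.1 hak')
      intro j h3 h4 h5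
      have : j ≠ l := by omega
      simp [MP_f2d99b_co.slide, *]
  · by_cases h2 : a ≤ l ∧ l < b
    · have hal : r a l := by
        rcases h2.1.lt_or_eq with h3 | h3
        · rcases lt_or_gt_of_ne hak with h4 | h4
          · exact hnc a l b k h3 h2.2 (by omega) hrab (hr.symm hkl)
          · exact hr.trans (hr.symm (hnc k a l b h4 h3 h2.2 hkl hrab)) hkl
        · rw [h3]; exact hr.refl _
      apply walk_fix h2.1 h2.2 _ (h a ha l hl h2.1 hal)
      intro j h3 h4 h5
      have : j ≠ k := by omega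
      simp [MP_f2d99b_co.slide, *]
    · apply walk_congr
      intro j h3 h4
      have : j ≠ k := by omega
      have : j ≠ l := by omega
      simp [MP_f2d99b_co.slide, *]

variable {K : Subfield ℂ}

structure St0 (K : Subfield ℂ) (m : ℕ) (z α β : ℕ → ℂ) : Prop where
  uA : ∀ j, ‖α j‖ = 1
  uB : ∀ j, ‖β j‖ = 1
  kA : ∀ j, α j ∈ K
  kB : ∀ j, β j ∈ K
  tot : ∀ o, walk z α 0 m o = walk z β 0 m o

def DD (m : ℕ) (z α β : ℕ → ℂ) (φ : ℂ →ₗ[K] ℂ) : ℝ :=
  ar (fun j => φ (z j)) α 0 m 0 - ar (fun j => φ (z j)) β 0 m 0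

lemma St0.symm {m : ℕ} {z α β : ℕ → ℂ} (h : St0 K m z α β) : St0 K m z β α :=
  ⟨h.uB, h.uA, h.kB, h.kA, fun o => (h.tot o).symm⟩

lemma DD_symm (m : ℕ) (z α β : ℕ → ℂ) (φ : ℂ →ₗ[K] ℂ) : DD m z β α φ = - DD m z α β φ := by
  unfold DD; ring

lemma St0.flip {m : ℕ} {z α β : ℕ → ℂ} (h : St0 K m z α β) {k : ℕ} (hk : k < m) {γ : ℂ}
    (hγ : ‖γ‖ = 1) (hγK : γ ∈ K) :
    St0 K m (flipz z k γ) (flipa α k γ) (flipa β k γ) ∧
      ∀ φ : ℂ →ₗ[K] ℂ, DD m (flipz z k γ) (flipa α k γ) (flipa β k γ) φ = DD m z α β φ := by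
  refine ⟨⟨?_, ?_, ?_, ?_, ?_⟩, ?_⟩
  · intro j; unfold flipa; split_ifs <;> simp [hγ, h.uA]
  · intro j; unfold flipa; split_ifs <;> simp [hγ, h.uB]
  · intro j; unfold flipa; split_ifs
    · exact K.mul_mem hγK (h.kA j)
    · exact h.kA j
  · intro j; unfold flipa; split_ifs
    · exact K.mul_mem hγK (h.kB j)
    · exact h.kB j
  · intro o
    rw [walk_flip_through z α k γ (Nat.zero_le _) (by omega),
      walk_flip_through z β k γ (Nat.zero_le _) (by omega), h.tot]
  · intro φ
    have e : (fun j => φ (flipz z k γ j)) = flipz (fun j => φ (z j)) k γ := by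
      funext j; unfold flipz; split_ifs
      · exact map_rot φ hγK _ _
      · rfl
    have e2 : walk (fun j => φ (z j)) α 0 m 0 = walk (fun j => φ (z j)) β 0 m 0 := by
      have h1 := map_walk φ (z := z) h.kA 0 m 0
      have h2 := map_walk φ (z := z) h.kB 0 m 0
      rw [map_zero] at h1 h2
      rw [← h1, ← h2, h.tot]
    unfold DD
    rw [e, ar_flip _ _ k hγ hk, ar_flip _ _ k hγ hk, e2]
    ring

lemma step_B {m : ℕ} {rA rB : ℕ → ℕ → Prop} (hrB : Equivalence rB) (hnc : NC rB)
    {S : Finset ℕ} (hS : ∀ j ∈ S, j < m) {z α β : ℕ → ℂ} (h : St0 K m z α β)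
    (hA : Hol S z α rA) (hB : Hol S z β rB) {k l : ℕ} (hk : k ∈ S) (hl : l ∈ S) (hne : k ≠ l)
    (hkl : rB k l) :
    ∃ z' α' β' : ℕ → ℂ, St0 K m z' α' β' ∧ Hol (S.erase k) z' α' rA ∧ Hol (S.erase k) z' β' rB ∧
      (∀ φ : ℂ →ₗ[K] ℂ, DD m z' α' β' φ = DD m z α β φ) ∧
      ∀ j, α' j / β' j = if j = k then 1 else if j = l then α l / β l * (α k / β k)
        else α j / β j := by
  have hα0 : ∀ j, α j ≠ 0 := fun j h0 => by simpa [h0] using h.uA j
  have hβ0 : ∀ j, β j ≠ 0 := fun j h0 => by simpa [h0] using h.uB j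
  have hγ : ‖(α k)⁻¹‖ = 1 := by simp [h.uA]
  obtain ⟨h1, h2⟩ := h.flip (hS k hk) hγ (K.inv_mem (h.kA k))
  have hB1 := hB.flip k (α k)⁻¹
  have hmm := hB1.minmax hrB hk hl hkl
  have hm1 : max k l < 0 + m := by
    have := hS k hk; have := hS l hl; omega
  refine ⟨flipz z k (α k)⁻¹, flipa α k (α k)⁻¹, slide (flipa β k (α k)⁻¹) k l, ⟨h1.uA, ?_, h1.kA,
    ?_, ?_⟩, (hA.flip k _).mono (Finset.erase_subset _ _), hB1.slide hrB hnc hk hl hne hkl, ?_, ?_⟩
  · intro j; unfold slide; split_ifs <;> simp [h1.uB]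
  · intro j; unfold slide; split_ifs
    · exact K.one_mem
    · exact K.mul_mem (h1.kB _) (h1.kB _)
    · exact h1.kB _
  · intro o
    rw [h1.tot, (slide_cover _ _ hne hmm (Nat.zero_le _) hm1 o).1]
  · intro φ
    rw [← h2 φ]
    unfold DD
    have hmm' := congrArg φ hmm
    rw [map_walk φ h1.kB] at hmm'
    rw [(slide_cover (fun j => φ (flipz z k (α k)⁻¹ j)) _ hne hmm' (Nat.zero_le _) hm1 0).2 h1.uB]
  · intro j
    have := hα0 k
    have := hβ0 k
    have := hβ0 l
    by_cases h3 : j = k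
    · subst h3; simp only [slide, flipa, if_true]; field_simp
    · by_cases h4 : j = l
      · subst h4; simp only [slide, flipa, h3, if_true, if_false]; field_simp
      · simp only [slide, flipa, h3, h4, if_false]

lemma fin_flip {m : ℕ} {z α β : ℕ → ℂ} (h : St0 K m z α β) (i : ℕ) (hi : i ≤ m) :
    ∃ z' : ℕ → ℂ, St0 K m z' (fun j => if j < i then α j / β j else α j)
      (fun j => if j < i then 1 else β j) ∧
      ∀ φ : ℂ →ₗ[K] ℂ, DD m z' (fun j => if j < i then α j / β j else α j)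
        (fun j => if j < i then 1 else β j) φ = DD m z α β φ := by
  induction i with
  | zero => exact ⟨z, by simpa using h, fun φ => by simp⟩
  | succ i ih =>
    obtain ⟨z', h1, h2⟩ := ih (by omega)
    have hβ0 : β i ≠ 0 := fun h0 => by simpa [h0] using h.uB i
    obtain ⟨h3, h4⟩ := h1.flip (k := i) (by omega) (γ := (β i)⁻¹) (by simp [h.uB])
      (K.inv_mem (h.kB i))
    have e1 : flipa (fun j => if j < i then α j / β j else α j) i (β i)⁻¹ =
        fun j => if j < i + 1 then α j / β j else α j := by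
      funext j; unfold flipa
      by_cases h5 : j = i
      · subst h5; simp; field_simp
      · by_cases h6 : j < i
        · have : j < i + 1 := by omega
          simp [*]
        · have : ¬ j < i + 1 := by omega
          simp [*]
    have e2 : flipa (fun j => if j < i then 1 else β j) i (β i)⁻¹ =
        fun j => if j < i + 1 then 1 else β j := by
      funext j; unfold flipa
      by_cases h5 : j = i
      · subst h5; simp; field_simp
      · by_cases h6 : j < i
        · have : j < i + 1 := by omega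
          simp [*]
        · have : ¬ j < i + 1 := by omega
          simp [*]
    rw [e1, e2] at h3 h4
    exact ⟨_, h3, fun φ => (h4 φ).trans (h2 φ)⟩

lemma walk_ones (z : ℕ → ℂ) {α : ℕ → ℂ} {k n : ℕ} (h : ∀ j, k ≤ j → j < k + n → α j = 1) (o : ℂ) :
    walk z α k n o = o ∧ ar z α k n o = 0 := by
  induction n with
  | zero => simp
  | succ n ih =>
    obtain ⟨h1, h2⟩ := ih (fun j h1 h2 => h j h1 (by omega))
    rw [ar_succ, walk_succ, h1, h2, h (k + n) (by omega) (by omega), rot_one, E_swap o]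
    simp

lemma fin_form {m : ℕ} {z α β : ℕ → ℂ} (h : St0 K m z α β) :
    ∃ z' : ℕ → ℂ, (∀ o, walk z' (fun j => α j / β j) 0 m o = o) ∧
      ∀ φ : ℂ →ₗ[K] ℂ, DD m z α β φ = ar (fun j => φ (z' j)) (fun j => α j / β j) 0 m 0 := by
  obtain ⟨z', h1, h2⟩ := fin_flip h m le_rfl
  have c1 : ∀ (w : ℕ → ℂ) j, 0 ≤ j → j < 0 + m → (if j < m then α j / β j else α j) = α j / β j ∧
      ((if j < m then α j / β j else α j) ≠ 1 → w j = w j) := by
    intro w j _ h4
    have : j < m := by omega
    simp [this]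
  have c2 : ∀ j, 0 ≤ j → j < 0 + m → (if j < m then (1 : ℂ) else β j) = 1 := by
    intro j _ h4
    have : j < m := by omega
    simp [this]
  refine ⟨z', fun o => ?_, fun φ => ?_⟩
  · rw [← walk_congr (c1 z'), h1.tot, (walk_ones z' c2 o).1]
  · rw [← h2 φ]; unfold DD
    rw [(walk_ones _ c2 0).2, ar_congr (c1 _), sub_zero]

theorem collapse {m : ℕ} {rA rB : ℕ → ℕ → Prop} (hrA : Equivalence rA) (hncA : NC rA)
    (hrB : Equivalence rB) (hncB : NC rB) (c d : ℕ → ℕ) (hcc : ∀ j, c (c j) = c j) (n : ℕ) :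
    ∀ (S : Finset ℕ) (z α β : ℕ → ℂ), (S.filter (fun j => c j ≠ j)).card = n →
    (∀ j ∈ S, j < m) → St0 K m z α β → Hol S z α rA → Hol S z β rB →
    (∀ j ∉ S, α j / β j = 1) → (∀ j ∈ S, c j ∈ S) →
    (∀ j ∈ S, c j ≠ j → ∃ l ∈ S, c l = c j ∧ d l < d j ∧ (rA j l ∨ rB j l)) →
    ∃ z' γ : ℕ → ℂ, (∀ j, γ j = ∏ i ∈ S.filter (fun i => c i = j), α i / β i) ∧
      (∀ o, walk z' γ 0 m o = o) ∧
      ∀ φ : ℂ →ₗ[K] ℂ, DD m z α β φ = ar (fun j => φ (z' j)) γ 0 m 0 := by
  induction n with
  | zero =>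
    intro S z α β hn hS h hA hB hoff hc hpar
    obtain ⟨z', h1, h2⟩ := fin_form h
    refine ⟨z', _, fun j => ?_, h1, h2⟩
    have hall : ∀ i ∈ S, c i = i := by
      intro i hi
      by_contra h3
      have : i ∈ S.filter (fun j => c j ≠ j) := Finset.mem_filter.2 ⟨hi, h3⟩
      rw [Finset.card_eq_zero.1 hn] at this
      simp at this
    by_cases hj : j ∈ S
    · have : S.filter (fun i => c i = j) = {j} := by
        ext i
        simp only [Finset.mem_filter, Finset.mem_singleton]
        constructor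
        · rintro ⟨h3, h4⟩; rw [← h4, hall i h3]
        · rintro rfl; exact ⟨hj, hall _ hj⟩
      rw [this, Finset.prod_singleton]
    · have : S.filter (fun i => c i = j) = ∅ := by
        ext i
        simp only [Finset.mem_filter, Finset.notMem_empty, iff_false, not_and]
        intro h3 h4
        rw [hall i h3] at h4
        exact hj (h4 ▸ h3)
      rw [this, Finset.prod_empty, hoff j hj]
  | succ n ih =>
    intro S z α β hn hS h hA hB hoff hc hpar
    have hne : (S.filter (fun j => c j ≠ j)).Nonempty := by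
      rw [← Finset.card_pos]; omega
    obtain ⟨k, hk, hmax⟩ := Finset.exists_max_image _ d hne
    obtain ⟨hkS, hkc⟩ := Finset.mem_filter.1 hk
    obtain ⟨l, hlS, hlc, hld, hkl⟩ := hpar k hkS hkc
    have hne' : k ≠ l := by rintro rfl; omega
    have hstep : ∃ z' α' β' : ℕ → ℂ, St0 K m z' α' β' ∧ Hol (S.erase k) z' α' rA ∧
        Hol (S.erase k) z' β' rB ∧ (∀ φ : ℂ →ₗ[K] ℂ, DD m z' α' β' φ = DD m z α β φ) ∧
        ∀ j, α' j / β' j = if j = k then 1 else if j = l then α l / β l * (α k / β k)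
          else α j / β j := by
      rcases hkl with hkl | hkl
      · obtain ⟨z', β', α', h1, h2, h3, h4, h5⟩ :=
          step_B hrA hncA hS h.symm hB hA hkS hlS hne' hkl
        refine ⟨z', α', β', h1.symm, h3, h2, fun φ => ?_, fun j => ?_⟩
        · rw [DD_symm, h4, DD_symm, neg_neg]
        · rw [← inv_div, h5]
          split_ifs <;> simp [mul_comm]
      · exact step_B hrB hncB hS h hA hB hkS hlS hne' hkl
    obtain ⟨z', α', β', h1, h2, h3, h4, h5⟩ := hstep
    have hcard : ((S.erase k).filter (fun j => c j ≠ j)).card = n := by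
      rw [Finset.filter_erase, Finset.card_erase_of_mem hk]; omega
    have g1 : ∀ j ∉ S.erase k, α' j / β' j = 1 := by
      intro j hj
      rw [h5]
      by_cases h9 : j = k
      · rw [if_pos h9]
      · have h10 : j ∉ S := fun h11 => hj (Finset.mem_erase.2 ⟨h9, h11⟩)
        have h11 : j ≠ l := by rintro rfl; exact h10 hlS
        rw [if_neg h9, if_neg h11, hoff j h10]
    have g2 : ∀ j ∈ S.erase k, c j ∈ S.erase k := by
      intro j hj
      refine Finset.mem_erase.2 ⟨fun h9 => hkc ?_, hc j (Finset.mem_of_mem_erase hj)⟩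
      rw [← h9, hcc]
    have g3 : ∀ j ∈ S.erase k, c j ≠ j → ∃ l ∈ S.erase k, c l = c j ∧ d l < d j ∧
        (rA j l ∨ rB j l) := by
      intro j hj hjc
      have hjS := Finset.mem_of_mem_erase hj
      obtain ⟨l', h9, h10, h11, h12⟩ := hpar j hjS hjc
      refine ⟨l', Finset.mem_erase.2 ⟨fun h13 => ?_, h9⟩, h10, h11, h12⟩
      have := hmax j (Finset.mem_filter.2 ⟨hjS, hjc⟩)
      rw [h13] at h11
      omega
    obtain ⟨z'', γ, h6, h7, h8⟩ := ih (S.erase k) z' α' β' hcard
      (fun j hj => hS j (Finset.mem_of_mem_erase hj)) h1 h2 h3 g1 g2 g3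
    · refine ⟨z'', γ, fun j => ?_, h7, fun φ => by rw [← h4, h8]⟩
      rw [h6, Finset.filter_erase]
      by_cases hj : c k = j
      · have hkm : k ∈ S.filter (fun i => c i = j) := Finset.mem_filter.2 ⟨hkS, hj⟩
        have hlm : l ∈ (S.filter (fun i => c i = j)).erase k :=
          Finset.mem_erase.2 ⟨hne'.symm, Finset.mem_filter.2 ⟨hlS, hlc.trans hj⟩⟩
        rw [← Finset.mul_prod_erase _ _ hkm, ← Finset.mul_prod_erase _ _ hlm,
          ← Finset.mul_prod_erase _ (fun i => α i / β i) hlm, h5, if_neg hne'.symm, if_pos rfl]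
        rw [Finset.prod_congr rfl (g := fun i => α i / β i)]
        · ring
        · intro i hi
          have h9 := (Finset.mem_erase.1 hi).1
          have h10 := (Finset.mem_erase.1 (Finset.mem_erase.1 hi).2).1
          rw [h5, if_neg h10, if_neg h9]
      · have hkm : k ∉ S.filter (fun i => c i = j) := fun h9 => hj (Finset.mem_filter.1 h9).2
        rw [Finset.erase_eq_of_notMem hkm]
        apply Finset.prod_congr rfl
        intro i hi
        have h9 := (Finset.mem_filter.1 hi).2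
        have h10 : i ≠ k := by rintro rfl; exact hj h9
        have h11 : i ≠ l := by rintro rfl; exact hj (hlc.symm.trans h9)
        rw [h5, if_neg h10, if_neg h11]

end

end Pool.Agent.Lib.MP_f2d99b_co
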