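import Pool.Agent.Lib.MP_f2d99b_co.Final

namespace Pool.Agent.Lib.MP_f2d99b_co

noncomputable section

open Finset Complex

/-- Unit direction of edge number `k`. -/
def dir (w : ℕ → ℂ) (k : ℕ) : ℂ := (w (k + 1) - w k) / (‖w (k + 1) - w k‖ : ℝ)

/-- Index of the previous edge. -/
def prv (M k : ℕ) : ℕ := if k = 0 then M - 1 else k - 1

/-- Turning unit at vertex number `k`. -/
def turn (M : ℕ) (w : ℕ → ℂ) (k : ℕ) : ℂ := dir w k / dir w (prv M k)

lemma norm_dir {w : ℕ → ℂ} {k : ℕ} (h : w (k + 1) ≠ w k) : ‖dir w k‖ = 1 := by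
  have : ‖w (k + 1) - w k‖ ≠ 0 := by simpa [sub_eq_zero] using h
  simp [dir, this]

lemma dir_ne {w : ℕ → ℂ} {k : ℕ} (h : w (k + 1) ≠ w k) : dir w k ≠ 0 := by
  intro h0
  simpa [h0] using norm_dir h

lemma dir_mul {w : ℕ → ℂ} {k : ℕ} (h : w (k + 1) ≠ w k) :
    w (k + 1) - w k = (‖w (k + 1) - w k‖ : ℝ) * dir w k := by
  have : ((‖w (k + 1) - w k‖ : ℝ) : ℂ) ≠ 0 := by simpa [sub_eq_zero] using h
  unfold dir; field_simp

/-- The edge gluing of a finely subdivided boundary. -/
structure Glue {X : Type} (M : ℕ) (w : ℕ → ℂ) (π : ℕ → ℕ) (p : ℕ → X) : Prop where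
  pos : 0 < M
  close : w M = w 0
  ne : ∀ k < M, w (k + 1) ≠ w k
  lt : ∀ k < M, π k < M
  inv : ∀ k < M, π (π k) = k
  nfix : ∀ k < M, π k ≠ k
  len : ∀ k < M, ‖w (π k + 1) - w (π k)‖ = ‖w (k + 1) - w k‖
  pM : p M = p 0
  p1 : ∀ k < M, p (π k) = p (k + 1)
  sep : ∀ k < M, k < π k → ∀ a b, k < a → a ≤ π k → b ≤ M → (b ≤ k ∨ π k < b) → p a ≠ p b

namespace Glue

variable {X : Type} {M : ℕ} {w : ℕ → ℂ} {π : ℕ → ℕ} {p : ℕ → X}

lemma p2 (h : Glue M w π p) {k : ℕ} (hk : k < M) : p (π k + 1) = p k := by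
  have := h.p1 _ (h.lt k hk)
  rw [h.inv k hk] at this
  exact this.symm

lemma closed_of_eq (h : Glue M w π p) {a b : ℕ} (hb : b ≤ M) (he : p a = p b) {l : ℕ}
    (h1 : a ≤ l) (h2 : l < b) : a ≤ π l ∧ π l < b := by
  have hl : l < M := by omega
  have h3 := h.lt l hl
  have h4 := h.nfix l hl
  by_contra h5
  rcases lt_or_gt_of_ne h4 with h6 | h6
  · have h7 := h.sep (π l) h3 (by rw [h.inv l hl]; exact h6) a b (by omega)
      (by rw [h.inv l hl]; exact h1) hb (by rw [h.inv l hl]; omega)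
    exact h7 he
  · exact h.sep l hl h6 b a h2 (by omega) (by omega) (by omega) he.symm

lemma eq_of_closed (h : Glue M w π p) (n : ℕ) : ∀ a b, b - a = n → a ≤ b → b ≤ M →
    (∀ l, a ≤ l → l < b → a ≤ π l ∧ π l < b) → p a = p b := by
  induction n using Nat.strong_induction_on with
  | _ n ih =>
    intro a b hn hab hb hc
    rcases eq_or_lt_of_le hab with rfl | hlt
    · rfl
    have ha : a < M := by omega
    obtain ⟨h1, h2⟩ := hc a le_rfl hlt
    have h3 := h.nfix a ha
    rw [← h.p2 ha]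
    refine ih _ (by omega) (π a + 1) b rfl (by omega) hb (fun l h4 h5 => ?_)
    have hl : l < M := by omega
    obtain ⟨h6, h7⟩ := hc l (by omega) h5
    refine ⟨?_, h7⟩
    by_contra h8
    have h9 := h.closed_of_eq (a := a) (b := π a + 1) (by omega) (h.p2 ha).symm h6 (by omega)
    rw [h.inv l hl] at h9
    omega

lemma nc (h : Glue M w π p) {a b c d : ℕ} (h1 : a < b) (h2 : b < c) (h3 : c < d) (hd : d ≤ M)
    (hac : p a = p c) (hbd : p b = p d) : p a = p b := by
  refine h.eq_of_closed _ a b rfl h1.le (by omega) (fun l h4 h5 => ?_)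
  obtain ⟨h6, h7⟩ := h.closed_of_eq (by omega) hac h4 (by omega)
  refine ⟨h6, ?_⟩
  by_contra h8
  have := h.closed_of_eq hd hbd (l := π l) (by omega) (by omega)
  rw [h.inv l (by omega)] at this
  omega

lemma sum_zero (h : Glue M w π p) {a b : ℕ} (hb : b ≤ M) (he : p a = p b) {G : Type}
    [AddCommGroup G] (g : ℕ → G) (hg : ∀ k < M, g k + g (π k) = 0) : ∑ l ∈ Ico a b, g l = 0 := by
  refine sum_involution (fun l _ => π l) (fun l hl => hg l ?_) (fun l hl _ => h.nfix l ?_)
    (fun l hl => ?_) (fun l hl => h.inv l ?_)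
  all_goals obtain ⟨h1, h2⟩ := mem_Ico.1 hl
  · omega
  · omega
  · exact mem_Ico.2 (h.closed_of_eq hb he h1 h2)
  · omega

lemma neg_one_pow (h : Glue M w π p) {a b : ℕ} (hb : b ≤ M) (he : p a = p b) :
    (-1 : ℂ) ^ (b - a) = 1 := by
  rw [← Nat.card_Ico, ← prod_const]
  refine prod_involution (fun l _ => π l) (fun l hl => by norm_num) (fun l hl _ => h.nfix l ?_)
    (fun l hl => ?_) (fun l hl => h.inv l ?_)
  all_goals obtain ⟨h1, h2⟩ := mem_Ico.1 hl
  · omega
  · exact mem_Ico.2 (h.closed_of_eq hb he h1 h2)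
  · omega

lemma prod_turn (h : Glue M w π p) (k n : ℕ) (hk : k + n < M) :
    ∏ l ∈ Ico (k + 1) (k + 1 + n), turn M w l = dir w (k + n) / dir w k := by
  induction n with
  | zero => simp [dir_ne (h.ne k hk)]
  | succ n ih =>
    rw [← add_assoc, prod_Ico_succ_top (by omega), ih (by omega)]
    have e1 : prv M (k + 1 + n) = k + n := by unfold prv; split_ifs <;> omega
    have e2 : k + 1 + n = k + (n + 1) := by omega
    have := dir_ne (h.ne (k + n) (by omega))
    have := dir_ne (h.ne k (by omega))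
    rw [turn, e1, e2]
    field_simp

end Glue

open Classical in
/-- The angle condition at every glued point. -/
def Ang {X : Type} (M : ℕ) (w : ℕ → ℂ) (p : ℕ → X) (α : ℕ → ℂ) : Prop :=
  ∀ a < M, ∏ l ∈ (range M).filter (fun l => p a = p l), (-turn M w l / α l) = 1

def pd (w α : ℕ → ℂ) (k : ℕ) : ℂ := (w (k + 1) - w k) / ∏ l ∈ range (k + 1), α l

namespace Glue

variable {X : Type} {M : ℕ} {w : ℕ → ℂ} {π : ℕ → ℕ} {p : ℕ → X} {α : ℕ → ℂ}

lemma prod_class (h : Ang M w p α) (Y : Finset ℕ) (hY : Y ⊆ range M)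
    (hc : ∀ a ∈ Y, ∀ b < M, p a = p b → b ∈ Y) : ∏ l ∈ Y, (-turn M w l / α l) = 1 :=
  prod_closed (r := fun a b => p a = p b) ⟨fun _ => rfl, fun h => h.symm, fun h h' => h.trans h'⟩
    _ (fun k hk => h k hk) _ Y rfl hY hc

lemma pd_inv (h : Glue M w π p) (ha : Ang M w p α) (hu : ∀ j, ‖α j‖ = 1) :
    ∀ k < M, pd w α k + pd w α (π k) = 0 := by
  have hα0 : ∀ j, α j ≠ 0 := fun j h0 => by simpa [h0] using hu j
  have key : ∀ k < M, k < π k → pd w α k + pd w α (π k) = 0 := by
    intro k hk hlt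
    have h1 := h.lt k hk
    obtain ⟨n, hn⟩ : ∃ n, π k = k + 1 + n := ⟨π k - (k + 1), by omega⟩
    have h2 := prod_class ha (Ico (k + 1) (k + 1 + (n + 1))) (by
      intro l hl; have := mem_Ico.1 hl; exact mem_range.2 (by omega)) (by
      intro a ha b hb hab
      obtain ⟨h3, h4⟩ := mem_Ico.1 ha
      by_contra h5
      rw [mem_Ico] at h5
      exact h.sep k hk hlt a b (by omega) (by omega) hb.le (by omega) hab)
    have h3 := h.neg_one_pow (a := k + 1) (b := π k) h1.le (h.p1 k hk).symm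
    rw [prod_div_distrib, prod_congr rfl (g := fun l => (-1) * turn M w l) (fun l _ => by ring),
      prod_mul_distrib, h.prod_turn k (n + 1) (by omega), prod_const, Nat.card_Ico] at h2
    have e1 : k + 1 + (n + 1) - (k + 1) = π k - (k + 1) + 1 := by omega
    have e2 : k + (n + 1) = π k := by omega
    have e3 : k + 1 + (n + 1) = π k + 1 := by omega
    rw [e1, pow_succ, h3, e2, e3] at h2
    unfold pd
    rw [← prod_range_mul_prod_Ico α (m := k + 1) (n := π k + 1) (by omega), dir_mul (h.ne k hk),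
      dir_mul (h.ne _ h1), h.len k hk]
    have h4 : ∏ l ∈ range (k + 1), α l ≠ 0 := prod_ne_zero_iff.2 (fun l _ => hα0 l)
    have h5 : ∏ l ∈ Ico (k + 1) (π k + 1), α l ≠ 0 := prod_ne_zero_iff.2 (fun l _ => hα0 l)
    have h6 := dir_ne (h.ne k hk)
    generalize ∏ l ∈ range (k + 1), α l = A at *
    generalize ∏ l ∈ Ico (k + 1) (π k + 1), α l = B at *
    field_simp at h2 ⊢
    linear_combination (-(‖w (k + 1) - w k‖ : ℝ) : ℂ) * h2
  intro k hk
  rcases lt_or_gt_of_ne (h.nfix k hk) with h1 | h1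
  · have := key (π k) (h.lt k hk) (by rw [h.inv k hk]; exact h1)
    rw [h.inv k hk] at this
    rw [add_comm, this]
  · exact key k hk h1

lemma walk_pd (hu : ∀ j, ‖α j‖ = 1) (k : ℕ) :
    walk w α 0 k (w 0 + ∑ l ∈ range k, pd w α l) = w k := by
  have hα0 : ∀ j, α j ≠ 0 := fun j h0 => by simpa [h0] using hu j
  induction k with
  | zero => simp
  | succ k ih =>
    have h1 := walk_sub w α 0 (k + 1) (w 0 + ∑ l ∈ range (k + 1), pd w α l)
      (w 0 + ∑ l ∈ range k, pd w α l)
    rw [walk_succ w α 0 k (w 0 + ∑ l ∈ range k, pd w α l), ih, zero_add, rot_self,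
      sum_range_succ] at h1
    have h4 : ∏ l ∈ range (k + 1), α l ≠ 0 := prod_ne_zero_iff.2 (fun l _ => hα0 l)
    simp only [zero_add] at h1
    have h2 : (∏ l ∈ range (k + 1), α l) * pd w α k = w (k + 1) - w k := by
      unfold pd; field_simp
    rw [sum_range_succ]
    linear_combination h1 + h2

lemma hol (h : Glue M w π p) (ha : Ang M w p α) (hu : ∀ j, ‖α j‖ = 1) {a b : ℕ} (hab : a ≤ b)
    (hb : b ≤ M) (he : p a = p b) : walk w α a (b - a) (w a) = w b := by
  have h1 := h.sum_zero hb he _ (h.pd_inv ha hu)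
  have h2 := walk_pd (w := w) hu b
  rw [← sum_range_add_sum_Ico _ hab, h1, add_zero] at h2
  have h3 := walk_add w α 0 a (b - a) (w 0 + ∑ l ∈ range a, pd w α l)
  rw [walk_pd hu, zero_add, Nat.add_sub_cancel' hab, h2] at h3
  exact h3.symm

lemma tot (h : Glue M w π p) (ha : Ang M w p α) (hu : ∀ j, ‖α j‖ = 1) (o : ℂ) :
    walk w α 0 M o = o := by
  have hα0 : ∀ j, α j ≠ 0 := fun j h0 => by simpa [h0] using hu j
  have h1 := h.hol ha hu (Nat.zero_le M) le_rfl h.pM.symm
  have h2 := prod_class ha (range M) subset_rfl (fun _ _ b hb _ => mem_range.2 hb)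
  have h3 := h.neg_one_pow (a := 0) le_rfl h.pM.symm
  have hM := h.pos
  have h4 : ∏ l ∈ range M, turn M w l = 1 := by
    rw [← prod_range_mul_prod_Ico _ (m := 1) hM]
    have := h.prod_turn 0 (M - 1) (by omega)
    rw [zero_add, zero_add, Nat.add_sub_cancel' hM] at this
    rw [this, prod_range_one, turn, prv, if_pos rfl]
    have := dir_ne (h.ne 0 hM)
    have := dir_ne (h.ne (M - 1) (by omega))
    field_simp
  rw [prod_div_distrib, prod_congr rfl (g := fun l => (-1) * turn M w l) (fun l _ => by ring),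
    prod_mul_distrib, h4, prod_const, card_range] at h2
  rw [Nat.sub_zero] at h1 h3
  rw [h3, one_mul, one_div, inv_eq_one] at h2
  have h5 := walk_sub w α 0 M o (w 0)
  simp only [zero_add] at h5
  rw [h1, h2, h.close] at h5
  linear_combination h5

lemma ar_eq (hu : ∀ j, ‖α j‖ = 1) (o : ℂ) (k : ℕ) :
    ar w α 0 k o = shoe k w + E (w k) (walk w α 0 k o) - E (w 0) o -
      ∑ l ∈ range k, E (w 0 + ∑ i ∈ range l, pd w α i - o) (pd w α l) := by
  induction k with
  | zero => simp [shoe]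
  | succ k ih =>
    rw [ar_succ, ih, shoe, shoe, sum_range_succ, sum_range_succ, zero_add]
    have h1 := walk_sub w α 0 (k + 1) (w 0 + ∑ l ∈ range k, pd w α l) o
    have h2 := walk_sub w α 0 (k + 1) (w 0 + ∑ l ∈ range (k + 1), pd w α l)
      (w 0 + ∑ l ∈ range k, pd w α l)
    rw [walk_pd hu] at h2
    rw [walk_succ w α 0 k (w 0 + ∑ l ∈ range k, pd w α l), walk_pd hu, zero_add, rot_self]
      at h1 h2
    rw [sum_range_succ, ← add_assoc, add_sub_cancel_left] at h2
    have h3 : ‖∏ j ∈ range (k + 1), α (0 + j)‖ = 1 := by simp [norm_prod, hu]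
    have h4 := E_mul (∏ j ∈ range (k + 1), α (0 + j)) (w 0 + ∑ l ∈ range k, pd w α l - o)
      (pd w α k)
    rw [← h1, ← h2, h3] at h4
    generalize walk w α 0 (k + 1) o = y at *
    generalize walk w α 0 k o = x at *
    rw [one_pow, one_mul] at h4
    rw [← h4]
    simp only [E, sub_re, sub_im]
    ring

lemma ar_shoe (h : Glue M w π p) (ha : Ang M w p α) (hu : ∀ j, ‖α j‖ = 1) (o : ℂ) :
    ar w α 0 M o = shoe M w := by
  rw [ar_eq hu, h.tot ha hu, h.close]
  have := h.sum_zero (a := 0) le_rfl h.pM.symm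
    (fun l => E (w 0 + ∑ i ∈ range l, pd w α i - o) (pd w α l)) (by
      have key : ∀ k < M, ∑ i ∈ range (π k), pd w α i = ∑ i ∈ range (k + 1), pd w α i := by
        intro k hk
        have h1 := h.lt k hk
        rcases le_total (π k) (k + 1) with h2 | h2
        · rw [← sum_range_add_sum_Ico _ h2, h.sum_zero (by omega) (h.p1 k hk) _ (h.pd_inv ha hu),
            add_zero]
        · rw [← sum_range_add_sum_Ico _ h2,
            h.sum_zero (by omega) (h.p1 k hk).symm _ (h.pd_inv ha hu), add_zero]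
      intro k hk
      have h1 : pd w α (π k) = - pd w α k := by linear_combination h.pd_inv ha hu k hk
      simp only [key k hk, h1, sum_range_succ]
      simp only [E, sub_re, sub_im, add_re, add_im, neg_re, neg_im]
      ring)
  rw [← range_eq_Ico] at this
  rw [this]; ring

end Glue

end

end Pool.Agent.Lib.MP_f2d99b_co
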