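import Pool.Agent.Lib.MP_f2d99b_co.Build

namespace Pool.Agent.Lib.MP_f2d99b_co

open Set Complex
open scoped Real

set_option synthInstance.maxSize 1024

def cubeP (i : ℕ) : Z3 := [
    ((1, 0), (1, 0), (1, 0)), ((1, 0), (1, 0), (-1, 0)), ((1, 0), (-1, 0), (1, 0)),
    ((1, 0), (-1, 0), (-1, 0)), ((-1, 0), (1, 0), (1, 0)), ((-1, 0), (1, 0), (-1, 0)),
    ((-1, 0), (-1, 0), (1, 0)), ((-1, 0), (-1, 0), (-1, 0))].getD i 0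

def cubeN (i : ℕ) : Z3 := [
    ((0, 0), (0, 0), (1, 0)), ((0, 0), (0, 0), (-1, 0)), ((1, 0), (0, 0), (0, 0)),
    ((-1, 0), (0, 0), (0, 0)), ((0, 0), (1, 0), (0, 0)), ((0, 0), (-1, 0), (0, 0))].getD i 0

def cubeF (F j : ℕ) : ℕ := ([
    [0, 2, 6, 4], [1, 3, 7, 5], [0, 1, 3, 2], [4, 5, 7, 6], [0, 1, 5, 4], [2, 3, 7, 6]].getD F []).getD j 0

def cubeB (F j : ℕ) : ℕ := ([
    [2, 5, 3, 4], [2, 5, 3, 4], [4, 1, 5, 0], [4, 1, 5, 0], [2, 1, 3, 0], [2, 1, 3, 0]].getD F []).getD j 0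


def octaP (i : ℕ) : Z3 := [
    ((0, 0), (0, 0), (1, 0)), ((0, 0), (0, 0), (-1, 0)), ((1, 0), (0, 0), (0, 0)),
    ((-1, 0), (0, 0), (0, 0)), ((0, 0), (1, 0), (0, 0)), ((0, 0), (-1, 0), (0, 0))].getD i 0

def octaN (i : ℕ) : Z3 := [
    ((1, 0), (1, 0), (1, 0)), ((1, 0), (1, 0), (-1, 0)), ((1, 0), (-1, 0), (1, 0)),
    ((1, 0), (-1, 0), (-1, 0)), ((-1, 0), (1, 0), (1, 0)), ((-1, 0), (1, 0), (-1, 0)),
    ((-1, 0), (-1, 0), (1, 0)), ((-1, 0), (-1, 0), (-1, 0))].getD i 0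

def octaF (F j : ℕ) : ℕ := ([
    [2, 4, 0], [2, 4, 1], [2, 5, 0], [2, 5, 1], [3, 4, 0], [3, 4, 1], [3, 5, 0], [3, 5, 1]].getD F []).getD j 0

def octaB (F j : ℕ) : ℕ := ([
    [1, 4, 2], [0, 5, 3], [3, 6, 0], [2, 7, 1], [5, 0, 6], [4, 1, 7], [7, 2, 4], [6, 3, 5]].getD F []).getD j 0


def dodeP (i : ℕ) : Z3 := [
    ((1, 0), (1, 0), (1, 0)), ((1, 0), (1, 0), (-1, 0)), ((1, 0), (-1, 0), (1, 0)),
    ((1, 0), (-1, 0), (-1, 0)), ((-1, 0), (1, 0), (1, 0)), ((-1, 0), (1, 0), (-1, 0)),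
    ((-1, 0), (-1, 0), (1, 0)), ((-1, 0), (-1, 0), (-1, 0)), ((0, 0), (-1, 1), (0, 1)),
    ((0, 0), (-1, 1), (0, -1)), ((0, 0), (1, -1), (0, 1)), ((0, 0), (1, -1), (0, -1)),
    ((0, 1), (0, 0), (-1, 1)), ((0, -1), (0, 0), (-1, 1)), ((0, 1), (0, 0), (1, -1)),
    ((0, -1), (0, 0), (1, -1)), ((-1, 1), (0, 1), (0, 0)), ((-1, 1), (0, -1), (0, 0)),
    ((1, -1), (0, 1), (0, 0)), ((1, -1), (0, -1), (0, 0))].getD i 0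

def dodeN (i : ℕ) : Z3 := [
    ((1, 0), (0, 0), (0, 1)), ((1, 0), (0, 0), (0, -1)), ((-1, 0), (0, 0), (0, 1)),
    ((-1, 0), (0, 0), (0, -1)), ((0, 0), (0, 1), (1, 0)), ((0, 0), (0, -1), (1, 0)),
    ((0, 0), (0, 1), (-1, 0)), ((0, 0), (0, -1), (-1, 0)), ((0, 1), (1, 0), (0, 0)),
    ((0, -1), (1, 0), (0, 0)), ((0, 1), (-1, 0), (0, 0)), ((0, -1), (-1, 0), (0, 0))].getD i 0

def dodeF (F j : ℕ) : ℕ := ([
    [0, 8, 10, 2, 12], [1, 9, 11, 3, 14], [4, 8, 10, 6, 13], [5, 9, 11, 7, 15],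
    [0, 8, 4, 18, 16], [2, 10, 6, 19, 17], [1, 9, 5, 18, 16], [3, 11, 7, 19, 17],
    [0, 12, 14, 1, 16], [4, 13, 15, 5, 18], [2, 12, 14, 3, 17], [6, 13, 15, 7, 19]].getD F []).getD j 0

def dodeB (F j : ℕ) : ℕ := ([
    [4, 2, 5, 10, 8], [6, 3, 7, 10, 8], [4, 0, 5, 11, 9], [6, 1, 7, 11, 9], [0, 2, 9, 6, 8],
    [0, 2, 11, 7, 10], [1, 3, 9, 4, 8], [1, 3, 11, 5, 10], [0, 10, 1, 6, 4], [2, 11, 3, 6, 4],
    [0, 8, 1, 7, 5], [2, 9, 3, 7, 5]].getD F []).getD j 0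


def icosP (i : ℕ) : Z3 := [
    ((0, 0), (1, 0), (0, 1)), ((0, 0), (1, 0), (0, -1)), ((0, 0), (-1, 0), (0, 1)),
    ((0, 0), (-1, 0), (0, -1)), ((0, 1), (0, 0), (1, 0)), ((0, -1), (0, 0), (1, 0)),
    ((0, 1), (0, 0), (-1, 0)), ((0, -1), (0, 0), (-1, 0)), ((1, 0), (0, 1), (0, 0)),
    ((1, 0), (0, -1), (0, 0)), ((-1, 0), (0, 1), (0, 0)), ((-1, 0), (0, -1), (0, 0))].getD i 0

def icosN (i : ℕ) : Z3 := [
    ((1, 0), (1, 0), (1, 0)), ((1, 0), (1, 0), (-1, 0)), ((-1, 0), (1, 0), (1, 0)),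
    ((-1, 0), (1, 0), (-1, 0)), ((1, 0), (-1, 0), (1, 0)), ((1, 0), (-1, 0), (-1, 0)),
    ((-1, 0), (-1, 0), (1, 0)), ((-1, 0), (-1, 0), (-1, 0)), ((-1, 1), (0, 0), (0, 1)),
    ((-1, 1), (0, 0), (0, -1)), ((1, -1), (0, 0), (0, 1)), ((1, -1), (0, 0), (0, -1)),
    ((0, 0), (0, 1), (-1, 1)), ((0, 0), (0, -1), (-1, 1)), ((0, 0), (0, 1), (1, -1)),
    ((0, 0), (0, -1), (1, -1)), ((0, 1), (-1, 1), (0, 0)), ((0, -1), (-1, 1), (0, 0)),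
    ((0, 1), (1, -1), (0, 0)), ((0, -1), (1, -1), (0, 0))].getD i 0

def icosF (F j : ℕ) : ℕ := ([
    [0, 4, 8], [1, 6, 8], [0, 5, 10], [1, 7, 10], [2, 4, 9], [3, 6, 9], [2, 5, 11], [3, 7, 11],
    [0, 2, 4], [1, 3, 6], [0, 2, 5], [1, 3, 7], [0, 8, 10], [2, 9, 11], [1, 8, 10], [3, 9, 11],
    [4, 6, 8], [5, 7, 10], [4, 6, 9], [5, 7, 11]].getD F []).getD j 0

def icosB (F j : ℕ) : ℕ := ([
    [8, 16, 12], [9, 16, 14], [10, 17, 12], [11, 17, 14], [8, 18, 13], [9, 18, 15], [10, 19, 13],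
    [11, 19, 15], [10, 4, 0], [11, 5, 1], [8, 6, 2], [9, 7, 3], [0, 14, 2], [4, 15, 6],
    [1, 12, 3], [5, 13, 7], [18, 1, 0], [19, 3, 2], [16, 5, 4], [17, 7, 6]].getD F []).getD j 0


def octaC (i : ℕ) : ZMod 3 := [2, 2, 0, 0, 1, 1].getD i 0

lemma cube_chk : Chk 4 8 6 3 cubeP cubeF cubeN cubeB (1, 0) (0, 0) (4, 0) (fun _ => 0)
    (fun _ => 0) := by
  constructor <;> decide +kernel

lemma octa_chk : Chk 3 6 8 4 octaP octaF octaN octaB (1, 0) (-1, 0) (2, 0) octaC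
    (fun j => j) := by
  constructor <;> decide +kernel

lemma dode_chk : Chk 5 20 12 3 dodeP dodeF dodeN dodeB (1, 1) (-1, 1) (8, -4) (fun _ => 0)
    (fun _ => 0) := by
  constructor <;> decide +kernel

lemma icos_chk : Chk 3 12 20 5 icosP icosF icosN icosB (1, 1) (-1, 0) (4, 0) (fun _ => 0)
    (fun _ => 0) := by
  constructor <;> decide +kernel

end Pool.Agent.Lib.MP_f2d99b_co
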