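import Mathlib

namespace Pool.Agent.Lib.MP_f2d99b_co

open Set

/-- Euclidean three-space. -/
abbrev E3 := EuclideanSpace ℝ (Fin 3)

/-- The points `(0, ±p, ±q)`, `(±q, 0, ±p)`, `(±p, ±q, 0)`. -/
def cyc (p q : ℝ) : Set E3 := {v | ∃ i : Fin 3, v i = 0 ∧ |v (i + 1)| = p ∧ |v (i + 2)| = q}

/-- Vertices of the cube. -/
def cubeV : Set E3 := {v | ∀ i, |v i| = 1}

/-- Vertices of the regular octahedron. -/
def octaV : Set E3 := cyc 0 1

/-- Vertices of the regular dodecahedron. -/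
def dodecaV : Set E3 := cubeV ∪ cyc Real.goldenRatio⁻¹ Real.goldenRatio

/-- Vertices of the regular icosahedron. -/
def icosaV : Set E3 := cyc 1 Real.goldenRatio

/-- A simple polygon: a compact plane region with connected interior whose boundary is a simple
closed polygonal curve `z 0, z 1, ..., z m = z 0`. -/
def IsPolygon (P : Set ℂ) : Prop :=
  IsCompact P ∧ IsConnected (interior P) ∧ ∃ (m : ℕ) (z : ℕ → ℂ), 3 ≤ m ∧ z m = z 0 ∧
    InjOn (fun x : ℕ × ℝ => z x.1 + x.2 • (z (x.1 + 1) - z x.1)) (Iio m ×ˢ Ico 0 1) ∧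
    frontier P = ⋃ i < m, segment ℝ (z i) (z (i + 1))

/-- A union of finitely many straight segments forming a tree. -/
def IsSegTree (T : Set E3) : Prop :=
  ∃ (n : ℕ) (G : SimpleGraph (Fin n)) (x : Fin n → E3), G.IsTree ∧ Function.Injective x ∧
    (∀ a b c d, G.Adj a b → G.Adj c d → s(a, b) ≠ s(c, d) →
      segment ℝ (x a) (x b) ∩ segment ℝ (x c) (x d) ⊆ x '' ({a, b} ∩ {c, d})) ∧
    T = ⋃ (a) (b) (_ : G.Adj a b), segment ℝ (x a) (x b)

/-- `P` is a net of the convex polyhedron with vertex set `V`: the folding map `f` is piecewise an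
isometry, maps `P` onto the surface, maps the boundary of `P` onto a cut tree through all vertices,
and maps the interior of `P` one-to-one onto the rest of the surface. -/
def IsNet (V : Set E3) (P : Set ℂ) : Prop :=
  IsPolygon P ∧ ∃ (f : ℂ → E3) (n : ℕ) (C : Fin n → Set ℂ) (A : Fin n → ℂ →ᵃⁱ[ℝ] E3),
    (∀ i, IsCompact (C i) ∧ Convex ℝ (C i) ∧ (interior (C i)).Nonempty ∧ EqOn f (A i) (C i)) ∧
    P = ⋃ i, C i ∧ f '' P = frontier (convexHull ℝ V) ∧ InjOn f (interior P) ∧
    Disjoint (f '' interior P) (f '' frontier P) ∧ IsSegTree (f '' frontier P) ∧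
    V ⊆ f '' frontier P

/-- `P` is a net of a polyhedron similar to the one with vertex set `V`. -/
def IsNetSim (V : Set E3) (P : Set ℂ) : Prop :=
  ∃ (c : ℝ) (g : E3 ≃ᵃⁱ[ℝ] E3), 0 < c ∧ IsNet ((fun x => g (c • x)) '' V) P

end Pool.Agent.Lib.MP_f2d99b_co
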