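import Pool.Agent.Lib.MP_f2d99b_co.ZipDefs

namespace Pool.Agent.Lib.MP_f2d99b_co

open Set

/-- The points `z 0, ..., z m = z 0` are a list of vertices of the boundary of `P`: the boundary is
the simple closed polygonal curve through them. Consecutive edges may be collinear. -/
def Bdry (P : Set ℂ) (m : ℕ) (z : ℕ → ℂ) : Prop :=
  3 ≤ m ∧ z m = z 0 ∧
    InjOn (fun x : ℕ × ℝ => z x.1 + x.2 • (z (x.1 + 1) - z x.1)) (Iio m ×ˢ Ico 0 1) ∧
    frontier P = ⋃ i < m, segment ℝ (z i) (z (i + 1))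

/-- The points where `f` glues a vertex to a boundary point that is not a vertex. -/
def mixedPts (P : Set ℂ) (m : ℕ) (z : ℕ → ℂ) (f : ℂ → E3) : Set E3 :=
  f '' (z '' Iio m) ∩ f '' (frontier P \ z '' Iio m)

end Pool.Agent.Lib.MP_f2d99b_co
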