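import Pool.Agent.Lib.MP_f2d99b_co.Zip4
import Pool.Agent.Lib.MP_f2d99b_co.EdgeDefs

namespace Pool.Agent.Lib.MP_f2d99b_co

noncomputable section

open Finset Complex

open Classical in
theorem side_of_glue3 {X : Type} {m M : ℕ} {z w : ℕ → ℂ} {ι π : ℕ → ℕ} {p : ℕ → X}
    (hR : Refines m z M w ι) (hG : Glue M w π p) (V : Set X) {χ : ℂ} (hχ : χ ^ 2 ≠ 1)
    (hχ1 : ‖χ‖ = 1)
    (hang : ∀ a < M, ∏ l ∈ (range M).filter (fun l => p a = p l), (-turn M w l) =
      if p a ∈ V then χ else 1) (hV : ∀ v ∈ V, ∃ l < M, p l = v) :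
    ∃ α r, Side m z (turn m z) α r ∧ (∀ j, α j = 1 ∨ α j = χ) ∧ ar z α 0 m 0 = shoe m z ∧
      Set.BijOn (fun i => p (ι i)) {i | i < m ∧ α i ≠ 1} V ∧
      (∀ a < m, ∀ b < m, p (ι a) = p (ι b) → r a b) ∧
      ∀ k < m, (∀ l < M, p (ι k) = p l → ∃ i < m, ι i = l) →
        ∏ l ∈ (range m).filter (fun l => r k l), -turn m z l / α l = 1 := by
  have hχ0 : χ ≠ 1 := by rintro rfl; simp at hχ
  set α : ℕ → ℂ := fun i => if i < m ∧ p (ι i) ∈ V ∧ ∀ j < i, p (ι j) ≠ p (ι i) then χ else 1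
    with hα
  set αf : ℕ → ℂ := fun k => if ∃ i < m, ι i = k ∧ α i ≠ 1 then χ else 1 with hαf
  have val : ∀ j, α j = 1 ∨ α j = χ := fun j => by
    simp only [hα]; split_ifs <;> simp
  have valf : ∀ j, ‖αf j‖ = 1 := fun j => by
    simp only [hαf]; split_ifs <;> simp [hχ1]
  have iff1 : ∀ i, α i ≠ 1 ↔ i < m ∧ p (ι i) ∈ V ∧ ∀ j < i, p (ι j) ≠ p (ι i) := fun i => by
    simp only [hα]; split_ifs with h1
    · exact ⟨fun _ => h1, fun _ => hχ0⟩
    · exact ⟨fun h2 => absurd rfl h2, fun h2 => absurd h2 h1⟩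
  have f1 : ∀ i < m, αf (ι i) = α i := by
    intro i hi
    simp only [hαf]
    split_ifs with h1
    · obtain ⟨j, hj, h2, h3⟩ := h1
      rw [hR.inj hj.le hi.le h2] at h3
      exact ((val i).resolve_left h3).symm
    · by_contra h2
      exact h1 ⟨i, hi, rfl, fun h3 => h2 h3.symm⟩
  have f2 : ∀ k, (∀ i < m, ι i ≠ k) → αf k = 1 := by
    intro k hk
    simp only [hαf]
    rw [if_neg]
    rintro ⟨i, hi, h1, _⟩
    exact hk i hi h1
  have ex : ∀ v ∈ V, ∃ i, (i < m ∧ α i ≠ 1) ∧ p (ι i) = v := by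
    intro v hv
    obtain ⟨a, ha, rfl⟩ := hV v hv
    have h1 : ∃ i, i < m ∧ p (ι i) = p a := by
      by_contra h1
      push Not at h1
      have h2 := hang a ha
      rw [if_pos hv, prod_congr rfl (g := fun _ => -1) (fun l hl => by
        obtain ⟨h3, h4⟩ := mem_filter.1 hl
        rw [hR.turn_off (mem_range.1 h3) (fun i hi h5 => h1 i hi (by rw [h5, h4]))]),
        prod_const] at h2
      apply hχ
      rw [← h2, ← pow_mul, mul_comm, pow_mul]; simp
    have h2 := Nat.find_spec h1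
    refine ⟨Nat.find h1, ⟨h2.1, (iff1 _).2 ⟨h2.1, by rw [h2.2]; exact hv, fun j hj h3 => ?_⟩⟩, h2.2⟩
    exact Nat.find_min h1 hj ⟨by omega, h3.trans h2.2⟩
  have uniq : ∀ i j, α i ≠ 1 → α j ≠ 1 → p (ι i) = p (ι j) → i = j := by
    intro i j hi hj he
    rcases lt_trichotomy i j with h1 | h1 | h1
    · exact absurd he (((iff1 j).1 hj).2.2 i h1)
    · exact h1
    · exact absurd he.symm (((iff1 i).1 hi).2.2 j h1)
  have ang : Ang M w p αf := by
    intro a ha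
    rw [prod_div_distrib, hang a ha]
    split_ifs with hv
    · obtain ⟨i, ⟨hi, h1⟩, h2⟩ := ex _ hv
      rw [prod_eq_single_of_mem (ι i) (mem_filter.2 ⟨mem_range.2 (hR.ltM hi), h2.symm⟩), f1 i hi,
        (val i).resolve_left h1, div_self (by rintro rfl; simp at hχ1)]
      intro l hl h3
      by_contra h4
      simp only [hαf] at h4
      split_ifs at h4 with h5
      · obtain ⟨j, hj, rfl, h6⟩ := h5
        exact h3 (by rw [uniq j i h6 h1 ((mem_filter.1 hl).2.symm.trans h2.symm)])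
      · exact h4 rfl
    · rw [prod_eq_one, div_one]
      intro l hl
      simp only [hαf]
      rw [if_neg]
      rintro ⟨j, hj, rfl, h6⟩
      exact hv ((mem_filter.1 hl).2 ▸ ((iff1 j).1 h6).2.1)
  have tr := fun o => hR.walk_eq f1 f2 0 m (by omega) o
  simp only [zero_add, hR.zero, hR.last, Nat.sub_zero] at tr
  refine ⟨α, fun a b => a = b ∨ (a < m ∧ b < m ∧ p (ι a) = p (ι b)),
    ⟨⟨fun _ => Or.inl rfl, ?_, ?_⟩, ?_, ?_, ?_, ?_, ?_, ?_⟩, val, ?_, ⟨?_, ?_, ?_⟩,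
    fun a ha b hb he => Or.inr ⟨ha, hb, he⟩, ?_⟩
  · rintro a b (rfl | ⟨h1, h2, h3⟩)
    exacts [Or.inl rfl, Or.inr ⟨h2, h1, h3.symm⟩]
  · rintro a b c (rfl | ⟨h1, h2, h3⟩) (rfl | ⟨h4, h5, h6⟩)
    exacts [Or.inl rfl, Or.inr ⟨h4, h5, h6⟩, Or.inr ⟨h1, h2, h3⟩, Or.inr ⟨h1, h5, h3.trans h6⟩]
  · rintro a b c d h1 h2 h3 (rfl | ⟨h4, h5, h6⟩) (rfl | ⟨h7, h8, h9⟩)
    · omega
    · omega
    · omega
    · exact Or.inr ⟨h4, h7, hG.nc (hR.lt h1 h7.le) (hR.lt h2 h5.le) (hR.lt h3 h8.le)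
        (hR.ltM h8).le h6 h9⟩
  · intro j
    rcases val j with h1 | h1 <;> simp [h1, hχ1]
  · intro j hj
    by_contra h1
    have := ((iff1 j).1 h1).1
    omega
  · rintro a ha b hb hab (rfl | ⟨h1, h2, h3⟩)
    · simp
    · have h4 := (hR.walk_eq f1 f2 a (b - a) (by omega) (z a)).1
      rw [← h4, Nat.add_sub_cancel' hab, ← hR.pt a h1.le, ← hR.pt b h2.le]
      exact hG.hol ang valf (hR.le hab h2.le) (hR.ltM h2).le h3
  · intro o
    rw [← (tr o).1]; exact hG.tot ang valf o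
  · intro k hk
    have h1 := ang (ι k) (hR.ltM hk)
    have h2 : (∏ l ∈ (range M).filter (fun l => p (ι k) = p l), (-turn M w l / αf l) ^ 2) = 1 := by
      rw [prod_pow, h1, one_pow]
    rw [← h2, filter_congr_decidable]
    refine prod_bij_ne_one (fun l _ _ => ι l) ?_ ?_ ?_ ?_
    · intro l hl _
      obtain ⟨h3, h4⟩ := mem_filter.1 hl
      refine mem_filter.2 ⟨mem_range.2 (hR.ltM (mem_range.1 h3)), ?_⟩
      rcases h4 with rfl | h4
      exacts [rfl, h4.2.2]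
    · intro a ha _ b hb _ he
      exact hR.inj (mem_range.1 (mem_filter.1 ha).1).le (mem_range.1 (mem_filter.1 hb).1).le he
    · intro l hl h3
      obtain ⟨h4, h5⟩ := mem_filter.1 hl
      have h6 : ∃ i < m, ι i = l := by
        by_contra h6
        push Not at h6
        rw [hR.turn_off (mem_range.1 h4) h6, f2 l h6] at h3
        norm_num at h3
      obtain ⟨i, hi, rfl⟩ := h6
      refine ⟨i, mem_filter.2 ⟨mem_range.2 hi, Or.inr ⟨hk, hi, h5⟩⟩, ?_, rfl⟩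
      rwa [hR.turn_pt hi, f1 i hi, neg_div, neg_sq] at h3
    · intro l hl _
      have hl' := mem_range.1 (mem_filter.1 hl).1
      rw [hR.turn_pt hl', f1 l hl', neg_div, neg_sq]
  · rw [← (tr 0).2, hG.ar_shoe ang valf, hR.shoe_eq]
  · intro i hi
    exact ((iff1 i).1 hi.2).2.1
  · intro i hi j hj he
    exact uniq i j hi.2 hj.2 he
  · intro v hv
    obtain ⟨i, h1, h2⟩ := ex v hv
    exact ⟨i, h1, h2⟩
  · intro k hk hev
    rw [← ang (ι k) (hR.ltM hk), filter_congr_decidable]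
    refine prod_bij (fun l _ => ι l) ?_ ?_ ?_ ?_
    · intro l hl
      obtain ⟨h3, h4⟩ := mem_filter.1 hl
      refine mem_filter.2 ⟨mem_range.2 (hR.ltM (mem_range.1 h3)), ?_⟩
      rcases h4 with rfl | h4
      exacts [rfl, h4.2.2]
    · intro a ha b hb he
      exact hR.inj (mem_range.1 (mem_filter.1 ha).1).le (mem_range.1 (mem_filter.1 hb).1).le he
    · intro l hl
      obtain ⟨h4, h5⟩ := mem_filter.1 hl
      obtain ⟨i, hi, rfl⟩ := hev l (mem_range.1 h4) h5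
      exact ⟨i, mem_filter.2 ⟨mem_range.2 hi, Or.inr ⟨hk, hi, h5⟩⟩, rfl⟩
    · intro l hl
      have hl' := mem_range.1 (mem_filter.1 hl).1
      rw [hR.turn_pt hl', f1 l hl']

lemma Fold.neg {m : ℕ} {z τ : ℕ → ℂ} {ord nV : ℕ} {R : ℂ → ZMod 3 → Prop} {α : ℕ → ℂ}
    {r : ℕ → ℕ → Prop} {χ a v : ℂ} {n : ℕ → ℂ} {col : ℕ → ZMod 3}
    (h : Fold m z τ ord nV R α r χ a v n col) :
    Fold m z (fun i => -τ i) ord nV R α r χ a v n col :=
  ⟨⟨h.side.equiv, h.side.nc, h.side.unit, h.side.off, h.side.hol, h.side.tot, fun k hk => by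
    simpa only [neg_div, neg_sq] using h.side.cls k hk⟩,
    h.prim, h.val, h.card, h.area, h.vne, h.pos, h.lat⟩

end

end Pool.Agent.Lib.MP_f2d99b_co
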