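import Pool.Agent.Lib.MP_f2d99b_co.RegPoly

namespace Pool.Agent.Lib.MP_f2d99b_co

noncomputable section

open Set Complex MeasureTheory Metric Filter Topology
open scoped Real

section comb

open Finset

variable {X : Type} {M : ℕ} {w : ℕ → ℂ} {σ : ℕ → ℕ} {p : ℕ → X} {α : ℕ → ℂ}

lemma Glue.ar_shadow (h : Glue M w σ p) (ha : Ang M w p α) (hu : ∀ j, ‖α j‖ = 1)
    {K : Subfield ℂ} (hK : ∀ j, α j ∈ K) (φ : ℂ →ₗ[K] ℂ) :
    ar (fun j => φ (w j)) α 0 M 0 = shoe M (fun j => φ (w j)) := by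
  have hpd : ∀ k, pd (fun j => φ (w j)) α k = φ (pd w α k) := by
    intro k
    unfold pd
    rw [div_eq_inv_mul, div_eq_inv_mul, map_mul_mem φ (K.inv_mem (K.prod_mem fun l _ => hK l)),
      map_sub]
  have hinv : ∀ k < M, pd (fun j => φ (w j)) α k + pd (fun j => φ (w j)) α (σ k) = 0 := by
    intro k hk
    rw [hpd, hpd, ← map_add, h.pd_inv ha hu k hk, map_zero]
  have htot : walk (fun j => φ (w j)) α 0 M 0 = 0 := by
    have := map_walk φ (z := w) hK 0 M 0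
    rw [h.tot ha hu, map_zero] at this
    exact this.symm
  have hcl : φ (w M) = φ (w 0) := by rw [h.close]
  generalize hw' : (fun j => φ (w j)) = w' at *
  replace hcl : w' M = w' 0 := by rw [← hw']; exact hcl
  rw [Glue.ar_eq hu, htot, hcl]
  have := h.sum_zero (a := 0) le_rfl h.pM.symm
    (fun l => E (w' 0 + ∑ i ∈ range l, pd w' α i - 0) (pd w' α l)) (by
      have key : ∀ k < M, ∑ i ∈ range (σ k), pd w' α i = ∑ i ∈ range (k + 1), pd w' α i := by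
        intro k hk
        have h1 := h.lt k hk
        rcases le_total (σ k) (k + 1) with h2 | h2
        · rw [← sum_range_add_sum_Ico _ h2, h.sum_zero (by omega) (h.p1 k hk) _ hinv, add_zero]
        · rw [← sum_range_add_sum_Ico _ h2, h.sum_zero (by omega) (h.p1 k hk).symm _ hinv,
            add_zero]
      intro k hk
      have h1 : pd w' α (σ k) = - pd w' α k := by linear_combination hinv k hk
      simp only [key k hk, h1, sum_range_succ]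
      simp only [E, sub_re, sub_im, add_re, add_im, neg_re, neg_im]
      ring)
  rw [← range_eq_Ico] at this
  rw [this]; ring

lemma Refines.shoe_col {m : ℕ} {z : ℕ → ℂ} {ι : ℕ → ℕ} (h : Refines m z M w ι) (φ : ℂ →+ ℂ)
    (hD : ∀ i < m, ∃ D : ℂ, ∀ t : ℝ, ∃ u : ℝ, φ (t * (z (i + 1) - z i)) = u * D) :
    shoe M (fun j => φ (w j)) = shoe m (fun j => φ (z j)) := by
  have step : ∀ i < m, ∀ n, ι i + n ≤ ι (i + 1) →
      ∃ t : ℝ, w (ι i + n) = z i + t * (z (i + 1) - z i) ∧ shoe (ι i + n) (fun j => φ (w j)) =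
        shoe (ι i) (fun j => φ (w j)) + E (φ (z i)) (φ (w (ι i + n))) := by
    intro i hi n hn
    obtain ⟨D, hD⟩ := hD i hi
    induction n with
    | zero => exact ⟨0, by simp [h.pt i hi.le], by simp [h.pt i hi.le]⟩
    | succ n ih =>
      obtain ⟨t, h1, h2⟩ := ih (by omega)
      obtain ⟨u, _, h3⟩ := h.dirs i hi (ι i + n) (by omega) (by omega)
      have h4 : w (ι i + n + 1) = z i + (t + u : ℝ) * (z (i + 1) - z i) := by
        push_cast; linear_combination h1 + h3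
      refine ⟨t + u, h4, ?_⟩
      obtain ⟨a, ha⟩ := hD t
      obtain ⟨b, hb⟩ := hD (t + u)
      rw [← add_assoc, shoe, sum_range_succ, ← shoe, h2, h4, h1, map_add, map_add, ha, hb]
      simp only [E, add_re, add_im, mul_re, mul_im, ofReal_re, ofReal_im]
      ring
  have : ∀ i ≤ m, shoe (ι i) (fun j => φ (w j)) = shoe i (fun j => φ (z j)) := by
    intro i hi
    induction i with
    | zero => simp [shoe, h.zero]
    | succ i ih =>
      have h1 := h.mono i (by omega)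
      obtain ⟨t, _, h2⟩ := step i (by omega) (ι (i + 1) - ι i) (by omega)
      rw [Nat.add_sub_cancel' h1.le] at h2
      rw [h2, ih (by omega), h.pt _ hi, shoe, shoe, sum_range_succ]
  rw [← h.last, this m le_rfl]

open Classical in
lemma exists_ang (V : Set X) {χ : ℂ} (hχ : χ ≠ 0)
    (hang : ∀ a < M, ∏ l ∈ (range M).filter (fun l => p a = p l), (-turn M w l) =
      if p a ∈ V then χ else 1) :
    ∃ α : ℕ → ℂ, Ang M w p α ∧ (∀ j, α j = 1 ∨ α j = χ) ∧ ∀ j, α j ≠ 1 → p j ∈ V := by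
  refine ⟨fun k => if p k ∈ V ∧ ∀ j < k, p j ≠ p k then χ else 1, fun a ha => ?_, fun j => ?_,
    fun j hj => ?_⟩
  · rw [prod_div_distrib, hang a ha]
    split_ifs with hv
    · have ex : ∃ j, p j = p a := ⟨a, rfl⟩
      have h1 := Nat.find_spec ex
      have h2 : Nat.find ex ≤ a := Nat.find_min' ex rfl
      rw [prod_eq_single_of_mem (Nat.find ex) (mem_filter.2 ⟨mem_range.2 (by omega), h1.symm⟩),
        if_pos ⟨by rw [h1]; exact hv, fun j hj h3 => Nat.find_min ex hj (h3.trans h1)⟩, div_self hχ]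
      intro l hl h3
      have h4 := (mem_filter.1 hl).2
      rw [if_neg]
      rintro ⟨-, h5⟩
      exact h5 _ (lt_of_le_of_ne (Nat.find_min' ex h4.symm) h3.symm) (h1.trans h4)
    · rw [prod_eq_one, div_one]
      intro l hl
      exact if_neg fun h => hv ((mem_filter.1 hl).2 ▸ h.1)
  · dsimp only
    split_ifs <;> simp
  · by_contra h
    exact hj (if_neg fun h1 => h h1.1)

end comb

variable {V : Set E3} {k nF dg : ℕ} {s : ℝ} {cc : ℕ → ZMod 3} {col : E3 → ZMod 3}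
  {ψ : Fin nF → ℂ →ᵃⁱ[ℝ] E3} {l : Fin nF → E3 →ᵃ[ℝ] ℝ} {o : E3} {nb : Fin nF → ℕ → Fin nF}

theorem shadow_of_net (hS : Solid V k nF dg s cc col ψ l o nb) {K : Subfield ℂ}
    (hL : Lat k (fun x _ => x ∈ K) cc) {ord : ℕ} (hord : 3 ≤ ord)
    (hK : ∀ u : ℂ, u ^ ord = 1 → u ∈ K)
    (hang : dg * (π - 2 * (π / k)) = 2 * π - 2 * (π / ord)) {P : Set ℂ} {m : ℕ} {z : ℕ → ℂ}
    (hP : Poly P m z) (hN : IsNet V P) :
    ∃ (v : ℂ) (r : ℝ), ‖v‖ = s ∧ volume P = nF * volume (Pg k s) ∧ shoe m z = r * ‖v‖ ^ 2 ∧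
      ∀ φ : ℂ →ₗ[K] ℂ, (∀ i < m, ∃ D : ℂ, ∀ t : ℝ, ∃ u : ℝ, φ (t * (z (i + 1) - z i)) = u * D) →
        shoe m (fun j => φ (z j)) = r * ‖φ v‖ ^ 2 := by
  obtain ⟨⟨-, hc, -⟩, f, n, C, A, h1, h2, h3, h4, h5, h6, h7⟩ := hN
  have hf : PW P f C A := ⟨fun i => (h1 i).1, fun i => (h1 i).2.1, fun i => (h1 i).2.2.1,
    fun i => (h1 i).2.2.2, h2, h4, hP.null⟩
  obtain ⟨N, hN, hcut⟩ := tree_cut h6
  obtain ⟨M, w, ι, U, p1, p2, p3, p4, p5, p6⟩ := exists_fine hP hf (hN.union hS.fin)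
  have hF : FineNet P M w f C A U := ⟨p1, hf, h5, fun q hq hU => hcut q hq fun h => hU (p3 (Or.inl h)),
    p4, p5, p6, fun q hq hU => h3 ▸ hS.dens_flat (h3 ▸ hq) fun h => hU (p3 (Or.inr h))⟩
  obtain ⟨σ, hG⟩ := hF.glue
  obtain ⟨ε, hε, hA⟩ := hF.angle
  have hp := Real.pi_pos
  have e2 : exp (ε * (2 * π : ℝ) * I) = 1 := by
    rcases hε with rfl | rfl
    · simp
    · push_cast; rw [neg_one_mul, neg_mul, exp_neg, exp_two_pi_mul_I, inv_one]
  set χ := exp (ε * (2 * π - 2 * (π / ord) : ℝ) * I) with hχ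
  have prim : IsPrimitiveRoot χ ord := by
    have : χ = exp (ε * (2 * π : ℝ) * I) * exp (-ε * (2 * (π / ord) : ℝ) * I) := by
      rw [hχ, ← exp_add]; congr 1; push_cast; ring
    rw [this, e2, one_mul]
    rcases hε with rfl | rfl
    · have := (zt_prim hord).inv
      rwa [zt, ← exp_neg, ← neg_one_mul, ← mul_assoc, ← ofReal_one] at this
    · have := zt_prim hord
      rw [zt] at this
      simpa using this
  have frP : ∀ a < M, w a ∈ P := fun a ha =>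
    hP.closed.frontier_subset (pt_zero w a ▸ hF.fr ha le_rfl zero_le_one)
  have hord' : (3 : ℝ) ≤ ord := by exact_mod_cast hord
  have h8 : π / ord ≤ π / 3 := by gcongr
  obtain ⟨α, q1, q2, q3⟩ := exists_ang (M := M) (w := w) (p := fun k => f (w k)) V (χ := χ)
    (exp_ne_zero _) (fun a ha => by
      split_ifs with h9
      · exact hA a ha _ _ (by linarith) (h3 ▸ hang ▸ hS.dens_vertex h9)
      · rw [← e2]
        exact hA a ha _ _ (by positivity) (h3 ▸ hS.dens_flat (h3 ▸ ⟨_, frP a ha, rfl⟩) h9))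
  have hu : ∀ j, ‖α j‖ = 1 := fun j => by
    rcases q2 j with h | h <;> rw [h]
    exacts [norm_one, prim.norm'_eq_one (by omega)]
  have hαK : ∀ j, α j ∈ K := fun j => by
    rcases q2 j with h | h <;> rw [h]
    exacts [K.one_mem, hK _ prim.pow_eq_one]
  obtain ⟨a, v, t1, t2⟩ := lattice hS hL hf hc h3
  have hx : ∀ j, ∃ x, x ∈ K ∧ (j < M → α j ≠ 1 → w j = a + v * x) := by
    intro j
    by_cases h9 : j < M ∧ α j ≠ 1
    · obtain ⟨x, h10, h11⟩ := t2 _ (frP j h9.1) (q3 j h9.2)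
      exact ⟨x, h10, fun _ _ => h11⟩
    · exact ⟨_, K.zero_mem, fun h10 h11 => absurd ⟨h10, h11⟩ h9⟩
  choose x t3 t4 using hx
  have hv : v ≠ 0 := by
    rintro rfl
    simp at t1
    linarith [hS.spos]
  obtain ⟨s1, s2⟩ := shadow_area hu (hG.tot q1 hu) hv t4
  refine ⟨v, _, t1, ?_, by rw [← s1, hG.ar_shoe q1 hu, p2.shoe_eq], fun φ hφ => ?_⟩
  · rw [← hS.vol_total, ← h3, hf.vol_img hf.compact.measurableSet subset_rfl]
  · rw [← s2 K hαK t3 φ, hG.ar_shadow q1 hu hαK φ]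
    exact (p2.shoe_col φ.toAddMonoidHom hφ).symm

theorem shadow_sim (hS : IsSolid V k nF dg s (fun _ => 0) col) {K : Subfield ℂ}
    (hK : ∀ x ∈ K, (starRingEnd ℂ) x ∈ K) (hord : 3 ≤ k.lcm 2) (hζ : zt (k.lcm 2) ∈ K)
    (hang : dg * (π - 2 * (π / k)) = 2 * π - 2 * (π / (k.lcm 2 : ℕ))) {P : Set ℂ} {m : ℕ}
    {z : ℕ → ℂ} (hP : Poly P m z) (hN : IsNetSim V P) :
    ∃ (v : ℂ) (r : ℝ), v ≠ 0 ∧ volume.real P = nF * (k / (4 * Real.tan (π / k))) * ‖v‖ ^ 2 ∧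
      shoe m z = r * ‖v‖ ^ 2 ∧ shoe m z ≠ 0 ∧
      ∀ φ : ℂ →ₗ[K] ℂ, (∀ i < m, ∃ D : ℂ, ∀ t : ℝ, ∃ u : ℝ, φ (t * (z (i + 1) - z i)) = u * D) →
        shoe m (fun j => φ (z j)) = r * ‖φ v‖ ^ 2 := by
  obtain ⟨c, g, hc, hN⟩ := hN
  obtain ⟨ψ, l, o, nb, h⟩ := hS.map hc g
  have hu : ∀ u : ℂ, u ^ k.lcm 2 = 1 → u ∈ K := by
    intro u hu
    have : NeZero (k.lcm 2) := ⟨by omega⟩
    obtain ⟨i, -, rfl⟩ := (zt_prim hord).eq_pow_of_pow_eq_one hu
    exact K.pow_mem hζ i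
  obtain ⟨v, r, h1, h2, h3, h4⟩ := shadow_of_net h (lat_ring h.three K.toSubring hK hu) hord hu
    hang hP hN
  have hs := h.spos
  have h0 : volume P ≠ 0 := ((isOpen_interior.measure_pos volume hN.1.2.1.nonempty).trans_le
    (measure_mono interior_subset)).ne'
  rw [Pg_smul k hs] at h2
  have h5 := vol_Pg h.three (fun h5 => h0 (by rw [h2, h5, mul_zero, mul_zero]))
  refine ⟨v, r, norm_pos_iff.1 (h1 ▸ hs), ?_, h3, fun h6 => ?_, h4⟩
  · rw [← h5, measureReal_def, h2, ENNReal.toReal_mul, ENNReal.toReal_mul,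
      ENNReal.toReal_ofReal (by positivity), ENNReal.toReal_natCast, h1, measureReal_def]
    ring
  · obtain ⟨ε, hε, h7⟩ := hP.green hN.1.1
    rw [h6, zero_div, mul_eq_zero, measureReal_eq_zero_iff hN.1.1.measure_lt_top.ne] at h7
    rcases hε with rfl | rfl <;> simp [h0] at h7

/-- a `K`-linear map to `K` that keeps the real multiples of `e` real -/
lemma exists_shadow {K : Subfield ℂ} (hK : ∀ x ∈ K, (starRingEnd ℂ) x ∈ K) {d : ℝ} (hd : d ≠ 0)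
    (hδ : (d : ℂ) * I ∈ K) {e v : ℂ} (he : e ≠ 0) (hv : v ≠ 0) :
    ∃ φ : ℂ →ₗ[K] ℂ, φ v ≠ 0 ∧ (∀ x, φ x ∈ K) ∧ ∀ t : ℝ, ∃ u : ℝ, φ (t * e) = u := by
  set F : Subfield ℝ := K.comap Complex.ofRealHom with hF
  have hre : ∀ x ∈ K, x.re ∈ F := by
    intro x hx
    change ((x.re : ℝ) : ℂ) ∈ K
    rw [Complex.re_eq_add_conj]
    exact K.div_mem (K.add_mem hx (hK x hx)) (by exact_mod_cast natCast_mem K 2)
  have hd' : (d : ℂ) ≠ 0 := by exact_mod_cast hd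
  have him : ∀ x ∈ K, x.im / d ∈ F := by
    intro x hx
    change ((x.im / d : ℝ) : ℂ) ∈ K
    have : ((x.im / d : ℝ) : ℂ) = (x - (starRingEnd ℂ) x) / (2 * (d * I)) := by
      rw [Complex.sub_conj]; push_cast; field_simp
    rw [this]
    exact K.div_mem (K.sub_mem hx (hK x hx)) (K.mul_mem (by exact_mod_cast natCast_mem K 2) hδ)
  have hdd : d ^ 2 ∈ F := by
    change ((d ^ 2 : ℝ) : ℂ) ∈ K
    have : ((d ^ 2 : ℝ) : ℂ) = -((d * I) * (d * I)) := by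
      push_cast; linear_combination (d : ℂ) ^ 2 * I_mul_I
    rw [this]
    exact K.neg_mem (K.mul_mem hδ hδ)
  obtain ⟨ℓ, hℓ⟩ : ∃ ℓ : Module.Dual F ℝ, ℓ (v / e).re ≠ 0 ∨ ℓ ((v / e).im / d) ≠ 0 := by
    by_cases h1 : (v / e).re = 0
    · have h2 : (v / e).im / d ≠ 0 := div_ne_zero (fun h2 => div_ne_zero hv he
        (Complex.ext h1 h2)) hd
      obtain ⟨ℓ, h⟩ := Module.Projective.exists_dual_ne_zero F h2
      exact ⟨ℓ, Or.inr h⟩
    · obtain ⟨ℓ, h⟩ := Module.Projective.exists_dual_ne_zero F h1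
      exact ⟨ℓ, Or.inl h⟩
  have hm : ∀ a ∈ F, ∀ x : ℝ, (ℓ (a * x) : ℝ) = a * ℓ x := fun a ha x =>
    congrArg Subtype.val (ℓ.map_smul ⟨a, ha⟩ x)
  refine ⟨⟨⟨fun x => ((ℓ (x / e).re : ℝ) : ℂ) + ((ℓ ((x / e).im / d) : ℝ) : ℂ) * (d * I), ?_⟩, ?_⟩,
    ?_, ?_, ?_⟩
  · intro x y
    simp only [add_div, add_re, add_im, map_add]
    push_cast; ring
  · rintro ⟨a, ha⟩ x
    change ((ℓ (a * x / e).re : ℝ) : ℂ) + ((ℓ ((a * x / e).im / d) : ℝ) : ℂ) * (d * I) =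
      a * (((ℓ (x / e).re : ℝ) : ℂ) + ((ℓ ((x / e).im / d) : ℝ) : ℂ) * (d * I))
    rw [mul_div_assoc]
    generalize x / e = y
    have e1 : (a * y).re = a.re * y.re - (a.im / d * d ^ 2) * (y.im / d) := by
      rw [mul_re]; field_simp
    have e2 : (a * y).im / d = a.re * (y.im / d) + a.im / d * y.re := by
      rw [mul_im]; field_simp
    rw [e1, e2, map_sub, map_add]
    push_cast
    rw [hm _ (hre a ha), hm _ (F.mul_mem (him a ha) hdd), hm _ (hre a ha), hm _ (him a ha)]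
    generalize (ℓ y.re : ℝ) = b
    generalize (ℓ (y.im / d) : ℝ) = c
    apply Complex.ext <;> simp [sq] <;> field_simp
  · intro h
    have h1 := congrArg Complex.re h
    have h2 := congrArg Complex.im h
    simp [hd] at h1 h2
    exact hℓ.elim (fun h3 => h3 h1) (fun h3 => h3 h2)
  · intro x
    exact K.add_mem (ℓ _).2 (K.mul_mem (ℓ _).2 hδ)
  · intro t
    refine ⟨ℓ t, ?_⟩
    change ((ℓ (t * e / e).re : ℝ) : ℂ) + ((ℓ ((t * e / e).im / d) : ℝ) : ℂ) * (d * I) = _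
    rw [mul_div_cancel_right₀ _ he]
    simp

lemma dir_class {K : Subfield ℂ} {d : ℝ} (hd : d ≠ 0) (hδ : (d : ℂ) * I ∈ K) {u : ℂ}
    (hu : u / (starRingEnd ℂ) u ∈ K) : ∃ a ∈ K, ∃ t : ℝ, u = a * t := by
  by_cases h : u.re = 0
  · refine ⟨_, hδ, u.im / d, Complex.ext (by simp [h]) ?_⟩
    simp
    field_simp
  have h0 : u ≠ 0 := fun h0 => h (by rw [h0, zero_re])
  have h1 : (starRingEnd ℂ) u ≠ 0 := by simpa using h0
  have h2 := Complex.add_conj u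
  have h3 : ((2 * u.re : ℝ) : ℂ) ≠ 0 := by exact_mod_cast mul_ne_zero two_ne_zero h
  refine ⟨(1 + (u / (starRingEnd ℂ) u)⁻¹)⁻¹, K.inv_mem (K.add_mem K.one_mem (K.inv_mem hu)),
    2 * u.re, ?_⟩
  rw [← h2] at h3 ⊢
  field_simp

theorem norm_of_two {K : Subfield ℂ} (hK : ∀ x ∈ K, (starRingEnd ℂ) x ∈ K) {n : ℕ} (hn : 3 ≤ n)
    (hζ : zt n ∈ K) {m : ℕ} {z : ℕ → ℂ} (hz : ∀ i < m, z (i + 1) ≠ z i) (hm : 0 < m)
    (hc : ∀ i, i + 1 < m → (z (i + 2) - z (i + 1)) / (z (i + 1) - z i) /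
      (starRingEnd ℂ) ((z (i + 2) - z (i + 1)) / (z (i + 1) - z i)) ∈ K)
    {v w : ℂ} {r q : ℝ} (hv : v ≠ 0) (h1 : shoe m z = r * ‖v‖ ^ 2) (h2 : shoe m z = q * ‖w‖ ^ 2)
    (h0 : shoe m z ≠ 0)
    (h3 : ∀ φ : ℂ →ₗ[K] ℂ, (∀ i < m, ∃ D : ℂ, ∀ t : ℝ, ∃ u : ℝ,
      φ (t * (z (i + 1) - z i)) = u * D) → shoe m (fun j => φ (z j)) = r * ‖φ v‖ ^ 2)
    (h4 : ∀ φ : ℂ →ₗ[K] ℂ, (∀ i < m, ∃ D : ℂ, ∀ t : ℝ, ∃ u : ℝ,
      φ (t * (z (i + 1) - z i)) = u * D) → shoe m (fun j => φ (z j)) = q * ‖φ w‖ ^ 2) :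
    ∃ x ∈ K, ‖x‖ ^ 2 * ‖v‖ ^ 2 = ‖w‖ ^ 2 := by
  have hd : 2 * (zt n).im ≠ 0 := by
    have := E_zt_succ hn 0
    simp [E] at this
    positivity
  have hδ : ((2 * (zt n).im : ℝ) : ℂ) * I ∈ K := by
    rw [← Complex.sub_conj]; exact K.sub_mem hζ (hK _ hζ)
  have he : ∀ i < m, ∃ a ∈ K, ∃ t : ℝ, z (i + 1) - z i = a * t * (z 1 - z 0) := by
    intro i hi
    induction i with
    | zero => exact ⟨1, K.one_mem, 1, by simp⟩
    | succ i ih =>
      obtain ⟨a, ha, t, h5⟩ := ih (by omega)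
      obtain ⟨b, hb, u, h6⟩ := dir_class hd hδ (hc i hi)
      rw [div_eq_iff (sub_ne_zero.2 (hz i (by omega))), h5] at h6
      exact ⟨b * a, K.mul_mem hb ha, u * t, by push_cast; linear_combination h6⟩
  obtain ⟨φ, p1, p2, p3⟩ := exists_shadow hK hd hδ (sub_ne_zero.2 (hz 0 hm)) hv
  have hφ : ∀ i < m, ∃ D : ℂ, ∀ t : ℝ, ∃ u : ℝ, φ (t * (z (i + 1) - z i)) = u * D := by
    intro i hi
    obtain ⟨a, ha, t, h5⟩ := he i hi
    refine ⟨a, fun t' => ?_⟩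
    obtain ⟨u, hu⟩ := p3 (t' * t)
    refine ⟨u, ?_⟩
    rw [mul_comm (u : ℂ), ← hu, ← map_mul_mem φ ha, h5]
    congr 1
    push_cast; ring
  have h5 := (h3 φ hφ).symm.trans (h4 φ hφ)
  have hq : q ≠ 0 := fun h => h0 (by rw [h2, h, zero_mul])
  have h6 : ‖φ v‖ ≠ 0 := norm_ne_zero_iff.2 p1
  refine ⟨φ w / φ v, K.div_mem (p2 w) (p2 v), ?_⟩
  rw [norm_div]
  field_simp
  apply mul_left_cancel₀ hq
  linear_combination ‖φ v‖ ^ 2 * (h2.symm.trans h1).symm - ‖v‖ ^ 2 * h5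

lemma poly_of_param {V : Set E3} {P : Set ℂ} (h : IsNet V P) {m : ℕ} {z : ℕ → ℂ} (h2 : 3 ≤ m)
    (h3 : z m = z 0)
    (h4 : InjOn (fun x : ℕ × ℝ => z x.1 + x.2 • (z (x.1 + 1) - z x.1)) (Iio m ×ˢ Ico 0 1))
    (h5 : frontier P = ⋃ i < m, segment ℝ (z i) (z (i + 1))) : Poly P m z := by
  obtain ⟨m', z', h1⟩ := poly_of_net h
  refine ⟨h1.closed, h1.reg, h2, h3, fun i hi j hj s t h8 h9 h10 h11 he => ?_, fun x => ?_⟩
  · have := h4 (x₁ := (i, s)) ⟨hi, h8, h9⟩ (x₂ := (j, t)) ⟨hj, h10, h11⟩ he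
    exact Prod.mk.inj this
  · simp only [h5, mem_iUnion, edge_eq, exists_prop]

lemma div_conj_eq {u : ℂ} (hu : u ≠ 0) : u / (starRingEnd ℂ) u = exp (2 * arg u * I) := by
  have h1 := norm_mul_exp_arg_mul_I u
  have h2 : ((‖u‖ : ℝ) : ℂ) ≠ 0 := by simpa using hu
  have h3 : (starRingEnd ℂ) u = ‖u‖ * exp (-(arg u * I)) := by
    conv_lhs => rw [← h1]
    rw [map_mul, conj_ofReal, ← exp_conj, map_mul, conj_ofReal, conj_I, mul_neg]
  rw [h3]
  nth_rewrite 1 [← h1]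
  rw [mul_div_mul_left _ _ h2, ← exp_sub]
  congr 1; ring

lemma conj_closure {S : Set ℂ} (hS : ∀ x ∈ S, ‖x‖ = 1) :
    ∀ x ∈ Subfield.closure S, (starRingEnd ℂ) x ∈ Subfield.closure S := by
  have : Subfield.closure S ≤ (Subfield.closure S).comap (starRingEnd ℂ) := by
    refine Subfield.closure_le.2 fun x hx => ?_
    change (starRingEnd ℂ) x ∈ Subfield.closure S
    rw [← Complex.inv_eq_conj (hS x hx)]
    exact Subfield.inv_mem _ (Subfield.subset_closure hx)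
  exact fun x hx => this hx

/-- what one net gives -/
def Shadow (V : Set E3) (n : ℕ) (a : ℝ) : Prop :=
  3 ≤ n ∧ 0 < a ∧ ∀ (K : Subfield ℂ), (∀ x ∈ K, (starRingEnd ℂ) x ∈ K) → zt n ∈ K →
    ∀ (P : Set ℂ) (m : ℕ) (z : ℕ → ℂ), Poly P m z → IsNetSim V P →
    ∃ (v : ℂ) (r : ℝ), v ≠ 0 ∧ volume.real P = a * ‖v‖ ^ 2 ∧ shoe m z = r * ‖v‖ ^ 2 ∧
      shoe m z ≠ 0 ∧
      ∀ φ : ℂ →ₗ[K] ℂ, (∀ i < m, ∃ D : ℂ, ∀ t : ℝ, ∃ u : ℝ, φ (t * (z (i + 1) - z i)) = u * D) →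
        shoe m (fun j => φ (z j)) = r * ‖φ v‖ ^ 2

theorem cube_shadow : Shadow cubeV 4 6 := by
  refine ⟨by norm_num, by norm_num, fun K hK hζ P m z hP hN => ?_⟩
  obtain ⟨s, col, h1, -⟩ := cube_chk.solid (by
    rw [zt_re, Nat.cast_ofNat, Real.cos_pi_div_four, div_pow, Real.sq_sqrt (by norm_num)]
    simp [ev]; norm_num) (fun j => rfl)
  rw [cube_img] at h1
  have := shadow_sim h1 hK (by norm_num) hζ (by
    rw [show Nat.lcm 4 2 = 4 by norm_num]; push_cast; ring) hP hN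
  rwa [Nat.cast_ofNat (n := 4), Real.tan_pi_div_four,
    show ((6 : ℕ) : ℝ) * (4 / (4 * 1)) = 6 by norm_num] at this

theorem dodeca_shadow : Shadow dodecaV 10 (15 / Real.tan (π / 5)) := by
  have hp := Real.pi_pos
  have ht : 0 < Real.tan (π / 5) :=
    Real.tan_pos_of_pos_of_lt_pi_div_two (by positivity) (by linarith)
  refine ⟨by norm_num, by positivity, fun K hK hζ P m z hP hN => ?_⟩
  obtain ⟨s, col, h1, -⟩ := dode_chk.solid (by
    rw [zt_re, Nat.cast_ofNat, Real.cos_pi_div_five]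
    have := Real.sq_sqrt (show (0 : ℝ) ≤ 5 by norm_num)
    simp only [ev, Real.goldenRatio]; push_cast
    linear_combination (-1 / 4 : ℝ) * this) (fun j => rfl)
  rw [dode_img] at h1
  have := shadow_sim h1 hK (by norm_num) hζ (by
    rw [show Nat.lcm 5 2 = 10 by norm_num]; push_cast; ring) hP hN
  rwa [Nat.cast_ofNat (n := 5), show ((12 : ℕ) : ℝ) * (5 / (4 * Real.tan (π / 5))) =
    15 / Real.tan (π / 5) by push_cast; ring] at this

theorem icosa_shadow : Shadow icosaV 6 (5 * √3) := by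
  refine ⟨by norm_num, by positivity, fun K hK hζ P m z hP hN => ?_⟩
  obtain ⟨s, col, h1, -⟩ := icos_chk.solid (by
    rw [zt_re, Nat.cast_ofNat, Real.cos_pi_div_three]; simp [ev]; norm_num) (fun j => rfl)
  rw [icos_img] at h1
  have := shadow_sim h1 hK (by norm_num) hζ (by
    rw [show Nat.lcm 3 2 = 6 by norm_num]; push_cast; ring) hP hN
  have h3 := Real.mul_self_sqrt (show (0 : ℝ) ≤ 3 by norm_num)
  rwa [Nat.cast_ofNat (n := 3), Real.tan_pi_div_three, show ((20 : ℕ) : ℝ) * (3 / (4 * √3)) =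
    5 * √3 by push_cast; field_simp; linarith] at this

theorem Shadow.norm {V W : Set E3} {n n' : ℕ} {a b : ℝ} (hA : Shadow V n a) (hB : Shadow W n' b)
    {P : Set ℂ} (h1 : IsNetSim V P) (h2 : IsNetSim W P) {m : ℕ} {z : ℕ → ℂ} (hP : Poly P m z) :
    ∃ x ∈ Subfield.closure ({exp (2 * π * I / n), exp (2 * π * I / n')} ∪
      {y | ∃ i, i + 1 < m ∧
        y = exp (2 * arg ((z (i + 2) - z (i + 1)) / (z (i + 1) - z i)) * I)}),
      ‖x‖ ^ 2 = a / b := by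
  have hz : ∀ n : ℕ, exp (2 * π * I / n) = zt n := fun n => by
    rw [zt]; congr 1; push_cast; ring
  rw [hz, hz]
  set K := Subfield.closure ({zt n, zt n'} ∪ {y | ∃ i, i + 1 < m ∧
    y = exp (2 * arg ((z (i + 2) - z (i + 1)) / (z (i + 1) - z i)) * I)}) with hK
  have hc : ∀ x ∈ K, (starRingEnd ℂ) x ∈ K := conj_closure (by
    rintro x ((rfl | rfl) | ⟨i, -, rfl⟩)
    · exact norm_zt _
    · exact norm_zt _
    · exact_mod_cast norm_exp_ofReal_mul_I (2 * _))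
  have m1 : zt n ∈ K := Subfield.subset_closure (Or.inl (Or.inl rfl))
  have m2 : zt n' ∈ K := Subfield.subset_closure (Or.inl (Or.inr rfl))
  obtain ⟨v, r, a1, a2, a3, a4, a5⟩ := hA.2.2 K hc m1 P m z hP h1
  obtain ⟨w, q, b1, b2, b3, -, b5⟩ := hB.2.2 K hc m2 P m z hP h2
  obtain ⟨x, hx, h3⟩ := norm_of_two hc hA.1 m1 (fun i hi => hP.ne hi) (by linarith [hP.three])
    (fun i hi => by
      rw [div_conj_eq (div_ne_zero (sub_ne_zero.2 (hP.ne hi)) (sub_ne_zero.2 (hP.ne (by omega))))]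
      exact Subfield.subset_closure (Or.inr ⟨i, hi, rfl⟩)) a1 a3 b3 a4 a5 b5
  refine ⟨x, hx, ?_⟩
  have h4 : ‖v‖ ^ 2 ≠ 0 := by positivity
  rw [eq_div_iff hB.2.1.ne']
  apply mul_right_cancel₀ h4
  linear_combination b * h3 + a2 - b2

end

end Pool.Agent.Lib.MP_f2d99b_co
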