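import Pool.Agent.Lib.MP_f2d99b_co.Edge1
import Pool.Agent.Lib.MP_f2d99b_co.Shadow

namespace Pool.Agent.Lib.MP_f2d99b_co

noncomputable section

open Set Complex MeasureTheory Metric Filter Topology
open scoped Real

variable {V : Set E3} {k nF dg : ℕ} {s : ℝ} {cc : ℕ → ZMod 3} {col : E3 → ZMod 3}
  {ψ : Fin nF → ℂ →ᵃⁱ[ℝ] E3} {l : Fin nF → E3 →ᵃ[ℝ] ℝ} {o : E3} {nb : Fin nF → ℕ → Fin nF}

theorem fold_of_folds3 (hS : Solid V k nF dg s cc col ψ l o nb) {R : ℂ → ZMod 3 → Prop}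
    (hL : Lat k R cc) {ord : ℕ} (hord : 3 ≤ ord)
    (hang : dg * (π - 2 * (π / k)) = 2 * π - 2 * (π / ord)) {P : Set ℂ} {m : ℕ} {z : ℕ → ℂ}
    (hP : Poly P m z) {f : ℂ → E3} (hN : Folds V P f) :
    ∃ α r χ a v n cj, Fold m z (turn m z) ord V.ncard R α r χ a v n cj ∧
      Sgn m (fun i => -turn m z i) α r (fun i => f (z i)) (mixedPts P m z f) := by
  obtain ⟨⟨-, hc, -⟩, n, C, A, h1, h2, h3, h4, h5, h6, h7⟩ := hN
  have hf : PW P f C A := ⟨fun i => (h1 i).1, fun i => (h1 i).2.1, fun i => (h1 i).2.2.1,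
    fun i => (h1 i).2.2.2, h2, h4, hP.null⟩
  obtain ⟨N, hN, hcut⟩ := tree_cut h6
  obtain ⟨M, w, ι, U, p1, p2, p3, p4, p5, p6⟩ := exists_fine hP hf (hN.union hS.fin)
  have hF : FineNet P M w f C A U := ⟨p1, hf, h5, fun q hq hU => hcut q hq fun h => hU (p3 (Or.inl h)),
    p4, p5, p6, fun q hq hU => h3 ▸ hS.dens_flat (h3 ▸ hq) fun h => hU (p3 (Or.inr h))⟩
  obtain ⟨σ, hG⟩ := hF.glue
  obtain ⟨ε, hε, hA⟩ := hF.angle
  have hp := Real.pi_pos
  have e2 : exp (ε * (2 * π : ℝ) * I) = 1 := by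
    rcases hε with rfl | rfl
    · simp
    · push_cast; rw [neg_one_mul, neg_mul, exp_neg, exp_two_pi_mul_I, inv_one]
  set χ := exp (ε * (2 * π - 2 * (π / ord) : ℝ) * I) with hχ
  have prim : IsPrimitiveRoot χ ord := by
    have : χ = exp (ε * (2 * π : ℝ) * I) * exp (-ε * (2 * (π / ord) : ℝ) * I) := by
      rw [hχ, ← exp_add]; congr 1; push_cast; ring
    rw [this, e2, one_mul]
    rcases hε with rfl | rfl
    · have := (zt_prim hord).inv
      rwa [zt, ← exp_neg, ← neg_one_mul, ← mul_assoc, ← ofReal_one] at this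
    · have := zt_prim hord
      rw [zt] at this
      simpa using this
  have fr : ∀ a < M, f (w a) ∈ frontier (convexHull ℝ V) := fun a ha =>
    h3 ▸ ⟨_, hP.closed.frontier_subset (pt_zero w a ▸ hF.fr ha le_rfl zero_le_one), rfl⟩
  have hord' : (3 : ℝ) ≤ ord := by exact_mod_cast hord
  have h8 : π / ord ≤ π / 3 := by gcongr
  obtain ⟨α, r, q1, q2, q3, q4, q5, q6⟩ := side_of_glue3 p2 hG V (χ := χ)
    (fun h => by have := Nat.le_of_dvd two_pos ((prim.pow_eq_one_iff_dvd 2).1 h); omega)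
    (prim.norm'_eq_one (by omega)) (fun a ha => by
      split_ifs with h9
      · exact hA a ha _ _ (by linarith) (h3 ▸ hang ▸ hS.dens_vertex h9)
      · rw [← e2]
        exact hA a ha _ _ (by positivity) (h3 ▸ hS.dens_flat (fr a ha) h9)) (by
      intro v hv
      obtain ⟨y, h9, rfl⟩ := h7 hv
      obtain ⟨j, hj, u, ⟨h10, h11⟩, rfl⟩ := (p1.front y).1 h9
      rcases h10.eq_or_lt with rfl | h12
      · exact ⟨j, hj, by rw [pt_zero]⟩
      rcases h11.eq_or_lt with rfl | h13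
      · rcases (Nat.succ_le_of_lt hj).eq_or_lt with h5 | h5
        · exact ⟨0, by omega, by rw [pt_one, ← p1.close, ← h5]⟩
        · exact ⟨j + 1, h5, by rw [pt_one]⟩
      · exact absurd (p3 (Or.inr hv)) (p6 j hj u h12 h13))
  obtain ⟨a, v, t1, t2⟩ := lattice hS hL hf hc h3
  have hz : ∀ j < m, z j ∈ P := fun j hj => hP.closed.frontier_subset
    ((hP.front _).2 ⟨j, hj, 0, ⟨le_rfl, zero_le_one⟩, pt_zero z j⟩)
  have hx : ∀ j, ∃ x c, R x c ∧ (j < m → α j ≠ 1 → z j = a + v * x ∧ c = col (f (z j))) := by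
    intro j
    by_cases h9 : j < m ∧ α j ≠ 1
    · obtain ⟨x, h10, h11⟩ := t2 _ (hz j h9.1) (p2.pt j h9.1.le ▸ q4.1 h9)
      exact ⟨x, _, h10, fun _ _ => ⟨h11, rfl⟩⟩
    · exact ⟨_, _, hL.crn 0, fun h10 h11 => absurd ⟨h10, h11⟩ h9⟩
  choose x cj t3 t4 using hx
  have cnt : ∀ (q : ℕ → Prop) [DecidablePred q] (W : Set E3), (∀ j < m, α j ≠ 1 →
      (q j ↔ f (z j) ∈ W)) → ((Finset.range m).filter (fun j => α j ≠ 1 ∧ q j)).card =
      (V ∩ W).ncard := by
    intro q _ W h9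
    rw [← ncard_coe_finset]
    refine BijOn.ncard_eq (f := fun i => f (w (ι i))) ⟨?_, ?_, ?_⟩
    · intro j hj
      simp only [Finset.coe_filter, Finset.mem_range, mem_ofPred_eq] at hj
      exact ⟨q4.1 ⟨hj.1, hj.2.1⟩, by
        simp only [p2.pt j hj.1.le]; exact (h9 j hj.1 hj.2.1).1 hj.2.2⟩
    · refine q4.2.1.mono fun j hj => ?_
      simp only [Finset.coe_filter, Finset.mem_range, mem_ofPred_eq] at hj
      exact ⟨hj.1, hj.2.1⟩
    · rintro y ⟨h10, h11⟩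
      obtain ⟨j, hj, rfl⟩ := q4.2.2 h10
      refine ⟨j, ?_, rfl⟩
      simp only [Finset.coe_filter, Finset.mem_range, mem_ofPred_eq]
      simp only [p2.pt j hj.1.le] at h11
      exact ⟨hj.1, hj.2, (h9 j hj.1 hj.2).2 h11⟩
  refine ⟨α, r, χ, a, v, x, cj, ⟨q1, prim, q2, ?_, q3, ?_, fun j hj h9 => (t4 j hj h9).1, t3⟩,
    fun i hi j hj he => q5 i hi j hj (by simpa only [p2.pt i hi.le, p2.pt j hj.le] using he),
    fun i hi h9 => q6 i hi ?_⟩
  · simpa using cnt (fun _ => True) univ (fun _ _ _ => by simp)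
  · rintro rfl
    simp at t1
    linarith [hS.spos]
  · intro j hj h10
    by_contra h11
    refine h9 ⟨⟨_, ⟨i, hi, rfl⟩, rfl⟩, w j, ⟨pt_zero w j ▸ hF.fr hj le_rfl zero_le_one, ?_⟩, ?_⟩
    · rintro ⟨i', h12, h13⟩
      rw [← p2.pt i' (le_of_lt h12)] at h13
      exact h11 ⟨i', h12, (p1.inj _ (p2.ltM h12) j hj 0 0 le_rfl one_pos le_rfl one_pos
        (by rwa [pt_zero, pt_zero])).1⟩
    · simp only at h10 ⊢
      rw [← h10, p2.pt i hi.le]

theorem fold_of_sim3 {V : Set E3} {k nF dg : ℕ} {s : ℝ} {cc : ℕ → ZMod 3} {col : E3 → ZMod 3}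
    (hS : IsSolid V k nF dg s cc col) {R : ℂ → ZMod 3 → Prop}
    (hL : Lat k R cc) {ord : ℕ} (hord : 3 ≤ ord)
    (hang : dg * (π - 2 * (π / k)) = 2 * π - 2 * (π / ord)) {P : Set ℂ} {m : ℕ} {z : ℕ → ℂ}
    (hP : Poly P m z) {f : ℂ → E3} (hN : FoldsSim V P f) :
    ∃ α r χ a v n cj, Fold m z (turn m z) ord V.ncard R α r χ a v n cj ∧
      Sgn m (fun i => -turn m z i) α r (fun i => f (z i)) (mixedPts P m z f) := by
  obtain ⟨c, g, hc, hN⟩ := hN
  obtain ⟨ψ, l, o, nb, h⟩ := hS.map hc g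
  obtain ⟨α, r, χ, a, v, n, cj, h1, h2⟩ := fold_of_folds3 h hL hord hang hP hN
  have inj : Function.Injective (fun x : E3 => g (c • x)) := fun x y h =>
    smul_right_injective E3 hc.ne' (g.injective h)
  rw [ncard_image_of_injective _ inj] at h1
  exact ⟨α, r, χ, a, v, n, cj, h1, h2⟩

/-- The data extracted from any folding onto a solid similar to the one with vertex set `V`. -/
def Ze (V : Set E3) (o d : ℕ) : Prop :=
  ∀ (P : Set ℂ) (m : ℕ) (z : ℕ → ℂ) (f : ℂ → E3), Poly P m z → FoldsSim V P f →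
    ∃ α r χ a v n cj, Fold m z (turn m z) o (o * 2) (fun x _ => x ∈ On d) α r χ a v n cj ∧
      Sgn m (fun i => -turn m z i) α r (fun i => f (z i)) (mixedPts P m z f)

lemma cube_ze : Ze cubeV 4 15 := by
  intro P m z f hP hA
  obtain ⟨s, col, h1, h2, -⟩ := cube_chk.solid (by
    rw [zt_re, Nat.cast_ofNat, Real.cos_pi_div_four, div_pow, Real.sq_sqrt (by norm_num)]
    simp [ev]; norm_num) (fun j => rfl)
  rw [cube_img] at h1 h2
  have := fold_of_sim3 h1 (lat_ring (by norm_num) (On 15) (fun _ => conj_On)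
    fun u hu => mem_On (by norm_num) hu) (ord := 4) (by norm_num) (by push_cast; ring) hP hA
  rwa [h2] at this

lemma dodeca_ze : Ze dodecaV 10 6 := by
  intro P m z f hP hA
  obtain ⟨s, col, h1, h2, -⟩ := dode_chk.solid (by
    rw [zt_re, Nat.cast_ofNat, Real.cos_pi_div_five]
    have := Real.sq_sqrt (show (0 : ℝ) ≤ 5 by norm_num)
    simp only [ev, Real.goldenRatio]; push_cast
    linear_combination (-1 / 4 : ℝ) * this) (fun j => rfl)
  rw [dode_img] at h1 h2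
  have := fold_of_sim3 h1 (lat_ring (by norm_num) (On 6) (fun _ => conj_On)
    fun u hu => mem_On (by norm_num) hu) (ord := 10) (by norm_num) (by push_cast; ring) hP hA
  rwa [h2] at this

lemma icosa_ze : Ze icosaV 6 10 := by
  intro P m z f hP hA
  obtain ⟨s, col, h1, h2, -⟩ := icos_chk.solid (by
    rw [zt_re, Nat.cast_ofNat, Real.cos_pi_div_three]; simp [ev]; norm_num) (fun j => rfl)
  rw [icos_img] at h1 h2
  have := fold_of_sim3 h1 (lat_ring (by norm_num) (On 10) (fun _ => conj_On)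
    fun u hu => mem_On (by norm_num) hu) (ord := 6) (by norm_num) (by push_cast; ring) hP hA
  rwa [h2] at this

theorem Ze.six {V W : Set E3} {oA oB dA dB : ℕ} (hA : Ze V oA dA) (hB : Ze W oB dB) (e : ℕ)
    (oA' : 60 = dA * oA) (oB' : 60 = dB * oB) (he : e.Coprime 60) (eA : e * dA % 60 = dA)
    (eB : e * dB % 60 = 59 * dB % 60) {P : Set ℂ} {f g : ℂ → E3} (hf : FoldsSim V P f)
    (hg : FoldsSim W P g) {m : ℕ} {z : ℕ → ℂ} (hz : Bdry P m z) :
    6 ≤ (mixedPts P m z f).encard + (mixedPts P m z g).encard := by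
  have hP := poly_of_param hf.choose_spec.choose_spec.2.net hz.1 hz.2.1 hz.2.2.1 hz.2.2.2
  obtain ⟨α, rA, χ, a, w, nA, cA, h1, h2⟩ := hA P m z f hP hf
  obtain ⟨β, rB, ψ, b, v, nB, cB, h3, h4⟩ := hB P m z g hP hg
  exact zip_final oA' oB' he eA eB h1.neg h3.neg (shoe_ne hf hP) h2 h4

end

end Pool.Agent.Lib.MP_f2d99b_co
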