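import Pool.Agent.Lib.MP_f2d99b_co.Edge2

namespace Pool.Agent.Lib.MP_f2d99b_co

noncomputable section

open Finset Complex

/-- Arc length along a subdivided equilateral polygon is an integer exactly at the old vertices. -/
lemma Refines.arc {m M : ℕ} {z w : ℕ → ℂ} {ι : ℕ → ℕ} (hR : Refines m z M w ι) {δ : ℝ}
    (hδ : ∀ i < m, ‖z (i + 1) - z i‖ = δ) : ∃ s : ℕ → ℝ,
      (∀ k, s (k + 1) = s k + ‖w (k + 1) - w k‖ / δ) ∧
      ∀ l ≤ M, (∃ n : ℤ, s l = n) ↔ ∃ i ≤ m, ι i = l := by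
  have d0 : 0 < δ := hδ 0 hR.pos ▸ norm_pos_iff.2 (sub_ne_zero.2 (hR.ne 0 hR.pos))
  set s : ℕ → ℝ := fun k => ∑ j ∈ range k, ‖w (j + 1) - w j‖ / δ with hs
  have s1 : ∀ k, s (k + 1) = s k + ‖w (k + 1) - w k‖ / δ := fun k => sum_range_succ _ k
  have st : ∀ i < m, ∀ k, ι i ≤ k → k < ι (i + 1) → s k < s (k + 1) ∧
      w (k + 1) - w k = ((s (k + 1) - s k : ℝ) : ℂ) * (z (i + 1) - z i) := by
    intro i hi k h1 h2
    obtain ⟨t, h3, h4⟩ := hR.dirs i hi k h1 h2
    have h5 : s (k + 1) - s k = t := by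
      rw [s1, h4, norm_mul, hδ i hi, norm_real, Real.norm_of_nonneg h3.le]
      field_simp
      ring
    exact ⟨by linarith, by rw [h5, h4]⟩
  have a1 : ∀ i < m, ∀ n, ι i + n ≤ ι (i + 1) →
      w (ι i + n) = z i + ((s (ι i + n) - s (ι i) : ℝ) : ℂ) * (z (i + 1) - z i) := by
    intro i hi n
    induction n with
    | zero => intro _; simp [hR.pt i hi.le]
    | succ n ih =>
      intro h
      have h1 := ih (by omega)
      have h2 := (st i hi (ι i + n) (by omega) (by omega)).2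
      rw [← add_assoc]
      push_cast at h1 h2 ⊢
      linear_combination h1 + h2
  have a2 : ∀ i ≤ m, s (ι i) = i := by
    intro i
    induction i with
    | zero => intro _; simp [hs, hR.zero]
    | succ i ih =>
      intro hi
      obtain ⟨n, hn⟩ := Nat.exists_eq_add_of_le (hR.mono i hi).le
      have h1 := a1 i hi n hn.ge
      rw [← hn, hR.pt _ hi, ih (by omega)] at h1
      have h2 : ((s (ι (i + 1)) - i - 1 : ℝ) : ℂ) * (z (i + 1) - z i) = 0 := by
        push_cast at h1 ⊢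
        linear_combination -h1
      have h3 := ofReal_eq_zero.1 ((mul_eq_zero.1 h2).resolve_right (sub_ne_zero.2 (hR.ne i hi)))
      push_cast
      linarith
  have mono : ∀ a n, a + n + 1 ≤ M → s a < s (a + n + 1) := by
    intro a n
    induction n with
    | zero =>
      intro h
      obtain ⟨i, hi, h1, h2⟩ := hR.loc (k := a) h
      exact (st i hi a h1 h2).1
    | succ n ih =>
      intro h
      obtain ⟨i, hi, h1, h2⟩ := hR.loc (k := a + n + 1) h
      exact (ih (by omega)).trans (st i hi _ h1 h2).1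
  refine ⟨s, s1, fun l hl => ⟨?_, ?_⟩⟩
  · rintro ⟨n, hn⟩
    rcases hl.eq_or_lt with rfl | hl
    · exact ⟨m, le_rfl, hR.last⟩
    obtain ⟨i, hi, h1, h2⟩ := hR.loc hl
    refine ⟨i, hi.le, h1.eq_or_lt.resolve_right fun h3 => ?_⟩
    obtain ⟨a, ha⟩ := Nat.exists_eq_add_of_lt h3
    obtain ⟨b, hb⟩ := Nat.exists_eq_add_of_lt h2
    have h4 := mono (ι i) a (by omega)
    have h5 := mono l b (by rw [← hb, ← hR.last]; exact hR.le hi le_rfl)
    rw [← ha, a2 i hi.le, hn] at h4
    rw [← hb, a2 _ hi, hn] at h5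
    have h6 : (i : ℤ) < n := by exact_mod_cast h4
    have h7 : n < (i : ℤ) + 1 := by exact_mod_cast h5
    omega
  · rintro ⟨i, hi, rfl⟩
    exact ⟨i, by rw [a2 i hi]; simp⟩

/-- A folding of an equilateral polygon glues vertices to vertices only. -/
theorem no_mixed {X : Type} {m M : ℕ} {z w : ℕ → ℂ} {ι σ : ℕ → ℕ} {p : ℕ → X}
    (hR : Refines m z M w ι) (hG : Glue M w σ p) {δ : ℝ} (hδ : ∀ i < m, ‖z (i + 1) - z i‖ = δ)
    (three : ∀ a < M, ∀ b < M, ∀ c < M, a ≠ b → a ≠ c → b ≠ c → p a = p b → p a = p c →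
      turn M w a = 1 → turn M w b = 1 → False)
    (leaf : ∀ a < M, (∀ b < M, p a = p b → b = a) → turn M w a ≠ 1) :
    ∀ i < m, ∀ l < M, p (ι i) = p l → ∃ j < m, ι j = l := by
  obtain ⟨s, s1, s2⟩ := hR.arc hδ
  have flat : ∀ l < M, (¬ ∃ n : ℤ, s l = n) → turn M w l = 1 := fun l hl h =>
    hR.turn_off hl fun i hi h1 => h ((s2 l hl.le).2 ⟨i, hi.le, h1⟩)
  have sub : ∀ a b, (∃ n : ℤ, s a + s b = n) → (∃ n : ℤ, s b = n) → ∃ n : ℤ, s a = n := by
    rintro a b ⟨n, h1⟩ ⟨k, h2⟩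
    exact ⟨n - k, by push_cast; linarith⟩
  have sw : ∀ k < M, s k + s (σ k + 1) = s (k + 1) + s (σ k) := by
    intro k hk
    rw [s1, s1, hG.len k hk]; ring
  have p2 : ∀ k < M, p (σ k + 1) = p k := fun k hk => by
    rw [← hG.p1 _ (hG.lt k hk), hG.inv k hk]
  have ltM : ∀ l ≤ M, (¬ ∃ n : ℤ, s l = n) → l < M := fun l hl h =>
    lt_of_le_of_ne hl fun h1 => h ((s2 l hl).2 ⟨m, le_rfl, hR.last.trans h1.symm⟩)
  have sing : ∀ k < M, σ k = k + 1 → ∀ b < M, p (k + 1) = p b → b = k + 1 := by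
    intro k hk h1 b hb h2
    by_contra h3
    exact hG.sep k hk (by omega) (k + 1) b (by omega) (by omega) hb.le (by omega) h2
  have key : ∀ d k, k < M → σ k = k + d + 1 → ∃ n : ℤ, s (k + 1) + s (σ k) = n := by
    intro d
    induction d using Nat.strong_induction_on with
    | _ d ih =>
      intro k hk hd
      have hb := hG.lt k hk
      have hp := hG.p1 k hk
      have hi := hG.inv k hk
      have ins : ∀ a j, k < a → a ≤ σ k → j < M → p j = p a → k < j ∧ j ≤ σ k := by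
        intro a j h1 h2 h3 h4
        by_contra h5
        exact hG.sep k hk (by omega) a j h1 h2 h3.le (by omega) h4.symm
      by_cases ha : ∃ n : ℤ, s (k + 1) = n
      · by_cases hb' : ∃ n : ℤ, s (σ k) = n
        · obtain ⟨n, h1⟩ := ha
          obtain ⟨n', h2⟩ := hb'
          exact ⟨n + n', by push_cast; linarith⟩
        exfalso
        have h0 : d ≠ 0 := by rintro rfl; exact hb' (hd ▸ ha)
        have he : k + d < M := by omega
        have h1 := hG.p1 _ he
        have h2 := ins (k + d + 1) _ (by omega) (by omega) (hG.lt _ he) h1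
        have h3 := hG.nfix _ he
        have h4 := hG.inv _ he
        have h5 : σ (k + d) ≠ σ k := fun h => by rw [h, hi] at h4; omega
        obtain ⟨d', h6⟩ := Nat.exists_eq_add_of_lt (show σ (k + d) < k + d by omega)
        have h7 := ih d' (by omega) _ (hG.lt _ he) (h4.trans h6)
        rw [← sw _ (hG.lt _ he), h4, ← hd, add_comm] at h7
        have h8 : ¬ ∃ n : ℤ, s (σ (k + d)) = n := fun h => hb' (sub _ _ h7 h)
        exact three _ hb _ (hG.lt _ he) (k + 1) (by omega) h5.symm (by omega)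
          (fun h => h8 (h ▸ ha)) (by rw [h1, hd]) hp (flat _ hb hb') (flat _ (hG.lt _ he) h8)
      · have hk1 : k + 1 < M := by omega
        rcases Nat.eq_zero_or_pos d with rfl | h0
        · exact absurd (flat _ hk1 ha) (leaf _ hk1 (sing k hk hd))
        have h1 := hG.p1 _ hk1
        have h2 := ins (k + 1 + 1) _ (by omega) (by omega) (hG.lt _ hk1) h1
        have h3 := hG.nfix _ hk1
        have h4 := hG.inv _ hk1
        have h5 : σ (k + 1) ≠ σ k := fun h => by rw [h, hi] at h4; omega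
        obtain ⟨d', h6⟩ := Nat.exists_eq_add_of_lt (show k + 1 < σ (k + 1) by omega)
        have h7 := ih d' (by omega) _ hk1 h6
        rw [← sw _ hk1] at h7
        by_cases h8 : σ (k + 1) + 1 = σ k
        · rwa [h8] at h7
        exfalso
        have h9 : ¬ ∃ n : ℤ, s (σ (k + 1) + 1) = n := fun h => ha (sub _ _ h7 h)
        exact three _ hk1 (σ (k + 1) + 1) (by omega) _ hb (by omega) (by omega) h8
          (p2 _ hk1).symm hp.symm (flat _ hk1 ha) (flat _ (by omega) h9)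
  have all : ∀ k < M, ∃ n : ℤ, s k + s (σ k + 1) = n := by
    intro k hk
    rcases lt_or_gt_of_ne (hG.nfix k hk) with h | h
    · obtain ⟨d, hd⟩ := Nat.exists_eq_add_of_lt h
      have := key d _ (hG.lt k hk) ((hG.inv k hk).trans hd)
      rwa [hG.inv k hk, add_comm] at this
    · obtain ⟨d, hd⟩ := Nat.exists_eq_add_of_lt h
      rw [sw k hk]
      exact key d k hk hd
  intro i hi l hl he
  by_contra h1
  have h2 : ¬ ∃ n : ℤ, s l = n := fun h => by
    obtain ⟨j, h3, h4⟩ := (s2 l hl.le).1 h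
    rcases h3.eq_or_lt with rfl | h3
    · rw [hR.last] at h4; omega
    · exact h1 ⟨j, h3, h4⟩
  have h3 : ¬ ∃ n : ℤ, s (σ l + 1) = n := fun h => h2 (sub _ _ (all l hl) h)
  have h4 := ltM _ (hG.lt l hl) h3
  have h5 := (s2 _ (hR.ltM hi).le).2 ⟨i, hi.le, rfl⟩
  by_cases h6 : σ l + 1 = l
  · have h7 := sing _ (hG.lt l hl) (by rw [hG.inv l hl, h6]) _ (hR.ltM hi) (by rw [h6, he])
    exact h3 (h7 ▸ h5)
  · exact three l hl _ h4 _ (hR.ltM hi) (Ne.symm h6) (fun h => h2 (h ▸ h5))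
      (fun h => h3 (by rw [← h] at h5; exact h5)) (p2 l hl).symm he.symm (flat l hl h2) (flat _ h4 h3)

end

end Pool.Agent.Lib.MP_f2d99b_co
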