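import Pool.Agent.Lib.MP_f2d99b_co.Edge3

namespace Pool.Agent.Lib.MP_f2d99b_co

noncomputable section

open Set Complex MeasureTheory Metric Filter Topology
open scoped Real

open Classical in
lemma FineNet.three {P : Set ℂ} {M : ℕ} {w : ℕ → ℂ} {f : ℂ → E3} {n : ℕ} {C : Fin n → Set ℂ}
    {A : Fin n → ℂ →ᵃⁱ[ℝ] E3} {U : Set E3} (h : FineNet P M w f C A U) {a b c : ℕ}
    (ha : a < M) (hb : b < M) (hc : c < M) (ab : a ≠ b) (ac : a ≠ c) (bc : b ≠ c)
    (e1 : f (w a) = f (w b)) (e2 : f (w a) = f (w c)) (t1 : turn M w a = 1) (t2 : turn M w b = 1)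
    {Θ : ℝ} (h0 : 0 ≤ Θ) (hΘ : Θ ≤ 2 * π) (h1 : ∀ᶠ r in 𝓝[>] (0 : ℝ),
      μHE[2] (f '' P ∩ ball (f (w a)) r) = ENNReal.ofReal (Θ * r ^ 2 / 2)) : False := by
  obtain ⟨ε, hε, hd, -⟩ := h.poly.density
  have hd' : ∀ i, ∃ θ : ℝ, i < M → 0 < θ ∧ exp (ε * θ * I) = - turn M w i ∧ Dens P (w i) θ := by
    intro i
    by_cases hi : i < M
    · obtain ⟨θ, h2⟩ := hd i hi
      exact ⟨θ, fun _ => h2⟩
    · exact ⟨0, fun h2 => absurd h2 hi⟩
  choose θ hθ using hd'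
  have inj : InjOn w (Iio M) := fun i hi j hj he =>
    (h.poly.inj i hi j hj 0 0 le_rfl one_pos le_rfl one_pos (by rwa [pt_zero, pt_zero])).1
  have fr : ∀ l < M, w l ∈ frontier P := fun l hl => pt_zero w l ▸ h.fr hl le_rfl zero_le_one
  have fib : ∀ y ∈ P, f y = f (w a) → ∃ l < M, y = w l := by
    intro y hy he
    obtain ⟨l, hl, u, h2, h3, rfl⟩ := h.fib ⟨_, fr a ha, rfl⟩ hy he
    rcases h2.eq_or_lt with rfl | h4
    · exact ⟨l, hl, pt_zero w l⟩
    rcases h3.eq_or_lt with rfl | h5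
    · rcases (Nat.succ_le_of_lt hl).eq_or_lt with h5 | h5
      · exact ⟨0, by omega, by rw [pt_one, ← h.poly.close, ← h5]⟩
      · exact ⟨l + 1, h5, pt_one w l⟩
    · exact absurd (he ▸ h.inU a ha.le) (h.offU l hl u h4 h5)
  have hs := h.pw.dens_sum (f (w a)) h0 h1 (fun y => θ (Function.invFunOn w (Iio M) y)) (by
    intro y hy he
    obtain ⟨l, hl, rfl⟩ := fib y hy he
    rw [inj.leftInvOn_invFunOn hl]
    exact ⟨(hθ l hl).1.le, (hθ l hl).2.2⟩)
  have e : (h.pw.fib_finite (f (w a))).toFinset =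
      ((Finset.range M).filter (fun l => f (w a) = f (w l))).image w := by
    ext y
    simp only [Finite.mem_toFinset, mem_ofPred_eq, Finset.mem_image, Finset.mem_filter,
      Finset.mem_range]
    constructor
    · rintro ⟨h2, h3⟩
      obtain ⟨l, hl, rfl⟩ := fib y h2 h3
      exact ⟨l, ⟨hl, h3.symm⟩, rfl⟩
    · rintro ⟨l, ⟨hl, h2⟩, rfl⟩
      exact ⟨h.poly.closed.frontier_subset (fr l hl), h2.symm⟩
  rw [e, Finset.sum_image (fun i hi j hj => inj (Finset.mem_range.1 (Finset.mem_filter.1 hi).1)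
    (Finset.mem_range.1 (Finset.mem_filter.1 hj).1)), Finset.sum_congr rfl (g := θ) (fun l hl => by
      rw [inj.leftInvOn_invFunOn (Finset.mem_range.1 (Finset.mem_filter.1 hl).1)])] at hs
  have fl : ∀ l < M, turn M w l = 1 → π ≤ θ l := by
    intro l hl h2
    have h3 := congrArg Complex.re (hθ l hl).2.1
    rw [h2, ← ofReal_mul, exp_ofReal_mul_I_re] at h3
    have h4 : Real.cos (θ l) = -1 := by
      rcases hε with rfl | rfl
      · simpa using h3
      · simpa using h3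
    by_contra h5
    have := Real.cos_lt_cos_of_nonneg_of_le_pi (hθ l hl).1.le le_rfl (not_le.1 h5)
    rw [h4, Real.cos_pi] at this
    exact lt_irrefl _ this
  have h2 : ∑ l ∈ ({a, b, c} : Finset ℕ), θ l ≤
      ∑ l ∈ (Finset.range M).filter (fun l => f (w a) = f (w l)), θ l := by
    refine Finset.sum_le_sum_of_subset_of_nonneg ?_ fun l hl _ =>
      (hθ l (Finset.mem_range.1 (Finset.mem_filter.1 hl).1)).1.le
    intro l hl
    simp only [Finset.mem_insert, Finset.mem_singleton] at hl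
    rcases hl with rfl | rfl | rfl
    exacts [Finset.mem_filter.2 ⟨Finset.mem_range.2 ha, rfl⟩,
      Finset.mem_filter.2 ⟨Finset.mem_range.2 hb, e1⟩,
      Finset.mem_filter.2 ⟨Finset.mem_range.2 hc, e2⟩]
  rw [Finset.sum_insert (by simp [ab, ac]), Finset.sum_pair bc] at h2
  linarith [fl a ha t1, fl b hb t2, (hθ c hc).1]

variable {V : Set E3} {k nF dg : ℕ} {s : ℝ} {cc : ℕ → ZMod 3} {col : E3 → ZMod 3}
  {ψ : Fin nF → ℂ →ᵃⁱ[ℝ] E3} {l : Fin nF → E3 →ᵃ[ℝ] ℝ} {o : E3} {nb : Fin nF → ℕ → Fin nF}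

theorem mixed_empty (hS : Solid V k nF dg s cc col ψ l o nb) {ord : ℕ} (hord : 3 ≤ ord)
    (hang : dg * (π - 2 * (π / k)) = 2 * π - 2 * (π / ord)) {P : Set ℂ} {m : ℕ} {z : ℕ → ℂ}
    (hP : Poly P m z) {f : ℂ → E3} (hN : Folds V P f) {δ : ℝ}
    (hδ : ∀ i < m, ‖z (i + 1) - z i‖ = δ) : mixedPts P m z f = ∅ := by
  classical
  obtain ⟨⟨-, hc, -⟩, n, C, A, h1, h2, h3, h4, h5, h6, h7⟩ := hN
  have hf : PW P f C A := ⟨fun i => (h1 i).1, fun i => (h1 i).2.1, fun i => (h1 i).2.2.1,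
    fun i => (h1 i).2.2.2, h2, h4, hP.null⟩
  obtain ⟨N, hN, hcut⟩ := tree_cut h6
  obtain ⟨M, w, ι, U, p1, p2, p3, p4, p5, p6⟩ := exists_fine hP hf (hN.union hS.fin)
  have hF : FineNet P M w f C A U := ⟨p1, hf, h5, fun q hq hU => hcut q hq fun h => hU (p3 (Or.inl h)),
    p4, p5, p6, fun q hq hU => h3 ▸ hS.dens_flat (h3 ▸ hq) fun h => hU (p3 (Or.inr h))⟩
  obtain ⟨σ, hG⟩ := hF.glue
  obtain ⟨ε, hε, hA⟩ := hF.angle
  have hp := Real.pi_pos
  have fr : ∀ a < M, f (w a) ∈ frontier (convexHull ℝ V) := fun a ha =>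
    h3 ▸ ⟨_, hP.closed.frontier_subset (pt_zero w a ▸ hF.fr ha le_rfl zero_le_one), rfl⟩
  have hord' : (3 : ℝ) ≤ ord := by exact_mod_cast hord
  have h8 : π / ord ≤ π / 3 := by gcongr
  have h9 : 0 < π / ord := by positivity
  have dn : ∀ a < M, ∃ t : ℝ, 0 ≤ t ∧ t < π ∧ ∀ᶠ r in 𝓝[>] (0 : ℝ),
      μHE[2] (f '' P ∩ ball (f (w a)) r) = ENNReal.ofReal ((2 * π - t) * r ^ 2 / 2) := by
    intro a ha
    by_cases h10 : f (w a) ∈ V
    · exact ⟨2 * (π / ord), by linarith, by linarith, h3 ▸ hang ▸ hS.dens_vertex h10⟩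
    · exact ⟨0, le_rfl, hp, by rw [sub_zero]; exact h3 ▸ hS.dens_flat (fr a ha) h10⟩
  have key := no_mixed p2 hG hδ (fun a ha b hb c hc ab ac bc e1 e2 t1 t2 => by
    obtain ⟨t, h10, h11, h12⟩ := dn a ha
    exact hF.three ha hb hc ab ac bc e1 e2 t1 t2 (by linarith) (by linarith) h12) (by
    intro a ha h10 h11
    obtain ⟨t, h12, h13, h14⟩ := dn a ha
    have h15 := hA a ha inferInstance _ (by linarith) h14
    have h18 : (Finset.range M).filter (fun l => f (w a) = f (w l)) = {a} := by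
      refine Finset.eq_singleton_iff_unique_mem.2 ⟨?_, fun b hb => ?_⟩
      · exact Finset.mem_filter.2 ⟨Finset.mem_range.2 ha, rfl⟩
      · obtain ⟨h18, h19⟩ := Finset.mem_filter.1 hb
        exact h10 b (Finset.mem_range.1 h18) h19
    rw [h18, Finset.prod_singleton, h11, ← ofReal_mul] at h15
    have h16 := congrArg Complex.re h15
    rw [exp_ofReal_mul_I_re] at h16
    have h17 : Real.cos t = -1 := by
      rcases hε with rfl | rfl
      · simpa [Real.cos_two_pi_sub] using h16.symm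
      · rw [neg_one_mul, Real.cos_neg, Real.cos_two_pi_sub] at h16
        simpa using h16.symm
    have := Real.cos_lt_cos_of_nonneg_of_le_pi h12 le_rfl h13
    rw [h17, Real.cos_pi] at this
    exact lt_irrefl _ this)
  rw [eq_empty_iff_forall_notMem]
  rintro _ ⟨⟨_, ⟨i, hi, rfl⟩, rfl⟩, y, ⟨h10, h11⟩, h12⟩
  have hz : w (ι i) = z i := p2.pt i (le_of_lt hi)
  have : ∃ j < M, y = w j := by
    obtain ⟨j, hj, u, ⟨h13, h14⟩, rfl⟩ := (p1.front y).1 h10
    rcases h13.eq_or_lt with rfl | h15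
    · exact ⟨j, hj, pt_zero w j⟩
    rcases h14.eq_or_lt with rfl | h16
    · rcases (Nat.succ_le_of_lt hj).eq_or_lt with h5 | h5
      · exact ⟨0, by omega, by rw [pt_one, ← p1.close, ← h5]⟩
      · exact ⟨j + 1, h5, pt_one w j⟩
    · exact absurd (h12 ▸ hz ▸ p5 _ (p2.ltM hi).le) (p6 j hj u h15 h16)
  obtain ⟨j, hj, rfl⟩ := this
  obtain ⟨i', h13, rfl⟩ := key i hi j hj (by simp only [hz, h12])
  exact h11 ⟨i', h13, (p2.pt i' h13.le).symm⟩

theorem mixed_empty_sim (hS : IsSolid V k nF dg s cc col) {ord : ℕ} (hord : 3 ≤ ord)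
    (hang : dg * (π - 2 * (π / k)) = 2 * π - 2 * (π / ord)) {P : Set ℂ} {m : ℕ} {z : ℕ → ℂ}
    (hP : Bdry P m z) {f : ℂ → E3} (hN : FoldsSim V P f) {δ : ℝ}
    (hδ : ∀ i < m, ‖z (i + 1) - z i‖ = δ) : mixedPts P m z f = ∅ := by
  obtain ⟨c, g, hc, hN⟩ := hN
  obtain ⟨ψ, l, o, nb, h⟩ := hS.map hc g
  exact mixed_empty h hord hang (poly_of_param hN.net hP.1 hP.2.1 hP.2.2.1 hP.2.2.2) hN hδ

theorem mixed_empty_three {V : Set E3} (hV : V ∈ ({cubeV, dodecaV, icosaV} : Set (Set E3)))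
    {P : Set ℂ} {m : ℕ} {z : ℕ → ℂ} (hP : Bdry P m z) {f : ℂ → E3} (hN : FoldsSim V P f) {δ : ℝ}
    (hδ : ∀ i < m, ‖z (i + 1) - z i‖ = δ) : mixedPts P m z f = ∅ := by
  rcases hV with rfl | rfl | rfl
  · obtain ⟨s, col, h1, -⟩ := cube_chk.solid (by
      rw [zt_re, Nat.cast_ofNat, Real.cos_pi_div_four, div_pow, Real.sq_sqrt (by norm_num)]
      simp [ev]; norm_num) (fun j => rfl)
    rw [cube_img] at h1
    exact mixed_empty_sim h1 (ord := 4) (by norm_num) (by push_cast; ring) hP hN hδ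
  · obtain ⟨s, col, h1, -⟩ := dode_chk.solid (by
      rw [zt_re, Nat.cast_ofNat, Real.cos_pi_div_five]
      have := Real.sq_sqrt (show (0 : ℝ) ≤ 5 by norm_num)
      simp only [ev, Real.goldenRatio]; push_cast
      linear_combination (-1 / 4 : ℝ) * this) (fun j => rfl)
    rw [dode_img] at h1
    exact mixed_empty_sim h1 (ord := 10) (by norm_num) (by push_cast; ring) hP hN hδ
  · obtain ⟨s, col, h1, -⟩ := icos_chk.solid (by
      rw [zt_re, Nat.cast_ofNat, Real.cos_pi_div_three]; simp [ev]; norm_num) (fun j => rfl)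
    rw [icos_img] at h1
    exact mixed_empty_sim h1 (ord := 6) (by norm_num) (by push_cast; ring) hP hN hδ

end

end Pool.Agent.Lib.MP_f2d99b_co
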