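import Pool.Agent.Lib.MP_f2d99b_co.Arith

namespace Pool.Agent.Lib.MP_f2d99b_co

noncomputable section

open Finset Complex

/-- Twice the signed area of the closed polygon. -/
def shoe (m : ℕ) (z : ℕ → ℂ) : ℝ := ∑ i ∈ range m, E (z i) (z (i + 1))

/-- All the data extracted from one folding. -/
structure Fold (m : ℕ) (z τ : ℕ → ℂ) (ord nV : ℕ) (R : ℂ → ZMod 3 → Prop) (α : ℕ → ℂ)
    (r : ℕ → ℕ → Prop) (χ a v : ℂ) (n : ℕ → ℂ) (col : ℕ → ZMod 3) : Prop where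
  side : Side m z τ α r
  prim : IsPrimitiveRoot χ ord
  val : ∀ j, α j = 1 ∨ α j = χ
  card : ((range m).filter (fun j => α j ≠ 1)).card = nV
  area : ar z α 0 m 0 = shoe m z
  vne : v ≠ 0
  pos : ∀ j < m, α j ≠ 1 → z j = a + v * n j
  lat : ∀ j, R (n j) (col j)

lemma cluster_prod {α β : ℕ → ℂ} {χ ψ : ℂ} (hα : ∀ j, α j = 1 ∨ α j = χ)
    (hβ : ∀ j, β j = 1 ∨ β j = ψ) (Y : Finset ℕ) :
    ∏ i ∈ Y, α i / β i = χ ^ (Y.filter (fun i => α i ≠ 1)).card /
      ψ ^ (Y.filter (fun i => β i ≠ 1)).card := by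
  rw [prod_div_distrib, prod_eq_pow hα, prod_eq_pow hβ]

lemma octa_sum {m : ℕ} {β : ℕ → ℂ} {col : ℕ → ZMod 3}
    (h : ∀ c, ((range m).filter (fun j => β j ≠ 1 ∧ col j = c)).card = 2) :
    ∑ j ∈ (range m).filter (fun j => β j ≠ 1), col j ^ 2 = 1 := by
  rw [← sum_fiberwise (s := (range m).filter (fun j => β j ≠ 1)) (g := col)]
  have : ∀ c, ∑ j ∈ ((range m).filter (fun j => β j ≠ 1)).filter (fun j => col j = c), col j ^ 2
      = 2 * c ^ 2 := by
    intro c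
    rw [filter_filter, sum_congr rfl (g := fun _ => c ^ 2) (fun j hj => by
      rw [(mem_filter.1 hj).2.2]), sum_const, h c]
    simp
  simp only [this]
  decide

lemma octa_N {m : ℕ} {z τ β : ℕ → ℂ} {rB : ℕ → ℕ → Prop} {ψ b v : ℂ} {n : ℕ → ℂ}
    {col : ℕ → ZMod 3} (hB : Fold m z τ 3 6 Eis β rB ψ b v n col)
    (h : ∀ c, ((range m).filter (fun j => β j ≠ 1 ∧ col j = c)).card = 2) :
    ∃ N : ℤ, N ≠ 0 ∧ ar n β 0 m 0 = √3 / 2 * N := by
  obtain ⟨ε, h0, h1⟩ := octa_area hB.prim hB.val hB.lat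
  obtain ⟨_, N, h2, h3⟩ := h1 m
  rw [octa_sum h, mul_one] at h3
  refine ⟨N, ?_, h2⟩
  rintro rfl
  exact h0 (by simpa using h3.symm)

theorem final60 {m : ℕ} {z τ α β : ℕ → ℂ} {rA rB : ℕ → ℕ → Prop} {χ a w ψ b v : ℂ}
    {nA nB : ℕ → ℂ} {cA cB : ℕ → ZMod 3} {p : ℕ} (hp : p = 2 ∨ p = 5)
    (hA : Fold m z τ (2 * p) (4 * p) (fun x _ => x ∈ O20) α rA χ a w nA cA)
    (hB : Fold m z τ 3 6 Eis β rB ψ b v nB cB)
    (h : ∀ c, ((range m).filter (fun j => β j ≠ 1 ∧ cB j = c)).card = 2) : False := by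
  have hχ : χ ∈ O20 := by
    apply mem_O20
    rw [hA.prim.pow_eq_one_iff_dvd]
    rcases hp with rfl | rfl <;> norm_num
  have hαO : ∀ j, α j ∈ O20 := fun j => by
    rcases hA.val j with h1 | h1 <;> rw [h1]
    exacts [O20.one_mem, hχ]
  have hαK : ∀ j, α j ∈ K60 := fun j => O20_le (hαO j)
  have hβK : ∀ j, β j ∈ K60 := fun j => by
    rcases hB.val j with h1 | h1 <;> rw [h1]
    exacts [K60.one_mem, (Eis_prim3 hB.prim).mem60]
  obtain ⟨c, -, -, h3⟩ := two_sides (K := K60) hA.side hB.side hαK hβK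
  have hp0 : 0 < p := by omega
  obtain ⟨x, hx⟩ := h3 (card_le_four hp0 c (fun j => α j ≠ 1) hA.card _ (by
    intro j hj
    have h4 := (mem_filter.1 hj).2
    rw [cluster_prod hA.val hB.val] at h4
    generalize (((range m).filter (fun i => c i = j)).filter (fun i => α i ≠ 1)).card = k at *
    generalize (((range m).filter (fun i => c i = j)).filter (fun i => β i ≠ 1)).card = l at *
    have h5 : χ ^ (k * 3) = -1 := by
      have h6 : (χ ^ k / ψ ^ l) ^ 3 = -1 := by rw [h4]; norm_num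
      rwa [div_pow, ← pow_mul, ← pow_mul, mul_comm l, pow_mul ψ, hB.prim.pow_eq_one, one_pow,
        div_one] at h6
    have h6 : χ ^ (k * 3 * 2) = 1 := by rw [pow_mul, h5]; norm_num
    rw [hA.prim.pow_eq_one_iff_dvd] at h6
    have h7 : k ≠ 0 := by
      rintro rfl
      norm_num at h5
    rcases hp with rfl | rfl <;> omega))
  obtain ⟨sA1, sA2⟩ := shadow_area hA.side.unit hA.side.tot hA.vne hA.pos
  obtain ⟨sB1, sB2⟩ := shadow_area hB.side.unit hB.side.tot hB.vne hB.pos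
  obtain ⟨N, hN, hN'⟩ := octa_N hB h
  obtain ⟨-, y, hy, hy'⟩ := ar_mem O20 (fun x hx => conj_O20 hx) hA.lat hαO m
  rw [hy'] at sA1 sA2
  rw [hN'] at sB1 sB2
  have hr : y.im * ‖w‖ ^ 2 = √3 / 2 * N * ‖v‖ ^ 2 := by rw [← sA1, ← sB1, hA.area, hB.area]
  have hpos : 0 < y.im * (√3 / 2 * N) := by
    have h1 : 0 < ‖w‖ ^ 2 := by have := hA.vne; positivity
    have h2 : 0 < ‖v‖ ^ 2 := by have := hB.vne; positivity
    have h4 : (√3 / 2 * N : ℝ) ≠ 0 := by positivity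
    have h5 : 0 < (√3 / 2 * N : ℝ) ^ 2 * ‖v‖ ^ 2 := by positivity
    have h6 : y.im * (√3 / 2 * N) * ‖w‖ ^ 2 = (√3 / 2 * N : ℝ) ^ 2 * ‖v‖ ^ 2 := by
      linear_combination (√3 / 2 * N : ℝ) * hr
    rw [← h6] at h5
    exact (mul_pos_iff_of_pos_right h1).1 h5
  refine finish K60 hA.vne (fun s hs t ht => nonnorm60 hy hpos hs ht) hr (x := x) (fun φ hφ => ?_)
  have := hx φ hφ
  unfold DD at this
  rw [sA2 K60 hαK (fun j => O20_le (hA.lat j)), sB2 K60 hβK (fun j => (hB.lat j).mem60)] at this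
  linarith

/-- The subring of Eisenstein integers. -/
def O3 : Subring ℂ where
  carrier := {x | ∃ c, Eis x c}
  mul_mem' := fun ⟨_, h⟩ ⟨_, h'⟩ => ⟨_, h.mul h'⟩
  one_mem' := ⟨_, Eis_one⟩
  add_mem' := fun ⟨_, h⟩ ⟨_, h'⟩ => ⟨_, h.add h'⟩
  zero_mem' := ⟨_, Eis_zero⟩
  neg_mem' := fun ⟨_, h⟩ => ⟨_, h.neg⟩

lemma Eis.conj {x : ℂ} {c : ZMod 3} (h : Eis x c) : Eis ((starRingEnd ℂ) x) c := by
  obtain ⟨p, q, rfl, rfl⟩ := h
  refine ⟨p - q, -q, ?_, ?_⟩
  · simp only [map_add, map_mul, map_intCast, conj_w3]; push_cast; ring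
  · push_cast; linear_combination (-q : ZMod 3) * three_eq_zero

def Qe (δ : ℂ) (e : ZMod 3) (x : ℂ) : Prop := ∃ c, Eis (x - δ) c ∧ c ^ 2 = e

lemma Qe_rot {δ ctr χ : ℂ} {c0 k : ZMod 3} (h1 : Eis (ctr - δ) c0) (h2 : Eis χ k)
    (h3 : k = 1 ∨ (k = -1 ∧ c0 = 0)) {e : ZMod 3} {x : ℂ} (h : Qe δ e x) : Qe δ e (rot ctr χ x) := by
  obtain ⟨c, h4, h5⟩ := h
  refine ⟨c0 + k * (c - c0), ?_, ?_⟩
  · have := h1.add (h2.mul (h4.sub h1))
    have e1 : rot ctr χ x - δ = ctr - δ + χ * (x - δ - (ctr - δ)) := by unfold rot; ring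
    rwa [e1]
  · rcases h3 with rfl | ⟨rfl, rfl⟩
    · rw [← h5]; ring
    · rw [← h5]; ring

lemma Qe_rot_iff {δ ctr χ : ℂ} {c0 k : ZMod 3} (h0 : χ ≠ 0) (h1 : Eis (ctr - δ) c0) (h2 : Eis χ k)
    (h2' : Eis χ⁻¹ k) (h3 : k = 1 ∨ (k = -1 ∧ c0 = 0)) {e : ZMod 3} {x : ℂ} :
    Qe δ e (rot ctr χ x) ↔ Qe δ e x := by
  refine ⟨fun h => ?_, Qe_rot h1 h2 h3⟩
  have := Qe_rot h1 h2' h3 h
  rwa [rot_rot, inv_mul_cancel₀ h0, rot_one] at this

lemma Qe_walk {δ : ℂ} {e : ZMod 3} {z α : ℕ → ℂ} {a n : ℕ}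
    (h : ∀ j, a ≤ j → j < a + n → ∀ x, Qe δ e (rot (z j) (α j) x) ↔ Qe δ e x) (x : ℂ) :
    Qe δ e (walk z α a n x) ↔ Qe δ e x := by
  induction n with
  | zero => rfl
  | succ n ih =>
    rw [walk_succ, h _ (by omega) (by omega), ih (fun j h1 h2 => h j h1 (by omega))]

lemma Qe_side {K : Subfield ℂ} {δ : ℂ} {e : ZMod 3} {m : ℕ} {z τ α : ℕ → ℂ} {r : ℕ → ℕ → Prop}
    (hS : Side m z τ α r) (φ : ℂ →ₗ[K] ℂ) (hK : ∀ j, α j ∈ K)
    (h : ∀ j < m, ∀ x, Qe δ e (rot (φ (z j)) (α j) x) ↔ Qe δ e x) {a b : ℕ} (ha : a < m)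
    (hb : b < m) (hr : r a b) : Qe δ e (φ (z a)) ↔ Qe δ e (φ (z b)) := by
  have key : ∀ a b, a < m → b < m → a ≤ b → r a b → (Qe δ e (φ (z a)) ↔ Qe δ e (φ (z b))) := by
    intro a b ha hb hab hr
    rw [← hS.hol a (mem_range.2 ha) b (mem_range.2 hb) hab hr, map_walk φ hK,
      Qe_walk (fun j _ h2 => h j (by omega))]
  rcases le_total a b with h1 | h1
  · exact key a b ha hb h1 hr
  · exact (key b a hb ha h1 (hS.equiv.symm hr)).symm

theorem final3 {m : ℕ} {z τ α β : ℕ → ℂ} {rA rB : ℕ → ℕ → Prop} {χ a w ψ b v : ℂ}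
    {nA nB : ℕ → ℂ} {cA cB : ℕ → ZMod 3}
    (hA : Fold m z τ 6 12 (fun x _ => x ∈ O3) α rA χ a w nA cA)
    (hB : Fold m z τ 3 6 Eis β rB ψ b v nB cB)
    (h : ∀ c, ((range m).filter (fun j => β j ≠ 1 ∧ cB j = c)).card = 2)
    (hvw : 2 * ‖v‖ ^ 2 = 5 * ‖w‖ ^ 2) : False := by
  have hαO : ∀ j, α j ∈ O3 := fun j => by
    rcases hA.val j with h1 | h1 <;> rw [h1]
    exacts [O3.one_mem, ⟨_, Eis_prim6 hA.prim⟩]
  have hαK : ∀ j, α j ∈ K3 := fun j => (hαO j).elim fun _ h => h.mem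
  have hβK : ∀ j, β j ∈ K3 := fun j => by
    rcases hB.val j with h1 | h1 <;> rw [h1]
    exacts [K3.one_mem, (Eis_prim3 hB.prim).mem]
  have hnA : ∀ j, nA j ∈ K3 := fun j => (hA.lat j).elim fun _ h => h.mem
  have hnB : ∀ j, nB j ∈ K3 := fun j => (hB.lat j).mem
  have hw2 : 0 < ‖w‖ ^ 2 := by have := hA.vne; positivity
  have hind : ∀ κ ∈ K3, v ≠ κ * w := by
    rintro κ hκ rfl
    rw [norm_mul, mul_pow, ← mul_assoc] at hvw
    have := (nonnorm25 hκ K3.one_mem (by simpa using mul_right_cancel₀ hw2.ne' hvw)).2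
    exact one_ne_zero this
  obtain ⟨φ0, hφ, c1, c2, e1, e2, e3⟩ := exists_eis_fun (d := b - a) hind
  have pA : ∀ j < m, α j ≠ 1 → φ0 (z j) = φ0 a := by
    intro j hj h1
    rw [hA.pos j hj h1, map_add, mul_comm, map_mul_mem φ0 (hnA j), hφ, mul_zero, add_zero]
  have pB : ∀ j < m, β j ≠ 1 → Eis (φ0 (z j) - φ0 a) (c2 + cB j * c1) := by
    intro j hj h1
    have : φ0 (z j) - φ0 a = φ0 (b - a) + nB j * φ0 v := by
      rw [hB.pos j hj h1, map_add, mul_comm, map_mul_mem φ0 (hnB j), map_sub]; ring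
    rw [this]
    exact e2.add ((hB.lat j).mul e1)
  have inv : ∀ e i j, Link m rA rB i j → (Qe (φ0 a) e (φ0 (z i)) ↔ Qe (φ0 a) e (φ0 (z j))) := by
    rintro e i j ⟨hi, hj, h1 | h1⟩
    · refine Qe_side hA.side φ0 hαK (fun l hl x => ?_) hi hj h1
      rcases hA.val l with h2 | h2
      · rw [h2, rot_one]
      · have h3 : α l ≠ 1 := by rw [h2]; exact hA.prim.ne_one (by norm_num)
        rw [h2, pA l hl h3]
        exact Qe_rot_iff (hA.prim.ne_zero (by norm_num)) (by simpa using Eis_zero)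
          (Eis_prim6 hA.prim) (Eis_prim6 hA.prim.inv) (Or.inr ⟨rfl, rfl⟩)
    · refine Qe_side hB.side φ0 hβK (fun l hl x => ?_) hi hj h1
      rcases hB.val l with h2 | h2
      · rw [h2, rot_one]
      · have h3 : β l ≠ 1 := by rw [h2]; exact hB.prim.ne_one (by norm_num)
        rw [h2]
        exact Qe_rot_iff (hB.prim.ne_zero (by norm_num)) (pB l hl h3)
          (Eis_prim3 hB.prim) (Eis_prim3 hB.prim.inv) (Or.inl rfl)
  obtain ⟨c, hc, hsq, h3⟩ := two_sides (K := K3) hA.side hB.side hαK hβK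
  have inv2 : ∀ e i j, c i = c j → (Qe (φ0 a) e (φ0 (z i)) ↔ Qe (φ0 a) e (φ0 (z j))) := by
    intro e i j hij
    have := (hc i j).1 hij
    clear hij
    induction this with
    | refl => rfl
    | tail _ h2 ih => exact ih.trans (inv e _ _ h2)
  have sq0 : ∀ x : ZMod 3, x ^ 2 = 0 → x = 0 := by decide
  have mixed : ∀ i < m, ∀ j < m, α i ≠ 1 → β j ≠ 1 → c i = c j → c2 + cB j * c1 = 0 := by
    intro i hi j hj h1 h2 h4
    have h5 : Qe (φ0 a) 0 (φ0 (z i)) := ⟨0, by simpa [pA i hi h1] using Eis_zero, by simp⟩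
    obtain ⟨d, h6, h7⟩ := (inv2 0 i j h4).1 h5
    rw [← h6.unique (pB j hj h2)]
    exact sq0 d h7
  have same : ∀ i < m, ∀ j < m, β i ≠ 1 → β j ≠ 1 → c i = c j → c2 + cB i * c1 = 0 →
      c2 + cB j * c1 = 0 := by
    intro i hi j hj h1 h2 h4 h8
    have h5 : Qe (φ0 a) 0 (φ0 (z i)) := ⟨_, pB i hi h1, by simp [h8]⟩
    obtain ⟨d, h6, h7⟩ := (inv2 0 i j h4).1 h5
    rw [← h6.unique (pB j hj h2)]
    exact sq0 d h7
  by_cases hc1 : c1 = 0
  swap
  · set F := (range m).filter (fun j => β j ≠ 1 ∧ c2 + cB j * c1 ≠ 0) with hF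
    have hF4 : F.card = 4 := by
      rw [card_eq_sum_card_fiberwise (f := cB) (t := univ) (fun _ _ => mem_univ _)]
      have : ∀ d, (F.filter (fun j => cB j = d)).card = if c2 + d * c1 ≠ 0 then 2 else 0 := by
        intro d
        split_ifs with hd
        · rw [← h d, hF, filter_filter]
          congr 1
          apply filter_congr
          intro j _
          constructor
          · rintro ⟨⟨h1, _⟩, h2⟩; exact ⟨h1, h2⟩
          · rintro ⟨h1, h2⟩; exact ⟨⟨h1, by rwa [h2]⟩, h2⟩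
        · rw [card_eq_zero, filter_eq_empty_iff]
          intro j hj h2
          exact hd (h2 ▸ (mem_filter.1 hj).2.2)
      simp only [this]
      revert hc1
      generalize c1 = x
      generalize c2 = y
      revert x y
      decide
    have h3d : 3 ∣ F.card := by
      rw [card_eq_sum_card_image c F]
      apply dvd_sum
      intro j hj
      obtain ⟨i, hi, rfl⟩ := mem_image.1 hj
      obtain ⟨hi1, hi2, hi3⟩ := mem_filter.1 hi
      have hi1 := mem_range.1 hi1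
      have h4 := hsq (c i)
      rw [cluster_prod hA.val hB.val] at h4
      have h5 : (((range m).filter (fun l => c l = c i)).filter (fun l => α l ≠ 1)) = ∅ := by
        rw [filter_eq_empty_iff]
        intro l hl h6
        obtain ⟨h7, h8⟩ := mem_filter.1 hl
        exact hi3 (mixed l (mem_range.1 h7) i hi1 h6 hi2 h8)
      have h6 : (((range m).filter (fun l => c l = c i)).filter (fun l => β l ≠ 1)) =
          F.filter (fun l => c l = c i) := by
        ext l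
        simp only [hF, mem_filter, mem_range]
        constructor
        · rintro ⟨⟨h7, h8⟩, h9⟩
          exact ⟨⟨h7, h9, fun h10 => hi3 (same l h7 i hi1 h9 hi2 h8 h10)⟩, h8⟩
        · rintro ⟨⟨h7, h8, _⟩, h9⟩
          exact ⟨⟨h7, h9⟩, h8⟩
      rw [h5, h6, card_empty, pow_zero, one_div, inv_pow, inv_eq_one, ← pow_mul,
        hB.prim.pow_eq_one_iff_dvd] at h4
      omega
    omega
  have hc2 : c2 ≠ 0 := by simpa [hc1] using e3
  obtain ⟨x, hx⟩ := h3 (card_le_four (p := 3) (by norm_num) c (fun j => α j ≠ 1) hA.card _ (by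
    intro j hj
    have h4 := (mem_filter.1 hj).2
    rw [cluster_prod hA.val hB.val] at h4
    have h5 : (((range m).filter (fun i => c i = j)).filter (fun i => α i ≠ 1)).card = 0 ∨
        (((range m).filter (fun i => c i = j)).filter (fun i => β i ≠ 1)).card = 0 := by
      by_contra h6
      push Not at h6
      obtain ⟨i, hi⟩ := card_pos.1 (Nat.pos_of_ne_zero h6.1)
      obtain ⟨l, hl⟩ := card_pos.1 (Nat.pos_of_ne_zero h6.2)
      simp only [mem_filter, mem_range] at hi hl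
      have := mixed i hi.1.1 l hl.1.1 hi.2 hl.2 (hi.1.2.trans hl.1.2.symm)
      simp [hc1, hc2] at this
    generalize (((range m).filter (fun i => c i = j)).filter (fun i => α i ≠ 1)).card = k at *
    generalize (((range m).filter (fun i => c i = j)).filter (fun i => β i ≠ 1)).card = l at *
    have h7 : χ ^ (k * 3) = -1 := by
      have h6 : (χ ^ k / ψ ^ l) ^ 3 = -1 := by rw [h4]; norm_num
      rwa [div_pow, ← pow_mul, ← pow_mul, mul_comm l, pow_mul ψ, hB.prim.pow_eq_one, one_pow,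
        div_one] at h6
    have h8 : k ≠ 0 := by
      rintro rfl
      norm_num at h7
    have h9 : l = 0 := h5.resolve_left h8
    rw [h9, pow_zero, div_one] at h4
    have h6 : χ ^ (k * 2) = 1 := by rw [pow_mul, h4]; norm_num
    rw [hA.prim.pow_eq_one_iff_dvd] at h6
    omega))
  obtain ⟨sA1, sA2⟩ := shadow_area hA.side.unit hA.side.tot hA.vne hA.pos
  obtain ⟨sB1, sB2⟩ := shadow_area hB.side.unit hB.side.tot hB.vne hB.pos
  obtain ⟨N, hN, hN'⟩ := octa_N hB h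
  have hr : ar nA α 0 m 0 * ‖w‖ ^ 2 = ar nB β 0 m 0 * ‖v‖ ^ 2 := by
    rw [← sA1, ← sB1, hA.area, hB.area]
  have hB0 : ar nB β 0 m 0 ≠ 0 := by rw [hN']; positivity
  have hrat : 2 * ar nA α 0 m 0 = 5 * ar nB β 0 m 0 := by
    apply mul_right_cancel₀ hw2.ne'
    linear_combination 2 * hr + ar nB β 0 m 0 * hvw
  refine finish K3 hA.vne (fun s hs t ht hst => ?_) hr (x := x) (fun φ hφ => ?_)
  · have : 2 * ‖t‖ ^ 2 = 5 * ‖s‖ ^ 2 := by
      apply mul_left_cancel₀ hB0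
      linear_combination -2 * hst + ‖s‖ ^ 2 * hrat
    exact (nonnorm25 ht hs this).symm
  · have := hx φ hφ
    unfold DD at this
    rw [sA2 K3 hαK hnA, sB2 K3 hβK hnB] at this
    linarith

end

end Pool.Agent.Lib.MP_f2d99b_co
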