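import Pool.Agent.Lib.MP_f2d99b_co.Tree

namespace Pool.Agent.Lib.MP_f2d99b_co

noncomputable section

open Set Complex MeasureTheory Metric Filter Topology

lemma exists_enum {S : Set ℝ} (hS : S.Finite) (hne : S.Nonempty) :
    ∃ (M : ℕ) (s : ℕ → ℝ), (∀ k l, k < l → l ≤ M → s k < s l) ∧ (∀ k ≤ M, s k ∈ S) ∧
      ∀ x ∈ S, ∃ k ≤ M, s k = x := by
  obtain ⟨M, hM⟩ : ∃ M, hS.toFinset.card = M + 1 :=
    Nat.exists_eq_succ_of_ne_zero (Finset.card_pos.2 (by simpa using hne)).ne'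
  set e := hS.toFinset.orderEmbOfFin hM with he
  refine ⟨M, fun k => if h : k < M + 1 then e ⟨k, h⟩ else 0, ?_, ?_, ?_⟩
  · intro k l h1 h2
    simp only
    rw [dif_pos (by omega), dif_pos (by omega)]
    exact e.strictMono (Fin.mk_lt_mk.2 h1)
  · intro k hk
    simp only
    rw [dif_pos (by omega)]
    exact hS.mem_toFinset.1 (hS.toFinset.orderEmbOfFin_mem hM _)
  · intro x hx
    have : x ∈ range e := by rw [he, Finset.range_orderEmbOfFin]; simpa using hx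
    obtain ⟨⟨k, hk⟩, rfl⟩ := this
    exact ⟨k, by omega, by simp only; rw [dif_pos hk]⟩

def gam (z : ℕ → ℂ) (x : ℝ) : ℂ := pt z ⌊x⌋₊ (x - ⌊x⌋₊)

lemma gam_eq (z : ℕ → ℂ) {i : ℕ} {x : ℝ} (h1 : (i : ℝ) ≤ x) (h2 : x ≤ i + 1) :
    gam z x = pt z i (x - i) := by
  rcases h2.eq_or_lt with rfl | h3
  · unfold gam
    rw [← Nat.cast_succ, Nat.floor_natCast, sub_self, pt_zero, Nat.cast_succ, add_sub_cancel_left,
      pt_one]
  · unfold gam
    rw [(Nat.floor_eq_iff ((Nat.cast_nonneg i).trans h1)).2 ⟨h1, h3⟩]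

lemma gam_nat (z : ℕ → ℂ) (i : ℕ) : gam z i = z i := by
  rw [gam_eq z le_rfl (by linarith), sub_self, pt_zero]

lemma floor_facts {m : ℕ} {x : ℝ} (h0 : 0 ≤ x) (h1 : x < m) :
    ⌊x⌋₊ < m ∧ 0 ≤ x - ⌊x⌋₊ ∧ x - ⌊x⌋₊ < 1 :=
  ⟨(Nat.floor_lt h0).2 h1, sub_nonneg.2 (Nat.floor_le h0), by linarith [Nat.lt_floor_add_one x]⟩

lemma Poly.gam_inj {P : Set ℂ} {m : ℕ} {z : ℕ → ℂ} (h : Poly P m z) {x y : ℝ} (hx0 : 0 ≤ x)
    (hx : x < m) (hy0 : 0 ≤ y) (hy : y < m) (he : gam z x = gam z y) : x = y := by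
  obtain ⟨h1, h2, h3⟩ := floor_facts hx0 hx
  obtain ⟨h4, h5, h6⟩ := floor_facts hy0 hy
  obtain ⟨h7, h8⟩ := h.inj _ h1 _ h4 _ _ h2 h3 h5 h6 he
  rw [h7] at h8
  linarith

lemma Poly.gam_front {P : Set ℂ} {m : ℕ} {z : ℕ → ℂ} (h : Poly P m z) {x : ℝ} (hx0 : 0 ≤ x)
    (hx : x ≤ m) : gam z x ∈ frontier P := by
  rw [h.front]
  rcases hx.eq_or_lt with rfl | h1
  · exact ⟨0, by linarith [h.three], 0, ⟨le_rfl, zero_le_one⟩, by rw [gam_nat, h.close, pt_zero]⟩
  · obtain ⟨h1, h2, h3⟩ := floor_facts hx0 h1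
    exact ⟨_, h1, _, ⟨h2, h3.le⟩, rfl⟩

theorem exists_fine {P : Set ℂ} {m : ℕ} {z : ℕ → ℂ} (h : Poly P m z) {f : ℂ → E3} {n : ℕ}
    {C : Fin n → Set ℂ} {A : Fin n → ℂ →ᵃⁱ[ℝ] E3} (hf : PW P f C A) {U : Set E3} (hU : U.Finite) :
    ∃ (M : ℕ) (w : ℕ → ℂ) (ι : ℕ → ℕ) (U' : Set E3), Poly P M w ∧ Refines m z M w ι ∧ U ⊆ U' ∧
      (∀ k < M, ∃ i, edge w k ⊆ C i) ∧ (∀ k ≤ M, f (w k) ∈ U') ∧
      ∀ k < M, ∀ t : ℝ, 0 < t → t < 1 → f (pt w k t) ∉ U' := by
  set J : ℕ → Fin n → Set ℝ := fun i c => Icc 0 1 ∩ pt z i ⁻¹' C c with hJ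
  have Jc : ∀ i c, IsCompact (J i c) := fun i c =>
    isCompact_Icc.inter_right ((hf.cpt c).isClosed.preimage (continuous_pt z i))
  set Z : Set ℂ := z '' Iic m ∪ ((fun p : ℕ × Fin n => pt z p.1 (sInf (J p.1 p.2))) ''
    (Iic m ×ˢ univ) ∪ (fun p : ℕ × Fin n => pt z p.1 (sSup (J p.1 p.2))) '' (Iic m ×ˢ univ))
    with hZ
  have Zf : Z.Finite := ((finite_Iic m).image _).union
    ((((finite_Iic m).prod finite_univ).image _).union (((finite_Iic m).prod finite_univ).image _))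
  set U' := U ∪ f '' Z with hU'
  have U'f : U'.Finite := hU.union (Zf.image f)
  set S : Set ℝ := {x | 0 ≤ x ∧ x ≤ m ∧ f (gam z x) ∈ U'} with hS
  have Sf : S.Finite := by
    have h1 : (⋃ p ∈ U', {y | y ∈ P ∧ f y = p}).Finite := U'f.biUnion fun p _ => hf.fib_finite p
    have h2 : (Ico (0 : ℝ) m ∩ gam z ⁻¹' (⋃ p ∈ U', {y | y ∈ P ∧ f y = p})).Finite :=
      Finite.of_finite_image (f := gam z) (h1.subset (by rintro _ ⟨x, hx, rfl⟩; exact hx.2))
        (fun x hx y hy he => h.gam_inj hx.1.1 hx.1.2 hy.1.1 hy.1.2 he)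
    refine (h2.insert (m : ℝ)).subset ?_
    rintro x ⟨h3, h4, h5⟩
    rcases h4.eq_or_lt with h6 | h6
    · exact Or.inl h6
    · exact Or.inr ⟨⟨h3, h6⟩, mem_biUnion h5 ⟨h.closed.frontier_subset (h.gam_front h3 h4), rfl⟩⟩
  have natS : ∀ i ≤ m, (i : ℝ) ∈ S := fun i hi =>
    ⟨Nat.cast_nonneg i, by exact_mod_cast hi, Or.inr ⟨_, Or.inl ⟨i, hi, rfl⟩, by rw [gam_nat]⟩⟩
  obtain ⟨M, s, s1, s2, s3⟩ := exists_enum Sf ⟨_, natS 0 (Nat.zero_le m)⟩
  have s4 : ∀ k l, k ≤ M → l ≤ M → s k < s l → k < l := by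
    intro k l hk hl h1
    by_contra h2
    rcases (not_lt.1 h2).eq_or_lt with rfl | h3
    · exact lt_irrefl _ h1
    · linarith [s1 l k h3 hk]
  have s5 : ∀ k l, k ≤ l → l ≤ M → s k ≤ s l := by
    intro k l h1 h2
    rcases h1.eq_or_lt with rfl | h3
    exacts [le_rfl, (s1 k l h3 h2).le]
  have gap : ∀ k < M, ∀ x ∈ S, s k < x → s (k + 1) ≤ x := by
    intro k hk x hx h1
    obtain ⟨l, hl, rfl⟩ := s3 x hx
    exact s5 _ _ (s4 k l hk.le hl h1) hl
  have hι : ∀ i : ℕ, ∃ k, i ≤ m → k ≤ M ∧ s k = i := by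
    intro i
    by_cases hi : i ≤ m
    · obtain ⟨k, h1, h2⟩ := s3 _ (natS i hi)
      exact ⟨k, fun _ => ⟨h1, h2⟩⟩
    · exact ⟨0, fun h1 => absurd h1 hi⟩
  choose ι hι using hι
  have ι0 : ι 0 = 0 := by
    by_contra h1
    obtain ⟨h2, h3⟩ := hι 0 (Nat.zero_le m)
    have := s1 0 (ι 0) (by omega) h2
    have := (s2 0 (Nat.zero_le M)).1
    simp at h3
    linarith
  have ιm : ι m = M := by
    by_contra h1
    obtain ⟨h2, h3⟩ := hι m le_rfl
    have := s1 (ι m) M (by omega) le_rfl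
    have := (s2 M le_rfl).2.1
    linarith
  have sM : s M = m := ιm ▸ (hι m le_rfl).2
  have s0 : s 0 = 0 := by simpa [ι0] using (hι 0 (Nat.zero_le m)).2
  have ιmono : ∀ i < m, ι i < ι (i + 1) := by
    intro i hi
    obtain ⟨h1, h2⟩ := hι i hi.le
    obtain ⟨h3, h4⟩ := hι (i + 1) hi
    exact s4 _ _ h1 h3 (by rw [h2, h4]; push_cast; linarith)
  have ed : ∀ k < M, ∃ i < m, (i : ℝ) ≤ s k ∧ s (k + 1) ≤ i + 1 := by
    intro k hk
    obtain ⟨h1, h2, h3⟩ := floor_facts (s2 k hk.le).1 (sM ▸ s1 k M hk le_rfl)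
    refine ⟨_, h1, by linarith, ?_⟩
    have := gap k hk _ (natS (⌊s k⌋₊ + 1) h1) (by push_cast; linarith)
    push_cast at this
    exact this
  set w : ℕ → ℂ := fun k => gam z (s k) with hw
  have wpt : ∀ k < M, ∀ t : ℝ, 0 ≤ t → t ≤ 1 →
      pt w k t = gam z (s k + t * (s (k + 1) - s k)) := by
    intro k hk t h1 h2
    obtain ⟨i, hi, h3, h4⟩ := ed k hk
    have h5 := s1 k (k + 1) (by omega) hk
    simp only [pt, hw]
    rw [gam_eq z h3 (by linarith), gam_eq z (i := i) (by linarith) h4,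
      gam_eq z (i := i) (by nlinarith) (by nlinarith)]
    simp only [pt]; push_cast; ring
  have hR : Refines m z M w ι := by
    refine ⟨by linarith [h.three], ιmono, ι0, ιm, fun i hi => ?_, fun i hi => h.ne hi, ?_⟩
    · simp only [hw]; rw [(hι i hi).2, gam_nat]
    · intro i hi k h1 h2
      obtain ⟨h3, h4⟩ := hι i hi.le
      obtain ⟨h5, h6⟩ := hι (i + 1) hi
      have h7 := s5 _ _ h1 (by omega)
      have h8 := s5 (k + 1) _ h2 h5
      have h9 := s1 k (k + 1) (by omega) (by omega)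
      push_cast at h6
      refine ⟨s (k + 1) - s k, by linarith, ?_⟩
      simp only [hw]
      rw [gam_eq z (i := i) (by linarith) (by linarith),
        gam_eq z (i := i) (by linarith) (by linarith)]
      simp only [pt]; push_cast; ring
  have rng : ∀ k < M, ∀ t : ℝ, 0 ≤ t → t < 1 → s k ≤ s k + t * (s (k + 1) - s k) ∧
      s k + t * (s (k + 1) - s k) < s (k + 1) := by
    intro k hk t h1 h2
    have h5 := s1 k (k + 1) (by omega) hk
    constructor <;> nlinarith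
  refine ⟨M, w, ι, U', ⟨h.closed, h.reg, ?_, ?_, ?_, ?_⟩, hR, subset_union_left, ?_,
    fun k hk => (s2 k hk).2.2, ?_⟩
  · have h1 := hR.lt (i := 0) (j := 1) one_pos (by linarith [h.three])
    have h2 := hR.lt (i := 1) (j := 2) one_lt_two (by linarith [h.three])
    have h3 := hR.lt (i := 2) (j := m) h.three le_rfl
    omega
  · simp only [hw]; rw [sM, s0, gam_nat, h.close, ← gam_nat z 0, Nat.cast_zero]
  · intro k hk l hl t u h1 h2 h3 h4 he
    rw [wpt k hk t h1 h2.le, wpt l hl u h3 h4.le] at he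
    obtain ⟨h5, h6⟩ := rng k hk t h1 h2
    obtain ⟨h7, h8⟩ := rng l hl u h3 h4
    have h9 := h.gam_inj (by linarith [(s2 k hk.le).1]) (by linarith [(s2 (k + 1) hk).2.1])
      (by linarith [(s2 l hl.le).1]) (by linarith [(s2 (l + 1) hl).2.1]) he
    have h10 := s4 k (l + 1) hk.le hl (by linarith)
    have h11 := s4 l (k + 1) hl.le hk (by linarith)
    obtain rfl : k = l := by omega
    have h12 := s1 k (k + 1) (by omega) hk
    exact ⟨rfl, mul_right_cancel₀ (sub_pos.2 h12).ne' (by linarith)⟩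
  · intro y
    constructor
    · intro hy
      obtain ⟨i, hi, t, ⟨h1, h2⟩, rfl⟩ := (h.front y).1 hy
      have hi' : (i : ℝ) + 1 ≤ m := by exact_mod_cast hi
      have ex : ∃ k, k ≤ M ∧ i + t ≤ s k := ⟨M, le_rfl, by linarith⟩
      have h3 := Nat.find_spec ex
      have hM : 0 < M := hR.last ▸ hR.zero ▸ hR.lt hR.pos le_rfl
      have h4 : pt z i t = gam z (i + t) := by
        rw [gam_eq z (i := i) (by linarith) (by linarith), add_sub_cancel_left]
      rcases h5 : Nat.find ex with _ | k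
      · rw [h5, s0] at h3
        have h6 : (i : ℝ) + t = 0 := le_antisymm h3.2 (by positivity)
        exact ⟨0, hM, 0, ⟨le_rfl, zero_le_one⟩, by rw [pt_zero, h4, h6]; simp only [hw, s0]⟩
      · rw [h5] at h3
        have h6 := Nat.find_min ex (m := k) (by omega)
        have h7 : s k < i + t := by
          by_contra h7
          exact h6 ⟨by omega, not_lt.1 h7⟩
        have h8 := sub_pos.2 (s1 k (k + 1) (by omega) h3.1)
        have h9 : 0 ≤ (i + t - s k) / (s (k + 1) - s k) := by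
          have := sub_pos.2 h7; positivity
        have h10 : (i + t - s k) / (s (k + 1) - s k) ≤ 1 := by rw [div_le_one h8]; linarith [h3.2]
        refine ⟨k, h3.1, _, ⟨h9, h10⟩, ?_⟩
        rw [wpt k h3.1 _ h9 h10, div_mul_cancel₀ _ h8.ne', h4, add_sub_cancel]
    · rintro ⟨k, hk, t, ⟨h1, h2⟩, rfl⟩
      rw [wpt k hk t h1 h2]
      have h5 := s1 k (k + 1) (by omega) hk
      exact h.gam_front (by nlinarith [(s2 k hk.le).1]) (by nlinarith [(s2 (k + 1) hk).2.1])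
  · intro k hk
    obtain ⟨i, hi, h3, h4⟩ := ed k hk
    have h5 := s1 k (k + 1) (by omega) hk
    have hi' : (i : ℝ) + 1 ≤ m := by exact_mod_cast hi
    have h6 : pt z i ((s k + s (k + 1)) / 2 - i) ∈ P := h.closed.frontier_subset
      ((h.front _).2 ⟨i, hi, _, ⟨by linarith, by linarith⟩, rfl⟩)
    obtain ⟨c, hc⟩ := hf.mem h6
    have h7 : (s k + s (k + 1)) / 2 - i ∈ J i c := ⟨⟨by linarith, by linarith⟩, hc⟩
    have ha := (Jc i c).sInf_mem ⟨_, h7⟩
    have hb := (Jc i c).sSup_mem ⟨_, h7⟩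
    have ha' := csInf_le (Jc i c).bddBelow h7
    have hb' := le_csSup (Jc i c).bddAbove h7
    have inS : ∀ a ∈ J i c, pt z i a ∈ Z → i + a ∈ S := by
      intro a h8 h9
      refine ⟨by have := h8.1.1; positivity, by linarith [h8.1.2], Or.inr ⟨_, h9, ?_⟩⟩
      rw [gam_eq z (i := i) (by linarith [h8.1.1]) (by linarith [h8.1.2]), add_sub_cancel_left]
    have h8 : i + sInf (J i c) ≤ s k := by
      by_contra h8
      have := gap k hk _ (inS _ ha (Or.inr (Or.inl ⟨(i, c), ⟨hi.le, trivial⟩, rfl⟩))) (not_le.1 h8)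
      linarith
    have h9 := gap k hk _ (inS _ hb (Or.inr (Or.inr ⟨(i, c), ⟨hi.le, trivial⟩, rfl⟩))) (by linarith)
    have cv : ∀ x, sInf (J i c) ≤ x → x ≤ sSup (J i c) → pt z i x ∈ C c := by
      intro x h10 h11
      obtain ⟨a, b, h12, h13, h14, rfl⟩ : x ∈ segment ℝ (sInf (J i c)) (sSup (J i c)) := by
        rw [segment_eq_Icc (by linarith)]; exact ⟨h10, h11⟩
      have := hf.cvx c ha.2 hb.2 h12 h13 h14
      have h15 : (a : ℂ) + b = 1 := by exact_mod_cast h14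
      have e : pt z i (a • sInf (J i c) + b • sSup (J i c)) =
          a • pt z i (sInf (J i c)) + b • pt z i (sSup (J i c)) := by
        simp only [pt, smul_eq_mul, real_smul]; push_cast
        linear_combination (-z i) * h15
      rwa [e]
    refine ⟨c, ?_⟩
    rw [edge_eq]
    refine (hf.cvx c).segment_subset ?_ ?_
    · simp only [hw]
      rw [gam_eq z h3 (by linarith)]
      exact cv _ (by linarith) (by linarith)
    · simp only [hw]
      rw [gam_eq z (i := i) (by linarith) h4]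
      exact cv _ (by linarith) (by linarith)
  · intro k hk t h1 h2 h3
    rw [wpt k hk t h1.le h2.le] at h3
    obtain ⟨h5, h6⟩ := rng k hk t h1.le h2
    have h7 := s1 k (k + 1) (by omega) hk
    have := gap k hk _ ⟨by linarith [(s2 k hk.le).1], by linarith [(s2 (k + 1) hk).2.1], h3⟩
      (by nlinarith)
    linarith

end

end Pool.Agent.Lib.MP_f2d99b_co
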