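import Pool.Agent.Lib.MP_f2d99b_co.Fine

namespace Pool.Agent.Lib.MP_f2d99b_co

noncomputable section

open Set Complex MeasureTheory Metric Filter Topology
open scoped Real

lemma closed_side {T T1 T2 S : Set E3} {q : E3} (h1 : IsClosed T1) (h2 : IsClosed T2)
    (h3 : T ⊆ T1 ∪ T2) (h4 : T1 ∩ T2 ⊆ {q}) (hS : IsPreconnected S) (h5 : S ⊆ T) (h6 : q ∉ S) :
    S ⊆ T1 ∨ Disjoint S T1 ∧ S ⊆ T2 := by
  rcases (isPreconnected_iff_subset_of_disjoint_closed.1 hS) T1 T2 h1 h2 (h5.trans h3) (by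
    rw [eq_empty_iff_forall_notMem]
    rintro x ⟨h7, h8⟩
    exact h6 (h4 h8 ▸ h7)) with h7 | h7
  · exact Or.inl h7
  · exact Or.inr ⟨Set.disjoint_left.2 fun x h8 h9 => h6 (h4 ⟨h9, h7 h8⟩ ▸ h8), h7⟩

def Half (T U : Set E3) (q p : E3) : Prop :=
  p ∈ U ∧ p ≠ q ∧ (∀ u : ℝ, 0 < u → u ≤ 1 → q + u • (p - q) ∈ T) ∧
    ∀ u : ℝ, 0 < u → u < 1 → q + u • (p - q) ∉ U

lemma Half.ray {T U T1 T2 : Set E3} {q p D : E3} (h : Half T U q p) (h1 : IsClosed T1)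
    (h2 : IsClosed T2) (h3 : T ⊆ T1 ∪ T2) (h4 : T1 ∩ T2 ⊆ {q})
    (h5 : ∀ᶠ y in 𝓝 q, (y ∈ T1 → ∃ δ : ℝ, 0 ≤ δ ∧ y = q + δ • D) ∧
      (y ∈ T2 → ∃ δ : ℝ, 0 ≤ δ ∧ y = q + (-δ) • D)) :
    ∃ δ : ℝ, p = q + δ • D ∧ δ ≠ 0 ∧ (p ∈ T1 ↔ 0 < δ) := by
  obtain ⟨_, h6, h7, _⟩ := h
  have hc : Continuous (fun u : ℝ => q + u • (p - q)) := by fun_prop
  have ht : Tendsto (fun u : ℝ => q + u • (p - q)) (𝓝[>] 0) (𝓝 q) := by
    have := hc.tendsto 0
    simp only [zero_smul, add_zero] at this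
    exact this.mono_left nhdsWithin_le_nhds
  obtain ⟨u, h8, h9, h10⟩ := ((ht.eventually h5).and (ev_lt one_pos)).exists
  have hp : p ∈ (fun u : ℝ => q + u • (p - q)) '' Ioc 0 1 := ⟨1, ⟨one_pos, le_rfl⟩, by simp⟩
  have key : ∀ δ : ℝ, q + u • (p - q) = q + δ • D → p = q + (δ / u) • D ∧ δ ≠ 0 := by
    intro δ h11
    have h12 : p = q + (δ / u) • D := by
      rw [div_eq_inv_mul, mul_smul, ← add_left_cancel h11, inv_smul_smul₀ h9.ne']; simp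
    refine ⟨h12, ?_⟩
    rintro rfl
    exact h6 (by simpa using h12)
  rcases closed_side h1 h2 h3 h4 (isPreconnected_Ioc.image _ hc.continuousOn)
    (S := (fun u : ℝ => q + u • (p - q)) '' Ioc 0 1)
    (by rintro _ ⟨v, hv, rfl⟩; exact h7 v hv.1 hv.2) (by
      rintro ⟨v, hv, h11⟩
      simp [hv.1.ne', sub_eq_zero, h6] at h11) with h11 | ⟨h11, h12⟩
  · obtain ⟨δ, h13, h14⟩ := h8.1 (h11 ⟨u, ⟨h9, h10.le⟩, rfl⟩)
    obtain ⟨h15, h16⟩ := key δ h14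
    have h17 : 0 < δ / u := div_pos (lt_of_le_of_ne h13 h16.symm) h9
    exact ⟨_, h15, h17.ne', fun _ => h17, fun _ => h11 hp⟩
  · obtain ⟨δ, h13, h14⟩ := h8.2 (h12 ⟨u, ⟨h9, h10.le⟩, rfl⟩)
    obtain ⟨h15, h16⟩ := key _ h14
    have h17 : -δ / u < 0 := div_neg_of_neg_of_pos (lt_of_le_of_ne (by linarith) h16) h9
    exact ⟨_, h15, h17.ne, fun h => absurd h (Set.disjoint_left.1 h11 hp),
      fun h => absurd h h17.not_gt⟩

lemma Half.same {T U : Set E3} {q p p' D : E3} (h : Half T U q p) (h' : Half T U q p') {δ δ' : ℝ}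
    (e : p = q + δ • D) (e' : p' = q + δ' • D) (hs : 0 < δ * δ') : p = p' := by
  have key : ∀ {p p' : E3} {δ δ' : ℝ}, Half T U q p → Half T U q p' → p = q + δ • D →
      p' = q + δ' • D → 0 < δ * δ' → ¬ δ * δ < δ * δ' := by
    intro p p' δ δ' h h' e e' hs h1
    have h0 : δ ≠ 0 := left_ne_zero_of_mul hs.ne'
    have h0' : δ' ≠ 0 := right_ne_zero_of_mul hs.ne'
    have h2 : δ / δ' = δ * δ / (δ * δ') := by field_simp
    apply h'.2.2.2 (δ / δ') (by rw [h2]; exact div_pos (mul_self_pos.2 h0) hs) (by rw [h2, div_lt_one hs]; exact h1)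
    rw [e', add_sub_cancel_left, smul_smul, div_mul_cancel₀ _ h0', ← e]
    exact h.1
  have h1 := key h h' e e' hs
  have h2 := key h' h e' e (by linarith)
  have : δ = δ' := by
    by_contra h3
    have h4 := mul_nonneg (sub_nonneg.2 (not_lt.1 h1)) (sub_nonneg.2 (not_lt.1 h2))
    have h5 := mul_pos hs (mul_self_pos.2 (sub_ne_zero.2 h3))
    nlinarith
  rw [e, e', this]

/-- All hypotheses on the fine subdivision. -/
structure FineNet (P : Set ℂ) (M : ℕ) (w : ℕ → ℂ) (f : ℂ → E3) {n : ℕ} (C : Fin n → Set ℂ)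
    (A : Fin n → ℂ →ᵃⁱ[ℝ] E3) (U : Set E3) : Prop where
  poly : Poly P M w
  pw : PW P f C A
  dis : Disjoint (f '' interior P) (f '' frontier P)
  cut : ∀ q ∈ f '' frontier P, q ∉ U → Cut (f '' frontier P) q
  pc : ∀ k < M, ∃ i, edge w k ⊆ C i
  inU : ∀ k ≤ M, f (w k) ∈ U
  offU : ∀ k < M, ∀ t : ℝ, 0 < t → t < 1 → f (pt w k t) ∉ U
  flat : ∀ q ∈ f '' P, q ∉ U → ∀ᶠ r in 𝓝[>] (0 : ℝ),
    μHE[2] (f '' P ∩ ball q r) = ENNReal.ofReal (2 * π * r ^ 2 / 2)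

namespace FineNet

variable {P : Set ℂ} {M : ℕ} {w : ℕ → ℂ} {f : ℂ → E3} {n : ℕ} {C : Fin n → Set ℂ}
  {A : Fin n → ℂ →ᵃⁱ[ℝ] E3} {U : Set E3}

lemma lin (h : FineNet P M w f C A U) {k : ℕ} (hk : k < M) {t : ℝ} (h1 : 0 ≤ t) (h2 : t ≤ 1) :
    f (pt w k t) = f (w k) + t • (f (w (k + 1)) - f (w k)) := by
  obtain ⟨i, hi⟩ := h.pc k hk
  have e0 := h.pw.eq i (hi ⟨0, ⟨le_rfl, zero_le_one⟩, pt_zero w k⟩)
  have e1 := h.pw.eq i (hi ⟨1, ⟨zero_le_one, le_rfl⟩, pt_one w k⟩)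
  rw [h.pw.eq i (hi ⟨t, ⟨h1, h2⟩, rfl⟩), e0, e1]
  have := (A i).toAffineMap.apply_lineMap (w k) (w (k + 1)) t
  simp only [AffineMap.lineMap_apply, vsub_eq_sub, vadd_eq_add, AffineIsometry.coe_toAffineMap]
    at this
  rw [add_comm, ← this, pt, add_comm, real_smul]

lemma len (h : FineNet P M w f C A U) {k : ℕ} (hk : k < M) :
    ‖f (w (k + 1)) - f (w k)‖ = ‖w (k + 1) - w k‖ := by
  obtain ⟨i, hi⟩ := h.pc k hk
  have e0 := h.pw.eq i (hi ⟨0, ⟨le_rfl, zero_le_one⟩, pt_zero w k⟩)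
  have e1 := h.pw.eq i (hi ⟨1, ⟨zero_le_one, le_rfl⟩, pt_one w k⟩)
  rw [e0, e1, ← dist_eq_norm, ← dist_eq_norm, (A i).dist_map]

lemma ne (h : FineNet P M w f C A U) {k : ℕ} (hk : k < M) : f (w (k + 1)) - f (w k) ≠ 0 := by
  rw [← norm_pos_iff, h.len hk]; exact h.poly.len_pos hk

lemma fr (h : FineNet P M w f C A U) {k : ℕ} (hk : k < M) {t : ℝ} (h1 : 0 ≤ t) (h2 : t ≤ 1) :
    pt w k t ∈ frontier P := (h.poly.front _).2 ⟨k, hk, t, ⟨h1, h2⟩, rfl⟩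

lemma fib (h : FineNet P M w f C A U) {q : E3} (hq : q ∈ f '' frontier P) {y : ℂ} (hy : y ∈ P)
    (he : f y = q) : ∃ l < M, ∃ u : ℝ, 0 ≤ u ∧ u ≤ 1 ∧ y = pt w l u := by
  have : y ∈ frontier P := by
    refine ⟨subset_closure hy, fun h1 => ?_⟩
    exact Set.disjoint_left.1 h.dis ⟨y, h1, he⟩ hq
  obtain ⟨l, hl, u, ⟨h1, h2⟩, rfl⟩ := (h.poly.front y).1 this
  exact ⟨l, hl, u, h1, h2, rfl⟩

lemma interior_param (h : FineNet P M w f C A U) {l : ℕ} (hl : l < M) {u : ℝ} (h1 : 0 ≤ u)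
    (h2 : u ≤ 1) (h3 : f (pt w l u) ∉ U) : 0 < u ∧ u < 1 := by
  constructor
  · refine lt_of_le_of_ne h1 ?_
    rintro rfl
    rw [pt_zero] at h3
    exact h3 (h.inU l hl.le)
  · refine lt_of_le_of_ne h2 ?_
    rintro rfl
    rw [pt_one] at h3
    exact h3 (h.inU _ hl)

lemma two (h : FineNet P M w f C A U) {k : ℕ} (hk : k < M) :
    ∃ j < M, j ≠ k ∧ (∃ t : ℝ, 0 < t ∧ t < 1 ∧ f (pt w j t) = f (pt w k (1 / 2))) ∧
      ∀ l < M, ∀ u : ℝ, 0 ≤ u → u ≤ 1 → f (pt w l u) = f (pt w k (1 / 2)) → l = k ∨ l = j := by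
  obtain ⟨ε, -, -, hd⟩ := h.poly.density
  set q := f (pt w k (1 / 2)) with hq
  have hqU : q ∉ U := h.offU k hk _ (by norm_num) (by norm_num)
  have hfr := h.fr hk (t := 1 / 2) (by norm_num) (by norm_num)
  have hP := h.poly.closed.frontier_subset hfr
  have hp := Real.pi_pos
  have par : ∀ y ∈ P, f y = q → ∃ l < M, ∃ u : ℝ, 0 < u ∧ u < 1 ∧ y = pt w l u := by
    intro y hy he
    obtain ⟨l, hl, u, h1, h2, rfl⟩ := h.fib ⟨_, hfr, rfl⟩ hy he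
    obtain ⟨h3, h4⟩ := h.interior_param hl h1 h2 (he ▸ hqU)
    exact ⟨l, hl, u, h3, h4, rfl⟩
  have hs := h.pw.dens_sum q (by positivity) (h.flat q ⟨_, hP, rfl⟩ hqU) (fun _ => π) (by
    intro y hy he
    obtain ⟨l, hl, u, h1, h2, rfl⟩ := par y hy he
    exact ⟨hp.le, hd l hl u h1 h2⟩)
  rw [Finset.sum_const, nsmul_eq_mul] at hs
  have hc : (h.pw.fib_finite q).toFinset.card = 2 := by
    exact_mod_cast mul_right_cancel₀ hp.ne' hs
  obtain ⟨y, h1, h2, h3⟩ : ∃ y, (y ∈ P ∧ f y = q) ∧ y ≠ pt w k (1 / 2) ∧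
      ∀ x ∈ P, f x = q → x = pt w k (1 / 2) ∨ x = y := by
    obtain ⟨a, b, hab, h1⟩ := Finset.card_eq_two.1 hc
    have h2 : ∀ x, (x ∈ P ∧ f x = q) ↔ (x = a ∨ x = b) := by
      intro x
      have := Finset.ext_iff.1 h1 x
      simpa using this
    rcases (h2 _).1 ⟨hP, rfl⟩ with h3 | h3
    · exact ⟨b, (h2 b).2 (Or.inr rfl), by rw [h3]; exact hab.symm,
        fun x h4 h5 => by rw [h3]; exact (h2 x).1 ⟨h4, h5⟩⟩
    · exact ⟨a, (h2 a).2 (Or.inl rfl), by rw [h3]; exact hab,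
        fun x h4 h5 => by rw [h3]; exact ((h2 x).1 ⟨h4, h5⟩).symm⟩
  obtain ⟨j, hj, t, h4, h5, rfl⟩ := par y h1.1 h1.2
  refine ⟨j, hj, ?_, ⟨t, h4, h5, h1.2⟩, fun l hl u h6 h7 h8 => ?_⟩
  · rintro rfl
    have h6 := h1.2
    rw [hq, h.lin hk h4.le h5.le, h.lin hk (by norm_num) (by norm_num)] at h6
    exact h2 (by rw [smul_left_injective ℝ (h.ne hk) (add_left_cancel h6)])
  · obtain ⟨h9, h10⟩ := h.interior_param hl h6 h7 (h8 ▸ hqU)
    rcases h3 _ (h.poly.closed.frontier_subset (h.fr hl h6 h7)) h8 with h11 | h11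
    · exact Or.inl (h.poly.inj l hl k hk _ _ h6 h10 (by norm_num) (by norm_num) h11).1
    · exact Or.inr (h.poly.inj l hl j hj _ _ h6 h10 h4.le h5 h11).1

lemma halves (h : FineNet P M w f C A U) {l : ℕ} (hl : l < M) {t : ℝ} (h1 : 0 < t) (h2 : t < 1) :
    Half (f '' frontier P) U (f (pt w l t)) (f (w l)) ∧
      Half (f '' frontier P) U (f (pt w l t)) (f (w (l + 1))) := by
  have hq := h.offU l hl t h1 h2
  have e1 : ∀ u : ℝ, 0 < u → u ≤ 1 → f (pt w l t) + u • (f (w l) - f (pt w l t)) =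
      f (pt w l (t - u * t)) := by
    intro u h3 h4
    rw [h.lin hl h1.le h2.le, h.lin hl (by nlinarith) (by nlinarith)]; module
  have e2 : ∀ u : ℝ, 0 < u → u ≤ 1 → f (pt w l t) + u • (f (w (l + 1)) - f (pt w l t)) =
      f (pt w l (t + u * (1 - t))) := by
    intro u h3 h4
    rw [h.lin hl h1.le h2.le, h.lin hl (by nlinarith) (by nlinarith)]; module
  refine ⟨⟨h.inU l hl.le, fun h3 => hq (h3 ▸ h.inU l hl.le), fun u h3 h4 => ?_, fun u h3 h4 => ?_⟩,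
    ⟨h.inU _ hl, fun h3 => hq (h3 ▸ h.inU _ hl), fun u h3 h4 => ?_, fun u h3 h4 => ?_⟩⟩
  · rw [e1 u h3 h4]; exact ⟨_, h.fr hl (by nlinarith) (by nlinarith), rfl⟩
  · rw [e1 u h3 h4.le]; exact h.offU l hl _ (by nlinarith) (by nlinarith)
  · rw [e2 u h3 h4]; exact ⟨_, h.fr hl (by nlinarith) (by nlinarith), rfl⟩
  · rw [e2 u h3 h4.le]; exact h.offU l hl _ (by nlinarith) (by nlinarith)

lemma pair (h : FineNet P M w f C A U) {a b : ℕ} (hab : a < b) (hb : b < M) {s t : ℝ} (h1 : 0 < s)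
    (h2 : s < 1) (h3 : 0 < t) (h4 : t < 1) (he : f (pt w a s) = f (pt w b t))
    (hu : ∀ l < M, ∀ u : ℝ, 0 ≤ u → u ≤ 1 → f (pt w l u) = f (pt w a s) → l = a ∨ l = b) :
    f (w b) = f (w (a + 1)) ∧ f (w (b + 1)) = f (w a) ∧
      ∀ x y, a < x → x ≤ b → y ≤ M → (y ≤ a ∨ b < y) → f (w x) ≠ f (w y) := by
  have ha : a < M := by omega
  obtain ⟨T1, T2, D, hD, c1, c2, c3, c4, c5⟩ := h.cut _ ⟨_, h.fr ha h1.le h2.le, rfl⟩
    (h.offU a ha s h1 h2)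
  obtain ⟨A0, A1⟩ := h.halves ha h1 h2
  obtain ⟨B0, B1⟩ := h.halves hb h3 h4
  rw [← he] at B0 B1
  obtain ⟨a0, ea0, na0, ia0⟩ := A0.ray c1 c2 c3 c4 c5
  obtain ⟨a1, ea1, na1, ia1⟩ := A1.ray c1 c2 c3 c4 c5
  obtain ⟨b0, eb0, nb0, ib0⟩ := B0.ray c1 c2 c3 c4 c5
  obtain ⟨b1, eb1, nb1, ib1⟩ := B1.ray c1 c2 c3 c4 c5
  have opp : a0 + s * (a1 - a0) = 0 := by
    have h5 := h.lin ha h1.le h2.le
    generalize f (pt w a s) = q at *
    rw [ea0, ea1] at h5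
    have h6 : (a0 + s * (a1 - a0)) • D = 0 := by
      have : q + (a0 + s * (a1 - a0)) • D = q := by rw [eq_comm]; nth_rewrite 1 [h5]; module
      simpa using this
    exact (smul_eq_zero.1 h6).resolve_right hD
  have step : ∀ l < M, l ≠ a → l ≠ b → (f (w l) ∈ T1 ↔ f (w (l + 1)) ∈ T1) := by
    intro l hl h5 h6
    have h7 : segment ℝ (f (w l)) (f (w (l + 1))) = (fun u => f (pt w l u)) '' Icc 0 1 := by
      rw [segment_eq_image']
      exact image_congr fun u hu => (h.lin hl hu.1 hu.2).symm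
    rcases closed_side c1 c2 c3 c4 (convex_segment (f (w l)) (f (w (l + 1)))).isPreconnected (by
      rw [h7]; rintro _ ⟨u, hu, rfl⟩; exact ⟨_, h.fr hl hu.1 hu.2, rfl⟩) (by
      rw [h7]; rintro ⟨u, h8, h9⟩
      exact (hu l hl u h8.1 h8.2 h9).elim h5 h6) with h8 | ⟨h8, _⟩
    · exact ⟨fun _ => h8 (right_mem_segment _ _ _), fun _ => h8 (left_mem_segment _ _ _)⟩
    · exact ⟨fun h9 => absurd h9 (Set.disjoint_left.1 h8 (left_mem_segment _ _ _)),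
        fun h9 => absurd h9 (Set.disjoint_left.1 h8 (right_mem_segment _ _ _))⟩
  have chain : ∀ x d, x + d ≤ M → (∀ l, x ≤ l → l < x + d → l ≠ a ∧ l ≠ b) →
      (f (w x) ∈ T1 ↔ f (w (x + d)) ∈ T1) := by
    intro x d
    induction d with
    | zero => intros; rfl
    | succ d ih =>
      intro h5 h6
      rw [ih (by omega) (fun l h7 h8 => h6 l h7 (by omega)), ← add_assoc]
      obtain ⟨h7, h8⟩ := h6 (x + d) (by omega) (by omega)
      exact step _ (by omega) h7 h8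
  have mid : ∀ x, a < x → x ≤ b → (f (w (a + 1)) ∈ T1 ↔ f (w x) ∈ T1) := by
    intro x h5 h6
    have := chain (a + 1) (x - (a + 1)) (by omega) (fun l h7 h8 => by omega)
    rwa [Nat.add_sub_cancel' h5] at this
  have out : ∀ y, y ≤ M → (y ≤ a ∨ b < y) → (f (w a) ∈ T1 ↔ f (w y) ∈ T1) := by
    have o1 : ∀ y, y ≤ a → (f (w a) ∈ T1 ↔ f (w y) ∈ T1) := by
      intro y h5
      have := chain y (a - y) (by omega) (fun l h7 h8 => by omega)
      rw [Nat.add_sub_cancel' h5] at this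
      exact this.symm
    rintro y h5 (h6 | h6)
    · exact o1 y h6
    · have := chain y (M - y) (by omega) (fun l h7 h8 => by omega)
      rw [Nat.add_sub_cancel' h5, h.poly.close] at this
      rw [this, o1 0 (Nat.zero_le a)]
  have sg : ∀ x y : ℝ, x ≠ 0 → y ≠ 0 → (0 < x ↔ 0 < y) → 0 < x * y := by
    intro x y hx hy hxy
    rcases lt_or_gt_of_ne hx with h5 | h5
    · exact mul_pos_of_neg_of_neg h5 (lt_of_le_of_ne (not_lt.1 fun h6 => h5.not_gt (hxy.2 h6)) hy)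
    · exact mul_pos h5 (hxy.1 h5)
  refine ⟨B0.same A1 eb0 ea1 (sg _ _ nb0 na1 (by rw [← ib0, ← ia1, mid b hab le_rfl])),
    B1.same A0 eb1 ea0 (sg _ _ nb1 na0 (by rw [← ib1, ← ia0, out (b + 1) hb (by omega)])), ?_⟩
  intro x y h5 h6 h7 h8 h9
  have := sg _ _ na0 na1 (by rw [← ia0, ← ia1, mid x h5 h6, out y h7 h8, h9])
  have h10 : 0 < a0 * a0 := mul_self_pos.2 na0
  have h11 : a0 * (a0 + s * (a1 - a0)) = 0 := by rw [opp, mul_zero]
  nlinarith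

theorem glue (h : FineNet P M w f C A U) : ∃ σ : ℕ → ℕ, Glue M w σ (fun k => f (w k)) := by
  have h1 : ∀ k, ∃ j, k < M → j < M ∧ j ≠ k ∧
      (∃ t : ℝ, 0 < t ∧ t < 1 ∧ f (pt w j t) = f (pt w k (1 / 2))) ∧
      ∀ l < M, ∀ u : ℝ, 0 ≤ u → u ≤ 1 → f (pt w l u) = f (pt w k (1 / 2)) → l = k ∨ l = j := by
    intro k
    by_cases hk : k < M
    · obtain ⟨j, h1, h2⟩ := h.two hk
      exact ⟨j, fun _ => ⟨h1, h2⟩⟩
    · exact ⟨0, fun h1 => absurd h1 hk⟩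
  choose σ H using h1
  have key : ∀ k < M, f (w (σ k)) = f (w (k + 1)) ∧ f (w (σ k + 1)) = f (w k) := by
    intro k hk
    obtain ⟨h1, h2, ⟨t, h3, h4, h5⟩, h6⟩ := H k hk
    rcases lt_or_gt_of_ne h2 with h7 | h7
    · obtain ⟨h8, h9, -⟩ := h.pair h7 hk h3 h4 (by norm_num) (by norm_num) h5
        (fun l hl u h8 h9 h10 => (h6 l hl u h8 h9 (h10.trans h5)).symm)
      exact ⟨h9.symm, h8.symm⟩
    · obtain ⟨h8, h9, -⟩ := h.pair h7 h1 (by norm_num) (by norm_num) h3 h4 h5.symm h6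
      exact ⟨h8, h9⟩
  refine ⟨σ, by linarith [h.poly.three], h.poly.close, fun k hk => h.poly.ne hk,
    fun k hk => (H k hk).1, fun k hk => ?_, fun k hk => (H k hk).2.1, fun k hk => ?_,
    by simp only [h.poly.close], fun k hk => (key k hk).1, fun k hk hlt => ?_⟩
  · obtain ⟨h1, h2, -⟩ := H k hk
    obtain ⟨h3, h4⟩ := key k hk
    refine (((H _ h1).2.2.2 k hk (1 / 2) (by norm_num) (by norm_num) ?_).resolve_left h2.symm).symm
    rw [h.lin hk (by norm_num) (by norm_num), h.lin h1 (by norm_num) (by norm_num), h3, h4]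
    module
  · rw [← h.len hk, ← h.len (H k hk).1, (key k hk).1, (key k hk).2, norm_sub_rev]
  · obtain ⟨h1, h2, ⟨t, h3, h4, h5⟩, h6⟩ := H k hk
    exact (h.pair hlt h1 (by norm_num) (by norm_num) h3 h4 h5.symm h6).2.2

end FineNet

end

end Pool.Agent.Lib.MP_f2d99b_co
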