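import Pool.Agent.Lib.MP_f2d99b_co.Platonic

namespace Pool.Agent.Lib.MP_f2d99b_co

noncomputable section

open Set Complex MeasureTheory Metric Filter Topology
open scoped Real

lemma Loc.opp {P : Set ℂ} (hP : IsClosed P) (hP' : P ⊆ closure (interior P)) {c u : ℂ} {r : ℝ}
    (h : Loc P c u π r) : (Sec c u π r ⊆ P ∧ Disjoint (Sec c (-u) π r) P) ∨
      (Disjoint (Sec c u π r) P ∧ Sec c (-u) π r ⊆ P) := by
  have hf := h.flip.side hP
  have hb := fun x => ball_cases (c := c) h.2.1 (θ := π) (r := r) (x := x)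
  rw [exp_pi_mul_I, mul_neg_one, show 2 * π - π = π by ring] at hf hb
  rcases h.side hP with h0 | h0 <;> rcases hf with h1 | h1
  · exfalso
    have h5 := open_null (hP.isOpen_compl.inter (isOpen_ball (x := c) (ε := r))) (c := c) (u := u)
      (v := -u) (by
        rintro x ⟨h6, h7⟩
        rcases hb x h7 with h8 | h8 | h8
        exacts [absurd (h0 h8) h6, absurd (h1 h8) h6, h8])
    apply h.1.2
    rw [mem_interior_iff_mem_nhds]
    refine mem_of_superset (ball_mem_nhds c h.2.2.2.2.1) (fun x hx => ?_)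
    by_contra h6
    exact (h5 ▸ (⟨h6, hx⟩ : x ∈ Pᶜ ∩ ball c r) : x ∈ (∅ : Set ℂ))
  · exact Or.inl ⟨h0, h1⟩
  · exact Or.inr ⟨h0, h1⟩
  · exfalso
    have h5 := open_null (isOpen_interior.inter (isOpen_ball (x := c) (ε := r))) (c := c) (u := u)
      (v := -u) (by
        rintro x ⟨h6, h7⟩
        rcases hb x h7 with h8 | h8 | h8
        exacts [absurd (interior_subset h6) (disjoint_left.1 h0 h8),
          absurd (interior_subset h6) (disjoint_left.1 h1 h8), h8])
    obtain ⟨y, h7, h8⟩ := _root_.mem_closure_iff.1 (hP' (hP.frontier_subset h.1)) _ isOpen_ball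
      (mem_ball_self h.2.2.2.2.1)
    exact (h5 ▸ (⟨h8, h7⟩ : y ∈ interior P ∩ ball c r) : y ∈ (∅ : Set ℂ))

lemma mem_Sec_pi {c u x : ℂ} (hu : ‖u‖ = 1) {r : ℝ} (hx : x ∈ ball c r) (h : 0 < E u (x - c)) :
    x ∈ Sec c u π r := by
  have hb := ball_cases hu (θ := π) hx
  rw [exp_pi_mul_I, mul_neg_one, show 2 * π - π = π by ring] at hb
  rcases hb with h1 | ⟨ρ, φ, h1, -, h2, h3, rfl⟩ | ⟨ρ, -, rfl⟩ | ⟨ρ, -, rfl⟩
  · exact h1
  · have h4 := (E_polar (u := -u) (by rwa [norm_neg]) ρ φ 0).1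
    have h5 := Real.sin_pos_of_pos_of_lt_pi h2 h3
    rw [E_neg_left] at h4
    rw [add_sub_cancel_left] at h
    nlinarith
  · rw [add_sub_cancel_left, E_smul_right, E_self] at h
    simp at h
  · rw [add_sub_cancel_left, E_smul_right, E_neg_right, E_self] at h
    simp at h

namespace Poly

variable {P : Set ℂ} {m : ℕ} {z : ℕ → ℂ}

theorem sided (h : Poly P m z) : ∃ ε : ℝ, (ε = 1 ∨ ε = -1) ∧ ∀ i < m, ∀ s : ℝ, 0 < s → s < 1 →
    ∀ᶠ x in 𝓝 (pt z i s), (0 < ε * E (dir z i) (x - pt z i s) → x ∈ P) ∧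
      (ε * E (dir z i) (x - pt z i s) < 0 → x ∉ P) := by
  have hloc : ∀ i : ℕ, ∀ s : ℝ, ∃ θ r, i < m → 0 ≤ s → s < 1 → Loc P (pt z i s) (dir z i) θ r ∧
      (s = 0 → dir z i * exp (θ * I) = - dir z (prv m i)) ∧ (0 < s → θ = π) := by
    intro i s
    by_cases h1 : i < m ∧ 0 ≤ s ∧ s < 1
    · obtain ⟨θ, r, h2⟩ := h.loc h1.1 h1.2.1 h1.2.2
      exact ⟨θ, r, fun _ _ _ => h2⟩
    · exact ⟨0, 0, fun h2 h3 h4 => absurd ⟨h2, h3, h4⟩ h1⟩
  choose θ r H using hloc
  set L : ℕ → ℝ → Prop := fun i s => Sec (pt z i s) (dir z i) (θ i s) (r i s) ⊆ P with hL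
  have stepA : ∀ i < m, ∀ s, 0 ≤ s → s < 1 → (L i 0 ↔ L i s) := by
    intro i hi s h1 h2
    have hl := h.len_pos hi
    refine (isPreconnected_Ico (a := (0 : ℝ)) (b := 1)).induction₂ (fun s t => L i s ↔ L i t) ?_
      (fun _ _ _ _ _ _ h1 h2 => h1.trans h2) (fun _ _ _ _ h1 => h1.symm) ⟨le_rfl, one_pos⟩ ⟨h1, h2⟩
    rintro s ⟨h1, h2⟩
    obtain ⟨h3, _, h4⟩ := H i s hi h1 h2
    have hr := h3.2.2.2.2.1
    have e1 : ∀ᶠ t in 𝓝 s, |t - s| * ‖z (i + 1) - z i‖ < r i s := by
      have : ContinuousAt (fun t => |t - s| * ‖z (i + 1) - z i‖) s := by fun_prop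
      exact this.eventually_lt continuousAt_const (by simpa using hr)
    have e2 : ∀ᶠ t in 𝓝 s, 0 < s → 0 < t := by
      rcases h1.eq_or_lt with rfl | h5
      · exact Eventually.of_forall (fun t ht => absurd ht (lt_irrefl _))
      · exact (lt_mem_nhds h5).mono (fun t ht _ => ht)
    filter_upwards [mem_nhdsWithin_of_mem_nhds e1, mem_nhdsWithin_of_mem_nhds e2,
      self_mem_nhdsWithin] with t h5 h6 h7
    obtain ⟨h8, _, h9⟩ := H i t hi h7.1 h7.2
    have hr' := h8.2.2.2.2.1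
    refine h3.agree h.closed h8 ?_
    rcases lt_trichotomy s t with h10 | rfl | h10
    · rw [abs_of_pos (by linarith)] at h5
      rw [h9 (by linarith), h.pt_sub hi s t]
      exact common_fwd _ _ h3.2.2.1 (by have := sub_pos.2 h10; positivity) h5 hr'
    · rw [inter_self]
      exact ⟨_, r i s / 2, θ i s / 2, by linarith, by linarith, by linarith [h3.2.2.1],
        by linarith [h3.2.2.1], rfl⟩
    · rw [abs_of_neg (by linarith), neg_sub] at h5
      have := common_bwd (pt z i s) (dir z i) h3.2.2.1 (by have := sub_pos.2 h10; positivity) h5 hr'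
      rw [h9 (h6 (by linarith [h7.1])), h.pt_sub hi s t]
      rw [h4 (by linarith [h7.1])] at this ⊢
      rw [exp_pi_mul_I] at this
      have e3 : -(dir z i * -1) = dir z i := by ring
      have e4 : pt z i s + ((s - t) * ‖z (i + 1) - z i‖ : ℝ) * (dir z i * -1) =
          pt z i s + ((t - s) * ‖z (i + 1) - z i‖ : ℝ) * dir z i := by push_cast; ring
      rwa [e3, e4] at this
  have stepB : ∀ i < m, L 0 0 ↔ L i 0 := by
    intro i hi
    induction i with
    | zero => rfl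
    | succ i ih =>
      have hi' : i < m := by omega
      have hl := h.len_pos hi'
      obtain ⟨h3, h4, _⟩ := H (i + 1) 0 hi le_rfl one_pos
      have hr := h3.2.2.2.2.1
      obtain ⟨δ, h5, h6⟩ := exists_between
        (show 0 < min 1 (r (i + 1) 0 / ‖z (i + 1) - z i‖) by positivity)
      rw [lt_min_iff, lt_div_iff₀ hl] at h6
      obtain ⟨h7, _, h8⟩ := H i (1 - δ) hi' (by linarith) (by linarith)
      rw [ih hi', stepA i hi' (1 - δ) (by linarith) (by linarith)]
      refine (h3.agree h.closed h7 ?_).symm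
      have := common_bwd (pt z (i + 1) 0) (dir z (i + 1)) h3.2.2.1 (by positivity) h6.2
        h7.2.2.2.2.1
      rw [h4 rfl, prv, if_neg (by omega), Nat.add_sub_cancel, neg_neg] at this
      rw [h8 (by linarith), h.pt_sub hi' 1 (1 - δ), pt_one, ← pt_zero z (i + 1)]
      have e4 : pt z (i + 1) 0 + (δ * ‖z (i + 1) - z i‖ : ℝ) * (- dir z i) =
        pt z (i + 1) 0 + ((1 - δ - 1) * ‖pt z (i + 1) 0 - z i‖ : ℝ) * dir z i := by
        rw [pt_zero]; push_cast; ring
      rwa [e4] at this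
  have key : ∀ i < m, ∀ s : ℝ, 0 < s → s < 1 → ∀ᶠ x in 𝓝 (pt z i s),
      (0 < E (dir z i) (x - pt z i s) → (x ∈ P ↔ L 0 0)) ∧
      (E (dir z i) (x - pt z i s) < 0 → (x ∈ P ↔ ¬ L 0 0)) := by
    intro i hi s h1 h2
    obtain ⟨h3, _, h4⟩ := H i s hi h1.le h2
    rw [(stepB i hi).trans (stepA i hi s h1.le h2)]
    simp only [hL]
    rw [h4 h1] at h3 ⊢
    filter_upwards [ball_mem_nhds _ h3.2.2.2.2.1] with x hx
    have e1 := mem_Sec_pi h3.2.1 hx
    have e2 := mem_Sec_pi (u := - dir z i) (by rw [norm_neg, h3.2.1]) hx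
    rw [E_neg_left, neg_pos] at e2
    have hne : (Sec (pt z i s) (dir z i) π (r i s)).Nonempty :=
      ⟨_, r i s / 2, π / 2, by linarith [h3.2.2.2.2.1], by linarith [h3.2.2.2.2.1],
        by linarith [Real.pi_pos], by linarith [Real.pi_pos], rfl⟩
    rcases h3.opp h.closed h.reg with ⟨h5, h6⟩ | ⟨h5, h6⟩
    · exact ⟨fun h7 => iff_of_true (h5 (e1 h7)) h5,
        fun h7 => iff_of_false (disjoint_left.1 h6 (e2 h7)) (not_not.2 h5)⟩
    · have h8 : ¬ Sec (pt z i s) (dir z i) π (r i s) ⊆ P := fun h8 =>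
        hne.elim fun y hy => disjoint_left.1 h5 hy (h8 hy)
      exact ⟨fun h7 => iff_of_false (disjoint_left.1 h5 (e1 h7)) h8,
        fun h7 => iff_of_true (h6 (e2 h7)) h8⟩
  by_cases hc : L 0 0
  · refine ⟨1, Or.inl rfl, fun i hi s h1 h2 => (key i hi s h1 h2).mono fun x hx => ?_⟩
    rw [one_mul]
    exact ⟨fun h3 => (hx.1 h3).2 hc, fun h3 h4 => (hx.2 h3).1 h4 hc⟩
  · refine ⟨-1, Or.inr rfl, fun i hi s h1 h2 => (key i hi s h1 h2).mono fun x hx => ?_⟩
    rw [neg_one_mul, neg_pos, neg_lt_zero]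
    exact ⟨fun h3 => (hx.2 h3).2 hc, fun h3 h4 => hc ((hx.1 h3).1 h4)⟩

end Poly

/-- sign of the crossing of edge `i` with the horizontal line at height `y` -/
def sgn (z : ℕ → ℂ) (y : ℝ) (i : ℕ) : ℝ :=
  (Ioo (z i).im (z (i + 1)).im).indicator 1 y - (Ioo (z (i + 1)).im (z i).im).indicator 1 y

/-- parameter of the crossing -/
def tau (z : ℕ → ℂ) (y : ℝ) (i : ℕ) : ℝ := (y - (z i).im) / ((z (i + 1)).im - (z i).im)

/-- abscissa of the crossing -/
def crs (z : ℕ → ℂ) (y : ℝ) (i : ℕ) : ℝ := (z i).re + tau z y i * ((z (i + 1)).re - (z i).re)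

lemma cont_line (y : ℝ) : Continuous fun t : ℝ => (⟨t, y⟩ : ℂ) := by
  simp only [Complex.mk_eq_add_mul_I]
  fun_prop

lemma sgn_cases (z : ℕ → ℂ) (y : ℝ) (i : ℕ) :
    (sgn z y i = 1 ∧ (z i).im < y ∧ y < (z (i + 1)).im) ∨
    (sgn z y i = -1 ∧ (z (i + 1)).im < y ∧ y < (z i).im) ∨
    (sgn z y i = 0 ∧ ¬ ((z i).im < y ∧ y < (z (i + 1)).im) ∧
      ¬ ((z (i + 1)).im < y ∧ y < (z i).im)) := by
  unfold sgn
  by_cases h1 : (z i).im < y ∧ y < (z (i + 1)).im
  · have h2 : ¬ ((z (i + 1)).im < y ∧ y < (z i).im) := fun h => by linarith [h.1, h1.2]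
    exact Or.inl ⟨by rw [indicator_of_mem (show y ∈ Ioo _ _ from h1),
      indicator_of_notMem (show y ∉ Ioo _ _ from h2)]; simp, h1⟩
  by_cases h2 : (z (i + 1)).im < y ∧ y < (z i).im
  · exact Or.inr (Or.inl ⟨by rw [indicator_of_mem (show y ∈ Ioo _ _ from h2),
      indicator_of_notMem (show y ∉ Ioo _ _ from h1)]; simp, h2⟩)
  · exact Or.inr (Or.inr ⟨by rw [indicator_of_notMem (show y ∉ Ioo _ _ from h2),
      indicator_of_notMem (show y ∉ Ioo _ _ from h1)]; simp, h1, h2⟩)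

lemma sgn_ne {z : ℕ → ℂ} {y : ℝ} {i : ℕ} (h : sgn z y i ≠ 0) :
    0 < tau z y i ∧ tau z y i < 1 ∧ pt z i (tau z y i) = ⟨crs z y i, y⟩ ∧
      0 < sgn z y i * (z (i + 1) - z i).im ∧ (sgn z y i = 1 ∨ sgn z y i = -1) := by
  have e : (z (i + 1)).im - (z i).im ≠ 0 → pt z i (tau z y i) = ⟨crs z y i, y⟩ := by
    intro h1
    apply Complex.ext
    · simp [pt, crs]
    · simp only [pt, tau, add_im, mul_im, ofReal_re, ofReal_im, sub_im, zero_mul, add_zero]
      field_simp
      ring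
  rcases sgn_cases z y i with ⟨h1, h2, h3⟩ | ⟨h1, h2, h3⟩ | ⟨h1, -⟩
  · refine ⟨div_pos (by linarith) (by linarith), (div_lt_one (by linarith)).2 (by linarith),
      e (by linarith), by rw [h1, sub_im]; linarith, Or.inl h1⟩
  · refine ⟨div_pos_of_neg_of_neg (by linarith) (by linarith),
      (div_lt_one_of_neg (by linarith)).2 (by linarith), e (by linarith),
      by rw [h1, sub_im]; linarith, Or.inr h1⟩
  · exact absurd h1 h

namespace Poly

variable {P : Set ℂ} {m : ℕ} {z : ℕ → ℂ}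

lemma crs_of_front (h : Poly P m z) {y : ℝ} (hy : ∀ i < m, (z i).im ≠ y) {t : ℝ}
    (ht : (⟨t, y⟩ : ℂ) ∈ frontier P) : ∃ i < m, sgn z y i ≠ 0 ∧ crs z y i = t := by
  obtain ⟨i, hi, s, ⟨h1, h2⟩, h3⟩ := (h.front _).1 ht
  have hy' : (z (i + 1)).im ≠ y := by
    rcases (Nat.succ_le_of_lt hi).eq_or_lt with h4 | h4
    · rw [show i + 1 = m from h4, h.close]; exact hy 0 (by omega)
    · exact hy _ h4
  have h4 : (z i).im + s * ((z (i + 1)).im - (z i).im) = y := by
    simpa [pt] using congrArg Complex.im h3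
  have h5 : (z i).re + s * ((z (i + 1)).re - (z i).re) = t := by
    simpa [pt] using congrArg Complex.re h3
  have h6 := hy i hi
  have h7 : (z (i + 1)).im - (z i).im ≠ 0 := fun h7 => h6 (by rw [← h4, h7]; ring)
  have h8 : tau z y i = s := by rw [tau, ← h4]; field_simp; ring
  refine ⟨i, hi, fun h9 => ?_, by rw [crs, h8, h5]⟩
  rcases sgn_cases z y i with ⟨h10, -⟩ | ⟨h10, -⟩ | ⟨-, h10, h11⟩
  · rw [h9] at h10; norm_num at h10
  · rw [h9] at h10; norm_num at h10
  · rcases lt_or_gt_of_ne h7 with h12 | h12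
    · exact h11 ⟨lt_of_le_of_ne (by nlinarith) hy', lt_of_le_of_ne (by nlinarith) h6.symm⟩
    · exact h10 ⟨lt_of_le_of_ne (by nlinarith) h6, lt_of_le_of_ne (by nlinarith) hy'.symm⟩

open Classical in
lemma jump (h : Poly P m z) {ε : ℝ} (hε : ε = 1 ∨ ε = -1) (hs : ∀ i < m, ∀ s : ℝ, 0 < s → s < 1 →
    ∀ᶠ x in 𝓝 (pt z i s), (0 < ε * E (dir z i) (x - pt z i s) → x ∈ P) ∧
      (ε * E (dir z i) (x - pt z i s) < 0 → x ∉ P)) {y : ℝ} (hy : ∀ i < m, (z i).im ≠ y) (t₀ : ℝ) :
    ∃ A B : Prop, (∀ᶠ t in 𝓝 t₀, (t < t₀ → ((⟨t, y⟩ : ℂ) ∈ P ↔ A)) ∧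
      (t₀ < t → ((⟨t, y⟩ : ℂ) ∈ P ↔ B))) ∧
      ∑ i ∈ Finset.range m, sgn z y i * (if crs z y i = t₀ then 1 else 0) =
        ε * ((if A then 1 else 0) - if B then 1 else 0) := by
  have hc := cont_line y
  by_cases hf : ∃ i < m, sgn z y i ≠ 0 ∧ crs z y i = t₀
  · obtain ⟨i, hi, h1, h2⟩ := hf
    obtain ⟨h3, h4, h5, h6, h7⟩ := sgn_ne h1
    have h8 := hs i hi _ h3 h4
    rw [h5, h2] at h8
    have h9 : 0 < sgn z y i * (dir z i).im := by
      have h10 := h.len_pos hi
      rw [dir_mul (h.ne hi), im_ofReal_mul] at h6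
      nlinarith
    refine ⟨0 < ε * sgn z y i, ε * sgn z y i < 0, ?_, ?_⟩
    · filter_upwards [hc.continuousAt.eventually h8] with t ht
      have e : E (dir z i) ((⟨t, y⟩ : ℂ) - ⟨t₀, y⟩) = (dir z i).im * (t₀ - t) := by
        simp [E]; ring
      rw [e] at ht
      rcases hε with rfl | rfl <;> rcases h7 with h7 | h7 <;> rw [h7] at h9 ⊢ <;>
        refine ⟨fun h10 => ?_, fun h10 => ?_⟩ <;>
        first
          | exact iff_of_true (ht.1 (by nlinarith)) (by norm_num)
          | exact iff_of_false (ht.2 (by nlinarith)) (by norm_num)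
    · rw [Finset.sum_eq_single_of_mem i (Finset.mem_range.2 hi), if_pos h2]
      · rcases hε with rfl | rfl <;> rcases h7 with h7 | h7 <;> rw [h7] <;> norm_num
      · intro j hj hji
        by_cases h10 : sgn z y j = 0
        · rw [h10, zero_mul]
        rw [if_neg, mul_zero]
        intro h11
        obtain ⟨g3, g4, g5, -⟩ := sgn_ne h10
        exact hji (h.inj j (Finset.mem_range.1 hj) i hi _ _ g3.le g4 h3.le h4
          (by rw [g5, h5, h11, h2])).1
  · refine ⟨(⟨t₀, y⟩ : ℂ) ∈ P, (⟨t₀, y⟩ : ℂ) ∈ P, ?_, ?_⟩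
    · have h1 : (⟨t₀, y⟩ : ℂ) ∉ frontier P := fun h1 => hf (h.crs_of_front hy h1)
      by_cases h2 : (⟨t₀, y⟩ : ℂ) ∈ P
      · have h3 : (⟨t₀, y⟩ : ℂ) ∈ interior P := by
          by_contra h3
          exact h1 ⟨subset_closure h2, h3⟩
        filter_upwards [hc.continuousAt.eventually (mem_interior_iff_mem_nhds.1 h3)] with t ht
        exact ⟨fun _ => iff_of_true ht h2, fun _ => iff_of_true ht h2⟩
      · filter_upwards [hc.continuousAt.eventually (h.closed.isOpen_compl.mem_nhds h2)] with t ht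
        exact ⟨fun _ => iff_of_false ht h2, fun _ => iff_of_false ht h2⟩
    · rw [sub_self, mul_zero]
      refine Finset.sum_eq_zero fun i hi => ?_
      by_cases h1 : sgn z y i = 0
      · rw [h1, zero_mul]
      · rw [if_neg (fun h2 => hf ⟨i, Finset.mem_range.1 hi, h1, h2⟩), mul_zero]

open Classical in
lemma slice (h : Poly P m z) {ε : ℝ} (hε : ε = 1 ∨ ε = -1) (hs : ∀ i < m, ∀ s : ℝ, 0 < s → s < 1 →
    ∀ᶠ x in 𝓝 (pt z i s), (0 < ε * E (dir z i) (x - pt z i s) → x ∈ P) ∧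
      (ε * E (dir z i) (x - pt z i s) < 0 → x ∉ P)) {R : ℝ} (hR : ∀ x ∈ P, |x.re| < R) {y : ℝ}
    (hy : ∀ i < m, (z i).im ≠ y) :
    ε * ∫ t : ℝ, P.indicator (1 : ℂ → ℝ) ⟨t, y⟩ =
      ∑ i ∈ Finset.range m, sgn z y i * (crs z y i + R) := by
  have hX : ∀ i < m, sgn z y i ≠ 0 → |crs z y i| < R := by
    intro i hi h1
    obtain ⟨h3, h4, h5, -⟩ := sgn_ne h1
    have := hR _ (h.closed.frontier_subset ((h.front _).2 ⟨i, hi, _, ⟨h3.le, h4.le⟩, rfl⟩))
    rwa [h5] at this
  set Q : ℝ → Prop := fun t => ∀ᶠ u in 𝓝[>] t, (⟨u, y⟩ : ℂ) ∈ P with hQ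
  set G : ℝ → ℝ := fun t => ∑ i ∈ Finset.range m, sgn z y i * (if t < crs z y i then 1 else 0) -
    ε * (if Q t then 1 else 0) with hG
  have hlc : IsLocallyConstant G := by
    rw [IsLocallyConstant.iff_eventually_eq]
    intro t₀
    obtain ⟨A, B, h1, h2⟩ := h.jump hε hs hy t₀
    have h3 : ∀ᶠ t in 𝓝 t₀, ∀ i ∈ Finset.range m, crs z y i ≠ t₀ →
        (t < crs z y i ↔ t₀ < crs z y i) := by
      refine (eventually_all_finset _).2 fun i _ => ?_
      rcases lt_trichotomy (crs z y i) t₀ with h4 | h4 | h4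
      · exact (lt_mem_nhds h4).mono fun t ht _ => iff_of_false (by linarith) (by linarith)
      · exact Eventually.of_forall fun _ h5 => absurd h4 h5
      · exact (gt_mem_nhds h4).mono fun t ht _ => iff_of_true ht h4
    have hB : ∀ t, t₀ ≤ t → (∀ᶠ u in 𝓝 t, (u < t₀ → ((⟨u, y⟩ : ℂ) ∈ P ↔ A)) ∧
        (t₀ < u → ((⟨u, y⟩ : ℂ) ∈ P ↔ B))) → (Q t ↔ B) := by
      intro t h4 h5
      refine Iff.trans (eventually_congr ?_) (eventually_const (f := 𝓝[>] t))
      filter_upwards [mem_nhdsWithin_of_mem_nhds h5, self_mem_nhdsWithin] with u h6 h7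
      exact h6.2 (h4.trans_lt h7)
    filter_upwards [h1.eventually_nhds, h3] with t h4 h5
    simp only [hG]
    rw [hB t₀ le_rfl h1]
    rcases lt_or_ge t t₀ with h6 | h6
    · have h7 : Q t ↔ A := by
        refine Iff.trans (eventually_congr ?_) (eventually_const (f := 𝓝[>] t))
        filter_upwards [mem_nhdsWithin_of_mem_nhds h4, mem_nhdsWithin_of_mem_nhds (gt_mem_nhds h6)]
          with u h8 h9
        exact h8.1 h9
      rw [h7, Finset.sum_congr rfl (g := fun i => sgn z y i * (if t₀ < crs z y i then 1 else 0) +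
        sgn z y i * (if crs z y i = t₀ then 1 else 0)), Finset.sum_add_distrib, h2]
      · ring
      · intro i hi
        by_cases h8 : crs z y i = t₀
        · simp [h8, h6]
        · simp [h8, h5 i hi h8]
    · rw [hB t h6 h4]
      congr 1
      refine Finset.sum_congr rfl fun i hi => ?_
      by_cases h8 : crs z y i = t₀
      · simp [h8, h6.not_gt]
      · simp [h5 i hi h8]
  have hG0 : ∀ t, G t = 0 := by
    intro t
    rw [hlc.apply_eq_of_preconnectedSpace t R]
    have h1 : ¬ Q R := by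
      intro h1
      obtain ⟨u, h2, h3⟩ := (h1.and self_mem_nhdsWithin).exists
      have := (abs_lt.1 (hR _ h2)).2
      exact absurd h3 (not_lt.2 this.le)
    simp only [hG]
    rw [if_neg h1, mul_zero, sub_zero]
    refine Finset.sum_eq_zero fun i hi => ?_
    by_cases h2 : sgn z y i = 0
    · rw [h2, zero_mul]
    · rw [if_neg (not_lt.2 (abs_lt.1 (hX i (Finset.mem_range.1 hi) h2)).2.le), mul_zero]
  have hae : ∀ᵐ t : ℝ, ε * P.indicator (1 : ℂ → ℝ) ⟨t, y⟩ =
      ∑ i ∈ Finset.range m, sgn z y i * (Ioo (-R) (crs z y i)).indicator 1 t := by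
    have h0 : volume (crs z y '' Iio m) = 0 := ((finite_Iio m).image _).measure_zero _
    filter_upwards [compl_mem_ae_iff.2 h0] with t ht
    by_cases h1 : -R < t
    · have h2 : Q t ↔ (⟨t, y⟩ : ℂ) ∈ P := by
        have h5 : (⟨t, y⟩ : ℂ) ∉ frontier P := fun h5 => by
          obtain ⟨i, hi, -, h6⟩ := h.crs_of_front hy h5
          exact ht ⟨i, hi, h6⟩
        have hc := cont_line y
        constructor
        · intro h6
          exact h.closed.mem_of_tendsto (hc.continuousAt.tendsto.mono_left nhdsWithin_le_nhds) h6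
        · intro h6
          have h7 : (⟨t, y⟩ : ℂ) ∈ interior P := by
            by_contra h7
            exact h5 ⟨subset_closure h6, h7⟩
          exact mem_nhdsWithin_of_mem_nhds
            (hc.continuousAt.eventually (mem_interior_iff_mem_nhds.1 h7))
      have h3 := hG0 t
      simp only [hG] at h3
      rw [h2, sub_eq_zero] at h3
      simp only [indicator, mem_Ioo, h1, true_and, Pi.one_apply]
      convert h3.symm
    · rw [indicator_of_notMem (fun h2 => h1 (abs_lt.1 (hR _ h2)).1), mul_zero]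
      simp [indicator, h1]
  rw [← integral_const_mul, integral_congr_ae hae, integral_finsetSum]
  · refine Finset.sum_congr rfl fun i hi => ?_
    by_cases h2 : sgn z y i = 0
    · simp [h2]
    · rw [integral_const_mul, integral_indicator_one measurableSet_Ioo, Real.volume_real_Ioo_of_le
        (abs_lt.1 (hX i (Finset.mem_range.1 hi) h2)).1.le, sub_neg_eq_add]
  · intro i _
    exact ((integrable_indicator_iff measurableSet_Ioo).2
      (integrableOn_const (by simp))).const_mul _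

theorem green (h : Poly P m z) (hc : IsCompact P) :
    ∃ ε : ℝ, (ε = 1 ∨ ε = -1) ∧ ε * volume.real P = shoe m z / 2 := by
  obtain ⟨ε, hε, hs⟩ := h.sided
  refine ⟨ε, hε, ?_⟩
  obtain ⟨R, hR⟩ := hc.isBounded.exists_norm_le
  have hR' : ∀ x ∈ P, |x.re| < R + 1 := fun x hx => by linarith [abs_re_le_norm x, hR x hx]
  have h1 : volume.real P = ∫ y : ℝ, ∫ t : ℝ, P.indicator (1 : ℂ → ℝ) ⟨t, y⟩ := by
    have h2 : Integrable (P.indicator (1 : ℂ → ℝ)) :=
      (integrable_indicator_iff hc.measurableSet).2 (integrableOn_const hc.measure_lt_top.ne)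
    have h3 := Complex.volume_preserving_equiv_real_prod.symm
    rw [← integral_indicator_one hc.measurableSet, ← h3.integral_comp']
    exact integral_prod_symm _
      ((h3.integrable_comp_emb (MeasurableEquiv.measurableEmbedding _)).2 h2)
  have h2 : ∀ᵐ y : ℝ, ε * ∫ t : ℝ, P.indicator (1 : ℂ → ℝ) ⟨t, y⟩ =
      ∑ i ∈ Finset.range m, sgn z y i * (crs z y i + (R + 1)) := by
    have h0 : volume ((fun i => (z i).im) '' Iio m) = 0 := ((finite_Iio m).image _).measure_zero _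
    filter_upwards [compl_mem_ae_iff.2 h0] with y hy
    exact h.slice hε hs hR' fun i hi h3 => hy ⟨i, hi, h3⟩
  have h3 : ∀ i, Continuous fun y => crs z y i + (R + 1) := fun i => by
    unfold crs tau; fun_prop
  have h4 : ∀ i, (fun y => sgn z y i * (crs z y i + (R + 1))) = fun y =>
      (Ioo (z i).im (z (i + 1)).im).indicator (fun y => crs z y i + (R + 1)) y -
      (Ioo (z (i + 1)).im (z i).im).indicator (fun y => crs z y i + (R + 1)) y := by
    intro i
    ext y
    simp only [sgn, indicator, Pi.one_apply]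
    split_ifs <;> ring
  have h5 : ∀ i a b, Integrable ((Ioo a b).indicator fun y => crs z y i + (R + 1)) := fun i a b =>
    (integrable_indicator_iff measurableSet_Ioo).2
      (((h3 i).integrableOn_Icc (a := a) (b := b)).mono_set Ioo_subset_Icc_self)
  rw [h1, ← integral_const_mul, integral_congr_ae h2, integral_finsetSum _
    (fun i _ => by rw [h4]; exact (h5 i _ _).sub (h5 i _ _))]
  have h6 : ∀ i, ∫ y, sgn z y i * (crs z y i + (R + 1)) = E (z i) (z (i + 1)) / 2 +
      (((z (i + 1)).re * (z (i + 1)).im / 2 + (R + 1) * (z (i + 1)).im) -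
        ((z i).re * (z i).im / 2 + (R + 1) * (z i).im)) := by
    intro i
    rw [h4, integral_sub (h5 i _ _) (h5 i _ _), integral_indicator measurableSet_Ioo,
      integral_indicator measurableSet_Ioo, ← integral_Ioc_eq_integral_Ioo,
      ← integral_Ioc_eq_integral_Ioo]
    change ∫ y in (z i).im..(z (i + 1)).im, (crs z y i + (R + 1)) = _
    by_cases h7 : (z (i + 1)).im = (z i).im
    · rw [h7, intervalIntegral.integral_same, E, h7]; ring
    have h8 := sub_ne_zero.2 h7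
    rw [intervalIntegral.integral_eq_sub_of_hasDerivAt (f := fun y => ((z i).re + (R + 1)) * y +
      (y - (z i).im) ^ 2 * (((z (i + 1)).re - (z i).re) / (2 * ((z (i + 1)).im - (z i).im))))
      (fun y _ => ?_) ((h3 i).intervalIntegrable _ _)]
    · rw [E]; field_simp; ring
    · refine (((hasDerivAt_id y).const_mul _).add ((((hasDerivAt_id y).sub_const _).pow 2).mul_const
        _)).congr_deriv ?_
      simp only [crs, tau, id]
      field_simp
      ring
  simp only [h6]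
  rw [Finset.sum_add_distrib, Finset.sum_range_sub
    (fun i => (z i).re * (z i).im / 2 + (R + 1) * (z i).im), h.close, sub_self, add_zero, shoe,
    Finset.sum_div]

end Poly

end

end Pool.Agent.Lib.MP_f2d99b_co
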