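import Pool.Agent.Lib.MP_f2d99b_co.Solid

namespace Pool.Agent.Lib.MP_f2d99b_co

noncomputable section

open Set Complex MeasureTheory Metric Filter Topology
open scoped Real

lemma iso_bij {g : ℂ → ℂ} (hg : ∀ x y, ‖g x - g y‖ = ‖x - y‖) : Function.Bijective g := by
  constructor
  · intro x y h
    have := hg x y
    rwa [h, sub_self, norm_zero, eq_comm, norm_eq_zero, sub_eq_zero] at this
  · obtain ⟨a, u, hu, h | h⟩ := iso_form hg
    all_goals have hu0 : u ≠ 0 := by rintro rfl; simp at hu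
    · exact fun x => ⟨(x - a) / u, by rw [h]; field_simp; ring⟩
    · exact fun x => ⟨(starRingEnd ℂ) ((x - a) / u), by rw [h, conj_conj]; field_simp; ring⟩

lemma iso_quot {g g' : ℂ → ℂ} (hg : ∀ x y, ‖g x - g y‖ = ‖x - y‖)
    (hg' : ∀ x y, ‖g' x - g' y‖ = ‖x - y‖) : ∃ T : ℂ → ℂ, (∀ x y, ‖T x - T y‖ = ‖x - y‖) ∧
      ∀ y, T (g y) = g' y := by
  obtain ⟨h1, h2⟩ := iso_bij hg
  refine ⟨fun x => g' (Function.surjInv h2 x), fun x y => ?_, fun y => ?_⟩
  · rw [hg', ← hg, Function.surjInv_eq h2, Function.surjInv_eq h2]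
  · simp only [Function.leftInverse_surjInv ⟨h1, h2⟩ y]

lemma punct_preconn (c : ℂ) (r : ℝ) : IsPreconnected (ball c r \ {c}) := by
  have : ball c r \ {c} = (fun p : ℝ × ℝ => c + p.1 * 1 * exp (p.2 * I)) '' (Ioo 0 r ×ˢ univ) := by
    ext x
    constructor
    · rintro ⟨h1, h2⟩
      obtain ⟨φ, _, _, h3⟩ := polar c (u := 1) (by simp) x
      exact ⟨(‖x - c‖, φ), ⟨⟨norm_pos_iff.2 (sub_ne_zero.2 h2), mem_ball_iff_norm.1 h1⟩, trivial⟩,
        h3.symm⟩
    · rintro ⟨⟨ρ, φ⟩, ⟨⟨h1, h2⟩, _⟩, rfl⟩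
      have := norm_polar (u := 1) (by simp) h1.le φ
      refine ⟨by rw [mem_ball_iff_norm, add_sub_cancel_left, this]; exact h2, fun h3 => ?_⟩
      rw [mem_singleton_iff, add_eq_left] at h3
      simp only at h1 this h3
      rw [h3, norm_zero] at this
      linarith
  rw [this]
  exact (isPreconnected_Ioo.prod isPreconnected_univ).image _ (by fun_prop)

lemma convex_side {C : Set ℂ} (hC : Convex ℝ C) (hi : (interior C).Nonempty) {y d : ℂ} (hd : d ≠ 0)
    (h1 : y ∈ C) (h2 : y + d ∈ C) {t : ℝ} (h3 : 0 < t) (h4 : t < 1) :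
    ∃ σ : ℝ, (σ = 1 ∨ σ = -1) ∧ ∀ᶠ ε : ℝ in 𝓝[>] (0 : ℝ), y + t * d + ε * σ * I * d ∈ C := by
  obtain ⟨p, h5, h6⟩ : ∃ p ∈ interior C, p ∉ {x : ℂ | ∃ t : ℝ, x = y + t * d} := by
    by_contra h5
    push Not at h5
    have := isOpen_interior.measure_pos volume hi
    rw [measure_mono_null h5 (vol_line y d)] at this
    exact lt_irrefl _ this
  set a := ((p - y) / d).re with ha
  set b := ((p - y) / d).im with hb
  have e : p = y + (a + b * I) * d := by rw [ha, hb, re_add_im]; field_simp; ring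
  have hb0 : b ≠ 0 := fun h => h6 ⟨a, by rw [e, h]; simp⟩
  have hab : 0 < |b| := abs_pos.2 hb0
  refine ⟨b / |b|, ?_, ?_⟩
  · rcases abs_choice b with h | h <;> rw [h]
    · exact Or.inl (div_self hb0)
    · exact Or.inr (by rw [div_neg, div_self hb0])
  · have c1 : ∀ᶠ ε in 𝓝 (0 : ℝ), ε / |b| * a < t := by
      have : ContinuousAt (fun ε : ℝ => ε / |b| * a) 0 := by fun_prop
      exact this.eventually_lt continuousAt_const (by simpa using h3)
    have c2 : ∀ᶠ ε in 𝓝 (0 : ℝ), ε / |b| * (1 - a) < 1 - t := by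
      have : ContinuousAt (fun ε : ℝ => ε / |b| * (1 - a)) 0 := by fun_prop
      exact this.eventually_lt continuousAt_const (by simpa using h4)
    filter_upwards [mem_nhdsWithin_of_mem_nhds c1, mem_nhdsWithin_of_mem_nhds c2,
      self_mem_nhdsWithin] with ε h7 h8 h9
    have h10 : 0 < ε / |b| := div_pos h9 hab
    have := hC.sum_mem (t := Finset.univ) (w := ![1 - t - ε / |b| * (1 - a), t - ε / |b| * a,
      ε / |b|]) (z := ![y, y + d, p]) (by
        intro i _
        fin_cases i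
        · show 0 ≤ 1 - t - ε / |b| * (1 - a); linarith
        · show 0 ≤ t - ε / |b| * a; linarith
        · exact h10.le)
      (by simp [Fin.sum_univ_three]; ring)
      (by intro i _; fin_cases i; exacts [h1, h2, interior_subset h5])
    simp only [Fin.sum_univ_three, Matrix.cons_val_zero, Matrix.cons_val_one, Matrix.cons_val_two,
      Matrix.head_cons, Matrix.tail_cons, real_smul] at this
    rw [e] at this
    have e2 : y + t * d + ε * (b / |b| : ℝ) * I * d = ((1 - t - ε / |b| * (1 - a) : ℝ) : ℂ) * y +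
        (t - ε / |b| * a : ℝ) * (y + d) + (ε / |b| : ℝ) * (y + (a + b * I) * d) := by
      push_cast; ring
    rwa [e2]

lemma PW.same {P : Set ℂ} {f : ℂ → E3} {n : ℕ} {C : Fin n → Set ℂ} {A : Fin n → ℂ →ᵃⁱ[ℝ] E3}
    (h : PW P f C A) {i j : Fin n} {G : ℂ → ℂ} (hG : ∀ x y, ‖G x - G y‖ = ‖x - y‖)
    (hA : ∀ y, A j y = A i (G y)) {x y : ℂ} (hne : x ≠ y) (hx : x ∈ interior P)
    (h1 : x ∈ C i) (h2 : x ∈ C j) (h3 : y ∈ C i) (h4 : y ∈ C j) (w : ℂ) : G w = w := by
  have fx : ∀ z ∈ C i, z ∈ C j → G z = z := fun z h5 h6 =>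
    (A i).injective (by rw [← hA, ← h.eq i h5, ← h.eq j h6])
  have gx := fx x h1 h2
  have gy := fx y h3 h4
  have hd : y - x ≠ 0 := sub_ne_zero.2 hne.symm
  obtain ⟨a, u, hu, h5 | h5⟩ := iso_form hG
  · rw [h5] at gx gy ⊢
    have : (u - 1) * (y - x) = 0 := by linear_combination gy - gx
    have h6 := sub_eq_zero.1 ((mul_eq_zero.1 this).resolve_right hd)
    rw [h6] at gx ⊢
    linear_combination gx
  exfalso
  have refl : ∀ t e : ℝ, G (x + t * (y - x) + e * I * (y - x)) =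
      x + t * (y - x) + (-e : ℝ) * I * (y - x) := by
    intro t e
    rw [h5] at gx gy ⊢
    simp only [map_add, map_mul, map_sub, conj_ofReal, conj_I]
    push_cast
    linear_combination gx + (t - e * I) * (gy - gx)
  have c1 : ∀ᶠ t : ℝ in 𝓝[>] (0 : ℝ), x + t * (y - x) ∈ interior P := by
    have : Continuous (fun t : ℝ => x + t * (y - x)) := by fun_prop
    exact mem_nhdsWithin_of_mem_nhds (this.continuousAt.preimage_mem_nhds
      (isOpen_interior.mem_nhds (by simpa using hx)))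
  obtain ⟨t, h6, h7, h8⟩ := (c1.and (ev_lt one_pos)).exists
  have c2 : ∀ σ : ℝ, ∀ᶠ ε : ℝ in 𝓝[>] (0 : ℝ), x + t * (y - x) + ε * σ * I * (y - x) ∈ interior P := by
    intro σ
    have : Continuous (fun ε : ℝ => x + t * (y - x) + ε * σ * I * (y - x)) := by fun_prop
    exact mem_nhdsWithin_of_mem_nhds (this.continuousAt.preimage_mem_nhds
      (isOpen_interior.mem_nhds (by simpa using h6)))
  obtain ⟨σ, h9, h10⟩ := convex_side (h.cvx i) (h.int i) hd h1 (by simpa using h3) h7 h8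
  obtain ⟨σ', h11, h12⟩ := convex_side (h.cvx j) (h.int j) hd h2 (by simpa using h4) h7 h8
  obtain ⟨ε, h13, h14, h15, h16, h17⟩ :=
    (h10.and (h12.and ((c2 σ).and ((c2 σ').and self_mem_nhdsWithin)))).exists
  have hε : (ε : ℂ) ≠ 0 := by exact_mod_cast (ne_of_gt h17)
  have r1 := refl t (ε * σ')
  push_cast at r1
  have key : ∀ e e' : ℂ, x + t * (y - x) + ε * e * I * (y - x) =
      x + t * (y - x) + ε * e' * I * (y - x) → e = e' := by
    intro e e' h18
    have := mul_right_cancel₀ I_ne_zero (mul_right_cancel₀ hd (add_left_cancel h18))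
    exact mul_left_cancel₀ hε this
  have hs : σ' = σ ∨ σ' = -σ := by rcases h9 with rfl | rfl <;> rcases h11 with rfl | rfl <;> simp
  have hσ : (σ : ℂ) ≠ -σ := by rcases h9 with rfl | rfl <;> norm_num
  rcases hs with rfl | rfl
  · rw [fx _ h13 h14, ← mul_neg] at r1
    exact hσ (key _ _ r1)
  · have h18 := h.inj h16 h15 (by
      rw [h.eq j h14, h.eq i h13, hA, r1]; push_cast; rw [mul_neg, neg_neg])
    push_cast at h18
    exact hσ (key _ _ h18).symm

lemma PW.const {P : Set ℂ} {f : ℂ → E3} {n : ℕ} {C : Fin n → Set ℂ} {A : Fin n → ℂ →ᵃⁱ[ℝ] E3}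
    (h : PW P f C A) (hc : IsPreconnected (interior P)) {X : Type} (Φ : Fin n → X)
    (hΦ : ∀ i j x y, x ≠ y → x ∈ interior P → x ∈ C i → x ∈ C j → y ∈ C i → y ∈ C j → Φ i = Φ j)
    (i j : Fin n) : Φ i = Φ j := by
  have split : ∀ S : Set ℂ, IsPreconnected S → S ⊆ P →
      (∀ a b, ∀ x ∈ S, x ∈ C a → x ∈ C b → Φ a = Φ b) →
      ∀ a b, (S ∩ C a).Nonempty → (S ∩ C b).Nonempty → Φ a = Φ b := by
    intro S hS hSP h1 a b h2 h3
    by_contra h4
    obtain ⟨x, h5, h6, h7⟩ := isPreconnected_closed_iff.1 hS (⋃ c, ⋃ (_ : Φ c = Φ a), C c)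
      (⋃ c, ⋃ (_ : Φ c ≠ Φ a), C c)
      (isClosed_iUnion_of_finite fun c => isClosed_iUnion_of_finite fun _ => (h.cpt c).isClosed)
      (isClosed_iUnion_of_finite fun c => isClosed_iUnion_of_finite fun _ => (h.cpt c).isClosed)
      (fun x hx => by
        obtain ⟨c, hc⟩ := h.mem (hSP hx)
        by_cases h5 : Φ c = Φ a
        · exact Or.inl (mem_iUnion₂.2 ⟨c, h5, hc⟩)
        · exact Or.inr (mem_iUnion₂.2 ⟨c, h5, hc⟩))
      (h2.mono (inter_subset_inter_right _ fun x hx => mem_iUnion₂.2 ⟨a, rfl, hx⟩))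
      (h3.mono (inter_subset_inter_right _ fun x hx => mem_iUnion₂.2 ⟨b, Ne.symm h4, hx⟩))
    obtain ⟨c, h8, h9⟩ := mem_iUnion₂.1 h6
    obtain ⟨d, h10, h11⟩ := mem_iUnion₂.1 h7
    exact h10 ((h1 d c x h5 h11 h9).trans h8)
  have hint : ∀ a, (interior P ∩ C a).Nonempty := fun a =>
    (h.int a).mono (subset_inter (interior_mono (h.sub a)) interior_subset)
  refine split _ hc interior_subset (fun a b x hx h1 h2 => ?_) i j (hint i) (hint j)
  obtain ⟨r, hr, h3⟩ := Metric.eventually_nhds_iff_ball.1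
    ((ev_closed C (fun i => (h.cpt i).isClosed) x).and (isOpen_interior.mem_nhds hx))
  have ne : ∀ c, x ∈ C c → ((ball x r \ {x}) ∩ C c).Nonempty := by
    intro c hc
    have h4 := subset_closure hc
    rw [← (h.cvx c).closure_interior_eq_closure_of_nonempty_interior (h.int c)] at h4
    have h5 := _root_.mem_closure_iff.1 h4 _ isOpen_ball (mem_ball_self hr)
    have h6 := (isOpen_ball.inter isOpen_interior).measure_pos volume h5
    by_contra h7
    rw [measure_mono_null (t := {x}) (fun y hy => by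
      by_contra h8
      exact h7 ⟨y, ⟨hy.1, h8⟩, interior_subset hy.2⟩) (measure_singleton x)] at h6
    exact lt_irrefl _ h6
  refine split _ (punct_preconn x r) (fun y hy => interior_subset (h3 y hy.1).2)
    (fun c d y hy h4 h5 => ?_) a b (ne a h1) (ne b h2)
  exact hΦ c d x y (Ne.symm hy.2) hx ((h3 y hy.1).1 c h4) ((h3 y hy.1).1 d h5) h4 h5

variable {V : Set E3} {k nF dg : ℕ} {s : ℝ} {cc : ℕ → ZMod 3} {col : E3 → ZMod 3}
  {ψ : Fin nF → ℂ →ᵃⁱ[ℝ] E3} {l : Fin nF → E3 →ᵃ[ℝ] ℝ} {o : E3} {nb : Fin nF → ℕ → Fin nF}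
  {P : Set ℂ} {f : ℂ → E3} {n : ℕ} {C : Fin n → Set ℂ} {A : Fin n → ℂ →ᵃⁱ[ℝ] E3}

lemma piece_face (hS : Solid V k nF dg s cc col ψ l o nb) (h : PW P f C A)
    (him : f '' P = frontier (convexHull ℝ V)) (i : Fin n) : ∃ (F : Fin nF) (g : ℂ → ℂ),
      (∀ x y, ‖g x - g y‖ = ‖x - y‖) ∧ ∀ y, ψ F (g y) = A i y := by
  have mem : ∀ y ∈ C i, A i y ∈ frontier (convexHull ℝ V) := fun y hy =>
    him ▸ ⟨y, h.sub i hy, h.eq i hy⟩
  obtain ⟨c, hc⟩ := h.int i
  obtain ⟨-, F, h1⟩ := hS.front.1 (mem c (interior_subset hc))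
  have h2 : ∀ y, l F (A i y) = 0 := by
    intro y
    have e : ∀ t : ℝ, l F (A i (c + t • (y - c))) = t * l F (A i y) := by
      intro t
      have := ((l F).comp (A i).toAffineMap).apply_lineMap c y t
      simp only [AffineMap.lineMap_apply, vsub_eq_sub, vadd_eq_add, AffineMap.comp_apply,
        AffineIsometry.coe_toAffineMap, h1, smul_eq_mul] at this
      rw [add_comm, this]; ring
    have c1 : ∀ σ : ℝ, ∀ᶠ t : ℝ in 𝓝[>] (0 : ℝ), c + (σ * t) • (y - c) ∈ C i := by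
      intro σ
      have : Continuous (fun t : ℝ => c + (σ * t) • (y - c)) := by fun_prop
      exact mem_nhdsWithin_of_mem_nhds (this.continuousAt.preimage_mem_nhds
        (by simpa using mem_interior_iff_mem_nhds.1 hc))
    obtain ⟨t, h3, h4, h5⟩ := ((c1 1).and ((c1 (-1)).and self_mem_nhdsWithin)).exists
    have h6 := hull_le _ (hS.le F) (hS.front.1 (mem _ h3)).1
    have h7 := hull_le _ (hS.le F) (hS.front.1 (mem _ h4)).1
    rw [e] at h6 h7
    have h8 : 0 < t := h5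
    nlinarith
  choose g hg using fun y => hS.plane F (h2 y)
  refine ⟨F, g, fun x y => ?_, hg⟩
  rw [← dist_eq_norm, ← dist_eq_norm, ← (ψ F).dist_map, hg, hg, (A i).dist_map]

lemma cross (hS : Solid V k nF dg s cc col ψ l o nb) {R : ℂ → ZMod 3 → Prop} (hL : Lat k R cc)
    {F F' : Fin nF} (hne : F ≠ F') {B B' : ℂ →ᵃⁱ[ℝ] E3} {g g' : ℂ → ℂ}
    (h1 : ∀ x y, ‖g x - g y‖ = ‖x - y‖) (h2 : ∀ x y, ‖g' x - g' y‖ = ‖x - y‖)
    (h3 : ∀ y, ψ F (g y) = B y) (h4 : ∀ y, ψ F' (g' y) = B' y) {x y : ℂ} (hxy : x ≠ y)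
    (ex : B x = B' x) (ey : B y = B' y) (hx : B x ∈ convexHull ℝ V) (hy : B y ∈ convexHull ℝ V)
    {w : ℂ} {c : ZMod 3} (hw : R (g w / s) c) : R (g' w / s) c := by
  have hs : (s : ℂ) ≠ 0 := by exact_mod_cast hS.spos.ne'
  have lx : l F (B x) = 0 := h3 x ▸ hS.lpsi F _
  have ly : l F (B y) = 0 := h3 y ▸ hS.lpsi F _
  have lx' : l F' (B x) = 0 := by rw [ex, ← h4]; exact hS.lpsi _ _
  have ly' : l F' (B y) = 0 := by rw [ey, ← h4]; exact hS.lpsi _ _
  have hB : B x ≠ B y := fun h => hxy (B.injective h)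
  rcases hS.meet hne with ⟨j, h5⟩ | ⟨j, hj, h5, h6⟩
  · exact absurd ((h5 _ hx lx lx').trans (h5 _ hy ly ly').symm) hB
  have line : ∀ (D : ℂ →ᵃⁱ[ℝ] E3) (t : ℝ), D (x + t • (y - x)) = D x + t • (D y - D x) := by
    intro D t
    have := D.toAffineMap.apply_lineMap x y t
    simp only [AffineMap.lineMap_apply, vsub_eq_sub, vadd_eq_add,
      AffineIsometry.coe_toAffineMap] at this
    rw [add_comm, this, add_comm]
  have p1 := h6 _ hx lx lx'
  have p2 := h6 _ hy ly ly'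
  rw [segment_eq_image'] at p1 p2
  obtain ⟨a, -, p1⟩ := p1
  obtain ⟨b, -, p2⟩ := p2
  simp only at p1 p2
  have hab : b - a ≠ 0 := by
    intro h
    rw [sub_eq_zero.1 h] at p2
    exact hB (p1.symm.trans p2)
  have v0 : B (x + (-a / (b - a)) • (y - x)) = ψ F (s * cor k j) := by
    rw [line, ← p1, ← p2, add_sub_add_left_eq_sub, ← sub_smul, smul_smul, div_mul_cancel₀ _ hab]
    module
  have v1 : B (x + ((1 - a) / (b - a)) • (y - x)) = ψ F (s * cor k (j + 1)) := by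
    rw [line, ← p1, ← p2, add_sub_add_left_eq_sub, ← sub_smul, smul_smul, div_mul_cancel₀ _ hab]
    module
  have eB : ∀ t : ℝ, B (x + t • (y - x)) = B' (x + t • (y - x)) := by
    intro t; rw [line, line, ex, ey]
  generalize hya : x + (-a / (b - a)) • (y - x) = ya at v0
  generalize hyb : x + ((1 - a) / (b - a)) • (y - x) = yb at v1
  have w0 : B' ya = ψ F (s * cor k j) := by rw [← v0, ← hya, eB]
  have w1 : B' yb = ψ F (s * cor k (j + 1)) := by rw [← v1, ← hyb, eB]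
  obtain ⟨p, hp, q0⟩ := hS.face F' _ (hS.mem F j) (by rw [← w0, ← h4]; exact hS.lpsi _ _)
  obtain ⟨q, hq, q1⟩ := hS.face F' _ (hS.mem F (j + 1)) (by rw [← w1, ← h4]; exact hS.lpsi _ _)
  have hpq : p ≠ q := by
    rintro rfl
    have := mul_left_cancel₀ hs ((ψ F).injective (q0.trans q1.symm))
    rw [cor_succ, left_eq_add] at this
    simpa [this] using norm_zt_pow k j
  have un : ∀ i : ℕ, (zt k ^ i) ^ (k.lcm 2) = 1 := fun i => by
    obtain ⟨e, he⟩ := Nat.dvd_lcm_left k 2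
    rw [← pow_mul, mul_comm i, he, mul_assoc, pow_mul, (zt_prim hS.three).pow_eq_one,
      one_pow]
  have unit : (cor k q - cor k p) ^ (k.lcm 2) = 1 := by
    rcases hS.two F' F hne.symm p hp q hq hpq (q0 ▸ hS.lpsi _ _) (q1 ▸ hS.lpsi _ _) with
      ⟨rfl, _⟩ | ⟨rfl, _⟩
    · rw [cor_mod hS.three, cor_succ, add_sub_cancel_left, un]
    · rw [cor_mod hS.three, cor_succ, sub_add_cancel_left, Even.neg_pow (even_iff_two_dvd.2 (Nat.dvd_lcm_right k 2)), un]
  obtain ⟨T, h7, h8⟩ := iso_quot h1 h2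
  have := hL.map (T := fun z => T (s * z) / s) (fun a b => by
      rw [← sub_div, norm_div, h7, ← mul_sub, norm_mul, mul_div_cancel_left₀ _ (by simpa using hs)])
    (j := j) (a := p) (b := q) (by
      rw [← (ψ F).injective ((h3 ya).trans v0), h8, (ψ F').injective ((h4 ya).trans (w0.trans q0)),
        mul_div_cancel_left₀ _ hs]) (by
      rw [← (ψ F).injective ((h3 yb).trans v1), h8, (ψ F').injective ((h4 yb).trans (w1.trans q1)),
        mul_div_cancel_left₀ _ hs])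
    (by rw [← hS.colv F' p, ← q0, hS.colv]) (by rw [← hS.colv F' q, ← q1, hS.colv]) unit
    (zt_prim hS.three).pow_eq_one hw
  rwa [mul_div_cancel₀ _ hs, h8] at this

theorem lattice (hS : Solid V k nF dg s cc col ψ l o nb) {R : ℂ → ZMod 3 → Prop} (hL : Lat k R cc)
    (h : PW P f C A) (hc : IsConnected (interior P)) (him : f '' P = frontier (convexHull ℝ V)) :
    ∃ a v : ℂ, ‖v‖ = s ∧ ∀ y ∈ P, f y ∈ V → ∃ x, R x (col (f y)) ∧ y = a + v * x := by
  have hs : (s : ℂ) ≠ 0 := by exact_mod_cast hS.spos.ne'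
  choose F g h1 h2 using piece_face hS h him
  have mem : ∀ i, ∀ y ∈ C i, A i y ∈ convexHull ℝ V := fun i y hy =>
    (hS.front.1 (him ▸ ⟨y, h.sub i hy, h.eq i hy⟩)).1
  have con := h.const hc.isPreconnected (fun i => fun w c => R (g i w / s) c) (by
    intro i j x y hxy hx h3 h4 h5 h6
    by_cases hF : F i = F j
    · obtain ⟨T, h7, h8⟩ := iso_quot (h1 i) (fun _ _ => rfl : ∀ x y : ℂ, ‖id x - id y‖ = ‖x - y‖)
      have h9 : ∀ y, g i (T y) = y := by
        intro y
        obtain ⟨x, rfl⟩ := (iso_bij (h1 i)).2 y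
        rw [h8]; rfl
      have h10 := h.same (i := i) (j := j) (G := fun y => T (g j y)) (fun a b => by rw [h7, h1])
        (fun y => by rw [← h2 i, h9, hF, h2]) hxy hx h3 h4 h5 h6
      have h11 : ∀ w, g i w = g j w := fun w => by rw [← h9 (g j w), h10 w]
      simp only [h11]
    · have ex : A i x = A j x := by rw [← h.eq i h3, h.eq j h4]
      have ey : A i y = A j y := by rw [← h.eq i h5, h.eq j h6]
      ext w c
      exact ⟨cross hS hL hF (h1 i) (h1 j) (h2 i) (h2 j) hxy ex ey (mem i x h3) (mem i y h5),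
        cross hS hL (Ne.symm hF) (h1 j) (h1 i) (h2 j) (h2 i) hxy ex.symm ey.symm (mem j x h4)
          (mem j y h6)⟩)
  obtain ⟨x0, hx0⟩ := hc.nonempty
  obtain ⟨i0, -⟩ := h.mem (interior_subset hx0)
  have key : ∀ y ∈ P, f y ∈ V → R (g i0 y / s) (col (f y)) := by
    intro y hy hV
    obtain ⟨i, hi⟩ := h.mem hy
    have h3 : ψ (F i) (g i y) = f y := by rw [h2, h.eq i hi]
    obtain ⟨j, _, h4⟩ := hS.face (F i) _ hV (h3 ▸ hS.lpsi _ _)
    have h5 := congrFun (congrFun (con i0 i) y) (col (f y))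
    rw [h5, (ψ (F i)).injective (h3.trans h4), mul_div_cancel_left₀ _ hs, h4, hS.colv]
    exact hL.crn j
  obtain ⟨a, u, hu, h3 | h3⟩ := iso_form (h1 i0)
  all_goals have hu0 : u ≠ 0 := by rintro rfl; simp at hu
  · refine ⟨-a / u, s / u, by simp [hu, abs_of_pos hS.spos], fun y hy hV =>
      ⟨_, key y hy hV, ?_⟩⟩
    rw [h3]; field_simp; ring
  · refine ⟨(starRingEnd ℂ) (-a / u), (starRingEnd ℂ) (s / u), by simp [hu, abs_of_pos hS.spos],
      fun y hy hV => ⟨_, hL.conj (key y hy hV), ?_⟩⟩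
    rw [← map_mul, ← map_add, h3, show -a / u + s / u * ((a + u * (starRingEnd ℂ) y) / s) =
      (starRingEnd ℂ) y by field_simp; ring, conj_conj]

end

end Pool.Agent.Lib.MP_f2d99b_co
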