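import Pool.Agent.Lib.MP_f2d99b_co.Lattice

namespace Pool.Agent.Lib.MP_f2d99b_co

noncomputable section

open Set Complex MeasureTheory Metric Filter Topology
open scoped Real

lemma poly_of_net {V : Set E3} {P : Set ℂ} (h : IsNet V P) : ∃ m z, Poly P m z := by
  obtain ⟨⟨h1, -, m, z, h2, h3, h4, h5⟩, f, n, C, A, h6, h7, -⟩ := h
  refine ⟨m, z, h1.isClosed, fun x hx => ?_, h2, h3, fun i hi j hj s t h8 h9 h10 h11 he => ?_,
    fun x => ?_⟩
  · rw [h7] at hx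
    obtain ⟨i, hi⟩ := mem_iUnion.1 hx
    have := subset_closure hi
    rw [← (h6 i).2.1.closure_interior_eq_closure_of_nonempty_interior (h6 i).2.2.1] at this
    exact closure_mono (interior_mono (h7 ▸ subset_iUnion C i)) this
  · have := h4 (x₁ := (i, s)) ⟨hi, h8, h9⟩ (x₂ := (j, t)) ⟨hj, h10, h11⟩ he
    exact Prod.mk.inj this
  · simp only [h5, mem_iUnion, edge_eq, exists_prop]

lemma Poly.null {P : Set ℂ} {m : ℕ} {z : ℕ → ℂ} (h : Poly P m z) : volume (frontier P) = 0 := by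
  refine measure_mono_null (t := ⋃ i, segment ℝ (z i) (z (i + 1))) (fun x hx => ?_)
    (measure_iUnion_null fun i => vol_segment _ _)
  obtain ⟨i, _, h1⟩ := (h.front x).1 hx
  exact mem_iUnion.2 ⟨i, edge_eq z i ▸ h1⟩

open Classical in
lemma FineNet.angle {P : Set ℂ} {M : ℕ} {w : ℕ → ℂ} {f : ℂ → E3} {n : ℕ} {C : Fin n → Set ℂ}
    {A : Fin n → ℂ →ᵃⁱ[ℝ] E3} {U : Set E3} (h : FineNet P M w f C A U) :
    ∃ ε : ℝ, (ε = 1 ∨ ε = -1) ∧ ∀ a < M, ∀ (_ : DecidablePred fun l => f (w a) = f (w l)),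
      ∀ Θ : ℝ, 0 ≤ Θ → (∀ᶠ r in 𝓝[>] (0 : ℝ),
      μHE[2] (f '' P ∩ ball (f (w a)) r) = ENNReal.ofReal (Θ * r ^ 2 / 2)) →
      ∏ l ∈ (Finset.range M).filter (fun l => f (w a) = f (w l)), (-turn M w l) =
        exp (ε * Θ * I) := by
  obtain ⟨ε, hε, hd, -⟩ := h.poly.density
  refine ⟨ε, hε, fun a ha _ Θ h0 h1 => ?_⟩
  have hd' : ∀ i, ∃ θ : ℝ, i < M → 0 < θ ∧ exp (ε * θ * I) = - turn M w i ∧ Dens P (w i) θ := by
    intro i
    by_cases hi : i < M
    · obtain ⟨θ, h2⟩ := hd i hi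
      exact ⟨θ, fun _ => h2⟩
    · exact ⟨0, fun h2 => absurd h2 hi⟩
  choose θ hθ using hd'
  have inj : InjOn w (Iio M) := fun i hi j hj he =>
    (h.poly.inj i hi j hj 0 0 le_rfl one_pos le_rfl one_pos (by rwa [pt_zero, pt_zero])).1
  have fr : ∀ l < M, w l ∈ frontier P := fun l hl => pt_zero w l ▸ h.fr hl le_rfl zero_le_one
  have fib : ∀ y ∈ P, f y = f (w a) → ∃ l < M, y = w l := by
    intro y hy he
    obtain ⟨l, hl, u, h2, h3, rfl⟩ := h.fib ⟨_, fr a ha, rfl⟩ hy he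
    rcases h2.eq_or_lt with rfl | h4
    · exact ⟨l, hl, pt_zero w l⟩
    rcases h3.eq_or_lt with rfl | h5
    · rcases (Nat.succ_le_of_lt hl).eq_or_lt with h5 | h5
      · exact ⟨0, by omega, by rw [pt_one, ← h.poly.close, ← h5]⟩
      · exact ⟨l + 1, h5, pt_one w l⟩
    · exact absurd (he ▸ h.inU a ha.le) (h.offU l hl u h4 h5)
  have hs := h.pw.dens_sum (f (w a)) h0 h1 (fun y => θ (Function.invFunOn w (Iio M) y)) (by
    intro y hy he
    obtain ⟨l, hl, rfl⟩ := fib y hy he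
    rw [inj.leftInvOn_invFunOn hl]
    exact ⟨(hθ l hl).1.le, (hθ l hl).2.2⟩)
  have e : (h.pw.fib_finite (f (w a))).toFinset =
      ((Finset.range M).filter (fun l => f (w a) = f (w l))).image w := by
    ext y
    simp only [Finite.mem_toFinset, mem_ofPred_eq, Finset.mem_image, Finset.mem_filter,
      Finset.mem_range]
    constructor
    · rintro ⟨h2, h3⟩
      obtain ⟨l, hl, rfl⟩ := fib y h2 h3
      exact ⟨l, ⟨hl, h3.symm⟩, rfl⟩
    · rintro ⟨l, ⟨hl, h2⟩, rfl⟩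
      exact ⟨h.poly.closed.frontier_subset (fr l hl), h2.symm⟩
  rw [e, Finset.sum_image (fun i hi j hj => inj (Finset.mem_range.1 (Finset.mem_filter.1 hi).1)
    (Finset.mem_range.1 (Finset.mem_filter.1 hj).1)), Finset.sum_congr rfl (g := θ) (fun l hl => by
      rw [inj.leftInvOn_invFunOn (Finset.mem_range.1 (Finset.mem_filter.1 hl).1)])] at hs
  rw [← hs]
  push_cast
  rw [Finset.mul_sum, Finset.sum_mul, exp_sum]
  exact Finset.prod_congr rfl fun l hl =>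
    (hθ l (Finset.mem_range.1 (Finset.mem_filter.1 hl).1)).2.1.symm

variable {V : Set E3} {k nF dg : ℕ} {s : ℝ} {cc : ℕ → ZMod 3} {col : E3 → ZMod 3}
  {ψ : Fin nF → ℂ →ᵃⁱ[ℝ] E3} {l : Fin nF → E3 →ᵃ[ℝ] ℝ} {o : E3} {nb : Fin nF → ℕ → Fin nF}

theorem fold_of_net (hS : Solid V k nF dg s cc col ψ l o nb) {R : ℂ → ZMod 3 → Prop}
    (hL : Lat k R cc) {ord : ℕ} (hord : 3 ≤ ord)
    (hang : dg * (π - 2 * (π / k)) = 2 * π - 2 * (π / ord)) {P : Set ℂ} {m : ℕ} {z : ℕ → ℂ}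
    (hP : Poly P m z) (hN : IsNet V P) :
    ∃ α r χ a v n cj, Fold m z (turn m z) ord V.ncard R α r χ a v n cj ∧ ‖v‖ = s ∧
      volume P = nF * volume (Pg k s) ∧
      ∀ c, ((Finset.range m).filter (fun j => α j ≠ 1 ∧ cj j = c)).card =
        (V ∩ {v | col v = c}).ncard := by
  obtain ⟨⟨-, hc, -⟩, f, n, C, A, h1, h2, h3, h4, h5, h6, h7⟩ := hN
  have hf : PW P f C A := ⟨fun i => (h1 i).1, fun i => (h1 i).2.1, fun i => (h1 i).2.2.1,
    fun i => (h1 i).2.2.2, h2, h4, hP.null⟩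
  obtain ⟨N, hN, hcut⟩ := tree_cut h6
  obtain ⟨M, w, ι, U, p1, p2, p3, p4, p5, p6⟩ := exists_fine hP hf (hN.union hS.fin)
  have hF : FineNet P M w f C A U := ⟨p1, hf, h5, fun q hq hU => hcut q hq fun h => hU (p3 (Or.inl h)),
    p4, p5, p6, fun q hq hU => h3 ▸ hS.dens_flat (h3 ▸ hq) fun h => hU (p3 (Or.inr h))⟩
  obtain ⟨σ, hG⟩ := hF.glue
  obtain ⟨ε, hε, hA⟩ := hF.angle
  have hp := Real.pi_pos
  have e2 : exp (ε * (2 * π : ℝ) * I) = 1 := by
    rcases hε with rfl | rfl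
    · simp
    · push_cast; rw [neg_one_mul, neg_mul, exp_neg, exp_two_pi_mul_I, inv_one]
  set χ := exp (ε * (2 * π - 2 * (π / ord) : ℝ) * I) with hχ
  have prim : IsPrimitiveRoot χ ord := by
    have : χ = exp (ε * (2 * π : ℝ) * I) * exp (-ε * (2 * (π / ord) : ℝ) * I) := by
      rw [hχ, ← exp_add]; congr 1; push_cast; ring
    rw [this, e2, one_mul]
    rcases hε with rfl | rfl
    · have := (zt_prim hord).inv
      rwa [zt, ← exp_neg, ← neg_one_mul, ← mul_assoc, ← ofReal_one] at this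
    · have := zt_prim hord
      rw [zt] at this
      simpa using this
  have fr : ∀ a < M, f (w a) ∈ frontier (convexHull ℝ V) := fun a ha =>
    h3 ▸ ⟨_, hP.closed.frontier_subset (pt_zero w a ▸ hF.fr ha le_rfl zero_le_one), rfl⟩
  have hord' : (3 : ℝ) ≤ ord := by exact_mod_cast hord
  have h8 : π / ord ≤ π / 3 := by gcongr
  obtain ⟨α, r, q1, q2, q3, q4⟩ := side_of_glue p2 hG V (χ := χ)
    (fun h => by have := Nat.le_of_dvd two_pos ((prim.pow_eq_one_iff_dvd 2).1 h); omega)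
    (prim.norm'_eq_one (by omega)) (fun a ha => by
      split_ifs with h9
      · exact hA a ha _ _ (by linarith) (h3 ▸ hang ▸ hS.dens_vertex h9)
      · rw [← e2]
        exact hA a ha _ _ (by positivity) (h3 ▸ hS.dens_flat (fr a ha) h9)) (by
      intro v hv
      obtain ⟨y, h9, rfl⟩ := h7 hv
      obtain ⟨j, hj, u, ⟨h10, h11⟩, rfl⟩ := (p1.front y).1 h9
      rcases h10.eq_or_lt with rfl | h12
      · exact ⟨j, hj, by rw [pt_zero]⟩
      rcases h11.eq_or_lt with rfl | h13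
      · rcases (Nat.succ_le_of_lt hj).eq_or_lt with h5 | h5
        · exact ⟨0, by omega, by rw [pt_one, ← p1.close, ← h5]⟩
        · exact ⟨j + 1, h5, by rw [pt_one]⟩
      · exact absurd (p3 (Or.inr hv)) (p6 j hj u h12 h13))
  obtain ⟨a, v, t1, t2⟩ := lattice hS hL hf hc h3
  have hz : ∀ j < m, z j ∈ P := fun j hj => hP.closed.frontier_subset
    ((hP.front _).2 ⟨j, hj, 0, ⟨le_rfl, zero_le_one⟩, pt_zero z j⟩)
  have hx : ∀ j, ∃ x c, R x c ∧ (j < m → α j ≠ 1 → z j = a + v * x ∧ c = col (f (z j))) := by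
    intro j
    by_cases h9 : j < m ∧ α j ≠ 1
    · obtain ⟨x, h10, h11⟩ := t2 _ (hz j h9.1) (p2.pt j h9.1.le ▸ q4.1 h9)
      exact ⟨x, _, h10, fun _ _ => ⟨h11, rfl⟩⟩
    · exact ⟨_, _, hL.crn 0, fun h10 h11 => absurd ⟨h10, h11⟩ h9⟩
  choose x cj t3 t4 using hx
  have cnt : ∀ (q : ℕ → Prop) [DecidablePred q] (W : Set E3), (∀ j < m, α j ≠ 1 →
      (q j ↔ f (z j) ∈ W)) → ((Finset.range m).filter (fun j => α j ≠ 1 ∧ q j)).card =
      (V ∩ W).ncard := by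
    intro q _ W h9
    rw [← ncard_coe_finset]
    refine BijOn.ncard_eq (f := fun i => f (w (ι i))) ⟨?_, ?_, ?_⟩
    · intro j hj
      simp only [Finset.coe_filter, Finset.mem_range, mem_ofPred_eq] at hj
      exact ⟨q4.1 ⟨hj.1, hj.2.1⟩, by
        simp only [p2.pt j hj.1.le]; exact (h9 j hj.1 hj.2.1).1 hj.2.2⟩
    · refine q4.2.1.mono fun j hj => ?_
      simp only [Finset.coe_filter, Finset.mem_range, mem_ofPred_eq] at hj
      exact ⟨hj.1, hj.2.1⟩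
    · rintro y ⟨h10, h11⟩
      obtain ⟨j, hj, rfl⟩ := q4.2.2 h10
      refine ⟨j, ?_, rfl⟩
      simp only [Finset.coe_filter, Finset.mem_range, mem_ofPred_eq]
      simp only [p2.pt j hj.1.le] at h11
      exact ⟨hj.1, hj.2, (h9 j hj.1 hj.2).2 h11⟩
  refine ⟨α, r, χ, a, v, x, cj, ⟨q1, prim, q2, ?_, q3, ?_, fun j hj h9 => (t4 j hj h9).1, t3⟩, t1,
    ?_, fun c => cnt _ _ fun j hj h9 => by rw [(t4 j hj h9).2]; rfl⟩
  · simpa using cnt (fun _ => True) univ (fun _ _ _ => by simp)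
  · rintro rfl
    simp at t1
    linarith [hS.spos]
  · rw [← hS.vol_total, ← h3, hf.vol_img hf.compact.measurableSet subset_rfl]

end

end Pool.Agent.Lib.MP_f2d99b_co
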