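import Pool.Agent.Lib.MP_f2d99b_co.Polygon

namespace Pool.Agent.Lib.MP_f2d99b_co

noncomputable section

open Set Complex MeasureTheory Metric Filter Topology
open scoped Real

/-- A piecewise isometric map, one-to-one on the interior. -/
structure PW (P : Set ℂ) (f : ℂ → E3) {n : ℕ} (C : Fin n → Set ℂ) (A : Fin n → ℂ →ᵃⁱ[ℝ] E3) :
    Prop where
  cpt : ∀ i, IsCompact (C i)
  cvx : ∀ i, Convex ℝ (C i)
  int : ∀ i, (interior (C i)).Nonempty
  eq : ∀ i, EqOn f (A i) (C i)
  cover : P = ⋃ i, C i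
  inj : InjOn f (interior P)
  null : volume (frontier P) = 0

lemma ev_nhds {X : Type} [PseudoMetricSpace X] {c : X} {q : X → Prop} (h : ∀ᶠ x in 𝓝 c, q x) :
    ∀ᶠ r in 𝓝[>] (0 : ℝ), ∀ x ∈ ball c r, q x := by
  obtain ⟨r, hr, h1⟩ := Metric.eventually_nhds_iff_ball.1 h
  filter_upwards [ev_lt hr] with s hs x hx using h1 x (ball_subset_ball hs.2.le hx)

namespace PW

variable {P : Set ℂ} {f : ℂ → E3} {n : ℕ} {C : Fin n → Set ℂ} {A : Fin n → ℂ →ᵃⁱ[ℝ] E3}

lemma sub (h : PW P f C A) (i : Fin n) : C i ⊆ P := h.cover ▸ subset_iUnion C i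

lemma mem (h : PW P f C A) {x : ℂ} (hx : x ∈ P) : ∃ i, x ∈ C i := by
  rw [h.cover] at hx; exact mem_iUnion.1 hx

lemma compact (h : PW P f C A) : IsCompact P := h.cover ▸ isCompact_iUnion h.cpt

lemma reg (h : PW P f C A) : P ⊆ closure (interior P) := by
  intro x hx
  obtain ⟨i, hi⟩ := h.mem hx
  have := subset_closure hi
  rw [← (h.cvx i).closure_interior_eq_closure_of_nonempty_interior (h.int i)] at this
  exact closure_mono (interior_mono (h.sub i)) this

lemma img_eq (h : PW P f C A) {S : Set ℂ} (hS : S ⊆ P) :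
    f '' S = ⋃ i, A i '' (S ∩ disjointed C i) := by
  ext y
  simp only [mem_iUnion]
  constructor
  · rintro ⟨x, hx, rfl⟩
    have := hS hx
    rw [h.cover, ← iUnion_disjointed] at this
    obtain ⟨i, hi⟩ := mem_iUnion.1 this
    exact ⟨i, x, ⟨hx, hi⟩, (h.eq i (disjointed_subset C i hi)).symm⟩
  · rintro ⟨i, x, ⟨h1, h2⟩, rfl⟩
    exact ⟨x, h1, h.eq i (disjointed_subset C i h2)⟩

lemma meas_dis (h : PW P f C A) (i : Fin n) : MeasurableSet (disjointed C i) := by
  rw [disjointed_eq_inter_compl]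
  exact (h.cpt i).measurableSet.inter (MeasurableSet.biInter (to_countable _)
    (fun j _ => (h.cpt j).measurableSet.compl))

lemma vol_int (h : PW P f C A) {S : Set ℂ} (hm : MeasurableSet S) (hS : S ⊆ interior P) :
    μHE[2] (f '' S) = volume S := by
  have hS' := hS.trans interior_subset
  rw [h.img_eq hS', measure_iUnion]
  · simp only [vol_image (A _).isometry]
    rw [← measure_iUnion, ← inter_iUnion, iUnion_disjointed, ← h.cover, inter_eq_left.2 hS']
    · exact fun i j hij => (disjoint_disjointed C hij).mono inter_subset_right inter_subset_right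
    · exact fun i => hm.inter (h.meas_dis i)
  · intro i j hij
    rw [Function.onFun, Set.disjoint_left]
    rintro _ ⟨x, ⟨h1, h2⟩, rfl⟩ ⟨y, ⟨h3, h4⟩, h5⟩
    rw [← h.eq i (disjointed_subset C i h2), ← h.eq j (disjointed_subset C j h4)] at h5
    have := h.inj (hS h3) (hS h1) h5
    subst this
    exact Set.disjoint_left.1 (disjoint_disjointed C hij) h2 h4
  · exact fun i => (A i).isometry.isClosedEmbedding.measurableEmbedding.measurableSet_image.2
      (hm.inter (h.meas_dis i))

lemma vol_img (h : PW P f C A) {S : Set ℂ} (hm : MeasurableSet S) (hS : S ⊆ P) :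
    μHE[2] (f '' S) = volume S := by
  have h1 : S \ interior P ⊆ frontier P := fun x hx => ⟨subset_closure (hS hx.1), hx.2⟩
  have h2 : μHE[2] (f '' (S \ interior P)) = 0 := by
    rw [h.img_eq (sdiff_subset.trans hS), measure_iUnion_null_iff]
    intro i
    rw [vol_image (A i).isometry]
    exact measure_mono_null (inter_subset_left.trans h1) h.null
  have h3 := h.vol_int (hm.inter isOpen_interior.measurableSet) inter_subset_right
  have h4 : volume (S ∩ interior P) = volume S :=
    measure_inter_conull' (measure_mono_null h1 h.null)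
  apply le_antisymm
  · calc μHE[2] (f '' S) = μHE[2] (f '' (S ∩ interior P) ∪ f '' (S \ interior P)) := by
          rw [← image_union, inter_union_sdiff]
      _ ≤ _ := measure_union_le _ _
      _ = volume S := by rw [h2, h3, h4, add_zero]
  · rw [← h4, ← h3]
    exact measure_mono (image_mono inter_subset_left)

lemma fib_finite (h : PW P f C A) (p : E3) : {y | y ∈ P ∧ f y = p}.Finite := by
  refine (finite_iUnion (f := fun i => A i ⁻¹' {p}) (fun i => ?_)).subset ?_
  · exact (finite_singleton p).preimage (A i).injective.injOn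
  · rintro y ⟨h1, h2⟩
    obtain ⟨i, hi⟩ := h.mem h1
    exact mem_iUnion.2 ⟨i, by rw [mem_preimage, ← h.eq i hi, h2]; rfl⟩

lemma vol_local (h : PW P f C A) (p : E3) : ∀ᶠ r in 𝓝[>] (0 : ℝ),
    μHE[2] (f '' P ∩ ball p r) = ∑ y ∈ (h.fib_finite p).toFinset, volume (P ∩ ball y r) := by
  have e1 := ev_nhds (ev_closed (fun i => A i '' C i)
    (fun i => ((h.cpt i).image (A i).continuous).isClosed) p)
  have e2 : ∀ᶠ r in 𝓝[>] (0 : ℝ), ∀ y ∈ (h.fib_finite p).toFinset, ∀ x ∈ ball y r, ∀ i,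
      x ∈ C i → y ∈ C i :=
    (eventually_all_finset _).2 fun y _ => ev_nhds (ev_closed C (fun i => (h.cpt i).isClosed) y)
  have e3 : ∀ᶠ r in 𝓝[>] (0 : ℝ), ∀ y ∈ (h.fib_finite p).toFinset,
      ∀ y' ∈ (h.fib_finite p).toFinset, y ≠ y' → r + r ≤ dist y y' := by
    refine (eventually_all_finset _).2 fun y _ => (eventually_all_finset _).2 fun y' _ => ?_
    by_cases h1 : y = y'
    · exact Eventually.of_forall fun _ h2 => absurd h1 h2
    · filter_upwards [ev_lt (half_pos (dist_pos.2 h1))] with r hr _ using by linarith [hr.2]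
  filter_upwards [e1, e2, e3] with r h1 h2 h3
  have hP := h.compact.measurableSet
  rw [← measure_biUnion_finset, ← h.vol_img]
  · congr 1
    ext q
    simp only [mem_image, mem_iUnion, mem_inter_iff]
    constructor
    · rintro ⟨⟨x, hx, rfl⟩, hb⟩
      obtain ⟨i, hi⟩ := h.mem hx
      obtain ⟨y, h4, h5⟩ := h1 _ hb i ⟨x, hi, (h.eq i hi).symm⟩
      refine ⟨x, ⟨y, by simp [h.sub i h4, h.eq i h4, h5], hx, ?_⟩, rfl⟩
      rwa [mem_ball, h.eq i hi, ← h5, (A i).dist_map] at hb
    · rintro ⟨x, ⟨y, h4, hx, hb⟩, rfl⟩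
      obtain ⟨i, hi⟩ := h.mem hx
      have h5 := h2 y h4 x hb i hi
      refine ⟨⟨x, hx, rfl⟩, ?_⟩
      simp only [Finite.mem_toFinset, mem_ofPred_eq] at h4
      rwa [mem_ball, h.eq i hi, ← h4.2, h.eq i h5, (A i).dist_map]
  · exact Finset.measurableSet_biUnion _ (fun y _ => hP.inter measurableSet_ball)
  · exact iUnion₂_subset fun _ _ => inter_subset_left
  · intro y hy y' hy' hne
    exact (ball_disjoint_ball (h3 y hy y' hy' hne)).mono inter_subset_right inter_subset_right
  · exact fun y _ => hP.inter measurableSet_ball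

lemma dens_sum (h : PW P f C A) (p : E3) {Θ : ℝ} (h0 : 0 ≤ Θ)
    (h1 : ∀ᶠ r in 𝓝[>] (0 : ℝ), μHE[2] (f '' P ∩ ball p r) = ENNReal.ofReal (Θ * r ^ 2 / 2))
    (θ : ℂ → ℝ) (h2 : ∀ y ∈ P, f y = p → 0 ≤ θ y ∧ Dens P y (θ y)) :
    ∑ y ∈ (h.fib_finite p).toFinset, θ y = Θ := by
  have h3 : ∀ y ∈ (h.fib_finite p).toFinset, 0 ≤ θ y ∧ Dens P y (θ y) := by
    intro y hy
    simp only [Finite.mem_toFinset, mem_ofPred_eq] at hy
    exact h2 y hy.1 hy.2
  have e2 := (eventually_all_finset _).2 fun y hy => (h3 y hy).2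
  obtain ⟨r, h4, h5, h6, h7⟩ := (h1.and ((h.vol_local p).and (e2.and self_mem_nhdsWithin))).exists
  have hr : 0 < r := h7
  rw [h4, Finset.sum_congr rfl h6, ← ENNReal.ofReal_sum_of_nonneg (fun y hy => by
    have := (h3 y hy).1; positivity), ENNReal.ofReal_eq_ofReal_iff (by positivity)
    (Finset.sum_nonneg fun y hy => by have := (h3 y hy).1; positivity), ← Finset.sum_div,
    ← Finset.sum_mul] at h5
  have : r ^ 2 ≠ 0 := by positivity
  apply mul_right_cancel₀ this
  linarith

end PW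

end

end Pool.Agent.Lib.MP_f2d99b_co
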