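import Pool.Agent.Lib.MP_f2d99b_co.Glue

namespace Pool.Agent.Lib.MP_f2d99b_co

noncomputable section

open Set Complex MeasureTheory Metric Filter Topology
open scoped Real

def zt (k : ℕ) : ℂ := exp ((2 * (π / k) : ℝ) * I)

def cor (k j : ℕ) : ℂ := ∑ i ∈ Finset.range j, zt k ^ i

/-- The regular polygon with `k` sides of length `s`. -/
def Pg (k : ℕ) (s : ℝ) : Set ℂ := {η | ∀ j < k, 0 ≤ E (zt k ^ j) (η - s * cor k j)}

lemma zt_prim {k : ℕ} (hk : 3 ≤ k) : IsPrimitiveRoot (zt k) k := by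
  have := Complex.isPrimitiveRoot_exp k (by omega)
  rwa [show 2 * (π : ℂ) * I / k = (2 * (π / k) : ℝ) * I by push_cast; ring] at this

lemma norm_zt (k : ℕ) : ‖zt k‖ = 1 := norm_exp_ofReal_mul_I _

lemma norm_zt_pow (k j : ℕ) : ‖zt k ^ j‖ = 1 := by rw [norm_pow, norm_zt, one_pow]

lemma zt_pow (k j : ℕ) : zt k ^ j = exp ((j * (2 * (π / k)) : ℝ) * I) := by
  rw [zt, ← exp_nat_mul]; congr 1; push_cast; ring

lemma cor_zero (k : ℕ) : cor k 0 = 0 := rfl
lemma cor_succ (k j : ℕ) : cor k (j + 1) = cor k j + zt k ^ j := Finset.sum_range_succ _ _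
lemma cor_succ' (k j : ℕ) : cor k (j + 1) = 1 + zt k * cor k j := by
  rw [cor, Finset.sum_range_succ', cor, Finset.mul_sum, add_comm, pow_zero]
  simp only [pow_succ']

lemma cor_self {k : ℕ} (hk : 3 ≤ k) : cor k k = 0 := (zt_prim hk).geom_sum_eq_zero (by omega)

lemma cor_add {k : ℕ} (hk : 3 ≤ k) (j : ℕ) : cor k (j + k) = cor k j := by
  induction j with
  | zero => rw [zero_add, cor_self hk, cor_zero]
  | succ j ih => rw [add_right_comm, cor_succ', cor_succ', ih]

lemma cor_mod {k : ℕ} (hk : 3 ≤ k) (j : ℕ) : cor k (j % k) = cor k j :=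
  Function.Periodic.map_mod_nat (cor_add hk) j

lemma E_add_left (a b c : ℂ) : E (a + b) c = E a c + E b c := by simp [E]; ring
lemma E_add_right (a b c : ℂ) : E a (b + c) = E a b + E a c := by simp [E]; ring
lemma E_sub_right (a b c : ℂ) : E a (b - c) = E a b - E a c := by simp [E]; ring
lemma E_sub_left (a b c : ℂ) : E (a - b) c = E a c - E b c := by simp [E]; ring
lemma E_neg_left (a b : ℂ) : E (-a) b = - E a b := by simp [E]; ring
lemma E_neg_right (a b : ℂ) : E a (-b) = - E a b := by simp [E]; ring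
lemma E_smul_right (a b : ℂ) (t : ℝ) : E a (t * b) = t * E a b := by simp [E]; ring
lemma E_smul_left (a b : ℂ) (t : ℝ) : E (t * a) b = t * E a b := by simp [E]; ring

lemma E_one_zt (k j : ℕ) : E 1 (zt k ^ j) = Real.sin (j * (2 * (π / k))) := by
  rw [zt_pow]; simp only [E, one_re, one_im, exp_ofReal_mul_I_im]; ring

lemma E_cor (k j : ℕ) : Real.sin (π / k) * E (cor k j) (zt k ^ j) =
    Real.sin (j * (π / k)) * Real.sin ((j + 1) * (π / k)) := by
  induction j with
  | zero => simp [cor_zero]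
  | succ j ih =>
    rw [cor_succ', E_add_left, E_one_zt, pow_succ', E_mul, norm_zt, one_pow, one_mul, mul_add, ih]
    push_cast
    generalize π / k = β
    have h1 : ((j : ℝ) + 1) * (2 * β) = 2 * ((j + 1) * β) := by ring
    have h2 : (j : ℝ) * β = (j + 1) * β - β := by ring
    have h3 : ((j : ℝ) + 1 + 1) * β = (j + 1) * β + β := by ring
    rw [h1, h3, Real.sin_two_mul, Real.sin_add]
    nth_rewrite 1 [h2]
    rw [Real.sin_sub]; ring

lemma sin_pos_frac {k j : ℕ} (h1 : 0 < j) (h2 : j < k) : 0 < Real.sin (j * (π / k)) := by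
  have hk : (0 : ℝ) < k := by exact_mod_cast (by omega : 0 < k)
  have hp := Real.pi_pos
  have : (j : ℝ) < k := by exact_mod_cast h2
  apply Real.sin_pos_of_pos_of_lt_pi (by positivity)
  rw [← mul_div_assoc, div_lt_iff₀ hk]; nlinarith

lemma E_cor_pos {k j : ℕ} (h1 : 0 < j) (h2 : j + 1 < k) : 0 < E (cor k j) (cor k (j + 1)) := by
  have h3 := E_cor k j
  have h4 := sin_pos_frac (k := k) one_pos (by omega)
  have h5 := sin_pos_frac (k := k) h1 (by omega)
  have h6 := sin_pos_frac (k := k) (j := j + 1) (by omega) h2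
  push_cast at h4 h6
  rw [one_mul] at h4
  rw [cor_succ, E_add_right, E_self, zero_add]
  have := mul_pos h5 h6
  rw [← h3] at this
  exact (mul_pos_iff_of_pos_left h4).1 this

lemma E_zt_succ {k : ℕ} (hk : 3 ≤ k) (j : ℕ) : 0 < E (zt k ^ j) (zt k ^ (j + 1)) := by
  have h1 := E_mul (zt k ^ j) 1 (zt k ^ 1)
  rw [mul_one, ← pow_add, norm_zt_pow, E_one_zt] at h1
  have h2 := sin_pos_frac (k := k) two_pos hk
  rw [h1]
  push_cast at h2 ⊢
  rw [one_pow, one_mul, one_mul]; exact h2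

lemma tri_mem {W : Set ℂ} (hW : Convex ℝ W) {a b η : ℂ} (h0 : 0 ∈ W) (ha : a ∈ W) (hb : b ∈ W)
    (h1 : 0 < E a b) (h2 : 0 ≤ E a η) (h3 : 0 ≤ E (b - a) (η - a)) (h4 : E b η ≤ 0) : η ∈ W := by
  have e : η = (-E b η / E a b) • a + (E a η / E a b) • b := by
    have : (E a b : ℂ) ≠ 0 := by exact_mod_cast h1.ne'
    simp only [real_smul]; push_cast
    field_simp
    apply Complex.ext <;> simp [E] <;> ring
  rw [E_sub_left, E_sub_right, E_sub_right, E_self, E_swap b a] at h3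
  have := hW.sum_mem (t := Finset.univ) (w := ![-E b η / E a b, E a η / E a b,
    1 - (-E b η / E a b + E a η / E a b)]) (z := ![a, b, 0]) (by
      intro i _
      fin_cases i
      · exact div_nonneg (by linarith) h1.le
      · exact div_nonneg h2 h1.le
      · show 0 ≤ 1 - (-E b η / E a b + E a η / E a b)
        rw [← add_div, sub_nonneg, div_le_one h1]; linarith)
    (by simp [Fin.sum_univ_three]) (by intro i _; fin_cases i; exacts [ha, hb, h0])
  rw [e]
  simpa [Fin.sum_univ_three] using this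

lemma Pg_sub {k : ℕ} (hk : 3 ≤ k) {s : ℝ} (hs : 0 < s) {W : Set ℂ} (hW : Convex ℝ W)
    (h : ∀ j, (s : ℂ) * cor k j ∈ W) : Pg k s ⊆ W := by
  intro η hη
  have h1 : 0 ≤ E (cor k 1) η := by
    have := hη 0 (by omega)
    simpa [cor_succ, cor_zero] using this
  have ex : ∃ j, E (cor k (j + 2)) η ≤ 0 ∧ j + 2 < k := by
    obtain ⟨l, rfl⟩ := Nat.exists_eq_add_of_le' hk
    refine ⟨l, ?_, by omega⟩
    have h2 := hη (l + 2) (by omega)
    have h3 := cor_succ (l + 3) (l + 2)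
    rw [cor_self hk] at h3
    rw [show zt (l + 3) ^ (l + 2) = - cor (l + 3) (l + 2) by linear_combination -h3, E_neg_left,
      E_sub_right, E_smul_right, E_self] at h2
    linarith
  have h2 := Nat.find_spec ex
  have h3 : 0 ≤ E (cor k (Nat.find ex + 1)) η := by
    rcases h4 : Nat.find ex with _ | l
    · exact h1
    · have := Nat.find_min ex (m := l) (by omega)
      rw [h4] at h2
      by_contra h5
      exact this ⟨(not_le.1 h5).le, by omega⟩
  generalize Nat.find ex = j at *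
  refine tri_mem hW (by simpa [cor_zero] using h 0) (h (j + 1)) (h (j + 2)) ?_ ?_ ?_ ?_
  · rw [E_smul_left, E_smul_right]
    have := E_cor_pos (k := k) (j := j + 1) (by omega) h2.2
    positivity
  · rw [E_smul_left]; positivity
  · rw [cor_succ k (j + 1), mul_add, add_sub_cancel_left, E_smul_left]
    have := hη (j + 1) (by omega)
    positivity
  · rw [E_smul_left]; nlinarith [h2.1]

lemma continuous_E (a c : ℂ) : Continuous (fun η => E a (η - c)) := by unfold E; fun_prop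

lemma Pg_closed (k : ℕ) (s : ℝ) : IsClosed (Pg k s) := by
  have : Pg k s = ⋂ j, ⋂ (_ : j < k), {η | 0 ≤ E (zt k ^ j) (η - s * cor k j)} := by
    ext η; simp [Pg]
  rw [this]
  exact isClosed_iInter fun j => isClosed_iInter fun _ =>
    isClosed_le continuous_const (continuous_E _ _)

lemma Pg_smul (k : ℕ) {s : ℝ} (hs : 0 < s) : volume (Pg k s) =
    ENNReal.ofReal (s ^ 2) * volume (Pg k 1) := by
  have : Pg k s = (fun x => s • x) '' Pg k 1 := by
    have h0 : (s : ℂ) ≠ 0 := by exact_mod_cast hs.ne'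
    ext η
    constructor
    · intro h
      refine ⟨η / s, fun j hj => ?_, by simp only [real_smul]; field_simp⟩
      have := h j hj
      rw [show η - s * cor k j = s * (η / s - (1 : ℝ) * cor k j) by push_cast; field_simp,
        E_smul_right] at this
      exact (mul_nonneg_iff_of_pos_left hs).1 this
    · rintro ⟨x, h, rfl⟩ j hj
      have := h j hj
      simp only [real_smul]
      rw [show s * x - s * cor k j = s * (x - (1 : ℝ) * cor k j) by push_cast; ring, E_smul_right]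
      positivity
  rw [this, image_smul, Measure.addHaar_smul, Complex.finrank_real_complex, abs_of_pos (by positivity)]

lemma Pg_local {k : ℕ} {s : ℝ} {c : ℂ} (hc : c ∈ Pg k s) : ∀ᶠ η in 𝓝 c,
    (η ∈ Pg k s ↔ ∀ j < k, E (zt k ^ j) (c - s * cor k j) = 0 → 0 ≤ E (zt k ^ j) (η - c)) := by
  have : ∀ᶠ η in 𝓝 c, ∀ j ∈ Finset.range k, E (zt k ^ j) (c - s * cor k j) ≠ 0 →
      0 ≤ E (zt k ^ j) (η - s * cor k j) := by
    refine (eventually_all_finset _).2 fun j hj => ?_
    by_cases h1 : E (zt k ^ j) (c - s * cor k j) = 0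
    · exact Eventually.of_forall fun _ h2 => absurd h1 h2
    · have h2 := lt_of_le_of_ne (hc j (Finset.mem_range.1 hj)) (Ne.symm h1)
      exact ((continuous_E _ _).continuousAt.eventually (lt_mem_nhds h2)).mono fun _ h _ => h.le
  filter_upwards [this] with η h1
  have e : ∀ j, E (zt k ^ j) (η - s * cor k j) =
      E (zt k ^ j) (η - c) + E (zt k ^ j) (c - s * cor k j) := by
    intro j; rw [← E_add_right, sub_add_sub_cancel]
  constructor
  · intro h2 j hj h3
    have := h2 j hj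
    rwa [e, h3, add_zero] at this
  · intro h2 j hj
    by_cases h3 : E (zt k ^ j) (c - s * cor k j) = 0
    · rw [e, h3, add_zero]; exact h2 j hj h3
    · exact h1 j (Finset.mem_range.2 hj) h3

lemma dens_congr {P Q : Set ℂ} {c : ℂ} {θ : ℝ} (h : ∀ᶠ η in 𝓝 c, η ∈ P ↔ η ∈ Q)
    (hQ : ∀ r, 0 ≤ r → volume (Q ∩ ball c r) = ENNReal.ofReal (θ * r ^ 2 / 2)) : Dens P c θ := by
  filter_upwards [ev_nhds h, self_mem_nhdsWithin] with r h1 h2
  rw [← hQ r (le_of_lt h2)]
  congr 1
  ext x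
  exact ⟨fun hx => ⟨(h1 x hx.2).1 hx.1, hx.2⟩, fun hx => ⟨(h1 x hx.2).2 hx.1, hx.2⟩⟩

lemma dens_in {k : ℕ} {s : ℝ} {c : ℂ} (hc : c ∈ Pg k s)
    (h : ∀ j < k, E (zt k ^ j) (c - s * cor k j) ≠ 0) : Dens (Pg k s) c (2 * π) := by
  refine dens_congr (Q := univ) ((Pg_local hc).mono fun η h1 => ?_) fun r hr => ?_
  · rw [h1]
    exact ⟨fun _ => trivial, fun _ j hj h2 => absurd h2 (h j hj)⟩
  · rw [univ_inter, Complex.volume_ball, ← ENNReal.ofReal_pow hr, ← ENNReal.ofReal_coe_nnreal,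
      ← ENNReal.ofReal_mul (by positivity)]
    congr 1; simp; ring

lemma dens_edge {k : ℕ} {s : ℝ} {c : ℂ} (hc : c ∈ Pg k s) {i : ℕ} (hi : i < k)
    (h : ∀ j < k, E (zt k ^ j) (c - s * cor k j) = 0 ↔ j = i) : Dens (Pg k s) c π := by
  refine dens_congr ((Pg_local hc).mono fun η h1 => ?_)
    fun r hr => vol_wedge c (norm_zt_pow k i) Real.pi_pos le_rfl hr
  rw [h1, mem_ofPred_eq, exp_pi_mul_I, mul_neg_one, E_neg_right, ← E_swap, and_self]
  exact ⟨fun h2 => h2 i hi ((h i hi).2 rfl), fun h2 j hj h3 => (h j hj).1 h3 ▸ h2⟩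

lemma dens_corner {k : ℕ} (hk : 3 ≤ k) {s : ℝ} {c : ℂ} (hc : c ∈ Pg k s) {i : ℕ} (hi : i < k)
    (h : ∀ j < k, E (zt k ^ j) (c - s * cor k j) = 0 ↔ j = i ∨ j = (i + 1) % k) :
    Dens (Pg k s) c (π - 2 * (π / k)) := by
  have hp := Real.pi_pos
  have hk' : (3 : ℝ) ≤ k := by exact_mod_cast hk
  have h0 : 0 < π / k := by positivity
  have h3 : π / k ≤ π / 3 := by gcongr
  refine dens_congr ((Pg_local hc).mono fun η h1 => ?_)
    fun r hr => vol_wedge c (norm_zt_pow k (i + 1)) (by linarith) (by linarith) hr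
  have e : zt k ^ (i + 1) * exp ((π - 2 * (π / k) : ℝ) * I) = - zt k ^ i := by
    rw [pow_succ, mul_assoc, zt, ← exp_add, ← add_mul, ← ofReal_add, add_sub_cancel, exp_pi_mul_I,
      mul_neg_one]
  have e2 : zt k ^ ((i + 1) % k) = zt k ^ (i + 1) := by
    conv_rhs => rw [← Nat.div_add_mod (i + 1) k, pow_add, pow_mul, (zt_prim hk).pow_eq_one, one_pow,
      one_mul]
  have hm := Nat.mod_lt (i + 1) (show 0 < k by omega)
  rw [h1, mem_ofPred_eq, e, E_neg_right, ← E_swap]
  constructor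
  · intro h2
    exact ⟨e2 ▸ h2 _ hm ((h _ hm).2 (Or.inr rfl)), h2 i hi ((h i hi).2 (Or.inl rfl))⟩
  · intro h2 j hj h4
    rcases (h j hj).1 h4 with rfl | rfl
    · exact h2.2
    · rw [e2]; exact h2.1

lemma iso_form {g : ℂ → ℂ} (hg : ∀ x y, ‖g x - g y‖ = ‖x - y‖) :
    ∃ a u : ℂ, ‖u‖ = 1 ∧ ((∀ y, g y = a + u * y) ∨ ∀ y, g y = a + u * (starRingEnd ℂ) y) := by
  have hu : ‖g 1 - g 0‖ = 1 := by rw [hg]; simp
  have hu0 : g 1 - g 0 ≠ 0 := by intro h; simp [h] at hu
  set h : ℂ → ℂ := fun y => (g y - g 0) / (g 1 - g 0) with hh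
  have h1 : ∀ x y, ((h x).re - (h y).re) ^ 2 + ((h x).im - (h y).im) ^ 2 =
      (x.re - y.re) ^ 2 + (x.im - y.im) ^ 2 := by
    intro x y
    have e : ‖h x - h y‖ = ‖x - y‖ := by
      simp only [hh]; rw [← sub_div, norm_div, hu, div_one, sub_sub_sub_cancel_right, hg]
    have := congrArg (fun t => t ^ 2) e
    simp only [Complex.sq_norm, Complex.normSq_apply, sub_re, sub_im] at this
    linarith
  have h2 : h 0 = 0 := by simp [hh]
  have h3 : h 1 = 1 := by simp [hh, hu0]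
  have h4 : ∀ y, (h y).re = y.re ∧ (h y).im ^ 2 = y.im ^ 2 ∧ (h y).im * (h I).im = y.im := by
    have h5 : ∀ y, (h y).re = y.re ∧ (h y).im ^ 2 = y.im ^ 2 := by
      intro y
      have a := h1 y 0
      have b := h1 y 1
      simp only [h2, h3, zero_re, zero_im, one_re, one_im, sub_zero] at a b
      have c : (h y).re = y.re := by linarith
      exact ⟨c, by rw [c] at a; linarith⟩
    intro y
    have a := h1 y I
    obtain ⟨b, c⟩ := h5 y
    obtain ⟨d, e⟩ := h5 I
    simp only [I_re, I_im] at a d e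
    rw [b, d] at a
    exact ⟨b, c, by linarith⟩
  have h5 : ∀ y, g y = g 0 + (g 1 - g 0) * h y := by
    intro y; simp only [hh]; field_simp; ring
  refine ⟨g 0, g 1 - g 0, hu, ?_⟩
  have h6 := (h4 I).2.1
  simp only [I_im, one_pow] at h6
  rcases sq_eq_one_iff.1 h6 with h7 | h7
  · left
    intro y
    rw [h5 y]
    congr 2
    have := h4 y
    rw [h7, mul_one] at this
    exact Complex.ext this.1 this.2.2
  · right
    intro y
    rw [h5 y]
    congr 2
    have := h4 y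
    rw [h7] at this
    exact Complex.ext this.1 (by simp; linarith [this.2.2])

/-- The arithmetic structure preserved by unfolding. -/
structure Lat (k : ℕ) (R : ℂ → ZMod 3 → Prop) (cc : ℕ → ZMod 3) : Prop where
  add : ∀ {x y c d}, R x c → R y d → R (x + y) (c + d)
  neg : ∀ {x c}, R x c → R (-x) (-c)
  mul : ∀ {x y c d}, R x c → R y d → R (x * y) (c * d)
  conj : ∀ {x c}, R x c → R ((starRingEnd ℂ) x) c
  unit : ∀ u : ℂ, u ^ (k.lcm 2) = 1 → ∃ d, R u d
  crn : ∀ j, R (cor k j) (cc j)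
  alt : (∀ x c d, R x c → R x d) ∨ ((∀ x c d, R x c → R x d → c = d) ∧ ∀ j, cc (j + 1) ≠ cc j)

lemma Lat.map {k : ℕ} {R : ℂ → ZMod 3 → Prop} {cc : ℕ → ZMod 3} (h : Lat k R cc)
    {T : ℂ → ℂ} (hT : ∀ x y, ‖T x - T y‖ = ‖x - y‖) {j a b : ℕ} (h1 : T (cor k j) = cor k a)
    (h2 : T (cor k (j + 1)) = cor k b) (h3 : cc a = cc j) (h4 : cc b = cc (j + 1))
    (h5 : (cor k b - cor k a) ^ (k.lcm 2) = 1) (h6 : zt k ^ k = 1) {x : ℂ} {c : ZMod 3}
    (hx : R x c) : R (T x) c := by
  have sub : ∀ {x y c d}, R x c → R y d → R (x - y) (c - d) := fun h1 h2 => by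
    rw [sub_eq_add_neg, sub_eq_add_neg]; exact h.add h1 (h.neg h2)
  have key : ∀ u x0 x1 x : ℂ, R x0 (cc j) → R x1 (cc (j + 1)) → R x c → (x1 - x0) ^ (k.lcm 2) = 1 →
      cor k b - cor k a = u * (x1 - x0) → R (cor k a + u * (x - x0)) c := by
    intro u x0 x1 x r0 r1 r e1 e2
    rw [e2, mul_pow, e1, mul_one] at h5
    obtain ⟨d, hd⟩ := h.unit u h5
    have r2 := h.add (h.crn a) (h.mul hd (sub r r0))
    rcases h.alt with h7 | ⟨h7, h8⟩
    · exact h7 _ _ _ r2
    · have r3 := sub (h.crn b) (h.crn a)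
      rw [e2, h3, h4] at r3
      have h9 := h7 _ _ _ r3 (h.mul hd (sub r1 r0))
      have h10 : d = 1 := by
        apply mul_right_cancel₀ (sub_ne_zero.2 (h8 j))
        rw [← h9, one_mul]
      rwa [h10, one_mul, h3, add_sub_cancel] at r2
  have e0 : (cor k (j + 1) - cor k j) ^ (k.lcm 2) = 1 := by
    obtain ⟨e, he⟩ := Nat.dvd_lcm_left k 2
    rw [cor_succ, add_sub_cancel_left, ← pow_mul, mul_comm j, he, mul_assoc, pow_mul, h6,
      one_pow]
  obtain ⟨t, u, -, h7 | h7⟩ := iso_form hT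
  · have := key u _ _ x (h.crn j) (h.crn (j + 1)) hx e0 (by rw [← h1, ← h2, h7, h7]; ring)
    rwa [← h1, h7, show t + u * cor k j + u * (x - cor k j) = t + u * x by ring, ← h7] at this
  · have := key u _ _ _ (h.conj (h.crn j)) (h.conj (h.crn (j + 1))) (h.conj hx)
      (by rw [← map_sub, ← map_pow, e0, map_one]) (by rw [← h1, ← h2, h7, h7]; ring)
    rwa [← h1, h7, show t + u * (starRingEnd ℂ) (cor k j) + u * ((starRingEnd ℂ) x -
      (starRingEnd ℂ) (cor k j)) = t + u * (starRingEnd ℂ) x by ring, ← h7] at this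

end

end Pool.Agent.Lib.MP_f2d99b_co
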