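import Pool.Agent.Lib.MP_f2d99b_co.Data

namespace Pool.Agent.Lib.MP_f2d99b_co

noncomputable section

open Set Complex MeasureTheory
open scoped Real

set_option synthInstance.maxSize 1024

def cycL (a b : Zp) : List Z3 := [(0, a, b), (0, a, -b), (0, -a, b), (0, -a, -b), (b, 0, a),
  (-b, 0, a), (b, 0, -a), (-b, 0, -a), (a, b, 0), (a, -b, 0), (-a, b, 0), (-a, -b, 0)]

def cubeL : List Z3 := [((1, 0), (1, 0), (1, 0)), ((1, 0), (1, 0), -(1, 0)),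
  ((1, 0), -(1, 0), (1, 0)), ((1, 0), -(1, 0), -(1, 0)), (-(1, 0), (1, 0), (1, 0)),
  (-(1, 0), (1, 0), -(1, 0)), (-(1, 0), -(1, 0), (1, 0)), (-(1, 0), -(1, 0), -(1, 0))]

lemma ev_zero : ev 0 = 0 := by simp [ev]
lemma ev_one : ev (1, 0) = 1 := by simp [ev]

lemma ev3_eq (a : Z3) (v : E3) : ev3 a = v ↔ v 0 = ev a.1 ∧ v 1 = ev a.2.1 ∧ v 2 = ev a.2.2 := by
  constructor
  · rintro rfl; exact ⟨rfl, rfl, rfl⟩
  · rintro ⟨h1, h2, h3⟩
    ext i; fin_cases i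
    exacts [h1.symm, h2.symm, h3.symm]

lemma cyc_iff {a b : Zp} (ha : 0 ≤ ev a) (hb : 0 ≤ ev b) (v : E3) :
    v ∈ cyc (ev a) (ev b) ↔ ∃ c ∈ cycL a b, ev3 c = v := by
  have e1 : (0 : Fin 3) + 1 = 1 := rfl
  have e2 : (0 : Fin 3) + 2 = 2 := rfl
  have e3 : (1 : Fin 3) + 1 = 2 := rfl
  have e4 : (1 : Fin 3) + 2 = 0 := rfl
  have e5 : (2 : Fin 3) + 1 = 0 := rfl
  have e6 : (2 : Fin 3) + 2 = 1 := rfl
  have ex : ∀ p : Fin 3 → Prop, (∃ i, p i) ↔ p 0 ∨ p 1 ∨ p 2 := fun p => by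
    simp [Fin.exists_fin_succ]
  simp only [cyc, mem_ofPred_eq, ex, e1, e2, e3, e4, e5, e6, abs_eq ha, abs_eq hb, cycL,
    List.mem_cons, List.not_mem_nil, or_false, exists_eq_or_imp, exists_eq_left, ev3_eq, ev_neg,
    ev_zero]
  constructor
  · rintro (⟨h1, h2 | h2, h3 | h3⟩ | ⟨h1, h2 | h2, h3 | h3⟩ | ⟨h1, h2 | h2, h3 | h3⟩) <;>
      simp only [h1, h2, h3, and_self, true_or, or_true]
  · rintro (⟨h1, h2, h3⟩ | ⟨h1, h2, h3⟩ | ⟨h1, h2, h3⟩ | ⟨h1, h2, h3⟩ | ⟨h1, h2, h3⟩ |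
      ⟨h1, h2, h3⟩ | ⟨h1, h2, h3⟩ | ⟨h1, h2, h3⟩ | ⟨h1, h2, h3⟩ | ⟨h1, h2, h3⟩ | ⟨h1, h2, h3⟩ |
      ⟨h1, h2, h3⟩) <;> simp only [h1, h2, h3, and_self, true_or, or_true]

lemma cube_iff (v : E3) : v ∈ cubeV ↔ ∃ c ∈ cubeL, ev3 c = v := by
  simp only [cubeV, mem_ofPred_eq, Fin.forall_fin_succ, IsEmpty.forall_iff, and_true,
    abs_eq (zero_le_one' ℝ), cubeL, List.mem_cons, List.not_mem_nil, or_false, exists_eq_or_imp,
    exists_eq_left, ev3_eq, ev_neg, ev_one, Fin.succ_zero_eq_one, Fin.succ_one_eq_two]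
  tauto

lemma img_eq {V : Set E3} {L : List Z3} (h : ∀ v, v ∈ V ↔ ∃ c ∈ L, ev3 c = v) {P : ℕ → Z3} {n : ℕ}
    (h1 : (∀ i < n, P i ∈ L) ∧ ∀ c ∈ L, ∃ i < n, P i = c) :
    (fun i => ev3 (P i)) '' Iio n = V := by
  ext v
  rw [h]
  constructor
  · rintro ⟨i, hi, rfl⟩; exact ⟨_, h1.1 i hi, rfl⟩
  · rintro ⟨c, hc, rfl⟩
    obtain ⟨i, hi, rfl⟩ := h1.2 c hc
    exact ⟨i, hi, rfl⟩

lemma ev_phi : ev (0, 1) = Real.goldenRatio := by simp [ev]

lemma ev_phi_inv : ev (-1, 1) = Real.goldenRatio⁻¹ := by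
  apply eq_inv_of_mul_eq_one_left
  simp only [ev]; push_cast
  linear_combination Real.goldenRatio_sq

lemma cube_img : (fun i => ev3 (cubeP i)) '' Iio 8 = cubeV := img_eq cube_iff (by decide +kernel)

lemma octa_img : (fun i => ev3 (octaP i)) '' Iio 6 = octaV := by
  refine img_eq (L := cycL 0 (1, 0)) (fun v => ?_) (by decide +kernel)
  rw [← cyc_iff (by rw [ev_zero]) (by rw [ev_one]; norm_num), ev_zero, ev_one]; rfl

lemma icos_img : (fun i => ev3 (icosP i)) '' Iio 12 = icosaV := by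
  refine img_eq (L := cycL (1, 0) (0, 1)) (fun v => ?_) (by decide +kernel)
  rw [← cyc_iff (by rw [ev_one]; norm_num) (by rw [ev_phi]; exact Real.goldenRatio_pos.le), ev_phi,
    ev_one]; rfl

lemma dode_img : (fun i => ev3 (dodeP i)) '' Iio 20 = dodecaV := by
  refine img_eq (L := cubeL ++ cycL (-1, 1) (0, 1)) (fun v => ?_) (by decide +kernel)
  have := Real.goldenRatio_pos
  simp only [List.mem_append, or_and_right, exists_or]
  rw [← cyc_iff (by rw [ev_phi_inv]; positivity) (by rw [ev_phi]; positivity), ev_phi,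
    ev_phi_inv, ← cube_iff]; rfl

lemma zt_re (k : ℕ) : (zt k).re = 2 * Real.cos (π / k) ^ 2 - 1 := by
  rw [zt, exp_ofReal_mul_I_re, Real.cos_two_mul]

lemma lat_ring {k : ℕ} (hk : 3 ≤ k) (O : Subring ℂ) (h1 : ∀ x ∈ O, (starRingEnd ℂ) x ∈ O)
    (h2 : ∀ u : ℂ, u ^ k.lcm 2 = 1 → u ∈ O) : Lat k (fun x _ => x ∈ O) (fun _ => 0) := by
  refine ⟨O.add_mem, O.neg_mem, O.mul_mem, h1 _, fun u hu => ⟨0, h2 u hu⟩, fun j => ?_,
    Or.inl fun _ _ _ h => h⟩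
  refine O.sum_mem fun i _ => O.pow_mem (h2 _ ?_) i
  exact ((zt_prim hk).pow_eq_one_iff_dvd _).2 (Nat.dvd_lcm_left k 2)

lemma eis_unit {u : ℂ} (h : u ^ 6 = 1) : ∃ d, Eis u d := by
  have h1 : IsPrimitiveRoot (zt 6) 6 := zt_prim (by norm_num)
  obtain ⟨i, -, rfl⟩ := h1.eq_pow_of_pow_eq_one h
  exact O3.pow_mem ⟨_, Eis_prim6 h1⟩ i

lemma lat_octa : Lat 3 Eis (fun j => j) := by
  refine ⟨Eis.add, Eis.neg, Eis.mul, Eis.conj, fun u hu => eis_unit hu, fun j => ?_,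
    Or.inr ⟨fun _ _ _ => Eis.unique, fun j => by simp⟩⟩
  induction j with
  | zero => simpa [cor_zero] using Eis_zero
  | succ j ih =>
    rw [cor_succ']
    have := Eis_one.add ((Eis_prim3 (zt_prim le_rfl)).mul ih)
    rwa [one_mul, add_comm (1 : ZMod 3), ← Nat.cast_succ] at this

theorem fold_sim {V : Set E3} {k nF dg : ℕ} {s : ℝ} {cc : ℕ → ZMod 3} {col : E3 → ZMod 3}
    (hS : IsSolid V k nF dg s cc col) {R : ℂ → ZMod 3 → Prop}
    (hL : Lat k R cc) {ord : ℕ} (hord : 3 ≤ ord)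
    (hang : dg * (π - 2 * (π / k)) = 2 * π - 2 * (π / ord)) {P : Set ℂ} {m : ℕ} {z : ℕ → ℂ}
    (hP : Poly P m z) (hN : IsNetSim V P) :
    ∃ α r χ a v n cj, Fold m z (turn m z) ord V.ncard R α r χ a v n cj ∧
      volume P = nF * volume (Pg k ‖v‖) ∧ volume P ≠ 0 ∧ volume P ≠ ⊤ ∧
      ∀ c, ((Finset.range m).filter (fun j => α j ≠ 1 ∧ cj j = c)).card =
        (V ∩ {v | col v = c}).ncard := by
  obtain ⟨c, g, hc, hN⟩ := hN
  obtain ⟨ψ, l, o, nb, h⟩ := hS.map hc g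
  obtain ⟨α, r, χ, a, v, n, cj, h1, h2, h3, h4⟩ := fold_of_net h hL hord hang hP hN
  have inj : Function.Injective (fun x : E3 => g (c • x)) := fun x y h =>
    smul_right_injective E3 hc.ne' (g.injective h)
  rw [ncard_image_of_injective _ inj] at h1
  refine ⟨α, r, χ, a, v, n, cj, h1, h2 ▸ h3, ?_, hN.1.1.measure_lt_top.ne, fun d => ?_⟩
  · exact ((isOpen_interior.measure_pos volume hN.1.2.1.nonempty).trans_le
      (measure_mono interior_subset)).ne'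
  · rw [h4, ← ncard_image_of_injective (V ∩ _) inj]
    congr 1
    ext x
    constructor
    · rintro ⟨⟨y, h5, rfl⟩, h6⟩
      exact ⟨y, ⟨h5, by simpa [inv_smul_smul₀ hc.ne'] using h6⟩, rfl⟩
    · rintro ⟨y, ⟨h5, h6⟩, rfl⟩
      exact ⟨⟨y, h5, rfl⟩, by simpa [inv_smul_smul₀ hc.ne'] using h6⟩

lemma octa_fold {P : Set ℂ} {m : ℕ} {z : ℕ → ℂ} (hP : Poly P m z) (hN : IsNetSim octaV P) :
    ∃ α r χ a v n cj, Fold m z (turn m z) 3 6 Eis α r χ a v n cj ∧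
      volume P = (8 : ℕ) * volume (Pg 3 ‖v‖) ∧ volume P ≠ 0 ∧ volume P ≠ ⊤ ∧
      ∀ c, ((Finset.range m).filter (fun j => α j ≠ 1 ∧ cj j = c)).card = 2 := by
  obtain ⟨s, col, h1, h2, h3⟩ := octa_chk.solid (by
    rw [zt_re, Nat.cast_ofNat, Real.cos_pi_div_three]; simp [ev]; norm_num)
    (fun j => ZMod.natCast_mod j 3)
  rw [octa_img] at h1 h2 h3
  obtain ⟨α, r, χ, a, v, n, cj, h4, h5, h6, h7, h8⟩ := fold_sim h1 lat_octa le_rfl
    (by push_cast; ring) hP hN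
  refine ⟨α, r, χ, a, v, n, cj, h2 ▸ h4, h5, h6, h7, fun c => ?_⟩
  rw [h8, h3]
  revert c; decide +kernel

theorem no_cube : ¬ ∃ P, IsNetSim octaV P ∧ IsNetSim cubeV P := by
  rintro ⟨P, hB, hA⟩
  obtain ⟨m, z, hP⟩ := poly_of_net hA.choose_spec.choose_spec.2
  obtain ⟨β, rB, ψ, b, v, nB, cB, g1, -, -, -, g2⟩ := octa_fold hP hB
  obtain ⟨s, col, h1, h2, -⟩ := cube_chk.solid (by
    rw [zt_re, Nat.cast_ofNat, Real.cos_pi_div_four, div_pow, Real.sq_sqrt (by norm_num)]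
    simp [ev]; norm_num) (fun j => rfl)
  rw [cube_img] at h1 h2
  obtain ⟨α, r, χ, a, w, n, cj, h4, -⟩ := fold_sim h1 (lat_ring (by norm_num) O20
    (fun _ => conj_O20) fun u hu => mem_O20 (by
      rw [show 20 = Nat.lcm 4 2 * 5 by norm_num, pow_mul, hu, one_pow])) (ord := 4) (by norm_num)
    (by push_cast; ring) hP hA
  rw [h2] at h4
  exact final60 (p := 2) (Or.inl rfl) h4 g1 g2

theorem no_dodeca : ¬ ∃ P, IsNetSim octaV P ∧ IsNetSim dodecaV P := by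
  rintro ⟨P, hB, hA⟩
  obtain ⟨m, z, hP⟩ := poly_of_net hA.choose_spec.choose_spec.2
  obtain ⟨β, rB, ψ, b, v, nB, cB, g1, -, -, -, g2⟩ := octa_fold hP hB
  obtain ⟨s, col, h1, h2, -⟩ := dode_chk.solid (by
    rw [zt_re, Nat.cast_ofNat, Real.cos_pi_div_five]
    have := Real.sq_sqrt (show (0 : ℝ) ≤ 5 by norm_num)
    simp only [ev, Real.goldenRatio]; push_cast
    linear_combination (-1 / 4 : ℝ) * this) (fun j => rfl)
  rw [dode_img] at h1 h2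
  obtain ⟨α, r, χ, a, w, n, cj, h4, -⟩ := fold_sim h1 (lat_ring (by norm_num) O20
    (fun _ => conj_O20) fun u hu => mem_O20 (by
      rw [show 20 = Nat.lcm 5 2 * 2 by norm_num, pow_mul, hu, one_pow])) (ord := 10) (by norm_num)
    (by push_cast; ring) hP hA
  rw [h2] at h4
  exact final60 (p := 5) (Or.inr rfl) h4 g1 g2

theorem no_icosa : ¬ ∃ P, IsNetSim octaV P ∧ IsNetSim icosaV P := by
  rintro ⟨P, hB, hA⟩
  obtain ⟨m, z, hP⟩ := poly_of_net hA.choose_spec.choose_spec.2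
  obtain ⟨β, rB, ψ, b, v, nB, cB, g1, g3, g4, g5, g2⟩ := octa_fold hP hB
  obtain ⟨s, col, h1, h2, -⟩ := icos_chk.solid (by
    rw [zt_re, Nat.cast_ofNat, Real.cos_pi_div_three]; simp [ev]; norm_num) (fun j => rfl)
  rw [icos_img] at h1 h2
  obtain ⟨α, r, χ, a, w, n, cj, h4, h5, -⟩ := fold_sim h1 (lat_ring (by norm_num) O3
    (fun _ ⟨_, h⟩ => ⟨_, h.conj⟩) fun u hu => eis_unit hu) (ord := 6) (by norm_num)
    (by push_cast; ring) hP hA
  rw [h2] at h4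
  refine final3 h4 g1 g2 ?_
  have hv := norm_pos_iff.2 g1.vne
  have hw := norm_pos_iff.2 h4.vne
  rw [Pg_smul 3 hv, ← mul_assoc] at g3
  rw [Pg_smul 3 hw, ← mul_assoc] at h5
  have h6 : volume (Pg 3 1) ≠ 0 := fun h => g4 (by rw [g3, h, mul_zero])
  have h7 : volume (Pg 3 1) ≠ ⊤ := fun h => g5 (by
    rw [g3, h, ENNReal.mul_top]
    simp [g1.vne])
  have h8 := (ENNReal.mul_left_inj h6 h7).1 (g3.symm.trans h5)
  rw [← ENNReal.ofReal_natCast, ← ENNReal.ofReal_natCast, ← ENNReal.ofReal_mul (by positivity),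
    ← ENNReal.ofReal_mul (by positivity),
    ENNReal.ofReal_eq_ofReal_iff (by positivity) (by positivity)] at h8
  push_cast at h8
  linarith

end

end Pool.Agent.Lib.MP_f2d99b_co
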