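import Pool.Agent.Lib.MP_f2d99b_co.Sector

namespace Pool.Agent.Lib.MP_f2d99b_co

noncomputable section

open Set Complex MeasureTheory Metric Filter Topology
open scoped Real

def pt (z : ℕ → ℂ) (i : ℕ) (t : ℝ) : ℂ := z i + t * (z (i + 1) - z i)

def edge (z : ℕ → ℂ) (i : ℕ) : Set ℂ := pt z i '' Icc 0 1

lemma pt_zero (z : ℕ → ℂ) (i : ℕ) : pt z i 0 = z i := by simp [pt]
lemma pt_one (z : ℕ → ℂ) (i : ℕ) : pt z i 1 = z (i + 1) := by simp [pt]

lemma continuous_pt (z : ℕ → ℂ) (i : ℕ) : Continuous (pt z i) := by unfold pt; fun_prop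

lemma edge_eq (z : ℕ → ℂ) (i : ℕ) : edge z i = segment ℝ (z i) (z (i + 1)) := by
  rw [segment_eq_image']; rfl

lemma edge_closed (z : ℕ → ℂ) (i : ℕ) : IsClosed (edge z i) :=
  (isCompact_Icc.image (continuous_pt z i)).isClosed

lemma ev_closed {X ι : Type} [TopologicalSpace X] [Finite ι] (K : ι → Set X)
    (h : ∀ i, IsClosed (K i)) (c : X) : ∀ᶠ x in 𝓝 c, ∀ i, x ∈ K i → c ∈ K i :=
  ((locallyFinite_of_finite K).eventually_subset h c).mono fun _ hx _ hi => hx hi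

structure Poly (P : Set ℂ) (m : ℕ) (z : ℕ → ℂ) : Prop where
  closed : IsClosed P
  reg : P ⊆ closure (interior P)
  three : 3 ≤ m
  close : z m = z 0
  inj : ∀ i < m, ∀ j < m, ∀ s t : ℝ, 0 ≤ s → s < 1 → 0 ≤ t → t < 1 → pt z i s = pt z j t →
    i = j ∧ s = t
  front : ∀ x, x ∈ frontier P ↔ ∃ i < m, x ∈ edge z i

namespace Poly

variable {P : Set ℂ} {m : ℕ} {z : ℕ → ℂ}

lemma ne (h : Poly P m z) {i : ℕ} (hi : i < m) : z (i + 1) ≠ z i := by
  intro h1
  have := (h.inj i hi i hi 0 (1 / 2) le_rfl (by norm_num) (by norm_num) (by norm_num)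
    (by simp [pt, h1])).2
  norm_num at this

lemma prv_lt (_h : Poly P m z) {i : ℕ} (hi : i < m) : prv m i < m := by
  unfold prv; split_ifs <;> omega

lemma prv_ne (h : Poly P m z) (i : ℕ) : prv m i ≠ i := by
  have := h.three
  unfold prv; split_ifs <;> omega

lemma prv_succ (h : Poly P m z) (i : ℕ) : z (prv m i + 1) = z i := by
  have := h.three
  unfold prv; split_ifs with h1
  · rw [Nat.sub_add_cancel (by omega), h.close, h1]
  · rw [Nat.sub_add_cancel (by omega)]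

lemma inj' (h : Poly P m z) {i j : ℕ} (hi : i < m) (hj : j < m) {s t : ℝ} (h1 : 0 ≤ s) (h2 : s < 1)
    (h3 : 0 ≤ t) (h4 : t ≤ 1) (he : pt z i s = pt z j t) :
    (j = i ∧ t = s) ∨ (s = 0 ∧ t = 1 ∧ j = prv m i) := by
  rcases h4.eq_or_lt with rfl | h5
  · right
    rw [pt_one] at he
    by_cases h6 : j + 1 < m
    · rw [← pt_zero z (j + 1)] at he
      obtain ⟨h7, h8⟩ := h.inj i hi _ h6 _ _ h1 h2 le_rfl one_pos he
      exact ⟨h8, rfl, by unfold prv; split_ifs <;> omega⟩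
    · rw [show j + 1 = m by omega, h.close, ← pt_zero z 0] at he
      obtain ⟨h7, h8⟩ := h.inj i hi _ (by omega) _ _ h1 h2 le_rfl one_pos he
      exact ⟨h8, rfl, by unfold prv; rw [if_pos h7]; omega⟩
  · obtain ⟨h7, h8⟩ := h.inj i hi j hj _ _ h1 h2 h3 h5 he
    exact Or.inl ⟨h7.symm, h8.symm⟩

lemma pt_sub (h : Poly P m z) {i : ℕ} (hi : i < m) (s t : ℝ) :
    pt z i t = pt z i s + ((t - s) * ‖z (i + 1) - z i‖ : ℝ) * dir z i := by
  unfold pt
  have := dir_mul (h.ne hi)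
  push_cast
  linear_combination (t - s : ℂ) * this

lemma len_pos (h : Poly P m z) {i : ℕ} (hi : i < m) : 0 < ‖z (i + 1) - z i‖ :=
  norm_pos_iff.2 (sub_ne_zero.2 (h.ne hi))

lemma nospike (h : Poly P m z) {i : ℕ} (hi : i < m) : dir z i ≠ - dir z (prv m i) := by
  intro he
  have hj := h.prv_lt hi
  have h1 := h.len_pos hi
  have h2 := h.len_pos hj
  set a := ‖z (i + 1) - z i‖ with ha
  set b := ‖z (prv m i + 1) - z (prv m i)‖ with hb
  have h3 : pt z i (b / (a + b)) = pt z (prv m i) (b / (a + b)) := by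
    rw [h.pt_sub hi 0, h.pt_sub hj 1, ← ha, ← hb, pt_zero, pt_one, h.prv_succ, he]
    have : ((a + b : ℝ) : ℂ) ≠ 0 := by exact_mod_cast (by positivity : a + b ≠ 0)
    push_cast at this ⊢
    field_simp
    ring
  have h4 : b / (a + b) < 1 := by rw [div_lt_one (by positivity)]; linarith
  exact h.prv_ne i (h.inj i hi _ hj _ _ (by positivity) h4 (by positivity) h4 h3).1.symm

lemma loc (h : Poly P m z) {i : ℕ} (hi : i < m) {s : ℝ} (h1 : 0 ≤ s) (h2 : s < 1) :
    ∃ θ r, Loc P (pt z i s) (dir z i) θ r ∧ (s = 0 → dir z i * exp (θ * I) = - dir z (prv m i)) ∧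
      (0 < s → θ = π) := by
  have hp := Real.pi_pos
  have hu := norm_dir (h.ne hi)
  have hq := h.prv_lt hi
  obtain ⟨θ, h3, h4, h5, h6⟩ : ∃ θ : ℝ, 0 < θ ∧ θ < 2 * π ∧
      (s = 0 → dir z i * exp (θ * I) = - dir z (prv m i)) ∧ (0 < s → θ = π) := by
    rcases h1.eq_or_lt with rfl | h3
    · obtain ⟨φ, h4, h5, h6⟩ := polar 0 hu (- dir z (prv m i))
      rw [sub_zero, norm_neg, norm_dir (h.ne hq), zero_add, ofReal_one, one_mul] at h6
      refine ⟨φ, h4, lt_of_le_of_ne h5 ?_, fun _ => h6.symm, fun h7 => absurd h7 (lt_irrefl _)⟩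
      rintro rfl
      push_cast at h6
      rw [exp_two_pi_mul_I, mul_one] at h6
      exact h.nospike hi h6.symm
    · exact ⟨π, hp, by linarith, fun h4 => absurd h4 h3.ne', fun _ => rfl⟩
  obtain ⟨r, hr, h7⟩ := Metric.eventually_nhds_iff_ball.1
    (ev_closed (fun j : Fin m => edge z j) (fun j => edge_closed z j) (pt z i s))
  refine ⟨θ, r, ⟨(h.front _).2 ⟨i, hi, s, ⟨h1, h2.le⟩, rfl⟩, hu, h3, h4, hr, ?_⟩, h5, h6⟩
  intro x hx hb
  obtain ⟨j, hj, h8⟩ := (h.front x).1 hx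
  obtain ⟨t, ⟨h9, h10⟩, h11⟩ := h7 x hb ⟨j, hj⟩ h8
  obtain ⟨t', ⟨h12, h13⟩, rfl⟩ := h8
  have hl := h.len_pos hj
  rcases h.inj' hi hj h1 h2 h9 h10 h11.symm with ⟨rfl, rfl⟩ | ⟨rfl, rfl, rfl⟩
  · rcases le_or_gt t t' with h14 | h14
    · exact Or.inl ⟨_, by have := sub_nonneg.2 h14; positivity, h.pt_sub hj t t'⟩
    · refine Or.inr ⟨(t - t') * ‖z (j + 1) - z j‖, by have := sub_nonneg.2 h14.le; positivity, ?_⟩
      rw [h.pt_sub hj t t', h6 (by linarith), exp_pi_mul_I]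
      push_cast; ring
  · refine Or.inr ⟨(1 - t') * ‖z (prv m i + 1) - z (prv m i)‖,
      by have := sub_nonneg.2 h13; positivity, ?_⟩
    rw [h.pt_sub hj 1 t', h5 rfl, pt_one, pt_zero, h.prv_succ]
    push_cast; ring

theorem density (h : Poly P m z) : ∃ ε : ℝ, (ε = 1 ∨ ε = -1) ∧
    (∀ i < m, ∃ θ : ℝ, 0 < θ ∧ exp (ε * θ * I) = - turn m z i ∧ Dens P (z i) θ) ∧
    (∀ i < m, ∀ t : ℝ, 0 < t → t < 1 → Dens P (pt z i t) π) := by
  have hloc : ∀ i : ℕ, ∀ s : ℝ, ∃ θ r, i < m → 0 ≤ s → s < 1 → Loc P (pt z i s) (dir z i) θ r ∧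
      (s = 0 → dir z i * exp (θ * I) = - dir z (prv m i)) ∧ (0 < s → θ = π) := by
    intro i s
    by_cases h1 : i < m ∧ 0 ≤ s ∧ s < 1
    · obtain ⟨θ, r, h2⟩ := h.loc h1.1 h1.2.1 h1.2.2
      exact ⟨θ, r, fun _ _ _ => h2⟩
    · exact ⟨0, 0, fun h2 h3 h4 => absurd ⟨h2, h3, h4⟩ h1⟩
  choose θ r H using hloc
  set L : ℕ → ℝ → Prop := fun i s => Sec (pt z i s) (dir z i) (θ i s) (r i s) ⊆ P with hL
  have stepA : ∀ i < m, ∀ s, 0 ≤ s → s < 1 → (L i 0 ↔ L i s) := by
    intro i hi s h1 h2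
    have hl := h.len_pos hi
    refine (isPreconnected_Ico (a := (0 : ℝ)) (b := 1)).induction₂ (fun s t => L i s ↔ L i t) ?_
      (fun _ _ _ _ _ _ h1 h2 => h1.trans h2) (fun _ _ _ _ h1 => h1.symm) ⟨le_rfl, one_pos⟩ ⟨h1, h2⟩
    rintro s ⟨h1, h2⟩
    obtain ⟨h3, _, h4⟩ := H i s hi h1 h2
    have hr := h3.2.2.2.2.1
    have e1 : ∀ᶠ t in 𝓝 s, |t - s| * ‖z (i + 1) - z i‖ < r i s := by
      have : ContinuousAt (fun t => |t - s| * ‖z (i + 1) - z i‖) s := by fun_prop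
      exact this.eventually_lt continuousAt_const (by simpa using hr)
    have e2 : ∀ᶠ t in 𝓝 s, 0 < s → 0 < t := by
      rcases h1.eq_or_lt with rfl | h5
      · exact Eventually.of_forall (fun t ht => absurd ht (lt_irrefl _))
      · exact (lt_mem_nhds h5).mono (fun t ht _ => ht)
    filter_upwards [mem_nhdsWithin_of_mem_nhds e1, mem_nhdsWithin_of_mem_nhds e2,
      self_mem_nhdsWithin] with t h5 h6 h7
    obtain ⟨h8, _, h9⟩ := H i t hi h7.1 h7.2
    have hr' := h8.2.2.2.2.1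
    refine h3.agree h.closed h8 ?_
    rcases lt_trichotomy s t with h10 | rfl | h10
    · rw [abs_of_pos (by linarith)] at h5
      rw [h9 (by linarith), h.pt_sub hi s t]
      exact common_fwd _ _ h3.2.2.1 (by have := sub_pos.2 h10; positivity) h5 hr'
    · rw [inter_self]
      exact ⟨_, r i s / 2, θ i s / 2, by linarith, by linarith, by linarith [h3.2.2.1],
        by linarith [h3.2.2.1], rfl⟩
    · rw [abs_of_neg (by linarith), neg_sub] at h5
      have := common_bwd (pt z i s) (dir z i) h3.2.2.1 (by have := sub_pos.2 h10; positivity) h5 hr'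
      rw [h9 (h6 (by linarith [h7.1])), h.pt_sub hi s t]
      rw [h4 (by linarith [h7.1])] at this ⊢
      rw [exp_pi_mul_I] at this
      have e3 : -(dir z i * -1) = dir z i := by ring
      have e4 : pt z i s + ((s - t) * ‖z (i + 1) - z i‖ : ℝ) * (dir z i * -1) =
          pt z i s + ((t - s) * ‖z (i + 1) - z i‖ : ℝ) * dir z i := by push_cast; ring
      rwa [e3, e4] at this
  have stepB : ∀ i < m, L 0 0 ↔ L i 0 := by
    intro i hi
    induction i with
    | zero => rfl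
    | succ i ih =>
      have hi' : i < m := by omega
      have hl := h.len_pos hi'
      obtain ⟨h3, h4, _⟩ := H (i + 1) 0 hi le_rfl one_pos
      have hr := h3.2.2.2.2.1
      obtain ⟨δ, h5, h6⟩ := exists_between
        (show 0 < min 1 (r (i + 1) 0 / ‖z (i + 1) - z i‖) by positivity)
      rw [lt_min_iff, lt_div_iff₀ hl] at h6
      obtain ⟨h7, _, h8⟩ := H i (1 - δ) hi' (by linarith) (by linarith)
      rw [ih hi', stepA i hi' (1 - δ) (by linarith) (by linarith)]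
      refine (h3.agree h.closed h7 ?_).symm
      have := common_bwd (pt z (i + 1) 0) (dir z (i + 1)) h3.2.2.1 (by positivity) h6.2
        h7.2.2.2.2.1
      rw [h4 rfl, prv, if_neg (by omega), Nat.add_sub_cancel, neg_neg] at this
      rw [h8 (by linarith), h.pt_sub hi' 1 (1 - δ), pt_one, ← pt_zero z (i + 1)]
      have e4 : pt z (i + 1) 0 + (δ * ‖z (i + 1) - z i‖ : ℝ) * (- dir z i) =
        pt z (i + 1) 0 + ((1 - δ - 1) * ‖pt z (i + 1) 0 - z i‖ : ℝ) * dir z i := by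
        rw [pt_zero]; push_cast; ring
      rwa [e4] at this
  have ht : ∀ i < m, exp (-(θ i 0 * I)) = - turn m z i := by
    intro i hi
    have h1 := (H i 0 hi le_rfl one_pos).2.1 rfl
    have h2 := dir_ne (h.ne (h.prv_lt hi))
    have h3 := exp_ne_zero (θ i 0 * I)
    rw [exp_neg, turn]
    field_simp
    linear_combination h1
  by_cases hc : L 0 0
  · refine ⟨-1, Or.inr rfl, fun i hi => ?_, fun i hi t h1 h2 => ?_⟩
    · have h1 := (H i 0 hi le_rfl one_pos).1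
      refine ⟨θ i 0, h1.2.2.1, by rw [← ht i hi]; congr 1; push_cast; ring, ?_⟩
      rw [← pt_zero z i]
      exact h1.dens h.closed ((stepB i hi).1 hc)
    · obtain ⟨h3, _, h4⟩ := H i t hi h1.le h2
      rw [← h4 h1]
      exact h3.dens h.closed ((stepA i hi t h1.le h2).1 ((stepB i hi).1 hc))
  · refine ⟨1, Or.inl rfl, fun i hi => ?_, fun i hi t h1 h2 => ?_⟩
    · have h1 := (H i 0 hi le_rfl one_pos).1
      refine ⟨2 * π - θ i 0, by linarith [h1.2.2.2.1], ?_, ?_⟩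
      · rw [← ht i hi]
        push_cast
        rw [one_mul, sub_mul, sub_eq_add_neg, exp_add, exp_two_pi_mul_I, one_mul]
      · rw [← pt_zero z i]
        exact h1.dens' h.closed h.reg (fun h2 => hc ((stepB i hi).2 h2))
    · obtain ⟨h3, _, h4⟩ := H i t hi h1.le h2
      have := h3.dens' h.closed h.reg (fun h5 => hc ((stepB i hi).2 ((stepA i hi t h1.le h2).2 h5)))
      rwa [h4 h1, show 2 * π - π = π by ring] at this

end Poly

end

end Pool.Agent.Lib.MP_f2d99b_co
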