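import Pool.Agent.Lib.MP_f2d99b_co.Green

namespace Pool.Agent.Lib.MP_f2d99b_co

noncomputable section

open Set Complex MeasureTheory Metric Filter Topology
open scoped Real

lemma cor_add' (k i n : ℕ) : cor k (i + n) = cor k i + zt k ^ i * cor k n := by
  unfold cor
  rw [Finset.sum_range_add, Finset.mul_sum]
  simp only [pow_add]

lemma E_one_cor (k n : ℕ) : E 1 (cor k (n + 1)) = E (cor k n) (zt k ^ n) := by
  induction n with
  | zero => simp [cor, E]
  | succ n ih =>
    rw [cor_succ, E_add_right, ih, cor_succ' k n, E_add_left, pow_succ', E_mul, norm_zt]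
    ring

lemma E_corner {k : ℕ} (i : ℕ) {n : ℕ} (hn : n < k) :
    0 ≤ E (zt k ^ i) (cor k (i + n) - cor k i) ∧
      (2 ≤ n → 0 < E (zt k ^ i) (cor k (i + n) - cor k i)) := by
  have h1 := E_mul (zt k ^ i) 1 (cor k n)
  rw [mul_one, norm_zt_pow, one_pow, one_mul] at h1
  rw [cor_add', add_sub_cancel_left, h1]
  have h2 : 2 ≤ n → 0 < E 1 (cor k n) := by
    intro h2
    obtain ⟨l, rfl⟩ : ∃ l, n = l + 1 := ⟨n - 1, by omega⟩
    have := E_cor_pos (k := k) (j := l) (by omega) hn
    rwa [cor_succ, E_add_right, E_self, zero_add, ← E_one_cor] at this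
  refine ⟨?_, h2⟩
  rcases n with _ | _ | n
  · simp [cor]
  · simp [cor]
  · exact (h2 (by omega)).le

lemma zt_mod {k : ℕ} (hk : 3 ≤ k) (j : ℕ) : zt k ^ (j % k) = zt k ^ j := by
  conv_rhs => rw [← Nat.div_add_mod j k, pow_add, pow_mul, (zt_prim hk).pow_eq_one, one_pow,
    one_mul]

lemma mem_Pg_iff {k : ℕ} (hk : 3 ≤ k) {η : ℂ} :
    η ∈ Pg k 1 ↔ ∀ j, 0 ≤ E (zt k ^ j) (η - cor k j) := by
  simp only [Pg, mem_ofPred_eq, ofReal_one, one_mul]
  refine ⟨fun h j => ?_, fun h j _ => h j⟩
  rw [← zt_mod hk, ← cor_mod hk]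
  exact h _ (Nat.mod_lt _ (by omega))

lemma cor_mem {k : ℕ} (hk : 3 ≤ k) (l : ℕ) : cor k l ∈ Pg k 1 := by
  intro j hj
  have h1 : cor k l = cor k (j + (l % k + k - j) % k) := by
    rw [← cor_mod hk (j + _), Nat.add_mod_mod, show j + (l % k + k - j) = l % k + k by omega,
      Nat.add_mod_right, Nat.mod_mod, cor_mod hk]
  rw [h1, ofReal_one, one_mul]
  exact (E_corner j (Nat.mod_lt _ (by omega))).1

lemma E_pt (u c : ℂ) (z : ℕ → ℂ) (j : ℕ) (t : ℝ) :
    E u (pt z j t - c) = (1 - t) * E u (z j - c) + t * E u (z (j + 1) - c) := by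
  simp [E, pt]; ring

lemma Pg_convex (k : ℕ) : Convex ℝ (Pg k 1) := by
  intro x hx y hy a b ha hb hab j hj
  have h1 := mul_nonneg ha (hx j hj)
  have h2 := mul_nonneg hb (hy j hj)
  have e : E (zt k ^ j) (a • x + b • y - (1 : ℝ) * cor k j) =
      a * E (zt k ^ j) (x - (1 : ℝ) * cor k j) + b * E (zt k ^ j) (y - (1 : ℝ) * cor k j) := by
    obtain rfl : b = 1 - a := by linarith
    simp [E]; ring
  rw [e]; linarith

lemma Pg_compact {k : ℕ} (hk : 3 ≤ k) : IsCompact (Pg k 1) := by
  refine (isCompact_closedBall (0 : ℂ) k).of_isClosed_subset (Pg_closed k 1)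
    (Pg_sub hk one_pos (convex_closedBall _ _) fun j => ?_)
  rw [ofReal_one, one_mul, ← cor_mod hk, mem_closedBall_zero_iff, cor]
  refine (norm_sum_le _ _).trans ?_
  simp only [norm_zt_pow, Finset.sum_const, Finset.card_range, nsmul_eq_mul, mul_one]
  exact_mod_cast (Nat.mod_lt _ (by omega : 0 < k)).le

lemma Pg_poly {k : ℕ} (hk : 3 ≤ k) (h0 : volume (Pg k 1) ≠ 0) : Poly (Pg k 1) k (cor k) := by
  have hz : ∀ i, zt k ^ i ≠ 0 := fun i h => by simpa [h] using norm_zt_pow k i
  have hpt : ∀ i (s : ℝ), pt (cor k) i s = cor k i + s * zt k ^ i := fun i s => by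
    rw [pt, cor_succ, add_sub_cancel_left]
  have hE : ∀ i (s : ℝ), E (zt k ^ i) (pt (cor k) i s - cor k i) = 0 := fun i s => by
    rw [hpt, add_sub_cancel_left, E_smul_right, E_self, mul_zero]
  have hs : ∀ i (s t : ℝ), pt (cor k) i s = pt (cor k) i t → s = t := fun i s t h => by
    rw [hpt, hpt, add_right_inj, mul_left_inj' (hz i)] at h
    exact_mod_cast h
  have key : ∀ i j, i < j → j < k → ∀ s t : ℝ, s < 1 → 0 ≤ s → 0 ≤ t → t < 1 →
      pt (cor k) i s ≠ pt (cor k) j t := by
    intro i j hij hj s t h1 h1' h2 h3 he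
    obtain ⟨n, rfl⟩ : ∃ n, j = i + (n + 1) := ⟨j - i - 1, by omega⟩
    have h4 := hE i s
    rw [he, E_pt] at h4
    have h5 := E_corner i (n := n + 1) (k := k) (by omega)
    have h6 : 0 ≤ E (zt k ^ i) (cor k (i + (n + 1) + 1) - cor k i) :=
      (mem_Pg_iff hk).1 (cor_mem hk _) i
    rcases n with _ | n
    · have h7 := (E_corner i (n := 2) (k := k) (by omega)).2 le_rfl
      have h8 : t = 0 := by
        have := mul_nonneg (sub_nonneg.2 h3.le) h5.1
        have h9 : t * E (zt k ^ i) (cor k (i + 2) - cor k i) ≤ 0 := by linarith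
        nlinarith
      rw [h8, pt_zero, zero_add, ← pt_one (cor k) i] at he
      exact h1.ne (hs i _ _ he)
    · have := mul_pos (sub_pos.2 h3) (h5.2 (by omega))
      have := mul_nonneg h2 h6
      linarith
  refine ⟨Pg_closed k 1, ?_, hk, by rw [cor_self hk, cor_zero], ?_, fun x => ⟨fun hx => ?_, ?_⟩⟩
  · rw [(Pg_convex k).closure_interior_eq_closure_of_nonempty_interior]
    · exact subset_closure
    · by_contra h1
      rw [not_nonempty_iff_eq_empty] at h1
      refine h0 (measure_mono_null (fun x hx => ?_) ((Pg_convex k).addHaar_frontier volume))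
      exact ⟨subset_closure hx, by rw [h1]; exact notMem_empty x⟩
  · intro i hi j hj s t h1 h2 h3 h4 he
    rcases lt_trichotomy i j with h5 | rfl | h5
    · exact absurd he (key i j h5 hj s t h2 h1 h3 h4)
    · exact ⟨rfl, hs i _ _ he⟩
    · exact absurd he.symm (key j i h5 hi t s h4 h3 h1 h2)
  · have h1 := (Pg_closed k 1).frontier_subset hx
    obtain ⟨i, hi, h2⟩ : ∃ i < k, E (zt k ^ i) (x - (1 : ℝ) * cor k i) = 0 := by
      by_contra h2
      push Not at h2
      refine hx.2 (mem_interior_iff_mem_nhds.2 ((Pg_local h1).mono fun η h3 => ?_))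
      exact h3.2 fun j hj h4 => absurd h4 (h2 j hj)
    rw [ofReal_one, one_mul] at h2
    have h3 := E_mul (zt k ^ i) 1 ((x - cor k i) / zt k ^ i)
    rw [mul_one, mul_div_cancel₀ _ (hz i), h2, norm_zt_pow, one_pow, one_mul] at h3
    set τ := ((x - cor k i) / zt k ^ i).re with hτ
    have h4 : x = cor k i + τ * zt k ^ i := by
      have : (x - cor k i) / zt k ^ i = τ := Complex.ext rfl (by simpa [E] using h3.symm)
      rw [← this, div_mul_cancel₀ _ (hz i), add_sub_cancel]
    refine ⟨i, hi, τ, ⟨?_, ?_⟩, (hpt i τ).trans h4.symm⟩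
    · obtain ⟨l, rfl⟩ : ∃ l, k = l + 1 := ⟨k - 1, by omega⟩
      have h5 := (mem_Pg_iff hk).1 h1 (i + l)
      have h6 := E_zt_succ hk (i + l)
      have h7 := cor_succ (l + 1) (i + l)
      rw [add_assoc, cor_add hk] at h7
      rw [add_assoc, pow_add _ i (l + 1), (zt_prim hk).pow_eq_one, mul_one] at h6
      rw [show x - cor (l + 1) (i + l) = τ * zt (l + 1) ^ i + zt (l + 1) ^ (i + l) by
        linear_combination h4 + h7, E_add_right, E_self, add_zero, E_smul_right] at h5
      exact (mul_nonneg_iff_of_pos_right h6).1 h5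
    · have h5 := (mem_Pg_iff hk).1 h1 (i + 1)
      have h6 := E_zt_succ hk i
      rw [show x - cor k (i + 1) = (τ - 1 : ℝ) * zt k ^ i by
        rw [cor_succ]; push_cast; linear_combination h4, E_smul_right, E_swap] at h5
      nlinarith
  · rintro ⟨i, hi, s, ⟨h1, h2⟩, rfl⟩
    have h3 : pt (cor k) i s ∈ Pg k 1 := by
      have := (Pg_convex k).segment_subset (cor_mem hk i) (cor_mem hk (i + 1))
      exact this (edge_eq (cor k) i ▸ ⟨s, ⟨h1, h2⟩, rfl⟩)
    refine ⟨subset_closure h3, fun h4 => ?_⟩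
    have h5 : ContinuousAt (fun δ : ℝ => pt (cor k) i s - δ * (zt k ^ i * I)) 0 := by fun_prop
    have h6 : ∀ᶠ δ : ℝ in 𝓝 0, pt (cor k) i s - δ * (zt k ^ i * I) ∈ Pg k 1 :=
      h5.eventually_mem (mem_interior_iff_mem_nhds.1 (by simpa using h4))
    obtain ⟨δ, h7, h8⟩ := ((h6.filter_mono (nhdsWithin_le_nhds (s := Ioi 0))).and
      self_mem_nhdsWithin).exists
    have h9 := (mem_Pg_iff hk).1 h7 i
    have h10 := E_mul (zt k ^ i) 1 I
    rw [mul_one, norm_zt_pow] at h10
    rw [sub_right_comm, E_sub_right, hE, E_smul_right, h10] at h9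
    simp only [E, one_re, I_im, one_im, I_re] at h9
    have : (0 : ℝ) < δ := h8
    linarith

lemma shoe_cor {k : ℕ} (hk : 3 ≤ k) : shoe k (cor k) = k / (2 * Real.tan (π / k)) := by
  have h1 := sin_pos_frac (k := k) one_pos (by omega)
  rw [Nat.cast_one, one_mul] at h1
  have h2 : ∀ n, 4 * Real.sin (π / k) ^ 2 * shoe n (cor k) =
      2 * n * Real.sin (π / k) * Real.cos (π / k) - Real.sin (2 * n * (π / k)) := by
    intro n
    induction n with
    | zero => simp [shoe]
    | succ n ih =>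
      have h3 := E_cor k n
      rw [shoe, Finset.sum_range_succ, ← shoe, cor_succ, E_add_right, E_self, zero_add, mul_add, ih]
      push_cast
      generalize π / k = β at *
      have e1 : 2 * ((n : ℝ) + 1) * β = 2 * (n * β + β) := by ring
      have e2 : 2 * (n : ℝ) * β = 2 * (n * β) := by ring
      have e3 : ((n : ℝ) + 1) * β = n * β + β := by ring
      rw [e3] at h3
      rw [e1, e2, Real.sin_two_mul, Real.sin_two_mul, Real.cos_add]
      rw [Real.sin_add] at h3 ⊢
      have p1 := Real.sin_sq_add_cos_sq β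
      have p2 := Real.sin_sq_add_cos_sq (n * β)
      generalize Real.sin β = s at *
      generalize Real.cos β = c at *
      generalize Real.sin (n * β) = a at *
      generalize Real.cos (n * β) = b at *
      linear_combination 4 * s * h3 + 2 * a * b * p1 + 2 * s * c * p2
  have h3 := h2 k
  have hk0 : (k : ℝ) ≠ 0 := by positivity
  rw [show 2 * (k : ℝ) * (π / k) = 2 * π by field_simp, Real.sin_two_pi] at h3
  have h4 : 0 < Real.cos (π / k) := by
    have hp := Real.pi_pos
    have : π / k ≤ π / 3 := by gcongr; exact_mod_cast hk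
    have : 0 < π / k := by positivity
    exact Real.cos_pos_of_mem_Ioo ⟨by linarith, by linarith⟩
  rw [Real.tan_eq_sin_div_cos]
  field_simp
  apply mul_left_cancel₀ h1.ne'
  linear_combination h3 / 2

lemma vol_Pg {k : ℕ} (hk : 3 ≤ k) (h0 : volume (Pg k 1) ≠ 0) :
    volume.real (Pg k 1) = k / (4 * Real.tan (π / k)) := by
  obtain ⟨ε, hε, h1⟩ := (Pg_poly hk h0).green (Pg_compact hk)
  have h2 : 0 < Real.tan (π / k) := by
    have hp := Real.pi_pos
    have : π / k ≤ π / 3 := by gcongr; exact_mod_cast hk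
    exact Real.tan_pos_of_pos_of_lt_pi_div_two (by positivity) (by linarith)
  have h3 : (0 : ℝ) < k / (2 * Real.tan (π / k)) / 2 := by positivity
  rw [shoe_cor hk] at h1
  rcases hε with rfl | rfl
  · rw [← one_mul (volume.real _), h1]; ring
  · linarith [measureReal_nonneg (μ := volume) (s := Pg k 1)]

end

end Pool.Agent.Lib.MP_f2d99b_co
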