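import Pool.Agent.Lib.MP_f2d99b_co.Transfer
import Pool.Agent.Lib.MP_f2d99b_co.Defs

namespace Pool.Agent.Lib.MP_f2d99b_co

noncomputable section

open Set Complex MeasureTheory Metric Filter Topology
open scoped Real

lemma muC : (μHE[2] : Measure ℂ) = volume := by
  have := InnerProductSpace.euclideanHausdorffMeasure_eq_volume (V := ℂ)
  rwa [Complex.finrank_real_complex] at this

lemma vol_image {f : ℂ → E3} (hf : Isometry f) (S : Set ℂ) : μHE[2] (f '' S) = volume S := by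
  rw [hf.euclideanHausdorffMeasure_image, muC]

lemma vol_image' {f : ℂ → ℂ} (hf : Isometry f) (S : Set ℂ) : volume (f '' S) = volume S := by
  rw [← muC, hf.euclideanHausdorffMeasure_image]

def Sec (c u : ℂ) (θ r : ℝ) : Set ℂ :=
  {x | ∃ ρ φ : ℝ, 0 < ρ ∧ ρ < r ∧ 0 < φ ∧ φ < θ ∧ x = c + ρ * u * exp (φ * I)}

def Ray (c u : ℂ) : Set ℂ := {x | ∃ ρ : ℝ, 0 ≤ ρ ∧ x = c + ρ * u}

lemma Sec_preconn (c u : ℂ) (θ r : ℝ) : IsPreconnected (Sec c u θ r) := by
  have : Sec c u θ r = (fun p : ℝ × ℝ => c + p.1 * u * exp (p.2 * I)) '' (Ioo 0 r ×ˢ Ioo 0 θ) := by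
    ext x
    constructor
    · rintro ⟨ρ, φ, h1, h2, h3, h4, rfl⟩
      exact ⟨(ρ, φ), ⟨⟨h1, h2⟩, h3, h4⟩, rfl⟩
    · rintro ⟨⟨ρ, φ⟩, ⟨⟨h1, h2⟩, h3, h4⟩, rfl⟩
      exact ⟨ρ, φ, h1, h2, h3, h4, rfl⟩
  rw [this]
  exact (isPreconnected_Ioo.prod isPreconnected_Ioo).image _ (by fun_prop)

lemma Sec_mono (c u : ℂ) (θ : ℝ) {r r' : ℝ} (h : r ≤ r') : Sec c u θ r ⊆ Sec c u θ r' := by
  rintro x ⟨ρ, φ, h1, h2, h3⟩
  exact ⟨ρ, φ, h1, h2.trans_le h, h3⟩

lemma norm_polar {u : ℂ} (hu : ‖u‖ = 1) {ρ : ℝ} (h : 0 ≤ ρ) (φ : ℝ) :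
    ‖(ρ : ℂ) * u * exp (φ * I)‖ = ρ := by
  rw [norm_mul, norm_mul, hu, norm_exp_ofReal_mul_I, norm_real, Real.norm_of_nonneg h]; ring

lemma Sec_ball {c u : ℂ} (hu : ‖u‖ = 1) (θ r : ℝ) : Sec c u θ r ⊆ ball c r := by
  rintro x ⟨ρ, φ, h1, h2, _, _, rfl⟩
  rw [mem_ball_iff_norm, add_sub_cancel_left, norm_polar hu h1.le]
  exact h2

lemma vol_Sec0 {θ r : ℝ} (h0 : 0 ≤ θ) (h1 : θ ≤ 2 * π) (hr : 0 ≤ r) :
    volume (Sec 0 (-1) θ r) = ENNReal.ofReal (θ * r ^ 2 / 2) := by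
  set B : Set (ℝ × ℝ) := Ioo 0 r ×ˢ Ioo (-π) (θ - π) with hB
  have hsub : B ⊆ Complex.polarCoord.target := by
    rintro ⟨a, b⟩ ⟨⟨h2, _⟩, h3, h4⟩
    exact ⟨h2, h3, by simp only at h4 ⊢; linarith⟩
  have e : Sec 0 (-1) θ r = Complex.polarCoord.symm '' B := by
    have key : ∀ ρ φ : ℝ, Complex.polarCoord.symm (ρ, φ - π) = 0 + ρ * (-1) * exp (φ * I) := by
      intro ρ φ
      rw [Complex.polarCoord_symm_apply, Real.cos_sub_pi, Real.sin_sub_pi, exp_mul_I]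
      push_cast; ring
    ext x
    constructor
    · rintro ⟨ρ, φ, h1, h2, h3, h4, rfl⟩
      exact ⟨(ρ, φ - π), ⟨⟨h1, h2⟩, by simp only; linarith, by simp only; linarith⟩, key ρ φ⟩
    · rintro ⟨⟨ρ, φ⟩, ⟨⟨h1, h2⟩, h3, h4⟩, rfl⟩
      refine ⟨ρ, φ + π, h1, h2, by simp only at h3; linarith, by simp only at h4; linarith, ?_⟩
      rw [← key]; simp
  have hBo : IsOpen B := isOpen_Ioo.prod isOpen_Ioo
  have hop : IsOpen (Complex.polarCoord.symm '' B) :=
    Complex.polarCoord.isOpen_image_symm_of_subset_target hBo hsub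
  rw [e, ← lintegral_indicator_one hop.measurableSet, ← Complex.lintegral_comp_polarCoord_symm]
  have hT : MeasurableSet polarCoord.target := polarCoord.open_target.measurableSet
  rw [setLIntegral_congr_fun hT (g := B.indicator (fun p => ENNReal.ofReal p.1 * 1)) (by
    intro p hp
    by_cases h2 : p ∈ B
    · simp only
      rw [indicator_of_mem h2, indicator_of_mem (mem_image_of_mem _ h2)]; simp
    · simp only
      rw [indicator_of_notMem h2, indicator_of_notMem]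
      · simp
      · rintro ⟨q, h3, h4⟩
        exact h2 (Complex.polarCoord.symm.injOn (hsub h3) hp h4 ▸ h3))]
  rw [lintegral_indicator hBo.measurableSet, Measure.restrict_restrict hBo.measurableSet,
    inter_eq_left.2 (show B ⊆ polarCoord.target from hsub), Measure.volume_eq_prod, hB,
    ← Measure.prod_restrict, lintegral_prod_mul (f := fun a : ℝ => ENNReal.ofReal a) (g := fun _ : ℝ => 1)
      (by fun_prop) (by fun_prop)]
  rw [← ofReal_integral_eq_lintegral_ofReal, ← integral_Ioc_eq_integral_Ioo,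
    ← intervalIntegral.integral_of_le hr, integral_id]
  · simp only [lintegral_const, MeasurableSet.univ, Measure.restrict_apply, univ_inter,
      Real.volume_Ioo, one_mul]
    rw [← ENNReal.ofReal_mul' (by linarith)]
    congr 1; ring
  · exact (continuous_id.integrableOn_Icc (a := 0) (b := r)).mono_set Ioo_subset_Icc_self
  · filter_upwards [ae_restrict_mem measurableSet_Ioo] with x hx using hx.1.le

lemma isom_aff (c : ℂ) {u : ℂ} (hu : ‖u‖ = 1) : Isometry (fun x : ℂ => c + u * x) := by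
  apply Isometry.of_dist_eq
  intro x y
  rw [dist_eq_norm, dist_eq_norm, add_sub_add_left_eq_sub, ← mul_sub, norm_mul, hu, one_mul]

lemma vol_Sec (c : ℂ) {u : ℂ} (hu : ‖u‖ = 1) {θ r : ℝ} (h0 : 0 ≤ θ) (h1 : θ ≤ 2 * π) (hr : 0 ≤ r) :
    volume (Sec c u θ r) = ENNReal.ofReal (θ * r ^ 2 / 2) := by
  rw [← vol_Sec0 h0 h1 hr, ← vol_image' (isom_aff c (u := -u) (by simpa using hu)) (Sec 0 (-1) θ r)]
  refine congrArg volume ?_
  ext x
  constructor
  · rintro ⟨ρ, φ, h1, h2, h3, h4, rfl⟩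
    exact ⟨_, ⟨ρ, φ, h1, h2, h3, h4, rfl⟩, by ring⟩
  · rintro ⟨_, ⟨ρ, φ, h1, h2, h3, h4, rfl⟩, rfl⟩
    exact ⟨ρ, φ, h1, h2, h3, h4, by ring⟩

lemma polar (c : ℂ) {u : ℂ} (hu : ‖u‖ = 1) (x : ℂ) :
    ∃ φ : ℝ, 0 < φ ∧ φ ≤ 2 * π ∧ x = c + (‖x - c‖ : ℝ) * u * exp (φ * I) := by
  have hu0 : u ≠ 0 := by rintro rfl; simp at hu
  refine ⟨arg (-(x - c) / u) + π, by linarith [neg_pi_lt_arg (-(x - c) / u)],
    by linarith [arg_le_pi (-(x - c) / u)], ?_⟩
  have h1 := norm_mul_exp_arg_mul_I (-(x - c) / u)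
  rw [norm_div, norm_neg, hu, div_one] at h1
  push_cast
  rw [add_mul, exp_add, exp_pi_mul_I]
  have h2 : -(x - c) / u * u = -(x - c) := div_mul_cancel₀ _ hu0
  linear_combination u * h1 + h2

lemma exp_ne_one {φ : ℝ} (h0 : 0 < φ) (h1 : φ < 2 * π) : exp (φ * I) ≠ 1 := by
  intro h
  obtain ⟨n, hn⟩ := Complex.exp_eq_one_iff.1 h
  have h2 : φ = n * (2 * π) := by
    have := congrArg Complex.im hn
    simpa using this
  have hp := Real.pi_pos
  have h3 : (0 : ℝ) < n := by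
    by_contra h3
    push Not at h3
    nlinarith
  have h4 : (n : ℝ) < 1 := by
    by_contra h4
    push Not at h4
    nlinarith
  have h5 : (0 : ℤ) < n := by exact_mod_cast h3
  have h6 : n < (1 : ℤ) := by exact_mod_cast h4
  omega

lemma Sec_not_Ray {c u : ℂ} (hu : ‖u‖ = 1) {θ r : ℝ} (h1 : θ ≤ 2 * π) {x : ℂ}
    (hx : x ∈ Sec c u θ r) : x ∉ Ray c u ∧ x ∉ Ray c (u * exp (θ * I)) := by
  obtain ⟨ρ, φ, h2, h3, h4, h5, rfl⟩ := hx
  have hu0 : u ≠ 0 := by rintro rfl; simp at hu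
  have hρ : (ρ : ℂ) ≠ 0 := by exact_mod_cast h2.ne'
  constructor
  · rintro ⟨σ, h6, h7⟩
    have h8 : (ρ : ℂ) * u * exp (φ * I) = σ * u := by linear_combination h7
    have h9 := congrArg norm h8
    rw [norm_polar hu h2.le, norm_mul, hu, norm_real, Real.norm_of_nonneg h6, mul_one] at h9
    subst h9
    apply exp_ne_one h4 (by linarith)
    apply mul_left_cancel₀ (mul_ne_zero hρ hu0)
    rw [h8, mul_one]
  · rintro ⟨σ, h6, h7⟩
    have h8 : (ρ : ℂ) * u * exp (φ * I) = σ * u * exp (θ * I) := by linear_combination h7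
    have h9 := congrArg norm h8
    rw [norm_polar hu h2.le, norm_polar hu h6] at h9
    subst h9
    have h10 := mul_left_cancel₀ (mul_ne_zero hρ hu0) h8
    apply exp_ne_one (φ := θ - φ) (by linarith) (by linarith)
    push_cast
    rw [sub_mul, exp_sub, ← h10, div_self (exp_ne_zero _)]

lemma exp_compl (u : ℂ) (θ : ℝ) : u * exp (θ * I) * exp ((2 * π - θ : ℝ) * I) = u := by
  rw [mul_assoc, ← exp_add]
  push_cast
  rw [show (θ : ℂ) * I + (2 * π - θ) * I = 2 * π * I by ring, exp_two_pi_mul_I, mul_one]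

lemma ball_cases {c u : ℂ} (hu : ‖u‖ = 1) {θ r : ℝ} {x : ℂ} (hx : x ∈ ball c r) :
    x ∈ Sec c u θ r ∨ x ∈ Sec c (u * exp (θ * I)) (2 * π - θ) r ∨ x ∈ Ray c u ∨
      x ∈ Ray c (u * exp (θ * I)) := by
  obtain ⟨φ, h1, h2, h3⟩ := polar c hu x
  rw [mem_ball_iff_norm] at hx
  rcases (norm_nonneg (x - c)).eq_or_lt with h4 | h4
  · exact Or.inr (Or.inr (Or.inl ⟨0, le_rfl, by rw [h3, ← h4]; simp⟩))
  rcases h2.eq_or_lt with h5 | h5
  · refine Or.inr (Or.inr (Or.inl ⟨_, h4.le, ?_⟩))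
    rw [h5] at h3
    push_cast at h3
    rwa [exp_two_pi_mul_I, mul_one] at h3
  rcases lt_trichotomy φ θ with h6 | h6 | h6
  · exact Or.inl ⟨_, φ, h4, hx, h1, h6, h3⟩
  · exact Or.inr (Or.inr (Or.inr ⟨_, h4.le, by rw [← h6, ← mul_assoc]; exact h3⟩))
  · refine Or.inr (Or.inl ⟨_, φ - θ, h4, hx, by linarith, by linarith, ?_⟩)
    rw [mul_assoc, mul_assoc, ← exp_add]
    push_cast
    rw [show (θ : ℂ) * I + (φ - θ) * I = φ * I by ring, ← mul_assoc]
    exact h3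

lemma vol_line (c u : ℂ) : volume {x : ℂ | ∃ t : ℝ, x = c + t * u} = 0 := by
  by_cases hu : u = 0
  · apply measure_mono_null (t := {c}) _ (measure_singleton c)
    rintro x ⟨t, rfl⟩; simp [hu]
  have h := Measure.addHaar_affineSubspace (volume : Measure ℂ)
    (AffineSubspace.mk' c (Submodule.span ℝ {u})) (by
      intro h
      have : c + I * u ∈ AffineSubspace.mk' c (Submodule.span ℝ {u}) := by rw [h]; trivial
      rw [AffineSubspace.mem_mk', Submodule.mem_span_singleton] at this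
      obtain ⟨a, ha⟩ := this
      simp only [vsub_eq_sub, add_sub_cancel_left, real_smul] at ha
      have := congrArg Complex.im (mul_right_cancel₀ hu ha)
      simp at this)
  apply measure_mono_null _ h
  rintro x ⟨t, rfl⟩
  rw [SetLike.mem_coe, AffineSubspace.mem_mk', Submodule.mem_span_singleton]
  exact ⟨t, by simp⟩

lemma vol_Ray (c u : ℂ) : volume (Ray c u) = 0 :=
  measure_mono_null (t := {x : ℂ | ∃ t : ℝ, x = c + t * u}) (fun _ ⟨t, _, h⟩ => ⟨t, h⟩)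
    (vol_line c u)

lemma vol_segment (a b : ℂ) : volume (segment ℝ a b) = 0 := by
  apply measure_mono_null _ (vol_line a (b - a))
  rw [segment_eq_image']
  rintro _ ⟨t, _, rfl⟩
  exact ⟨t, by simp⟩

/-- Local area density. -/
def Dens (P : Set ℂ) (c : ℂ) (θ : ℝ) : Prop :=
  ∀ᶠ r in 𝓝[>] (0 : ℝ), volume (P ∩ ball c r) = ENNReal.ofReal (θ * r ^ 2 / 2)

lemma vol_of_sec {P : Set ℂ} {c u v : ℂ} (hu : ‖u‖ = 1) {θ r : ℝ} (h0 : 0 ≤ θ) (h1 : θ ≤ 2 * π)
    (hr : 0 ≤ r) (h2 : Sec c u θ r ⊆ P)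
    (h3 : ∀ x ∈ P, x ∈ ball c r → x ∈ Sec c u θ r ∨ x ∈ Ray c u ∨ x ∈ Ray c v) :
    volume (P ∩ ball c r) = ENNReal.ofReal (θ * r ^ 2 / 2) := by
  rw [← vol_Sec c hu h0 h1 hr]
  apply le_antisymm
  · calc volume (P ∩ ball c r) ≤ volume (Sec c u θ r ∪ (Ray c u ∪ Ray c v)) :=
          measure_mono (fun x hx => h3 x hx.1 hx.2)
      _ ≤ volume (Sec c u θ r) + volume (Ray c u ∪ Ray c v) := measure_union_le _ _
      _ = volume (Sec c u θ r) := by
          rw [measure_union_null (vol_Ray _ _) (vol_Ray _ _), add_zero]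
  · exact measure_mono (subset_inter h2 (Sec_ball hu θ r))

lemma ev_lt {r : ℝ} (hr : 0 < r) : ∀ᶠ s in 𝓝[>] (0 : ℝ), 0 < s ∧ s < r := Ioo_mem_nhdsGT hr

lemma preconn_side {P S : Set ℂ} (hP : IsClosed P) (hS : IsPreconnected S)
    (h : ∀ x ∈ S, x ∉ frontier P) : S ⊆ P ∨ Disjoint S P := by
  have := hS.subset_or_subset (u := interior P) (v := Pᶜ) isOpen_interior hP.isOpen_compl
    (disjoint_compl_right.mono_left interior_subset) (fun x hx => by
      by_cases h1 : x ∈ P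
      · left
        by_contra h2
        exact h x hx ⟨subset_closure h1, h2⟩
      · exact Or.inr h1)
  rcases this with h1 | h1
  · exact Or.inl (h1.trans interior_subset)
  · exact Or.inr (subset_compl_iff_disjoint_right.1 h1)

/-- Local picture of the boundary: two rays. -/
def Loc (P : Set ℂ) (c u : ℂ) (θ r : ℝ) : Prop :=
  c ∈ frontier P ∧ ‖u‖ = 1 ∧ 0 < θ ∧ θ < 2 * π ∧ 0 < r ∧
    ∀ x ∈ frontier P, x ∈ ball c r → x ∈ Ray c u ∨ x ∈ Ray c (u * exp (θ * I))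

lemma Loc.flip {P : Set ℂ} {c u : ℂ} {θ r : ℝ} (h : Loc P c u θ r) :
    Loc P c (u * exp (θ * I)) (2 * π - θ) r := by
  obtain ⟨h1, h2, h3, h4, h5, h6⟩ := h
  refine ⟨h1, by rw [norm_mul, h2, norm_exp_ofReal_mul_I, one_mul], by linarith, by linarith, h5,
    fun x hx hb => ?_⟩
  rw [exp_compl]
  exact (h6 x hx hb).symm

lemma Loc.side {P : Set ℂ} (hP : IsClosed P) {c u : ℂ} {θ r : ℝ} (h : Loc P c u θ r) :
    Sec c u θ r ⊆ P ∨ Disjoint (Sec c u θ r) P := by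
  obtain ⟨h1, h2, h3, h4, h5, h6⟩ := h
  refine preconn_side hP (Sec_preconn _ _ _ _) (fun x hx hf => ?_)
  have := Sec_not_Ray h2 h4.le hx
  exact (h6 x hf (Sec_ball h2 θ r hx)).elim this.1 this.2

lemma open_null {U : Set ℂ} (hU : IsOpen U) {c u v : ℂ} (h : U ⊆ Ray c u ∪ Ray c v) : U = ∅ := by
  by_contra h1
  have := hU.measure_pos volume (nonempty_iff_ne_empty.2 h1)
  rw [measure_mono_null h (measure_union_null (vol_Ray _ _) (vol_Ray _ _))] at this
  exact lt_irrefl _ this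

lemma Loc.dens {P : Set ℂ} (hP : IsClosed P) {c u : ℂ} {θ r : ℝ} (h : Loc P c u θ r)
    (hin : Sec c u θ r ⊆ P) : Dens P c θ := by
  have hout : Disjoint (Sec c (u * exp (θ * I)) (2 * π - θ) r) P := by
    refine (h.flip.side hP).resolve_left (fun h1 => ?_)
    obtain ⟨h2, h3, _, _, h4, _⟩ := h
    have h5 := open_null (hP.isOpen_compl.inter (isOpen_ball (x := c) (ε := r))) (c := c) (u := u)
      (v := u * exp (θ * I)) (by
        rintro x ⟨h6, h7⟩
        rcases ball_cases h3 (θ := θ) h7 with h8 | h8 | h8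
        exacts [absurd (hin h8) h6, absurd (h1 h8) h6, h8])
    apply h2.2
    rw [mem_interior_iff_mem_nhds]
    refine mem_of_superset (ball_mem_nhds c h4) (fun x hx => ?_)
    by_contra h6
    exact (h5 ▸ (⟨h6, hx⟩ : x ∈ Pᶜ ∩ ball c r) : x ∈ (∅ : Set ℂ))
  obtain ⟨h2, h3, h4, h5, h6, _⟩ := h
  filter_upwards [ev_lt h6] with s hs
  refine vol_of_sec h3 h4.le h5.le hs.1.le ((Sec_mono _ _ _ hs.2.le).trans hin)
    (v := u * exp (θ * I)) (fun x hx hb => ?_)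
  rcases ball_cases h3 (θ := θ) hb with h8 | h8 | h8
  · exact Or.inl h8
  · exact absurd hx (disjoint_left.1 hout (Sec_mono _ _ _ hs.2.le h8))
  · exact Or.inr h8

lemma Loc.dens' {P : Set ℂ} (hP : IsClosed P) (hP' : P ⊆ closure (interior P)) {c u : ℂ}
    {θ r : ℝ} (h : Loc P c u θ r) (hout : ¬ Sec c u θ r ⊆ P) : Dens P c (2 * π - θ) := by
  refine h.flip.dens hP ((h.flip.side hP).resolve_right (fun h1 => ?_))
  have h0 := (h.side hP).resolve_left hout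
  obtain ⟨h2, h3, _, _, h4, _⟩ := h
  have h5 := open_null (isOpen_interior.inter (isOpen_ball (x := c) (ε := r))) (c := c) (u := u)
    (v := u * exp (θ * I)) (by
      rintro x ⟨h6, h7⟩
      rcases ball_cases h3 (θ := θ) h7 with h8 | h8 | h8
      exacts [absurd (interior_subset h6) (disjoint_left.1 h0 h8),
        absurd (interior_subset h6) (disjoint_left.1 h1 h8), h8])
  have h6 := hP' (hP.frontier_subset h2)
  obtain ⟨y, h7, h8⟩ := _root_.mem_closure_iff.1 h6 _ isOpen_ball (mem_ball_self h4)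
  exact (h5 ▸ (⟨h8, h7⟩ : y ∈ interior P ∩ ball c r) : y ∈ (∅ : Set ℂ))

lemma exp_sub_one (φ : ℝ) :
    exp (φ * I) - 1 = (2 * Real.sin (φ / 2) : ℝ) * exp ((π / 2 + φ / 2 : ℝ) * I) := by
  push_cast
  rw [add_mul, exp_add, exp_pi_div_two_mul_I, Complex.sin]
  have h1 : exp (φ * I) = exp (φ / 2 * I) * exp (φ / 2 * I) := by
    rw [← exp_add]; congr 1; ring
  have h2 : exp (-(φ / 2 : ℂ) * I) * exp (φ / 2 * I) = 1 := by
    rw [← exp_add]; simp
  rw [h1]
  linear_combination h2 + (exp (φ / 2 * I) * exp (φ / 2 * I) -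
    exp (-(φ / 2 : ℂ) * I) * exp (φ / 2 * I)) * I_mul_I

lemma small_angle {θ ρ r' : ℝ} (h1 : 0 < θ) (h2 : 0 < ρ) (h3 : 0 < r') :
    ∃ φ : ℝ, 0 < φ ∧ φ < θ ∧ φ < π ∧ 0 < ρ * (2 * Real.sin (φ / 2)) ∧
      ρ * (2 * Real.sin (φ / 2)) < r' := by
  have hp := Real.pi_pos
  obtain ⟨φ, h4, h5⟩ := exists_between (show 0 < min θ (min π (r' / ρ)) by positivity)
  simp only [lt_min_iff] at h5
  have h6 := Real.sin_pos_of_pos_of_lt_pi (x := φ / 2) (by linarith) (by linarith)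
  have h7 := Real.sin_lt (x := φ / 2) (by linarith)
  have h8 := (lt_div_iff₀ h2).1 h5.2.2
  exact ⟨φ, h4, h5.1, h5.2.1, by positivity, by nlinarith⟩

lemma common_fwd (c u : ℂ) {θ r r' ρ : ℝ} (h1 : 0 < θ) (h2 : 0 < ρ) (h3 : ρ < r) (h4 : 0 < r') :
    (Sec c u θ r ∩ Sec (c + ρ * u) u π r').Nonempty := by
  obtain ⟨φ, h5, h6, h7, h8, h9⟩ := small_angle h1 h2 h4
  have hp := Real.pi_pos
  refine ⟨_, ⟨ρ, φ, h2, h3, h5, h6, rfl⟩, _, π / 2 + φ / 2, h8, h9, by linarith, by linarith, ?_⟩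
  have := exp_sub_one φ
  push_cast at this ⊢
  linear_combination (ρ * u : ℂ) * this

lemma common_bwd (c u : ℂ) {θ r r' ρ : ℝ} (h1 : 0 < θ) (h2 : 0 < ρ) (h3 : ρ < r) (h4 : 0 < r') :
    (Sec c u θ r ∩ Sec (c + ρ * (u * exp (θ * I))) (-(u * exp (θ * I))) π r').Nonempty := by
  obtain ⟨φ, h5, h6, h7, h8, h9⟩ := small_angle h1 h2 h4
  have hp := Real.pi_pos
  refine ⟨_, ⟨ρ, θ - φ, h2, h3, by linarith, by linarith, rfl⟩, _, π / 2 - φ / 2, h8, h9,
    by linarith, by linarith, ?_⟩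
  have := exp_sub_one (-φ)
  rw [neg_div, Real.sin_neg, ← sub_eq_add_neg] at this
  push_cast at this ⊢
  rw [sub_mul, sub_eq_add_neg, exp_add, ← neg_mul]
  linear_combination (ρ * u * exp (θ * I) : ℂ) * this

lemma Loc.agree {P : Set ℂ} (hP : IsClosed P) {c u c' u' : ℂ} {θ r θ' r' : ℝ} (h : Loc P c u θ r)
    (h' : Loc P c' u' θ' r') (hc : (Sec c u θ r ∩ Sec c' u' θ' r').Nonempty) :
    Sec c u θ r ⊆ P ↔ Sec c' u' θ' r' ⊆ P := by
  obtain ⟨x, h1, h2⟩ := hc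
  constructor
  · intro h3
    exact (h'.side hP).resolve_right (fun h4 => disjoint_left.1 h4 h2 (h3 h1))
  · intro h3
    exact (h.side hP).resolve_right (fun h4 => disjoint_left.1 h4 h1 (h3 h2))

lemma E_polar {u : ℂ} (hu : ‖u‖ = 1) (ρ φ θ : ℝ) :
    E u (ρ * u * exp (φ * I)) = ρ * Real.sin φ ∧
      E (ρ * u * exp (φ * I)) (u * exp (θ * I)) = ρ * Real.sin (θ - φ) := by
  constructor
  · have := E_mul u 1 (ρ * exp (φ * I))
    rw [mul_one, hu] at this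
    rw [show (ρ : ℂ) * u * exp (φ * I) = u * (ρ * exp (φ * I)) by ring, this]
    simp [E, exp_ofReal_mul_I_re, exp_ofReal_mul_I_im]
  · have := E_mul u (ρ * exp (φ * I)) (exp (θ * I))
    rw [hu] at this
    rw [show (ρ : ℂ) * u * exp (φ * I) = u * (ρ * exp (φ * I)) by ring, this, Real.sin_sub]
    simp [E, exp_ofReal_mul_I_re, exp_ofReal_mul_I_im]; ring

lemma vol_wedge (c : ℂ) {u : ℂ} (hu : ‖u‖ = 1) {θ r : ℝ} (h0 : 0 < θ) (h1 : θ ≤ π) (hr : 0 ≤ r) :
    volume ({x | 0 ≤ E u (x - c) ∧ 0 ≤ E (x - c) (u * exp (θ * I))} ∩ ball c r) =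
      ENNReal.ofReal (θ * r ^ 2 / 2) := by
  have hp := Real.pi_pos
  refine vol_of_sec hu h0.le (by linarith) hr ?_ (v := u * exp (θ * I)) ?_
  · rintro x ⟨ρ, φ, h2, h3, h4, h5, rfl⟩
    simp only [mem_ofPred_eq, add_sub_cancel_left]
    rw [(E_polar hu ρ φ θ).1, (E_polar hu ρ φ θ).2]
    have := Real.sin_pos_of_pos_of_lt_pi h4 (by linarith)
    have := Real.sin_pos_of_pos_of_lt_pi (x := θ - φ) (by linarith) (by linarith)
    constructor <;> positivity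
  · rintro x ⟨h2, h3⟩ hb
    rcases ball_cases hu (θ := θ) hb with h8 | h8 | h8
    · exact Or.inl h8
    · exfalso
      obtain ⟨ρ, φ, h4, h5, h6, h7, rfl⟩ := h8
      have e : (ρ : ℂ) * (u * exp (θ * I)) * exp (φ * I) = ρ * u * exp ((θ + φ : ℝ) * I) := by
        push_cast; rw [add_mul, exp_add]; ring
      rw [add_sub_cancel_left, e] at h2 h3
      rw [(E_polar hu _ _ θ).1] at h2
      rw [(E_polar hu _ _ θ).2, sub_add_cancel_left, Real.sin_neg] at h3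
      by_cases h9 : φ < π
      · have := Real.sin_pos_of_pos_of_lt_pi h6 h9
        nlinarith
      · have := Real.sin_pos_of_pos_of_lt_pi (x := θ + φ - π) (by linarith) (by linarith)
        rw [Real.sin_sub_pi] at this
        nlinarith
    · exact Or.inr h8

end

end Pool.Agent.Lib.MP_f2d99b_co
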