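import Pool.Agent.Lib.MP_f2d99b_co.Plane

namespace Pool.Agent.Lib.MP_f2d99b_co

noncomputable section

open Set Complex MeasureTheory Metric Filter Topology
open scoped Real

lemma aff_line (g : ℂ →ᵃ[ℝ] ℝ) {u c : ℂ} (hu : ‖u‖ = 1) {s : ℝ} (hs : 0 < s) (h0 : g c = 0)
    (h1 : g (c + s * u) = 0) : ∃ B : ℝ, ∀ η, g η = B * E u (η - c) := by
  have hn := normSq_of_norm hu
  have key : ∀ x, g (c + x) = g.linear x := by
    intro x
    have := g.map_vadd c x
    simp only [vadd_eq_add, h0, add_zero] at this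
    rw [add_comm, this]
  have h2 : g.linear u = 0 := by
    rw [key, ← real_smul, map_smul, smul_eq_mul] at h1
    exact (mul_eq_zero.1 h1).resolve_left hs.ne'
  refine ⟨g.linear (I * u), fun η => ?_⟩
  have e : η - c = (u.re * (η - c).re + u.im * (η - c).im) • u + E u (η - c) • (I * u) := by
    generalize η - c = x
    apply Complex.ext
    · simp [E]; linear_combination (-x.re) * hn
    · simp [E]; linear_combination (-x.im) * hn
  rw [← add_sub_cancel c η, key]
  nth_rewrite 1 [e]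
  rw [map_add, map_smul, map_smul, h2, add_sub_cancel_left]
  simp [mul_comm]

lemma hull_le {V : Set E3} (g : E3 →ᵃ[ℝ] ℝ) (h : ∀ v ∈ V, g v ≤ 0) {x : E3}
    (hx : x ∈ convexHull ℝ V) : g x ≤ 0 :=
  convexHull_min (t := g ⁻¹' Iic 0) h ((convex_Iic 0).affine_preimage g) hx

lemma aff_comb (g : E3 →ᵃ[ℝ] ℝ) (x y : E3) {a b : ℝ} (h : a + b = 1) :
    g (a • x + b • y) = a * g x + b * g y := Convex.combo_affine_apply h

lemma hull_face {V : Set E3} (g : E3 →ᵃ[ℝ] ℝ) (h : ∀ v ∈ V, g v ≤ 0) {x : E3}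
    (hx : x ∈ convexHull ℝ V) (h0 : g x = 0) : x ∈ convexHull ℝ (V ∩ {v | g v = 0}) := by
  have : convexHull ℝ V ⊆ {x | g x ≤ 0 ∧ (g x = 0 → x ∈ convexHull ℝ (V ∩ {v | g v = 0}))} := by
    apply convexHull_min
    · exact fun v hv => ⟨h v hv, fun h1 => subset_convexHull _ _ ⟨hv, h1⟩⟩
    · rintro x ⟨h1, h2⟩ y ⟨h3, h4⟩ a b ha hb hab
      simp only [mem_ofPred_eq, aff_comb g x y hab]
      refine ⟨by nlinarith, fun h5 => ?_⟩
      rcases ha.eq_or_lt with rfl | ha'
      · obtain rfl : b = 1 := by linarith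
        simpa using h4 (by linarith)
      rcases hb.eq_or_lt with rfl | hb'
      · obtain rfl : a = 1 := by linarith
        simpa using h2 (by linarith)
      exact convex_convexHull ℝ _ (h2 (by nlinarith)) (h4 (by nlinarith)) ha hb hab
  exact (this hx).2 h0

/-- Combinatorial and metric description of a regular polyhedron. -/
structure Solid (V : Set E3) (k nF dg : ℕ) (s : ℝ) (cc : ℕ → ZMod 3) (col : E3 → ZMod 3)
    (ψ : Fin nF → ℂ →ᵃⁱ[ℝ] E3) (l : Fin nF → E3 →ᵃ[ℝ] ℝ) (o : E3) (nb : Fin nF → ℕ → Fin nF) :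
    Prop where
  three : 3 ≤ k
  spos : 0 < s
  fin : V.Finite
  nfpos : 0 < nF
  mem : ∀ F j, ψ F (s * cor k j) ∈ V
  le : ∀ F, ∀ v ∈ V, l F v ≤ 0
  zero : ∀ F j, l F (ψ F (s * cor k j)) = 0
  face : ∀ F, ∀ v ∈ V, l F v = 0 → ∃ j < k, v = ψ F (s * cor k j)
  nbz : ∀ F, ∀ i < k, ∀ j < k, l (nb F i) (ψ F (s * cor k j)) = 0 ↔ j = i ∨ j = (i + 1) % k
  two : ∀ F F', F ≠ F' → ∀ i < k, ∀ j < k, i ≠ j → l F' (ψ F (s * cor k i)) = 0 →
    l F' (ψ F (s * cor k j)) = 0 → (j = (i + 1) % k ∧ F' = nb F i) ∨ (i = (j + 1) % k ∧ F' = nb F j)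
  deg : ∀ v ∈ V, (Finset.univ.filter (fun F => l F v = 0)).card = dg
  cen : ∀ F, l F o = -1
  omem : o ∈ convexHull ℝ V
  opp : ∀ F, ∃ F', ∀ x, l F' x + l F x = -2
  colv : ∀ F j, col (ψ F (s * cor k j)) = cc j

lemma mod_cases {k i : ℕ} (hi : i < k) : (i + 1 < k ∧ (i + 1) % k = i + 1) ∨
    (i + 1 = k ∧ (i + 1) % k = 0) := by
  rcases (Nat.succ_le_of_lt hi).eq_or_lt with h | h
  · exact Or.inr ⟨h, by rw [show i + 1 = k from h, Nat.mod_self]⟩
  · exact Or.inl ⟨h, Nat.mod_eq_of_lt h⟩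

namespace Solid

variable {V : Set E3} {k nF dg : ℕ} {s : ℝ} {cc : ℕ → ZMod 3} {col : E3 → ZMod 3}
  {ψ : Fin nF → ℂ →ᵃⁱ[ℝ] E3} {l : Fin nF → E3 →ᵃ[ℝ] ℝ} {o : E3} {nb : Fin nF → ℕ → Fin nF}

lemma mlt (h : Solid V k nF dg s cc col ψ l o nb) (j : ℕ) : j % k < k :=
  Nat.mod_lt _ (by linarith [h.three])

lemma third (h : Solid V k nF dg s cc col ψ l o nb) (F : Fin nF) {j : ℕ} (hj : j < k) :
    l (nb F j) (ψ F (s * cor k (j + 2))) ≠ 0 := by
  have h3 := h.three
  rw [← cor_mod h3, Ne, h.nbz F j hj _ (h.mlt _), show j + 2 = j + 1 + 1 from rfl,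
    ← Nat.mod_add_mod]
  rcases mod_cases hj with ⟨h1, h2⟩ | ⟨h1, h2⟩
  · rw [h2]
    rcases mod_cases h1 with ⟨h4, h5⟩ | ⟨h4, h5⟩ <;> omega
  · rw [h2, Nat.mod_eq_of_lt (by omega)]; omega

lemma nb_ne (h : Solid V k nF dg s cc col ψ l o nb) (F : Fin nF) {j : ℕ} (hj : j < k) :
    nb F j ≠ F := fun h1 => h.third F hj (by rw [h1]; exact h.zero F _)

lemma E_two (h : Solid V k nF dg s cc col ψ l o nb) (j : ℕ) :
    0 < E (zt k ^ j) (s * cor k (j + 2) - s * cor k j) := by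
  rw [← mul_sub, E_smul_right, cor_succ, cor_succ, add_assoc, add_sub_cancel_left, E_add_right,
    E_self, zero_add]
  exact mul_pos h.spos (E_zt_succ h.three j)

lemma half (h : Solid V k nF dg s cc col ψ l o nb) (F : Fin nF) {j : ℕ} (hj : j < k) :
    ∃ B : ℝ, B < 0 ∧ ∀ η, l (nb F j) (ψ F η) = B * E (zt k ^ j) (η - s * cor k j) := by
  obtain ⟨B, hB⟩ := aff_line ((l (nb F j)).comp (ψ F).toAffineMap) (norm_zt_pow k j) h.spos
    (c := s * cor k j) ((h.nbz F j hj j hj).2 (Or.inl rfl)) (by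
      rw [← mul_add, ← cor_succ, ← cor_mod h.three]
      exact (h.nbz F j hj _ (h.mlt _)).2 (Or.inr rfl))
  refine ⟨B, ?_, hB⟩
  have h1 : l (nb F j) (ψ F (s * cor k (j + 2))) = _ := hB (s * cor k (j + 2))
  have h2 := lt_of_le_of_ne (h.le _ _ (h.mem F (j + 2))) (h.third F hj)
  rw [h1] at h2
  by_contra h3
  nlinarith [h.E_two j]

lemma lpsi (h : Solid V k nF dg s cc col ψ l o nb) (F : Fin nF) (η : ℂ) : l F (ψ F η) = 0 := by
  obtain ⟨B, hB⟩ := aff_line ((l F).comp (ψ F).toAffineMap) (norm_zt_pow k 0) h.spos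
    (c := s * cor k 0) (h.zero F 0) (by rw [← mul_add, ← cor_succ]; exact h.zero F 1)
  have h1 : l F (ψ F (s * cor k (0 + 2))) = _ := hB _
  rw [h.zero] at h1
  have h2 : l F (ψ F η) = _ := hB η
  rw [h2, (mul_eq_zero.1 h1.symm).resolve_right (h.E_two 0).ne', zero_mul]

lemma plane (h : Solid V k nF dg s cc col ψ l o nb) (F : Fin nF) {x : E3} (hx : l F x = 0) :
    ∃ η, ψ F η = x := by
  have lin : ∀ a b, (l F).linear (a - b) = l F a - l F b := fun a b => (l F).linearMap_vsub a b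
  have lin2 : ∀ η, (ψ F).linearIsometry η = ψ F η - ψ F 0 := fun η => by
    simpa using (ψ F).map_vsub η 0
  have h1 : LinearMap.range (ψ F).linearIsometry.toLinearMap ≤ LinearMap.ker (l F).linear := by
    rintro _ ⟨η, rfl⟩
    rw [LinearMap.mem_ker, LinearIsometry.coe_toLinearMap, lin2, lin, h.lpsi, h.lpsi, sub_zero]
  have h2 : Module.finrank ℝ (LinearMap.range (ψ F).linearIsometry.toLinearMap) = 2 := by
    rw [LinearMap.finrank_range_of_inj (ψ F).linearIsometry.injective, finrank_real_complex]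
  have h3 : LinearMap.ker (l F).linear < ⊤ := by
    rw [lt_top_iff_ne_top]
    intro h4
    have : o - ψ F 0 ∈ LinearMap.ker (l F).linear := by rw [h4]; trivial
    rw [LinearMap.mem_ker, lin, h.cen, h.lpsi] at this
    norm_num at this
  have h4 := Submodule.finrank_lt_finrank_of_lt h3
  rw [finrank_top, finrank_euclideanSpace_fin] at h4
  have h5 := Submodule.eq_of_le_of_finrank_le h1 (by omega)
  have h6 : x - ψ F 0 ∈ LinearMap.ker (l F).linear := by
    rw [LinearMap.mem_ker, lin, hx, h.lpsi, sub_zero]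
  rw [← h5] at h6
  obtain ⟨η, h7⟩ := h6
  rw [LinearIsometry.coe_toLinearMap, lin2] at h7
  exact ⟨η, sub_left_injective h7⟩

lemma mem_Pg (h : Solid V k nF dg s cc col ψ l o nb) (F : Fin nF) {η : ℂ}
    (h1 : ∀ G, l G (ψ F η) ≤ 0) : η ∈ Pg k s := by
  intro j hj
  obtain ⟨B, h2, h3⟩ := h.half F hj
  have := h1 (nb F j)
  rw [h3] at this
  by_contra h4
  nlinarith

lemma psi_mem (h : Solid V k nF dg s cc col ψ l o nb) (F : Fin nF) {η : ℂ} (h1 : η ∈ Pg k s) :
    ψ F η ∈ convexHull ℝ V :=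
  Pg_sub h.three h.spos (W := (ψ F).toAffineMap ⁻¹' convexHull ℝ V)
    ((convex_convexHull ℝ V).affine_preimage _) (fun j => subset_convexHull ℝ V (h.mem F j)) h1

lemma ray (h : Solid V k nF dg s cc col ψ l o nb) (F : Fin nF) (x : E3) (t : ℝ) :
    l F ((1 - t) • o + t • x) = t * (l F x + 1) - 1 := by
  rw [aff_comb _ _ _ (by ring), h.cen]; ring

lemma mem_hull (h : Solid V k nF dg s cc col ψ l o nb) {x : E3} (hx : ∀ F, l F x ≤ 0) :
    x ∈ convexHull ℝ V := by
  have : Nonempty (Fin nF) := ⟨⟨0, h.nfpos⟩⟩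
  obtain ⟨F, hF⟩ := Finite.exists_max (fun F => l F x)
  by_cases h1 : 0 < l F x + 1
  · obtain ⟨η, h2⟩ := h.plane F (x := (1 - (l F x + 1)⁻¹) • o + (l F x + 1)⁻¹ • x) (by
      rw [h.ray, inv_mul_cancel₀ h1.ne', sub_self])
    have h3 := h.psi_mem F (h.mem_Pg F (η := η) (fun G => by
      rw [h2, h.ray, inv_mul_eq_div, sub_nonpos, div_le_one h1]; linarith [hF G]))
    have h4 := convex_convexHull ℝ V h.omem h3 (a := 1 - (l F x + 1)) (b := l F x + 1)
      (by linarith [hx F]) h1.le (by ring)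
    rw [h2, smul_add, smul_smul, smul_smul, mul_inv_cancel₀ h1.ne', mul_sub,
      mul_inv_cancel₀ h1.ne', one_smul, ← add_assoc, ← add_smul] at h4
    simpa using h4
  · have h2 : ∀ G, l G x = -1 := by
      intro G
      obtain ⟨G', h3⟩ := h.opp G
      linarith [h3 x, hF G, hF G']
    have lin : ∀ G a b, l G (a + (x - b)) = l G a + (l G x - l G b) := by
      intro G a b
      have := (l G).map_vadd a (x - b)
      simp only [vadd_eq_add] at this
      rw [add_comm, this, add_comm]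
      congr 1
      exact (l G).linearMap_vsub x b
    obtain ⟨η, h3⟩ := h.plane F (x := ψ F 0 + (x - o)) (by rw [lin, h2, h.cen, h.lpsi]; ring)
    have h4 : ∀ j < k, E (zt k ^ j) η = 0 := by
      intro j hj
      obtain ⟨B, h5, h6⟩ := h.half F hj
      have h7 := h6 η
      rw [h3, lin, h2, h.cen, h6, sub_self, add_zero, E_sub_right, E_sub_right] at h7
      have := mul_left_cancel₀ h5.ne h7
      simp only [E_zero_right] at this
      linarith
    have h5 := h4 0 (by linarith [h.three])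
    have h6 := h4 1 (by linarith [h.three])
    have h7 := E_zt_succ h.three 0
    simp only [E, pow_zero, one_re, one_im, zero_add, pow_one, one_mul, zero_mul, sub_zero]
      at h5 h6 h7
    rw [h5, mul_zero, zero_sub, neg_eq_zero] at h6
    have h8 : η = 0 := Complex.ext ((mul_eq_zero.1 h6).resolve_left h7.ne') h5
    rw [h8, left_eq_add, sub_eq_zero] at h3
    rw [h3]; exact h.omem

lemma front (h : Solid V k nF dg s cc col ψ l o nb) {x : E3} :
    x ∈ frontier (convexHull ℝ V) ↔ x ∈ convexHull ℝ V ∧ ∃ F, l F x = 0 := by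
  have hc := h.fin.isClosed_convexHull (𝕜 := ℝ)
  constructor
  · intro hx
    have h1 := hc.frontier_subset hx
    refine ⟨h1, ?_⟩
    by_contra h2
    push Not at h2
    apply hx.2
    rw [mem_interior_iff_mem_nhds]
    have : ∀ᶠ y in 𝓝 x, ∀ F, l F y < 0 := eventually_all.2 fun F =>
      (l F).continuous_of_finiteDimensional.continuousAt.eventually
        (gt_mem_nhds (lt_of_le_of_ne (hull_le _ (h.le F) h1) (h2 F)))
    exact this.mono fun y hy => h.mem_hull fun F => (hy F).le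
  · rintro ⟨h1, F, h2⟩
    refine ⟨subset_closure h1, fun h3 => ?_⟩
    rw [mem_interior_iff_mem_nhds] at h3
    have hc : Continuous (fun t : ℝ => (1 - t) • o + t • x) := by fun_prop
    have ht : Tendsto (fun t : ℝ => (1 - t) • o + t • x) (𝓝[>] 1) (𝓝 x) := by
      have := hc.tendsto 1
      simp only [sub_self, zero_smul, one_smul, zero_add] at this
      exact this.mono_left nhdsWithin_le_nhds
    obtain ⟨t, h4, h5⟩ := ((ht.eventually h3).and self_mem_nhdsWithin).exists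
    have := hull_le _ (h.le F) h4
    rw [h.ray, h2] at this
    have h6 : 1 < t := h5
    linarith

lemma in_face (h : Solid V k nF dg s cc col ψ l o nb) {x : E3} {F : Fin nF} :
    x ∈ ψ F '' Pg k s ↔ x ∈ convexHull ℝ V ∧ l F x = 0 := by
  constructor
  · rintro ⟨η, h1, rfl⟩
    exact ⟨h.psi_mem F h1, h.lpsi F η⟩
  · rintro ⟨h1, h2⟩
    obtain ⟨η, rfl⟩ := h.plane F h2
    exact ⟨η, h.mem_Pg F fun G => hull_le _ (h.le G) h1, rfl⟩

lemma front_eq (h : Solid V k nF dg s cc col ψ l o nb) :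
    frontier (convexHull ℝ V) = ⋃ F, ψ F '' Pg k s := by
  ext x
  simp only [h.front, mem_iUnion, h.in_face]
  exact ⟨fun ⟨h1, F, h2⟩ => ⟨F, h1, h2⟩, fun ⟨F, h1, h2⟩ => ⟨h1, F, h2⟩⟩

lemma meet (h : Solid V k nF dg s cc col ψ l o nb) {F F' : Fin nF} (hne : F ≠ F') :
    (∃ j, ∀ x ∈ convexHull ℝ V, l F x = 0 → l F' x = 0 → x = ψ F (s * cor k j)) ∨
    ∃ j < k, F' = nb F j ∧ ∀ x ∈ convexHull ℝ V, l F x = 0 → l F' x = 0 →
      x ∈ segment ℝ (ψ F (s * cor k j)) (ψ F (s * cor k (j + 1))) := by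
  have key : ∀ W : Set E3, Convex ℝ W →
      (∀ j < k, l F' (ψ F (s * cor k j)) = 0 → ψ F (s * cor k j) ∈ W) →
      ∀ x ∈ convexHull ℝ V, l F x = 0 → l F' x = 0 → x ∈ W := by
    intro W hW h1 x hx h2 h3
    have h4 := hull_face _ (fun v hv => h.le F' v hv.1) (hull_face _ (h.le F) hx h2) h3
    refine convexHull_min ?_ hW h4
    rintro v ⟨⟨h5, h6⟩, h7⟩
    obtain ⟨j, hj, rfl⟩ := h.face F v h5 h6
    exact h1 j hj h7
  have k2 : ∀ i < k, F' = nb F i → ∀ x ∈ convexHull ℝ V, l F x = 0 → l F' x = 0 →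
      x ∈ segment ℝ (ψ F (s * cor k i)) (ψ F (s * cor k (i + 1))) := by
    rintro i hi rfl
    refine key _ (convex_segment _ _) fun j hj h1 => ?_
    rcases (h.nbz F i hi j hj).1 h1 with rfl | rfl
    · exact left_mem_segment _ _ _
    · rw [cor_mod h.three]; exact right_mem_segment _ _ _
  by_cases h1 : ∃ i < k, ∃ j < k, i ≠ j ∧ l F' (ψ F (s * cor k i)) = 0 ∧
      l F' (ψ F (s * cor k j)) = 0
  · obtain ⟨i, hi, j, hj, h2, h3, h4⟩ := h1
    rcases h.two F F' hne i hi j hj h2 h3 h4 with ⟨_, h5⟩ | ⟨_, h5⟩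
    exacts [Or.inr ⟨i, hi, h5, k2 i hi h5⟩, Or.inr ⟨j, hj, h5, k2 j hj h5⟩]
  · left
    by_cases h2 : ∃ i < k, l F' (ψ F (s * cor k i)) = 0
    · obtain ⟨i, hi, h2⟩ := h2
      refine ⟨i, key {_} (convex_singleton _) fun j hj h3 => ?_⟩
      by_cases h4 : i = j
      · rw [h4]; rfl
      · exact absurd ⟨i, hi, j, hj, h4, h2, h3⟩ h1
    · exact ⟨0, key {_} (convex_singleton _) fun j hj h3 => absurd ⟨j, hj, h3⟩ h2⟩

lemma face_closed (F : Fin nF) : IsClosed (ψ F '' Pg k s) :=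
  (ψ F).isometry.isClosedEmbedding.isClosedMap _ (Pg_closed k s)

lemma vol_sum (h : Solid V k nF dg s cc col ψ l o nb) {S : Set E3} (hS : MeasurableSet S) :
    μHE[2] (frontier (convexHull ℝ V) ∩ S) = ∑ F, μHE[2] (ψ F '' Pg k s ∩ S) := by
  rw [h.front_eq, iUnion_inter, measure_iUnion₀, tsum_fintype]
  · intro F F' hne
    rw [Function.onFun, AEDisjoint]
    rcases h.meet hne with ⟨j, h1⟩ | ⟨j, _, _, h1⟩
    · refine measure_mono_null (t := ψ F '' {s * cor k j}) ?_ (by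
        rw [vol_image (ψ F).isometry, measure_singleton])
      rintro x ⟨⟨h2, _⟩, h3, _⟩
      rw [h.in_face] at h2 h3
      exact ⟨_, rfl, (h1 x h2.1 h2.2 h3.2).symm⟩
    · refine measure_mono_null (t := ψ F '' segment ℝ (s * cor k j) (s * cor k (j + 1))) ?_ (by
        rw [vol_image (ψ F).isometry, vol_segment])
      rintro x ⟨⟨h2, _⟩, h3, _⟩
      rw [h.in_face] at h2 h3
      have := image_segment ℝ (ψ F).toAffineMap (s * cor k j) (s * cor k (j + 1))
      simp only [AffineIsometry.coe_toAffineMap] at this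
      rw [this]
      exact h1 x h2.1 h2.2 h3.2
  · exact fun F => ((face_closed F).measurableSet.inter hS).nullMeasurableSet

lemma vol_total (h : Solid V k nF dg s cc col ψ l o nb) :
    μHE[2] (frontier (convexHull ℝ V)) = nF * volume (Pg k s) := by
  have := h.vol_sum MeasurableSet.univ
  simp only [inter_univ, vol_image (ψ _).isometry] at this
  rw [this]; simp

lemma dens (h : Solid V k nF dg s cc col ψ l o nb) {p : E3} (hp : p ∈ convexHull ℝ V) {θ : ℝ}
    (_h0 : 0 ≤ θ) (h1 : ∀ F η, ψ F η = p → Dens (Pg k s) η θ) : ∀ᶠ r in 𝓝[>] (0 : ℝ),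
      μHE[2] (frontier (convexHull ℝ V) ∩ ball p r) =
        ENNReal.ofReal ((Finset.univ.filter (fun F => l F p = 0)).card * θ * r ^ 2 / 2) := by
  have e1 : ∀ᶠ r in 𝓝[>] (0 : ℝ), ∀ F, μHE[2] (ψ F '' Pg k s ∩ ball p r) =
      if l F p = 0 then ENNReal.ofReal (θ * r ^ 2 / 2) else 0 := by
    refine eventually_all.2 fun F => ?_
    split_ifs with h2
    · obtain ⟨η, rfl⟩ := h.plane F h2
      filter_upwards [h1 F η rfl] with r hr
      rw [← hr, ← vol_image (ψ F).isometry, ← (ψ F).isometry.preimage_ball,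
        image_inter_preimage]
    · have : ∀ᶠ y in 𝓝 p, y ∉ ψ F '' Pg k s :=
        (face_closed F).isOpen_compl.mem_nhds fun h3 => h2 (h.in_face.1 h3).2
      filter_upwards [ev_nhds this] with r hr
      rw [eq_empty_of_forall_notMem (s := ψ F '' Pg k s ∩ ball p r)
        fun x hx => hr x hx.2 hx.1, measure_empty]
  filter_upwards [e1] with r hr
  rw [h.vol_sum measurableSet_ball, Finset.sum_congr rfl fun F _ => hr F, ← Finset.sum_filter,
    Finset.sum_const, nsmul_eq_mul, ← ENNReal.ofReal_natCast, ← ENNReal.ofReal_mul (by positivity)]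
  congr 1; ring

lemma act (h : Solid V k nF dg s cc col ψ l o nb) (F : Fin nF) (η : ℂ) {j : ℕ} (hj : j < k) :
    E (zt k ^ j) (η - s * cor k j) = 0 ↔ l (nb F j) (ψ F η) = 0 := by
  obtain ⟨B, h1, h2⟩ := h.half F hj
  rw [h2, mul_eq_zero, or_iff_right h1.ne]

theorem dens_vertex (h : Solid V k nF dg s cc col ψ l o nb) {p : E3} (hp : p ∈ V) :
    ∀ᶠ r in 𝓝[>] (0 : ℝ), μHE[2] (frontier (convexHull ℝ V) ∩ ball p r) =
      ENNReal.ofReal (dg * (π - 2 * (π / k)) * r ^ 2 / 2) := by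
  have hk' : (3 : ℝ) ≤ k := by exact_mod_cast h.three
  have h3 : π / k ≤ π / 3 := by gcongr
  rw [← h.deg p hp]
  refine h.dens (subset_convexHull _ _ hp) (by linarith [Real.pi_pos]) fun F η h1 => ?_
  obtain ⟨j, hj, h2⟩ := h.face F p hp (h1 ▸ h.lpsi F η)
  have h4 : η ∈ Pg k s := h.mem_Pg F fun G => h1 ▸ h.le G p hp
  have h5 := h.three
  refine dens_corner h.three h4 (i := prv k j) (by unfold prv; split_ifs <;> omega) fun i hi => ?_
  rw [h.act F η hi, h1, h2, h.nbz F i hi j hj]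
  have h6 : (prv k j + 1) % k = j := by
    unfold prv
    split_ifs with h6
    · rw [Nat.sub_add_cancel (by omega), Nat.mod_self, h6]
    · rw [Nat.sub_add_cancel (by omega), Nat.mod_eq_of_lt hj]
  rw [h6]
  unfold prv
  rcases mod_cases hi with ⟨h7, h8⟩ | ⟨h7, h8⟩ <;> split_ifs <;> omega

theorem dens_flat (h : Solid V k nF dg s cc col ψ l o nb) {p : E3}
    (hp : p ∈ frontier (convexHull ℝ V)) (hV : p ∉ V) :
    ∀ᶠ r in 𝓝[>] (0 : ℝ), μHE[2] (frontier (convexHull ℝ V) ∩ ball p r) =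
      ENNReal.ofReal (2 * π * r ^ 2 / 2) := by
  obtain ⟨h1, F0, h2⟩ := h.front.1 hp
  have K : ∀ F F', F ≠ F' → l F p = 0 → l F' p = 0 → ∃ j < k, F' = nb F j ∧
      ∀ i < k, l (nb F i) p = 0 ↔ i = j := by
    intro F F' hne h3 h4
    rcases h.meet hne with ⟨j, h5⟩ | ⟨j, hj, rfl, h5⟩
    · exact absurd (h5 p h1 h3 h4 ▸ h.mem F j) hV
    refine ⟨j, hj, rfl, fun i hi => ⟨fun h6 => ?_, fun h6 => h6 ▸ h4⟩⟩
    obtain ⟨a, b, ha, hb, hab, h7⟩ := h5 p h1 h3 h4
    have ha' : 0 < a := lt_of_le_of_ne ha (by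
      rintro rfl
      obtain rfl : b = 1 := by linarith
      exact hV (by rw [← h7]; simpa using h.mem F (j + 1)))
    have hb' : 0 < b := lt_of_le_of_ne hb (by
      rintro rfl
      obtain rfl : a = 1 := by linarith
      exact hV (by rw [← h7]; simpa using h.mem F j))
    rw [← h7, aff_comb _ _ _ hab] at h6
    have h8 := h.le (nb F i) _ (h.mem F j)
    have h9 := h.le (nb F i) _ (h.mem F (j + 1))
    have h10 := (h.nbz F i hi j hj).1 (by nlinarith)
    have h11 := (h.nbz F i hi _ (h.mlt (j + 1))).1 (by rw [cor_mod h.three]; nlinarith)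
    have := h.three
    rcases mod_cases hi with ⟨h12, h13⟩ | ⟨h12, h13⟩ <;>
      rcases mod_cases hj with ⟨h14, h15⟩ | ⟨h14, h15⟩ <;> omega
  by_cases h3 : ∀ F, l F p = 0 → F = F0
  · have h4 : Finset.univ.filter (fun F => l F p = 0) = {F0} := by
      ext F
      simp only [Finset.mem_filter, Finset.mem_univ, true_and, Finset.mem_singleton]
      exact ⟨h3 F, fun h5 => h5 ▸ h2⟩
    have := h.dens h1 (θ := 2 * π) (by positivity) fun F η h5 => by
      obtain rfl := h3 F (h5 ▸ h.lpsi F η)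
      refine dens_in (h.mem_Pg F fun G => h5 ▸ hull_le _ (h.le G) h1) fun j hj h6 => ?_
      rw [h.act F η hj, h5] at h6
      exact h.nb_ne F hj (h3 _ h6)
    simpa [h4] using this
  · push Not at h3
    obtain ⟨F1, h3, h4⟩ := h3
    obtain ⟨j, hj, h5, h6⟩ := K F0 F1 h4.symm h2 h3
    have h7 : Finset.univ.filter (fun F => l F p = 0) = {F0, F1} := by
      ext F
      simp only [Finset.mem_filter, Finset.mem_univ, true_and, Finset.mem_insert,
        Finset.mem_singleton]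
      refine ⟨fun h7 => ?_, fun h7 => by rcases h7 with rfl | rfl; exacts [h2, h3]⟩
      by_contra h8
      push Not at h8
      obtain ⟨i, hi, h9, _⟩ := K F0 F h8.1.symm h2 h7
      exact h8.2 (by rw [h9, h5, (h6 i hi).1 (h9 ▸ h7)])
    have := h.dens h1 (θ := π) (by positivity) fun F η h8 => by
      have h9 : l F p = 0 := h8 ▸ h.lpsi F η
      obtain ⟨i, hi, h10⟩ : ∃ i < k, ∀ a < k, l (nb F a) p = 0 ↔ a = i := by
        by_cases h10 : F = F0
        · exact ⟨j, hj, h10 ▸ h6⟩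
        · obtain ⟨i, hi, _, h11⟩ := K F F0 h10 h9 h2
          exact ⟨i, hi, h11⟩
      refine dens_edge (h.mem_Pg F fun G => h8 ▸ hull_le _ (h.le G) h1) hi fun a ha => ?_
      rw [h.act F η ha, h8, h10 a ha]
    rw [h7, Finset.card_pair h4.symm] at this
    simpa using this

end Solid

end

end Pool.Agent.Lib.MP_f2d99b_co
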