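import Pool.Agent.Lib.MP_f2d99b_co.Core

namespace Pool.Agent.Lib.MP_f2d99b_co

noncomputable section

open Finset Complex

/-- The closed polygon `w` is a subdivision of the closed polygon `z`. -/
structure Refines (m : ℕ) (z : ℕ → ℂ) (M : ℕ) (w : ℕ → ℂ) (ι : ℕ → ℕ) : Prop where
  pos : 0 < m
  mono : ∀ i < m, ι i < ι (i + 1)
  zero : ι 0 = 0
  last : ι m = M
  pt : ∀ i ≤ m, w (ι i) = z i
  ne : ∀ i < m, z (i + 1) ≠ z i
  dirs : ∀ i < m, ∀ k, ι i ≤ k → k < ι (i + 1) →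
    ∃ t : ℝ, 0 < t ∧ w (k + 1) - w k = t * (z (i + 1) - z i)

namespace Refines

variable {m M : ℕ} {z w : ℕ → ℂ} {ι : ℕ → ℕ}

lemma lt (h : Refines m z M w ι) {i j : ℕ} (hij : i < j) (hj : j ≤ m) : ι i < ι j := by
  induction j with
  | zero => omega
  | succ j ih =>
    have := h.mono j (by omega)
    rcases eq_or_lt_of_le (Nat.le_of_lt_succ hij) with rfl | h1
    · exact this
    · exact (ih h1 (by omega)).trans this

lemma le (h : Refines m z M w ι) {i j : ℕ} (hij : i ≤ j) (hj : j ≤ m) : ι i ≤ ι j := by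
  rcases eq_or_lt_of_le hij with rfl | h1
  · rfl
  · exact (h.lt h1 hj).le

lemma inj (h : Refines m z M w ι) {i j : ℕ} (hi : i ≤ m) (hj : j ≤ m) (he : ι i = ι j) : i = j := by
  rcases lt_trichotomy i j with h1 | h1 | h1
  · have := h.lt h1 hj; omega
  · exact h1
  · have := h.lt h1 hi; omega

lemma ltM (h : Refines m z M w ι) {i : ℕ} (hi : i < m) : ι i < M := h.last ▸ h.lt hi le_rfl

lemma loc (h : Refines m z M w ι) {k : ℕ} (hk : k < M) : ∃ i < m, ι i ≤ k ∧ k < ι (i + 1) := by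
  have ex : ∃ j, k < ι j ∧ j ≤ m := ⟨m, by rw [h.last]; exact hk, le_rfl⟩
  have h1 := Nat.find_spec ex
  rcases h2 : Nat.find ex with _ | i
  · rw [h2, h.zero] at h1; omega
  · rw [h2] at h1
    have := Nat.find_min ex (m := i) (by omega)
    exact ⟨i, by omega, by omega, h1.1⟩

lemma dir_eq (h : Refines m z M w ι) {i k : ℕ} (hi : i < m) (h1 : ι i ≤ k) (h2 : k < ι (i + 1)) :
    dir w k = dir z i := by
  obtain ⟨t, ht, h3⟩ := h.dirs i hi k h1 h2
  have : ((‖z (i + 1) - z i‖ : ℝ) : ℂ) ≠ 0 := by simpa [sub_eq_zero] using h.ne i hi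
  have h4 : (t : ℂ) ≠ 0 := by exact_mod_cast ht.ne'
  unfold dir
  rw [h3, norm_mul, Complex.norm_real, Real.norm_of_nonneg ht.le]
  push_cast
  field_simp

lemma turn_pt (h : Refines m z M w ι) {i : ℕ} (hi : i < m) : turn M w (ι i) = turn m z i := by
  unfold turn
  rw [h.dir_eq hi le_rfl (h.mono i hi)]
  congr 1
  rcases i with _ | i
  · have h1 := h.pos
    have h2 := h.mono (m - 1) (by omega)
    rw [Nat.sub_add_cancel h1, h.last] at h2
    rw [h.zero, prv, prv, if_pos rfl, if_pos rfl]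
    exact h.dir_eq (by omega) (by omega) (by rw [Nat.sub_add_cancel h1, h.last]; omega)
  · have h2 := h.mono i (by omega)
    rw [prv, prv, if_neg (by omega), if_neg (by omega), Nat.add_sub_cancel]
    exact h.dir_eq (by omega) (by omega) (by omega)

lemma turn_off (h : Refines m z M w ι) {k : ℕ} (hk : k < M) (hn : ∀ i < m, ι i ≠ k) :
    turn M w k = 1 := by
  obtain ⟨i, hi, h1, h2⟩ := h.loc hk
  have h3 := hn i hi
  unfold turn
  rw [prv, if_neg (by omega), h.dir_eq hi h1 h2, h.dir_eq hi (by omega) (by omega),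
    div_self (dir_ne (h.ne i hi))]

lemma shoe_step (h : Refines m z M w ι) {i : ℕ} (hi : i < m) (n : ℕ) (hn : ι i + n ≤ ι (i + 1)) :
    ∃ t : ℝ, w (ι i + n) = z i + t * (z (i + 1) - z i) ∧
      shoe (ι i + n) w = shoe (ι i) w + E (z i) (w (ι i + n)) := by
  induction n with
  | zero => exact ⟨0, by simp [h.pt i hi.le], by simp [h.pt i hi.le]⟩
  | succ n ih =>
    obtain ⟨t, h1, h2⟩ := ih (by omega)
    obtain ⟨u, _, h3⟩ := h.dirs i hi (ι i + n) (by omega) (by omega)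
    have h4 : w (ι i + n + 1) = z i + (t + u : ℝ) * (z (i + 1) - z i) := by
      push_cast; linear_combination h1 + h3
    refine ⟨t + u, h4, ?_⟩
    rw [← add_assoc, shoe, sum_range_succ, ← shoe, h2, h4, h1]
    simp only [E, sub_re, sub_im, add_re, add_im, mul_re, mul_im, ofReal_re, ofReal_im]
    ring

lemma shoe_eq (h : Refines m z M w ι) : shoe M w = shoe m z := by
  have : ∀ i ≤ m, shoe (ι i) w = shoe i z := by
    intro i hi
    induction i with
    | zero => simp [shoe, h.zero]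
    | succ i ih =>
      have h1 := h.mono i (by omega)
      obtain ⟨t, _, h2⟩ := h.shoe_step (i := i) (by omega) (ι (i + 1) - ι i) (by omega)
      rw [Nat.add_sub_cancel' h1.le] at h2
      rw [h2, ih (by omega), h.pt _ hi, shoe, shoe, sum_range_succ]
  rw [← h.last, this m le_rfl]

lemma walk_eq (h : Refines m z M w ι) {α αf : ℕ → ℂ} (h1 : ∀ i < m, αf (ι i) = α i)
    (h2 : ∀ k, (∀ i < m, ι i ≠ k) → αf k = 1) (a n : ℕ) (hn : a + n ≤ m) (o : ℂ) :
    walk w αf (ι a) (ι (a + n) - ι a) o = walk z α a n o ∧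
      ar w αf (ι a) (ι (a + n) - ι a) o = ar z α a n o := by
  induction n with
  | zero => simp
  | succ n ih =>
    obtain ⟨h3, h4⟩ := ih (by omega)
    have h5 := h.mono (a + n) (by omega)
    have h6 := h.le (i := a) (j := a + n) (by omega) (by omega)
    have e : ι (a + (n + 1)) - ι a = (ι (a + n) - ι a) + 1 + (ι (a + n + 1) - ι (a + n) - 1) := by
      rw [← add_assoc]; omega
    have e2 : ι a + (ι (a + n) - ι a) = ι (a + n) := by omega
    have h7 := fun o => walk_ones w (α := αf) (k := ι a + ((ι (a + n) - ι a) + 1))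
      (n := ι (a + n + 1) - ι (a + n) - 1) (fun j h7 h8 => h2 j (fun i hi h9 => by
        rcases le_or_gt i (a + n) with h10 | h10
        · have := h.le h10 (by omega); omega
        · have := h.le (i := a + n + 1) h10 hi.le; omega)) o
    rw [e, walk_add, ar_add, (h7 _).1, (h7 _).2, add_zero, ar_succ, ar_succ, walk_succ, walk_succ,
      h3, h4, e2, h1 _ (by omega), h.pt _ (by omega)]
    exact ⟨rfl, rfl⟩

end Refines

open Classical in
theorem side_of_glue {X : Type} {m M : ℕ} {z w : ℕ → ℂ} {ι π : ℕ → ℕ} {p : ℕ → X}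
    (hR : Refines m z M w ι) (hG : Glue M w π p) (V : Set X) {χ : ℂ} (hχ : χ ^ 2 ≠ 1)
    (hχ1 : ‖χ‖ = 1)
    (hang : ∀ a < M, ∏ l ∈ (range M).filter (fun l => p a = p l), (-turn M w l) =
      if p a ∈ V then χ else 1) (hV : ∀ v ∈ V, ∃ l < M, p l = v) :
    ∃ α r, Side m z (turn m z) α r ∧ (∀ j, α j = 1 ∨ α j = χ) ∧ ar z α 0 m 0 = shoe m z ∧
      Set.BijOn (fun i => p (ι i)) {i | i < m ∧ α i ≠ 1} V := by
  have hχ0 : χ ≠ 1 := by rintro rfl; simp at hχ
  set α : ℕ → ℂ := fun i => if i < m ∧ p (ι i) ∈ V ∧ ∀ j < i, p (ι j) ≠ p (ι i) then χ else 1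
    with hα
  set αf : ℕ → ℂ := fun k => if ∃ i < m, ι i = k ∧ α i ≠ 1 then χ else 1 with hαf
  have val : ∀ j, α j = 1 ∨ α j = χ := fun j => by
    simp only [hα]; split_ifs <;> simp
  have valf : ∀ j, ‖αf j‖ = 1 := fun j => by
    simp only [hαf]; split_ifs <;> simp [hχ1]
  have iff1 : ∀ i, α i ≠ 1 ↔ i < m ∧ p (ι i) ∈ V ∧ ∀ j < i, p (ι j) ≠ p (ι i) := fun i => by
    simp only [hα]; split_ifs with h1
    · exact ⟨fun _ => h1, fun _ => hχ0⟩
    · exact ⟨fun h2 => absurd rfl h2, fun h2 => absurd h2 h1⟩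
  have f1 : ∀ i < m, αf (ι i) = α i := by
    intro i hi
    simp only [hαf]
    split_ifs with h1
    · obtain ⟨j, hj, h2, h3⟩ := h1
      rw [hR.inj hj.le hi.le h2] at h3
      exact ((val i).resolve_left h3).symm
    · by_contra h2
      exact h1 ⟨i, hi, rfl, fun h3 => h2 h3.symm⟩
  have f2 : ∀ k, (∀ i < m, ι i ≠ k) → αf k = 1 := by
    intro k hk
    simp only [hαf]
    rw [if_neg]
    rintro ⟨i, hi, h1, _⟩
    exact hk i hi h1
  have ex : ∀ v ∈ V, ∃ i, (i < m ∧ α i ≠ 1) ∧ p (ι i) = v := by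
    intro v hv
    obtain ⟨a, ha, rfl⟩ := hV v hv
    have h1 : ∃ i, i < m ∧ p (ι i) = p a := by
      by_contra h1
      push Not at h1
      have h2 := hang a ha
      rw [if_pos hv, prod_congr rfl (g := fun _ => -1) (fun l hl => by
        obtain ⟨h3, h4⟩ := mem_filter.1 hl
        rw [hR.turn_off (mem_range.1 h3) (fun i hi h5 => h1 i hi (by rw [h5, h4]))]),
        prod_const] at h2
      apply hχ
      rw [← h2, ← pow_mul, mul_comm, pow_mul]; simp
    have h2 := Nat.find_spec h1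
    refine ⟨Nat.find h1, ⟨h2.1, (iff1 _).2 ⟨h2.1, by rw [h2.2]; exact hv, fun j hj h3 => ?_⟩⟩, h2.2⟩
    exact Nat.find_min h1 hj ⟨by omega, h3.trans h2.2⟩
  have uniq : ∀ i j, α i ≠ 1 → α j ≠ 1 → p (ι i) = p (ι j) → i = j := by
    intro i j hi hj he
    rcases lt_trichotomy i j with h1 | h1 | h1
    · exact absurd he (((iff1 j).1 hj).2.2 i h1)
    · exact h1
    · exact absurd he.symm (((iff1 i).1 hi).2.2 j h1)
  have ang : Ang M w p αf := by
    intro a ha
    rw [prod_div_distrib, hang a ha]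
    split_ifs with hv
    · obtain ⟨i, ⟨hi, h1⟩, h2⟩ := ex _ hv
      rw [prod_eq_single_of_mem (ι i) (mem_filter.2 ⟨mem_range.2 (hR.ltM hi), h2.symm⟩), f1 i hi,
        (val i).resolve_left h1, div_self (by rintro rfl; simp at hχ1)]
      intro l hl h3
      by_contra h4
      simp only [hαf] at h4
      split_ifs at h4 with h5
      · obtain ⟨j, hj, rfl, h6⟩ := h5
        exact h3 (by rw [uniq j i h6 h1 ((mem_filter.1 hl).2.symm.trans h2.symm)])
      · exact h4 rfl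
    · rw [prod_eq_one, div_one]
      intro l hl
      simp only [hαf]
      rw [if_neg]
      rintro ⟨j, hj, rfl, h6⟩
      exact hv ((mem_filter.1 hl).2 ▸ ((iff1 j).1 h6).2.1)
  have tr := fun o => hR.walk_eq f1 f2 0 m (by omega) o
  simp only [zero_add, hR.zero, hR.last, Nat.sub_zero] at tr
  refine ⟨α, fun a b => a = b ∨ (a < m ∧ b < m ∧ p (ι a) = p (ι b)),
    ⟨⟨fun _ => Or.inl rfl, ?_, ?_⟩, ?_, ?_, ?_, ?_, ?_, ?_⟩, val, ?_, ?_, ?_, ?_⟩
  · rintro a b (rfl | ⟨h1, h2, h3⟩)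
    exacts [Or.inl rfl, Or.inr ⟨h2, h1, h3.symm⟩]
  · rintro a b c (rfl | ⟨h1, h2, h3⟩) (rfl | ⟨h4, h5, h6⟩)
    exacts [Or.inl rfl, Or.inr ⟨h4, h5, h6⟩, Or.inr ⟨h1, h2, h3⟩, Or.inr ⟨h1, h5, h3.trans h6⟩]
  · rintro a b c d h1 h2 h3 (rfl | ⟨h4, h5, h6⟩) (rfl | ⟨h7, h8, h9⟩)
    · omega
    · omega
    · omega
    · exact Or.inr ⟨h4, h7, hG.nc (hR.lt h1 h7.le) (hR.lt h2 h5.le) (hR.lt h3 h8.le)
        (hR.ltM h8).le h6 h9⟩
  · intro j
    rcases val j with h1 | h1 <;> simp [h1, hχ1]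
  · intro j hj
    by_contra h1
    have := ((iff1 j).1 h1).1
    omega
  · rintro a ha b hb hab (rfl | ⟨h1, h2, h3⟩)
    · simp
    · have h4 := (hR.walk_eq f1 f2 a (b - a) (by omega) (z a)).1
      rw [← h4, Nat.add_sub_cancel' hab, ← hR.pt a h1.le, ← hR.pt b h2.le]
      exact hG.hol ang valf (hR.le hab h2.le) (hR.ltM h2).le h3
  · intro o
    rw [← (tr o).1]; exact hG.tot ang valf o
  · intro k hk
    have h1 := ang (ι k) (hR.ltM hk)
    have h2 : (∏ l ∈ (range M).filter (fun l => p (ι k) = p l), (-turn M w l / αf l) ^ 2) = 1 := by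
      rw [prod_pow, h1, one_pow]
    rw [← h2, filter_congr_decidable]
    refine prod_bij_ne_one (fun l _ _ => ι l) ?_ ?_ ?_ ?_
    · intro l hl _
      obtain ⟨h3, h4⟩ := mem_filter.1 hl
      refine mem_filter.2 ⟨mem_range.2 (hR.ltM (mem_range.1 h3)), ?_⟩
      rcases h4 with rfl | h4
      exacts [rfl, h4.2.2]
    · intro a ha _ b hb _ he
      exact hR.inj (mem_range.1 (mem_filter.1 ha).1).le (mem_range.1 (mem_filter.1 hb).1).le he
    · intro l hl h3
      obtain ⟨h4, h5⟩ := mem_filter.1 hl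
      have h6 : ∃ i < m, ι i = l := by
        by_contra h6
        push Not at h6
        rw [hR.turn_off (mem_range.1 h4) h6, f2 l h6] at h3
        norm_num at h3
      obtain ⟨i, hi, rfl⟩ := h6
      refine ⟨i, mem_filter.2 ⟨mem_range.2 hi, Or.inr ⟨hk, hi, h5⟩⟩, ?_, rfl⟩
      rwa [hR.turn_pt hi, f1 i hi, neg_div, neg_sq] at h3
    · intro l hl _
      have hl' := mem_range.1 (mem_filter.1 hl).1
      rw [hR.turn_pt hl', f1 l hl', neg_div, neg_sq]
  · rw [← (tr 0).2, hG.ar_shoe ang valf, hR.shoe_eq]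
  · intro i hi
    exact ((iff1 i).1 hi.2).2.1
  · intro i hi j hj he
    exact uniq i j hi.2 hj.2 he
  · intro v hv
    obtain ⟨i, h1, h2⟩ := ex v hv
    exact ⟨i, h1, h2⟩

end

end Pool.Agent.Lib.MP_f2d99b_co
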