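import Pool.Agent.Lib.MP_f2d99b_co.Measure

namespace Pool.Agent.Lib.MP_f2d99b_co

noncomputable section

open Set Metric Filter Topology

lemma seg_closed (a b : E3) : IsClosed (segment ℝ a b) := by
  rw [segment_eq_image']
  exact (isCompact_Icc.image (by fun_prop)).isClosed

/-- A point of a tree cuts it into two closed pieces which near the point are opposite rays. -/
def Cut (T : Set E3) (q : E3) : Prop :=
  ∃ (T1 T2 : Set E3) (D : E3), D ≠ 0 ∧ IsClosed T1 ∧ IsClosed T2 ∧ T ⊆ T1 ∪ T2 ∧ T1 ∩ T2 ⊆ {q} ∧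
    ∀ᶠ y in 𝓝 q, (y ∈ T1 → ∃ δ : ℝ, 0 ≤ δ ∧ y = q + δ • D) ∧
      (y ∈ T2 → ∃ δ : ℝ, 0 ≤ δ ∧ y = q + (-δ) • D)

theorem tree_cut {T : Set E3} (h : IsSegTree T) :
    ∃ N : Set E3, N.Finite ∧ ∀ q ∈ T, q ∉ N → Cut T q := by
  obtain ⟨n, G, x, hT, hx, hG, rfl⟩ := h
  refine ⟨range x, finite_range x, fun q hq hN => ?_⟩
  simp only [mem_iUnion] at hq
  obtain ⟨a, b, hab, hq⟩ := hq
  have hbr : ¬ (G.deleteEdges {s(a, b)}).Reachable a b :=
    SimpleGraph.isAcyclic_iff_forall_adj_isBridge.1 hT.isAcyclic hab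
  set G' := G.deleteEdges {s(a, b)} with hG'
  have adj : ∀ c d, G'.Adj c d ↔ G.Adj c d ∧ s(c, d) ≠ s(a, b) := by
    intro c d; simp [hG']
  have hq' := hq
  rw [segment_eq_image'] at hq'
  obtain ⟨t, ⟨ht0, ht1⟩, hqt⟩ := hq'
  simp only at hqt
  have ht0' : 0 < t := lt_of_le_of_ne ht0 (by rintro rfl; exact hN ⟨a, by simpa using hqt⟩)
  have ht1' : t < 1 := lt_of_le_of_ne ht1 (by rintro rfl; exact hN ⟨b, by simpa using hqt⟩)
  have hD : x a - x b ≠ 0 := sub_ne_zero.2 (fun h => hab.ne (hx h))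
  have ea : x a = q + t • (x a - x b) := by rw [← hqt]; module
  have eb : x b = q + (-(1 - t)) • (x a - x b) := by rw [← hqt]; module
  have r1 : ∀ y ∈ segment ℝ q (x a), ∃ δ : ℝ, 0 ≤ δ ∧ y = q + δ • (x a - x b) := by
    intro y hy
    rw [segment_eq_image'] at hy
    obtain ⟨s, ⟨h1, _⟩, rfl⟩ := hy
    refine ⟨s * t, by positivity, ?_⟩
    simp only
    rw [mul_smul, ← add_sub_cancel_left q (t • _), ← ea]
  have r2 : ∀ y ∈ segment ℝ q (x b), ∃ δ : ℝ, 0 ≤ δ ∧ y = q + (-δ) • (x a - x b) := by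
    intro y hy
    rw [segment_eq_image'] at hy
    obtain ⟨s, ⟨h1, _⟩, rfl⟩ := hy
    refine ⟨s * (1 - t), by have := sub_pos.2 ht1'; positivity, ?_⟩
    simp only
    rw [← mul_neg, mul_smul, ← add_sub_cancel_left q ((-(1 - t)) • _), ← eb]
  have un : ∀ δ δ' : ℝ, q + δ • (x a - x b) = q + δ' • (x a - x b) → δ = δ' :=
    fun δ δ' h => smul_left_injective ℝ hD (add_left_cancel h)
  set K : (Fin n → Prop) → Fin n × Fin n → Set E3 := fun R e =>
    ⋃ (_ : G'.Adj e.1 e.2 ∧ R e.1), segment ℝ (x e.1) (x e.2) with hK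
  have Kc : ∀ R e, IsClosed (K R e) := fun R e =>
    isClosed_iUnion_of_finite (fun _ => seg_closed _ _)
  have memK : ∀ R y, y ∈ ⋃ e, K R e ↔ ∃ c d, G'.Adj c d ∧ R c ∧ y ∈ segment ℝ (x c) (x d) := by
    intro R y
    simp only [hK, mem_iUnion, Prod.exists]
    exact ⟨fun ⟨c, d, ⟨h1, h2⟩, h3⟩ => ⟨c, d, h1, h2, h3⟩, fun ⟨c, d, h1, h2, h3⟩ =>
      ⟨c, d, ⟨h1, h2⟩, h3⟩⟩
  have sa : segment ℝ q (x a) ⊆ segment ℝ (x a) (x b) :=
    (convex_segment _ _).segment_subset hq (left_mem_segment _ _ _)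
  have sb : segment ℝ q (x b) ⊆ segment ℝ (x a) (x b) :=
    (convex_segment _ _).segment_subset hq (right_mem_segment _ _ _)
  have rd : ∀ c d, G'.Adj c d → (G'.Reachable a c ↔ G'.Reachable a d) := fun c d h =>
    ⟨fun h1 => h1.trans h.reachable, fun h1 => h1.trans h.symm.reachable⟩
  refine ⟨segment ℝ q (x a) ∪ ⋃ e, K (fun c => G'.Reachable a c) e,
    segment ℝ q (x b) ∪ ⋃ e, K (fun c => ¬ G'.Reachable a c) e, x a - x b, hD,
    (seg_closed _ _).union (isClosed_iUnion_of_finite (Kc (fun c => G'.Reachable a c))),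
    (seg_closed _ _).union (isClosed_iUnion_of_finite (Kc (fun c => ¬ G'.Reachable a c))),
    ?_, ?_, ?_⟩
  · intro y hy
    simp only [mem_iUnion] at hy
    obtain ⟨c, d, hcd, hy⟩ := hy
    by_cases h1 : s(c, d) = s(a, b)
    · have h2 : y ∈ segment ℝ (x a) (x b) := by
        rcases Sym2.eq_iff.1 h1 with ⟨rfl, rfl⟩ | ⟨rfl, rfl⟩
        · exact hy
        · rwa [segment_symm]
      rw [segment_eq_image'] at h2
      obtain ⟨s, ⟨h3, h4⟩, rfl⟩ := h2
      rcases le_total s t with h5 | h5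
      · refine Or.inl (Or.inl ?_)
        rw [segment_eq_image']
        refine ⟨(t - s) / t, ⟨by have := sub_nonneg.2 h5; positivity,
          by rw [div_le_one ht0']; linarith⟩, ?_⟩
        simp only
        rw [← hqt, sub_add_cancel_left, smul_neg, smul_smul, div_mul_cancel₀ _ ht0'.ne']
        module
      · refine Or.inr (Or.inl ?_)
        have h6 := sub_pos.2 ht1'
        rw [segment_eq_image']
        refine ⟨(s - t) / (1 - t), ⟨by have := sub_nonneg.2 h5; positivity,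
          by rw [div_le_one h6]; linarith⟩, ?_⟩
        simp only
        rw [← hqt, show x b - (x a + t • (x b - x a)) = (1 - t) • (x b - x a) by module, smul_smul,
          div_mul_cancel₀ _ h6.ne']
        module
    · by_cases h2 : G'.Reachable a c
      · exact Or.inl (Or.inr ((memK _ _).2 ⟨c, d, (adj c d).2 ⟨hcd, h1⟩, h2, hy⟩))
      · exact Or.inr (Or.inr ((memK (fun c => ¬ G'.Reachable a c) _).2 ⟨c, d, (adj c d).2 ⟨hcd, h1⟩, h2, hy⟩))
  · rintro y ⟨h1 | h1, h2 | h2⟩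
    · obtain ⟨δ, h3, h4⟩ := r1 y h1
      obtain ⟨δ', h5, h6⟩ := r2 y h2
      have := un _ _ (h4.symm.trans h6)
      rw [h4, show δ = 0 by linarith]; simp
    · exfalso
      obtain ⟨c, d, h3, h4, h5⟩ := (memK (fun c => ¬ G'.Reachable a c) _).1 h2
      obtain ⟨e, ⟨h6, h7⟩, rfl⟩ := hG a b c d hab ((adj c d).1 h3).1 ((adj c d).1 h3).2.symm
        ⟨sa h1, h5⟩
      have h8 : ¬ G'.Reachable a e := by
        rcases h7 with rfl | rfl
        exacts [h4, fun h => h4 ((rd _ _ h3).2 h)]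
      rcases h6 with rfl | rfl
      · exact h8 (SimpleGraph.Reachable.refl _)
      · obtain ⟨δ, h9, h10⟩ := r1 _ h1
        have := un _ _ (eb.symm.trans h10)
        linarith
    · exfalso
      obtain ⟨c, d, h3, h4, h5⟩ := (memK _ _).1 h1
      obtain ⟨e, ⟨h6, h7⟩, rfl⟩ := hG a b c d hab ((adj c d).1 h3).1 ((adj c d).1 h3).2.symm
        ⟨sb h2, h5⟩
      have h8 : G'.Reachable a e := by
        rcases h7 with rfl | rfl
        exacts [h4, (rd _ _ h3).1 h4]
      rcases h6 with rfl | rfl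
      · obtain ⟨δ, h9, h10⟩ := r2 _ h2
        have := un _ _ (ea.symm.trans h10)
        linarith
      · exact hbr h8
    · exfalso
      obtain ⟨c, d, h3, h4, h5⟩ := (memK _ _).1 h1
      obtain ⟨c', d', h3', h4', h5'⟩ := (memK (fun c => ¬ G'.Reachable a c) _).1 h2
      have h6 : G'.Reachable a d := (rd _ _ h3).1 h4
      have h6' : ¬ G'.Reachable a d' := fun h => h4' ((rd _ _ h3').2 h)
      obtain ⟨e, ⟨h7, h8⟩, rfl⟩ := hG c d c' d' ((adj _ _).1 h3).1 ((adj _ _).1 h3').1 (by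
        intro h
        rcases Sym2.eq_iff.1 h with ⟨rfl, rfl⟩ | ⟨rfl, rfl⟩
        exacts [h4' h4, h4' h6]) ⟨h5, h5'⟩
      rcases h7 with rfl | rfl <;> rcases h8 with rfl | rfl
      exacts [h4' h4, h6' h4, h4' h6, h6' h6]
  · have nq : ∀ R e, q ∉ K R e := by
      intro R e he
      obtain ⟨c, d, h3, _, h5⟩ := (memK R _).1 (mem_iUnion.2 ⟨e, he⟩)
      obtain ⟨e, _, h6⟩ := hG a b c d hab ((adj c d).1 h3).1 ((adj c d).1 h3).2.symm ⟨hq, h5⟩
      exact hN ⟨e, h6⟩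
    filter_upwards [ev_closed _ (Kc (fun c => G'.Reachable a c)) q,
      ev_closed _ (Kc (fun c => ¬ G'.Reachable a c)) q] with y h1 h2
    constructor
    · rintro (h3 | h3)
      · exact r1 y h3
      · obtain ⟨e, he⟩ := mem_iUnion.1 h3
        exact absurd (h1 e he) (nq _ e)
    · rintro (h3 | h3)
      · exact r2 y h3
      · obtain ⟨e, he⟩ := mem_iUnion.1 h3
        exact absurd (h2 e he) (nq (fun c => ¬ G'.Reachable a c) e)

end

end Pool.Agent.Lib.MP_f2d99b_co
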