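import Mathlib

namespace Pool.Agent.Lib.MP_f2d99b_co

noncomputable section

/-- Twice the signed area spanned by two plane vectors. -/
def E (a b : ℂ) : ℝ := a.re * b.im - a.im * b.re

def rot (c χ x : ℂ) : ℂ := c + χ * (x - c)

def walk (z α : ℕ → ℂ) (k : ℕ) : ℕ → ℂ → ℂ
  | 0, o => o
  | n + 1, o => rot (z (k + n)) (α (k + n)) (walk z α k n o)

def ar (z α : ℕ → ℂ) (k : ℕ) : ℕ → ℂ → ℝ
  | 0, _ => 0
  | n + 1, o => ar z α k n o +
      (E (walk z α k n o) (z (k + n)) + E (z (k + n)) (walk z α k (n + 1) o))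

@[simp] lemma walk_zero (z α : ℕ → ℂ) (k : ℕ) (o : ℂ) : walk z α k 0 o = o := rfl
lemma walk_succ (z α : ℕ → ℂ) (k n : ℕ) (o : ℂ) :
    walk z α k (n + 1) o = rot (z (k + n)) (α (k + n)) (walk z α k n o) := rfl
@[simp] lemma ar_zero (z α : ℕ → ℂ) (k : ℕ) (o : ℂ) : ar z α k 0 o = 0 := rfl
lemma ar_succ (z α : ℕ → ℂ) (k n : ℕ) (o : ℂ) : ar z α k (n + 1) o = ar z α k n o +
      (E (walk z α k n o) (z (k + n)) + E (z (k + n)) (walk z α k (n + 1) o)) := rfl

@[simp] lemma rot_self (c χ : ℂ) : rot c χ c = c := by simp [rot]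
@[simp] lemma rot_one (c x : ℂ) : rot c 1 x = x := by simp [rot]
lemma rot_rot (c χ ψ x : ℂ) : rot c χ (rot c ψ x) = rot c (χ * ψ) x := by unfold rot; ring
lemma rot_conj (c γ p χ x : ℂ) : rot (rot c γ p) χ (rot c γ x) = rot c γ (rot p χ x) := by
  unfold rot; ring

lemma E_swap (a b : ℂ) : E a b = - E b a := by unfold E; ring
@[simp] lemma E_self (a : ℂ) : E a a = 0 := by unfold E; ring
@[simp] lemma E_zero_left (a : ℂ) : E 0 a = 0 := by simp [E]
@[simp] lemma E_zero_right (a : ℂ) : E a 0 = 0 := by simp [E]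

lemma normSq_of_norm {χ : ℂ} (h : ‖χ‖ = 1) : χ.re ^ 2 + χ.im ^ 2 = 1 := by
  have := Complex.sq_norm χ
  rw [h, Complex.normSq_apply] at this
  nlinarith

lemma E_mul (u a b : ℂ) : E (u * a) (u * b) = ‖u‖ ^ 2 * E a b := by
  rw [Complex.sq_norm, Complex.normSq_apply]
  simp only [E, Complex.mul_re, Complex.mul_im]; ring

lemma E_affine (t u a b : ℂ) :
    E (t + u * a) (t + u * b) = ‖u‖ ^ 2 * E a b + (E t (u * b) - E t (u * a)) := by
  rw [Complex.sq_norm, Complex.normSq_apply]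
  simp only [E, Complex.mul_re, Complex.mul_im, Complex.add_re, Complex.add_im]; ring

lemma walk_add (z α : ℕ → ℂ) (k n p : ℕ) (o : ℂ) :
    walk z α k (n + p) o = walk z α (k + n) p (walk z α k n o) := by
  induction p with
  | zero => rfl
  | succ p ih => rw [← add_assoc, walk_succ, walk_succ, ih, add_assoc]

lemma ar_add (z α : ℕ → ℂ) (k n p : ℕ) (o : ℂ) :
    ar z α k (n + p) o = ar z α k n o + ar z α (k + n) p (walk z α k n o) := by
  induction p with
  | zero => simp
  | succ p ih =>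
    rw [← add_assoc, ar_succ, ar_succ, ih, walk_add, add_assoc n p 1, walk_add, add_assoc k n p]
    ring

lemma walk_congr {z α z' α' : ℕ → ℂ} {k n : ℕ}
    (h : ∀ j, k ≤ j → j < k + n → α j = α' j ∧ (α j ≠ 1 → z j = z' j)) (o : ℂ) :
    walk z α k n o = walk z' α' k n o := by
  induction n with
  | zero => rfl
  | succ n ih =>
    rw [walk_succ, walk_succ, ih (fun j h1 h2 => h j h1 (by omega))]
    obtain ⟨h1, h2⟩ := h (k + n) (by omega) (by omega)
    by_cases h3 : α (k + n) = 1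
    · rw [← h1, h3, rot_one, rot_one]
    · rw [← h1, h2 h3]

lemma ar_congr {z α z' α' : ℕ → ℂ} {k n : ℕ}
    (h : ∀ j, k ≤ j → j < k + n → α j = α' j ∧ (α j ≠ 1 → z j = z' j)) (o : ℂ) :
    ar z α k n o = ar z' α' k n o := by
  induction n with
  | zero => rfl
  | succ n ih =>
    rw [ar_succ, ar_succ, ih (fun j h1 h2 => h j h1 (by omega)), walk_congr h,
      walk_congr (fun j h1 h2 => h j h1 (by omega))]
    obtain ⟨h1, h2⟩ := h (k + n) (by omega) (by omega)
    by_cases h3 : α (k + n) = 1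
    · rw [walk_succ, ← h1, h3, rot_one, E_swap (z _), E_swap (z' _)]; ring
    · rw [h2 h3]

/-- affine change of coordinates -/
lemma walk_affine (z α : ℕ → ℂ) (t u : ℂ) (k n : ℕ) (o : ℂ) :
    walk (fun j => t + u * z j) α k n (t + u * o) = t + u * walk z α k n o := by
  induction n with
  | zero => rfl
  | succ n ih => rw [walk_succ, walk_succ, ih]; unfold rot; ring

lemma ar_affine (z α : ℕ → ℂ) (t u : ℂ) (k n : ℕ) (o : ℂ) :
    ar (fun j => t + u * z j) α k n (t + u * o) =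
      ‖u‖ ^ 2 * ar z α k n o + (E t (u * walk z α k n o) - E t (u * o)) := by
  induction n with
  | zero => simp
  | succ n ih =>
    rw [ar_succ, ar_succ, ih, walk_affine, walk_affine, E_affine, E_affine]; ring

lemma ar_base {z α : ℕ → ℂ} (hα : ∀ j, ‖α j‖ = 1) (k n : ℕ) (o o' : ℂ) :
    ar z α k n o - ar z α k n o' = E o o' - E (walk z α k n o) (walk z α k n o') := by
  induction n with
  | zero => simp
  | succ n ih =>
    rw [ar_succ, ar_succ, walk_succ, walk_succ]
    have h := normSq_of_norm (hα (k + n))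
    generalize walk z α k n o = a at *
    generalize walk z α k n o' = b at *
    generalize α (k + n) = χ at *
    generalize z (k + n) = c at *
    have key : E a c + E c (rot c χ a) - (E b c + E c (rot c χ b)) =
        E a b - E (rot c χ a) (rot c χ b) := by
      simp only [E, rot, Complex.mul_re, Complex.mul_im, Complex.add_re, Complex.add_im,
        Complex.sub_re, Complex.sub_im]
      linear_combination ((a.re - c.re) * (b.im - c.im) - (a.im - c.im) * (b.re - c.re)) * h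
    linarith

lemma walk_sub (z α : ℕ → ℂ) (k n : ℕ) (o o' : ℂ) :
    walk z α k n o - walk z α k n o' = (∏ j ∈ Finset.range n, α (k + j)) * (o - o') := by
  induction n with
  | zero => simp
  | succ n ih =>
    rw [walk_succ, walk_succ, Finset.prod_range_succ]
    unfold rot
    linear_combination α (k + n) * ih

section shadow
variable {K : Subfield ℂ}

lemma map_mul_mem (φ : ℂ →ₗ[K] ℂ) {χ : ℂ} (h : χ ∈ K) (x : ℂ) : φ (χ * x) = χ * φ x :=
  φ.map_smul (⟨χ, h⟩ : K) x

lemma map_rot (φ : ℂ →ₗ[K] ℂ) {χ : ℂ} (h : χ ∈ K) (c x : ℂ) :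
    φ (rot c χ x) = rot (φ c) χ (φ x) := by
  unfold rot; rw [map_add, map_mul_mem φ h, map_sub]

lemma map_walk (φ : ℂ →ₗ[K] ℂ) {z α : ℕ → ℂ} (h : ∀ j, α j ∈ K) (k n : ℕ) (o : ℂ) :
    φ (walk z α k n o) = walk (fun j => φ (z j)) α k n (φ o) := by
  induction n with
  | zero => rfl
  | succ n ih => rw [walk_succ, walk_succ, map_rot φ (h _), ih]

end shadow

/-! ### Flip -/

def flipz (z : ℕ → ℂ) (k : ℕ) (γ : ℂ) : ℕ → ℂ := fun j => if k < j then rot (z k) γ (z j) else z j
def flipa (α : ℕ → ℂ) (k : ℕ) (γ : ℂ) : ℕ → ℂ := fun j => if j = k then γ * α j else α j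

lemma walk_flip_before (z α : ℕ → ℂ) (k : ℕ) (γ : ℂ) {i n : ℕ} (h : i + n ≤ k) (o : ℂ) :
    walk (flipz z k γ) (flipa α k γ) i n o = walk z α i n o := by
  apply walk_congr
  intro j _ h2
  have h3 : ¬ k < j := by omega
  have h4 : j ≠ k := by omega
  simp [flipz, flipa, h3, h4]

lemma rot_eq_affine (c γ x : ℂ) : rot c γ x = (c - γ * c) + γ * x := by unfold rot; ring

lemma walk_flip_after (z α : ℕ → ℂ) (k : ℕ) (γ : ℂ) {i : ℕ} (n : ℕ) (h : k < i) (o : ℂ) :
    walk (flipz z k γ) (flipa α k γ) i n (rot (z k) γ o) = rot (z k) γ (walk z α i n o) := by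
  rw [rot_eq_affine, rot_eq_affine, ← walk_affine]
  apply walk_congr
  intro j h1 _
  have h3 : k < j := by omega
  have h4 : j ≠ k := by omega
  simp [flipz, flipa, h3, h4, rot_eq_affine]

lemma walk_flip_through (z α : ℕ → ℂ) (k : ℕ) (γ : ℂ) {i n : ℕ} (h : i ≤ k) (h' : k < i + n)
    (o : ℂ) :
    walk (flipz z k γ) (flipa α k γ) i n o = rot (z k) γ (walk z α i n o) := by
  obtain ⟨a, rfl⟩ := Nat.exists_eq_add_of_le h
  obtain ⟨b, rfl⟩ : ∃ b, n = a + 1 + b := ⟨n - (a + 1), by omega⟩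
  rw [walk_add, walk_add z, walk_succ, walk_succ, walk_flip_before z α _ γ le_rfl,
    ← walk_flip_after z α (i + a) γ b (by omega)]
  congr 1
  simp [flipz, flipa, rot_rot]

lemma ar_flip (z α : ℕ → ℂ) (k : ℕ) {γ : ℂ} (hγ : ‖γ‖ = 1) {m : ℕ} (h' : k < m) (o : ℂ) :
    ar (flipz z k γ) (flipa α k γ) 0 m o = ar z α 0 m o +
      (E (z k - γ * z k) (γ * walk z α 0 m o) - E (z k - γ * z k) (γ * z k)) := by
  obtain ⟨b, rfl⟩ : ∃ b, m = k + 1 + b := ⟨m - (k + 1), by omega⟩
  rw [ar_add, ar_add z, ar_succ, ar_succ, walk_add z α 0 (k + 1) b]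
  have e1 : ar (flipz z k γ) (flipa α k γ) 0 k o = ar z α 0 k o := by
    apply ar_congr
    intro j _ h2
    have h3 : ¬ k < j := by omega
    have h4 : j ≠ k := by omega
    simp [flipz, flipa, h3, h4]
  rw [e1, walk_flip_before z α k γ (by omega), walk_flip_through z α k γ (by omega) (by omega)]
  have e2 : ar (flipz z k γ) (flipa α k γ) (0 + (k + 1)) b (rot (z k) γ (walk z α 0 (k + 1) o)) =
      ar (fun j => (z k - γ * z k) + γ * z j) α (0 + (k + 1)) b
        ((z k - γ * z k) + γ * (walk z α 0 (k + 1) o)) := by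
    rw [rot_eq_affine]
    apply ar_congr
    intro j h1 _
    have h3 : k < j := by omega
    have h4 : j ≠ k := by omega
    simp [flipz, flipa, h3, h4, rot_eq_affine]
  rw [e2, ar_affine, hγ]
  have e3 : flipz z k γ (0 + k) = z k := by simp [flipz]
  rw [e3, zero_add k]
  have e4 : E (z k) (rot (z k) γ (walk z α 0 (k + 1) o)) =
      E ((z k - γ * z k) + γ * z k) ((z k - γ * z k) + γ * (walk z α 0 (k + 1) o)) := by
    rw [rot_eq_affine]; congr 1; ring
  rw [e4, E_affine, hγ]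
  ring

/-! ### Slide -/

def slide (β : ℕ → ℂ) (k l : ℕ) : ℕ → ℂ :=
  fun j => if j = k then 1 else if j = l then β l * β k else β j

lemma walk_slide_fwd (z β : ℕ → ℂ) {k l : ℕ} (hkl : k < l)
    (h : walk z β k (l - k) (z k) = z l) (o : ℂ) :
    walk z (slide β k l) k (l - k + 1) o = walk z β k (l - k + 1) o ∧
    ((∀ j, ‖β j‖ = 1) →
      ar z (slide β k l) k (l - k + 1) o = ar z β k (l - k + 1) o) := by
  obtain ⟨p, rfl⟩ : ∃ p, l = k + (1 + p) := ⟨l - k - 1, by omega⟩
  rw [Nat.add_sub_cancel_left] at *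
  have c1 : ∀ j, k + 1 ≤ j → j < k + 1 + p → slide β k (k + (1 + p)) j = β j ∧
      (slide β k (k + (1 + p)) j ≠ 1 → z j = z j) := by
    intro j h1 h2
    have h3 : j ≠ k := by omega
    have h4 : j ≠ k + (1 + p) := by omega
    simp [slide, h3, h4]
  have s1 : slide β k (k + (1 + p)) k = 1 := by simp [slide]
  have s2 : slide β k (k + (1 + p)) (k + (1 + p)) = β (k + (1 + p)) * β k := by
    simp [slide]
  have w1 : ∀ (α : ℕ → ℂ) (x : ℂ), walk z α k 1 x = rot (z k) (α k) x := fun α x => rfl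
  have a1 : ∀ (α : ℕ → ℂ) (x : ℂ), ar z α k 1 x = E x (z k) + E (z k) (rot (z k) (α k) x) := by
    intro α x; simp [ar_succ, w1]
  rw [walk_add, w1, rot_self] at h
  have hX : ∀ x, walk z β (k + 1) p (rot (z k) (β k) x) =
      rot (z (k + (1 + p))) (β k) (walk z β (k + 1) p x) := by
    intro x
    have e1 := walk_sub z β (k + 1) p (rot (z k) (β k) x) (z k)
    have e2 := walk_sub z β (k + 1) p x (z k)
    rw [h] at e1 e2
    unfold rot at *
    linear_combination e1 - β k * e2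
  have hw : walk z (slide β k (k + (1 + p))) k (1 + p + 1) o = walk z β k (1 + p + 1) o := by
    rw [walk_succ, walk_succ, walk_add, walk_add, w1, w1, s1, s2, rot_one, walk_congr c1, hX,
      rot_rot]
  refine ⟨hw, fun hβ => ?_⟩
  rw [ar_succ, ar_succ, hw, ar_add, ar_add, walk_add z β k 1 p, walk_add z _ k 1 p, w1, w1, a1,
    a1, s1, rot_one, walk_congr c1, ar_congr c1]
  have b1 := ar_base (z := z) hβ (k + 1) p o (z k)
  have b2 := ar_base (z := z) hβ (k + 1) p (rot (z k) (β k) o) (z k)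
  rw [h] at b1 b2
  have b3 := E_swap (z k) o
  have b4 := E_swap (z k) (rot (z k) (β k) o)
  linarith

lemma walk_slide_bwd (z β : ℕ → ℂ) {k l : ℕ} (hkl : l < k)
    (h : walk z β l (k - l) (z l) = z k) (o : ℂ) :
    walk z (slide β k l) l (k - l + 1) o = walk z β l (k - l + 1) o ∧
    ((∀ j, ‖β j‖ = 1) →
      ar z (slide β k l) l (k - l + 1) o = ar z β l (k - l + 1) o) := by
  obtain ⟨p, rfl⟩ : ∃ p, k = l + (1 + p) := ⟨k - l - 1, by omega⟩
  rw [Nat.add_sub_cancel_left] at *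
  have c1 : ∀ j, l + 1 ≤ j → j < l + 1 + p → slide β (l + (1 + p)) l j = β j ∧
      (slide β (l + (1 + p)) l j ≠ 1 → z j = z j) := by
    intro j h1 h2
    have h3 : j ≠ l := by omega
    have h4 : j ≠ l + (1 + p) := by omega
    simp [slide, h3, h4]
  have s1 : slide β (l + (1 + p)) l (l + (1 + p)) = 1 := by simp [slide]
  have s2 : slide β (l + (1 + p)) l l = β l * β (l + (1 + p)) := by
    simp [slide]
  have w1 : ∀ (α : ℕ → ℂ) (x : ℂ), walk z α l 1 x = rot (z l) (α l) x := fun α x => rfl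
  have a1 : ∀ (α : ℕ → ℂ) (x : ℂ), ar z α l 1 x = E x (z l) + E (z l) (rot (z l) (α l) x) := by
    intro α x; simp [ar_succ, w1]
  rw [walk_add, w1, rot_self] at h
  have hX : ∀ x χ, walk z β (l + 1) p (rot (z l) χ x) =
      rot (z (l + (1 + p))) χ (walk z β (l + 1) p x) := by
    intro x χ
    have e1 := walk_sub z β (l + 1) p (rot (z l) χ x) (z l)
    have e2 := walk_sub z β (l + 1) p x (z l)
    rw [h] at e1 e2
    unfold rot at *
    linear_combination e1 - χ * e2
  have hw : walk z (slide β (l + (1 + p)) l) l (1 + p + 1) o = walk z β l (1 + p + 1) o := by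
    rw [walk_succ, walk_succ, walk_add, walk_add, w1, w1, s1, s2, rot_one, walk_congr c1, hX, hX,
      rot_rot, mul_comm]
  refine ⟨hw, fun hβ => ?_⟩
  have hw' : walk z (slide β (l + (1 + p)) l) l (1 + p) o = walk z β l (1 + p + 1) o := by
    rw [← hw, walk_succ, s1, rot_one]
  rw [ar_succ, ar_succ, hw, hw', ar_add, ar_add, walk_add z β l 1 p, w1, w1, a1, a1, s2,
    ar_congr c1]
  have hw2 : walk z β l (1 + p + 1) o =
      walk z β (l + 1) p (rot (z l) (β l * β (l + (1 + p))) o) := by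
    rw [walk_succ, walk_add, w1, hX, hX, rot_rot, mul_comm]
  rw [hw2]
  have b1 := ar_base (z := z) hβ (l + 1) p (rot (z l) (β l * β (l + (1 + p))) o) (z l)
  have b2 := ar_base (z := z) hβ (l + 1) p (rot (z l) (β l) o) (z l)
  rw [h] at b1 b2
  have b3 := E_swap (z l) (rot (z l) (β l * β (l + (1 + p))) o)
  have b4 := E_swap (z l) (rot (z l) (β l) o)
  have b5 := E_swap (z (l + (1 + p))) (walk z β (l + 1) p (rot (z l) (β l * β (l + (1 + p))) o))
  linarith

end

end Pool.Agent.Lib.MP_f2d99b_co
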