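import Pool.Agent.Lib.MP_f2d99b_co.Defs

namespace Pool.Agent.Lib.MP_f2d99b_co

open Set

/-- The map `f` folds the polygon `P` onto the surface of the convex polyhedron with vertex set
`V`: it is piecewise an isometry, maps `P` onto the surface, maps the boundary of `P` onto a cut
tree through all vertices, and maps the interior of `P` one-to-one onto the rest of the surface. -/
def Folds (V : Set E3) (P : Set ℂ) (f : ℂ → E3) : Prop :=
  IsPolygon P ∧ ∃ (n : ℕ) (C : Fin n → Set ℂ) (A : Fin n → ℂ →ᵃⁱ[ℝ] E3),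
    (∀ i, IsCompact (C i) ∧ Convex ℝ (C i) ∧ (interior (C i)).Nonempty ∧ EqOn f (A i) (C i)) ∧
    P = ⋃ i, C i ∧ f '' P = frontier (convexHull ℝ V) ∧ InjOn f (interior P) ∧
    Disjoint (f '' interior P) (f '' frontier P) ∧ IsSegTree (f '' frontier P) ∧
    V ⊆ f '' frontier P

/-- The map `f` folds `P` onto a polyhedron similar to the one with vertex set `V`. -/
def FoldsSim (V : Set E3) (P : Set ℂ) (f : ℂ → E3) : Prop :=
  ∃ (c : ℝ) (g : E3 ≃ᵃⁱ[ℝ] E3), 0 < c ∧ Folds ((fun x => g (c • x)) '' V) P f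

/-- The degree of the point `q` in the cut `T`: the number of unit directions in which `T` leaves
`q` along a straight segment. -/
noncomputable def deg (T : Set E3) (q : E3) : ℕ :=
  {d : E3 | ‖d‖ = 1 ∧ ∃ ε : ℝ, 0 < ε ∧ ∀ t : ℝ, 0 ≤ t → t ≤ ε → q + t • d ∈ T}.ncard

/-- The points of odd degree of the cut `T`. -/
def oddPts (T : Set E3) : Set E3 := {q | Odd (deg T q)}

end Pool.Agent.Lib.MP_f2d99b_co
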