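import Pool.Agent.Lib.MP_f2d99b_co.Zip1

namespace Pool.Agent.Lib.MP_f2d99b_co

noncomputable section

open Set Complex MeasureTheory Metric Filter Topology
open scoped Real

lemma Folds.net {V : Set E3} {P : Set ℂ} {f : ℂ → E3} (h : Folds V P f) : IsNet V P :=
  ⟨h.1, f, h.2⟩

lemma FineNet.fib_card {P : Set ℂ} {M : ℕ} {w : ℕ → ℂ} {f : ℂ → E3} {n : ℕ} {C : Fin n → Set ℂ}
    {A : Fin n → ℂ →ᵃⁱ[ℝ] E3} {U : Set E3} (h : FineNet P M w f C A U) {a : ℕ} (ha : a < M)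
    (_ : DecidablePred fun l => f (w a) = f (w l)) :
    ((Finset.range M).filter (fun l => f (w a) = f (w l))).card =
      deg (f '' frontier P) (f (w a)) := by
  obtain ⟨σ, hG⟩ := h.glue
  set e : ℕ → E3 := fun l => f (w (l + 1)) - f (w l) with he
  have pos : ∀ l < M, 0 < ‖e l‖ := fun l hl => norm_pos_iff.2 (h.ne hl)
  have lin : ∀ l < M, ∀ t : ℝ, 0 ≤ t → t ≤ 1 → f (pt w l t) = f (w l) + t • e l :=
    fun l hl t h1 h2 => h.lin hl h1 h2
  have nrm : ∀ l < M, ∀ (d : E3) (t u : ℝ), ‖d‖ = 1 → 0 < t → 0 ≤ u → t • d = u • e l →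
      ‖e l‖⁻¹ • e l = d := by
    intro l hl d t u h1 h2 h3 h4
    have h5 := congrArg norm h4
    rw [norm_smul, norm_smul, h1, mul_one, Real.norm_of_nonneg h2.le, Real.norm_of_nonneg h3] at h5
    have h6 := pos l hl
    refine smul_right_injective E3 h2.ne' ?_
    simp only
    rw [h4, smul_smul, h5, mul_assoc, mul_inv_cancel₀ h6.ne', mul_one]
  have le : ∀ l < M, ∀ j < M, f (w l) = f (w j) → ‖e l‖⁻¹ • e l = ‖e j‖⁻¹ • e j →
      ‖e j‖ ≤ ‖e l‖ := by
    intro l hl j hj h1 h2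
    by_contra h3
    have h4 := pos l hl
    have h5 := pos j hj
    have h6 : ‖e l‖ / ‖e j‖ < 1 := (div_lt_one h5).2 (not_le.1 h3)
    refine h.offU j hj _ (div_pos h4 h5) h6 ?_
    rw [lin j hj _ (div_pos h4 h5).le h6.le, div_eq_mul_inv, mul_smul, ← h2, smul_smul,
      mul_inv_cancel₀ h4.ne', one_smul, ← h1]
    simpa [he] using h.inU (l + 1) hl
  have inj : ∀ l j, l < j → j < M → f (w l) = f (w j) → ‖e l‖⁻¹ • e l ≠ ‖e j‖⁻¹ • e j := by
    intro l j hlj hj h1 h2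
    have hl : l < M := hlj.trans hj
    have h3 := le_antisymm (le l hl j hj h1 h2) (le j hj l hl h1.symm h2.symm)
    rw [h3] at h2
    have h4 : e l = e j := smul_right_injective E3 (inv_pos.2 (pos l hl)).ne' h2
    have h5 : f (pt w l (1 / 2)) = f (pt w j (1 / 2)) := by
      rw [lin l hl _ (by norm_num) (by norm_num), lin j hj _ (by norm_num) (by norm_num), h1, h4]
    obtain ⟨i, -, -, -, h6⟩ := h.two hl
    obtain rfl := (h6 j hj (1 / 2) (by norm_num) (by norm_num) h5.symm).resolve_left hlj.ne'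
    have h7 := (h.pair hlj hj (by norm_num) (by norm_num) (by norm_num) (by norm_num) h5 h6).1
    exact h.ne hl (by rw [← h7, h1, sub_self])
  rw [← ncard_coe_finset]
  refine BijOn.ncard_eq (f := fun l => ‖e l‖⁻¹ • e l) ⟨?_, ?_, ?_⟩
  · intro l hl
    simp only [Finset.coe_filter, Finset.mem_range, mem_ofPred_eq] at hl
    have h1 := pos l hl.1
    refine ⟨by rw [norm_smul, norm_inv, norm_norm, inv_mul_cancel₀ h1.ne'], ‖e l‖, h1,
      fun t h2 h3 => ?_⟩
    have h4 : 0 ≤ t * ‖e l‖⁻¹ := by positivity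
    have h5 : t * ‖e l‖⁻¹ ≤ 1 := by rwa [← div_eq_mul_inv, div_le_one h1]
    exact ⟨_, h.fr hl.1 h4 h5, by rw [lin l hl.1 _ h4 h5, hl.2, smul_smul]⟩
  · intro l hl j hj h1
    simp only [Finset.coe_filter, Finset.mem_range, mem_ofPred_eq] at hl hj
    rcases lt_trichotomy l j with h2 | h2 | h2
    · exact absurd h1 (inj l j h2 hj.1 (hl.2.symm.trans hj.2))
    · exact h2
    · exact absurd h1.symm (inj j l h2 hl.1 (hj.2.symm.trans hl.2))
  · rintro d ⟨h1, ε, h2, h3⟩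
    simp only [Finset.coe_filter, Finset.mem_range, mem_image, mem_ofPred_eq]
    set S : ℕ → Set E3 := fun l => (fun u : ℝ => f (w l) + u • e l) '' Icc 0 1 with hS
    have h4 : ∃ l < M, ∃ᶠ t in 𝓝[>] (0 : ℝ), f (w a) + t • d ∈ S l := by
      by_contra h4
      push Not at h4
      have h5 := (eventually_all_finset (Finset.range M)).2 fun l hl =>
        h4 l (Finset.mem_range.1 hl)
      obtain ⟨t, h6, h7⟩ := (h5.and (Ioo_mem_nhdsGT h2)).exists
      obtain ⟨y, h8, h9⟩ := h3 t h7.1.le h7.2.le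
      obtain ⟨l, hl, u, hu, rfl⟩ := (h.poly.front y).1 h8
      exact h6 l (Finset.mem_range.2 hl) ⟨u, hu, by rw [← h9, lin l hl u hu.1 hu.2]⟩
    obtain ⟨l, hl, h5⟩ := h4
    have h6 : f (w a) ∈ S l := by
      refine (isCompact_Icc.image (by fun_prop)).isClosed.mem_of_frequently_of_tendsto h5 ?_
      have : Tendsto (fun t : ℝ => f (w a) + t • d) (𝓝 0) (𝓝 (f (w a) + (0 : ℝ) • d)) :=
        (by fun_prop : Continuous fun t : ℝ => f (w a) + t • d).tendsto 0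
      rw [zero_smul, add_zero] at this
      exact this.mono_left nhdsWithin_le_nhds
    obtain ⟨t, ⟨u, hu, h7⟩, h8⟩ := (h5.and_eventually self_mem_nhdsWithin).exists
    obtain ⟨s, hs, h9⟩ := h6
    simp only at h7 h9
    rcases hs.1.eq_or_lt with rfl | h10
    · rw [zero_smul, add_zero] at h9
      exact ⟨l, ⟨hl, h9.symm⟩, nrm l hl d t u h1 h8 hu.1 (by
        rw [← h9] at h7; exact (add_left_cancel h7).symm)⟩
    rcases hs.2.eq_or_lt with rfl | h11
    · have h12 : f (w (σ l)) = f (w (l + 1)) := hG.p1 l hl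
      have h13 : f (w (σ (σ l))) = f (w (σ l + 1)) := hG.p1 _ (hG.lt l hl)
      rw [hG.inv l hl] at h13
      have h14 : e (σ l) = -e l := by simp only [he]; rw [h12, ← h13, neg_sub]
      refine ⟨σ l, ⟨hG.lt l hl, ?_⟩, nrm _ (hG.lt l hl) d t (1 - u) h1 h8 (by linarith [hu.2]) ?_⟩
      · rw [h12, ← h9]; simp [he]
      · rw [← h9] at h7
        rw [h14, ← sub_eq_zero, ← sub_eq_zero.2 h7.symm]
        module
    · refine absurd ?_ (h.offU l hl s h10 h11)
      rw [lin l hl s hs.1 hs.2, h9]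
      exact h.inU a ha.le

variable {V : Set E3} {k nF dg : ℕ} {s : ℝ} {cc : ℕ → ZMod 3} {col : E3 → ZMod 3}
  {ψ : Fin nF → ℂ →ᵃⁱ[ℝ] E3} {l : Fin nF → E3 →ᵃ[ℝ] ℝ} {o : E3} {nb : Fin nF → ℕ → Fin nF}

theorem fold_of_folds (hS : Solid V k nF dg s cc col ψ l o nb) {R : ℂ → ZMod 3 → Prop}
    (hL : Lat k R cc) {ord : ℕ} (hord : 3 ≤ ord)
    (hang : dg * (π - 2 * (π / k)) = 2 * π - 2 * (π / ord)) {P : Set ℂ} {m : ℕ} {z : ℕ → ℂ}
    (hP : Poly P m z) {f : ℂ → E3} (hN : Folds V P f) :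
    ∃ α r χ a v n cj, Fold m z (turn m z) ord V.ncard R α r χ a v n cj ∧
      Sgn m (turn m z) α r (fun i => f (z i)) (oddPts (f '' frontier P)) := by
  obtain ⟨⟨-, hc, -⟩, n, C, A, h1, h2, h3, h4, h5, h6, h7⟩ := hN
  have hf : PW P f C A := ⟨fun i => (h1 i).1, fun i => (h1 i).2.1, fun i => (h1 i).2.2.1,
    fun i => (h1 i).2.2.2, h2, h4, hP.null⟩
  obtain ⟨N, hN, hcut⟩ := tree_cut h6
  obtain ⟨M, w, ι, U, p1, p2, p3, p4, p5, p6⟩ := exists_fine hP hf (hN.union hS.fin)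
  have hF : FineNet P M w f C A U := ⟨p1, hf, h5, fun q hq hU => hcut q hq fun h => hU (p3 (Or.inl h)),
    p4, p5, p6, fun q hq hU => h3 ▸ hS.dens_flat (h3 ▸ hq) fun h => hU (p3 (Or.inr h))⟩
  obtain ⟨σ, hG⟩ := hF.glue
  obtain ⟨ε, hε, hA⟩ := hF.angle
  have hp := Real.pi_pos
  have e2 : exp (ε * (2 * π : ℝ) * I) = 1 := by
    rcases hε with rfl | rfl
    · simp
    · push_cast; rw [neg_one_mul, neg_mul, exp_neg, exp_two_pi_mul_I, inv_one]
  set χ := exp (ε * (2 * π - 2 * (π / ord) : ℝ) * I) with hχ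
  have prim : IsPrimitiveRoot χ ord := by
    have : χ = exp (ε * (2 * π : ℝ) * I) * exp (-ε * (2 * (π / ord) : ℝ) * I) := by
      rw [hχ, ← exp_add]; congr 1; push_cast; ring
    rw [this, e2, one_mul]
    rcases hε with rfl | rfl
    · have := (zt_prim hord).inv
      rwa [zt, ← exp_neg, ← neg_one_mul, ← mul_assoc, ← ofReal_one] at this
    · have := zt_prim hord
      rw [zt] at this
      simpa using this
  have fr : ∀ a < M, f (w a) ∈ frontier (convexHull ℝ V) := fun a ha =>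
    h3 ▸ ⟨_, hP.closed.frontier_subset (pt_zero w a ▸ hF.fr ha le_rfl zero_le_one), rfl⟩
  have hord' : (3 : ℝ) ≤ ord := by exact_mod_cast hord
  have h8 : π / ord ≤ π / 3 := by gcongr
  obtain ⟨α, r, q1, q2, q3, q4, q5, q6⟩ := side_of_glue2 p2 hG V (χ := χ)
    (fun h => by have := Nat.le_of_dvd two_pos ((prim.pow_eq_one_iff_dvd 2).1 h); omega)
    (prim.norm'_eq_one (by omega)) (fun a ha => by
      split_ifs with h9
      · exact hA a ha _ _ (by linarith) (h3 ▸ hang ▸ hS.dens_vertex h9)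
      · rw [← e2]
        exact hA a ha _ _ (by positivity) (h3 ▸ hS.dens_flat (fr a ha) h9)) (by
      intro v hv
      obtain ⟨y, h9, rfl⟩ := h7 hv
      obtain ⟨j, hj, u, ⟨h10, h11⟩, rfl⟩ := (p1.front y).1 h9
      rcases h10.eq_or_lt with rfl | h12
      · exact ⟨j, hj, by rw [pt_zero]⟩
      rcases h11.eq_or_lt with rfl | h13
      · rcases (Nat.succ_le_of_lt hj).eq_or_lt with h5 | h5
        · exact ⟨0, by omega, by rw [pt_one, ← p1.close, ← h5]⟩
        · exact ⟨j + 1, h5, by rw [pt_one]⟩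
      · exact absurd (p3 (Or.inr hv)) (p6 j hj u h12 h13))
  obtain ⟨a, v, t1, t2⟩ := lattice hS hL hf hc h3
  have hz : ∀ j < m, z j ∈ P := fun j hj => hP.closed.frontier_subset
    ((hP.front _).2 ⟨j, hj, 0, ⟨le_rfl, zero_le_one⟩, pt_zero z j⟩)
  have hx : ∀ j, ∃ x c, R x c ∧ (j < m → α j ≠ 1 → z j = a + v * x ∧ c = col (f (z j))) := by
    intro j
    by_cases h9 : j < m ∧ α j ≠ 1
    · obtain ⟨x, h10, h11⟩ := t2 _ (hz j h9.1) (p2.pt j h9.1.le ▸ q4.1 h9)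
      exact ⟨x, _, h10, fun _ _ => ⟨h11, rfl⟩⟩
    · exact ⟨_, _, hL.crn 0, fun h10 h11 => absurd ⟨h10, h11⟩ h9⟩
  choose x cj t3 t4 using hx
  have cnt : ∀ (q : ℕ → Prop) [DecidablePred q] (W : Set E3), (∀ j < m, α j ≠ 1 →
      (q j ↔ f (z j) ∈ W)) → ((Finset.range m).filter (fun j => α j ≠ 1 ∧ q j)).card =
      (V ∩ W).ncard := by
    intro q _ W h9
    rw [← ncard_coe_finset]
    refine BijOn.ncard_eq (f := fun i => f (w (ι i))) ⟨?_, ?_, ?_⟩
    · intro j hj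
      simp only [Finset.coe_filter, Finset.mem_range, mem_ofPred_eq] at hj
      exact ⟨q4.1 ⟨hj.1, hj.2.1⟩, by
        simp only [p2.pt j hj.1.le]; exact (h9 j hj.1 hj.2.1).1 hj.2.2⟩
    · refine q4.2.1.mono fun j hj => ?_
      simp only [Finset.coe_filter, Finset.mem_range, mem_ofPred_eq] at hj
      exact ⟨hj.1, hj.2.1⟩
    · rintro y ⟨h10, h11⟩
      obtain ⟨j, hj, rfl⟩ := q4.2.2 h10
      refine ⟨j, ?_, rfl⟩
      simp only [Finset.coe_filter, Finset.mem_range, mem_ofPred_eq]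
      simp only [p2.pt j hj.1.le] at h11
      exact ⟨hj.1, hj.2, (h9 j hj.1 hj.2).2 h11⟩
  refine ⟨α, r, χ, a, v, x, cj, ⟨q1, prim, q2, ?_, q3, ?_, fun j hj h9 => (t4 j hj h9).1, t3⟩,
    fun i hi j hj he => q5 i hi j hj (by simpa only [p2.pt i hi.le, p2.pt j hj.le] using he),
    fun i hi h9 => q6 i hi ?_⟩
  · simpa using cnt (fun _ => True) univ (fun _ _ _ => by simp)
  · rintro rfl
    simp at t1
    linarith [hS.spos]
  · rw [hF.fib_card (p2.ltM hi) _, p2.pt i hi.le]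
    exact Nat.not_odd_iff_even.1 h9

theorem fold_of_sim {V : Set E3} {k nF dg : ℕ} {s : ℝ} {cc : ℕ → ZMod 3} {col : E3 → ZMod 3}
    (hS : IsSolid V k nF dg s cc col) {R : ℂ → ZMod 3 → Prop}
    (hL : Lat k R cc) {ord : ℕ} (hord : 3 ≤ ord)
    (hang : dg * (π - 2 * (π / k)) = 2 * π - 2 * (π / ord)) {P : Set ℂ} {m : ℕ} {z : ℕ → ℂ}
    (hP : Poly P m z) {f : ℂ → E3} (hN : FoldsSim V P f) :
    ∃ α r χ a v n cj, Fold m z (turn m z) ord V.ncard R α r χ a v n cj ∧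
      Sgn m (turn m z) α r (fun i => f (z i)) (oddPts (f '' frontier P)) := by
  obtain ⟨c, g, hc, hN⟩ := hN
  obtain ⟨ψ, l, o, nb, h⟩ := hS.map hc g
  obtain ⟨α, r, χ, a, v, n, cj, h1, h2⟩ := fold_of_folds h hL hord hang hP hN
  have inj : Function.Injective (fun x : E3 => g (c • x)) := fun x y h =>
    smul_right_injective E3 hc.ne' (g.injective h)
  rw [ncard_image_of_injective _ inj] at h1
  exact ⟨α, r, χ, a, v, n, cj, h1, h2⟩

lemma shoe_ne {V : Set E3} {P : Set ℂ} {f : ℂ → E3} (h : FoldsSim V P f) {m : ℕ} {z : ℕ → ℂ}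
    (hP : Poly P m z) : shoe m z ≠ 0 := by
  obtain ⟨c, g, -, hN⟩ := h
  obtain ⟨ε, hε, h1⟩ := hP.green hN.1.1
  have h2 : 0 < volume.real P := by
    refine ENNReal.toReal_pos ?_ hN.1.1.measure_lt_top.ne
    exact ((isOpen_interior.measure_pos volume hN.1.2.1.nonempty).trans_le
      (measure_mono interior_subset)).ne'
  intro h3
  rw [h3] at h1
  rcases hε with rfl | rfl <;> linarith

end

end Pool.Agent.Lib.MP_f2d99b_co
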