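import Pool.Agent.Lib.MP_f2d99b_co.Zip2

namespace Pool.Agent.Lib.MP_f2d99b_co

noncomputable section

open Finset Complex Polynomial

/-- Conjugate elements of the field of sixtieth roots of unity. -/
def Cj (e : ℕ) (x y : ℂ) : Prop := ∃ p : ℚ[X], x = aeval z60 p ∧ y = aeval (z60 ^ e) p

variable {e : ℕ}

lemma Cj.add {x y x' y' : ℂ} (h : Cj e x y) (h' : Cj e x' y') : Cj e (x + x') (y + y') := by
  obtain ⟨p, rfl, rfl⟩ := h
  obtain ⟨q, rfl, rfl⟩ := h'
  exact ⟨p + q, by simp, by simp⟩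

lemma Cj.mul {x y x' y' : ℂ} (h : Cj e x y) (h' : Cj e x' y') : Cj e (x * x') (y * y') := by
  obtain ⟨p, rfl, rfl⟩ := h
  obtain ⟨q, rfl, rfl⟩ := h'
  exact ⟨p * q, by simp, by simp⟩

lemma Cj.neg {x y : ℂ} (h : Cj e x y) : Cj e (-x) (-y) := by
  obtain ⟨p, rfl, rfl⟩ := h
  exact ⟨-p, by simp, by simp⟩

lemma Cj.sub {x y x' y' : ℂ} (h : Cj e x y) (h' : Cj e x' y') : Cj e (x - x') (y - y') := by
  rw [sub_eq_add_neg, sub_eq_add_neg]; exact h.add h'.neg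

lemma Cj.zero_iff (he : e.Coprime 60) {x y : ℂ} (h : Cj e x y) : x = 0 ↔ y = 0 := by
  obtain ⟨p, rfl, rfl⟩ := h
  have h1 := (Polynomial.cyclotomic_eq_minpoly_rat z60_prim (by norm_num))
  have h2 := (Polynomial.cyclotomic_eq_minpoly_rat (z60_prim.pow_of_coprime e he) (by norm_num))
  rw [← minpoly.dvd_iff, ← minpoly.dvd_iff, ← h1, ← h2]

lemma Cj_int (n : ℤ) : Cj e n n := ⟨(n : ℚ[X]), by simp, by simp⟩

lemma Cj_pow (n : ℕ) : Cj e (z60 ^ n) (z60 ^ (e * n)) := ⟨X ^ n, by simp, by simp [pow_mul]⟩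

lemma Cj.conj {x y : ℂ} (h : Cj e x y) : Cj e ((starRingEnd ℂ) x) ((starRingEnd ℂ) y) := by
  obtain ⟨p, rfl, rfl⟩ := h
  refine ⟨_, conj_aeval z60_prim.pow_eq_one p, conj_aeval ?_ p⟩
  rw [← pow_mul, mul_comm, pow_mul, z60_prim.pow_eq_one, one_pow]

lemma exists_Cj (e : ℕ) {x : ℂ} (h : x ∈ K60) : ∃ y, Cj e x y := by
  obtain ⟨y, p, rfl, -⟩ := exists_Rel h
  exact ⟨_, p, rfl, rfl⟩

/-- The ring generated by one root of unity. -/
def On (d : ℕ) : Subring ℂ := Subring.closure {z60 ^ d}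

lemma Cj_fix {d : ℕ} (hd : e * d % 60 = d) {x : ℂ} (h : x ∈ On d) : Cj e x x := by
  induction h using Subring.closure_induction with
  | mem x hx =>
    rw [Set.mem_singleton_iff.1 hx]
    have := Cj_pow (e := e) d
    rwa [z60_pow_mod (e * d), hd] at this
  | zero => simpa using Cj_int (e := e) 0
  | one => simpa using Cj_int (e := e) 1
  | add x y _ _ h1 h2 => exact h1.add h2
  | neg x _ h1 => exact h1.neg
  | mul x y _ _ h1 h2 => exact h1.mul h2

lemma Cj_bar {d : ℕ} (hd : e * d % 60 = 59 * d % 60) {x : ℂ} (h : x ∈ On d) :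
    Cj e x ((starRingEnd ℂ) x) := by
  induction h using Subring.closure_induction with
  | mem x hx =>
    rw [Set.mem_singleton_iff.1 hx]
    have := Cj_pow (e := e) d
    rwa [z60_pow_mod (e * d), hd, ← z60_pow_mod, pow_mul, ← conj_root z60_prim.pow_eq_one,
      ← map_pow] at this
  | zero => simpa using Cj_int (e := e) 0
  | one => simpa using Cj_int (e := e) 1
  | add x y _ _ h1 h2 => rw [map_add]; exact h1.add h2
  | neg x _ h1 => rw [map_neg]; exact h1.neg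
  | mul x y _ _ h1 h2 => rw [map_mul]; exact h1.mul h2

lemma mem_On {d n : ℕ} (hn : 60 = d * n) {ζ : ℂ} (h : ζ ^ n = 1) : ζ ∈ On d := by
  have h1 : IsPrimitiveRoot (z60 ^ d) n := z60_prim.pow (by norm_num) hn
  have : NeZero n := ⟨by rintro rfl; simp at hn⟩
  obtain ⟨i, _, rfl⟩ := h1.eq_pow_of_pow_eq_one h
  exact (On d).pow_mem (Subring.subset_closure rfl) i

lemma conj_On {d : ℕ} {x : ℂ} (h : x ∈ On d) : (starRingEnd ℂ) x ∈ On d := by
  induction h using Subring.closure_induction with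
  | mem x hx =>
    rw [Set.mem_singleton_iff.1 hx, map_pow, conj_root z60_prim.pow_eq_one, ← pow_mul, mul_comm,
      pow_mul]
    exact (On d).pow_mem (Subring.subset_closure rfl) 59
  | zero => simp
  | one => simp
  | add x y _ _ h1 h2 => rw [map_add]; exact (On d).add_mem h1 h2
  | neg x _ h1 => rw [map_neg]; exact (On d).neg_mem h1
  | mul x y _ _ h1 h2 => rw [map_mul]; exact (On d).mul_mem h1 h2

lemma On_le {d : ℕ} {x : ℂ} (h : x ∈ On d) : x ∈ K60 := by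
  have : On d ≤ K60.toSubring := Subring.closure_le.2 (by
    rintro _ rfl
    exact K60.pow_mem z60_mem d)
  exact this h

lemma nonnorm_Cj (he : e.Coprime 60) {y u : ℂ} (hy : Cj e y y) (hu : Cj e u ((starRingEnd ℂ) u))
    (hpos : 0 < y.im * u.im) {s t : ℂ} (hs : s ∈ K60) (ht : t ∈ K60)
    (h : y.im * ‖s‖ ^ 2 = u.im * ‖t‖ ^ 2) : s = 0 ∧ t = 0 := by
  obtain ⟨s', hs'⟩ := exists_Cj e hs
  obtain ⟨t', ht'⟩ := exists_Cj e ht
  have r1 := (hy.sub hy.conj).mul (hs'.mul hs'.conj)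
  have r2 := (hu.sub hu.conj).mul (ht'.mul ht'.conj)
  have e1 : ∀ y u : ℂ, (y - (starRingEnd ℂ) y) * (u * (starRingEnd ℂ) u) =
      ((2 * (y.im * ‖u‖ ^ 2) : ℝ) : ℂ) * I := by
    intro y u; rw [Complex.mul_conj, Complex.sub_conj, Complex.normSq_eq_norm_sq]; push_cast; ring
  have r3 := (r1.sub r2).zero_iff he
  rw [e1, e1, e1, e1, h, sub_self, ← sub_mul, ← Complex.ofReal_sub, conj_im] at r3
  have h1 : 2 * (y.im * ‖s'‖ ^ 2) - 2 * (-u.im * ‖t'‖ ^ 2) = 0 := by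
    exact Complex.ofReal_eq_zero.1 ((mul_eq_zero.1 (r3.1 rfl)).resolve_right I_ne_zero)
  generalize u.im = b at *
  generalize y.im = a at *
  have h2 : a * b * ‖s'‖ ^ 2 + b ^ 2 * ‖t'‖ ^ 2 = 0 := by linear_combination b / 2 * h1
  have hb : b ≠ 0 := by rintro rfl; simp at hpos
  have h3 : 0 ≤ a * b * ‖s'‖ ^ 2 := by positivity
  have h4 : 0 ≤ b ^ 2 * ‖t'‖ ^ 2 := by positivity
  have h5 : a * b * ‖s'‖ ^ 2 = 0 := by linarith
  have h6 : b ^ 2 * ‖t'‖ ^ 2 = 0 := by linarith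
  have h7 : s' = 0 := by simpa [hpos.ne'] using (mul_eq_zero.1 h5).resolve_left hpos.ne'
  have h8 : t' = 0 := by simpa [hb] using h6
  exact ⟨(hs'.zero_iff he).2 h7, (ht'.zero_iff he).2 h8⟩

end

end Pool.Agent.Lib.MP_f2d99b_co
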