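import Pool.Agent.Lib.MP_f2d99b_co.Zip3

namespace Pool.Agent.Lib.MP_f2d99b_co

noncomputable section

open Finset Complex

open Classical in
lemma cl_one {m : ℕ} {z τ α : ℕ → ℂ} {r : ℕ → ℕ → Prop} (h : Side m z τ α r) {p : ℕ → E3}
    {S : Set E3} (s : Sgn m τ α r p S) (c : ℕ → ℕ) (hc : ∀ a < m, ∀ b < m, r a b → c a = c b)
    (j : ℕ) (hj : ∀ k < m, c k = j → p k ∉ S) :
    ∏ l ∈ (range m).filter (fun i => c i = j), τ l / α l = 1 := by
  have e1 := prod_closed h.equiv (fun l => if c l = j then τ l / α l else 1) (m := m) (by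
    intro k hk
    by_cases h1 : c k = j
    · rw [← s.2 k hk (hj k hk h1)]
      refine prod_congr rfl fun l hl => ?_
      obtain ⟨h2, h3⟩ := mem_filter.1 hl
      rw [if_pos ((hc k hk l (mem_range.1 h2) h3).symm.trans h1)]
    · refine prod_eq_one fun l hl => ?_
      obtain ⟨h2, h3⟩ := mem_filter.1 hl
      rw [if_neg (fun h4 => h1 ((hc k hk l (mem_range.1 h2) h3).trans h4))])
    _ ((range m).filter (fun i => c i = j)) rfl (filter_subset _ _) (by
      intro a ha b hb hab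
      obtain ⟨h5, h6⟩ := mem_filter.1 ha
      exact mem_filter.2 ⟨mem_range.2 hb, (hc a (mem_range.1 h5) b hb hab).symm.trans h6⟩)
  rw [← e1]
  exact prod_congr rfl fun l hl => by rw [if_pos (mem_filter.1 hl).2]

lemma cl_card {m : ℕ} {τ α : ℕ → ℂ} {r : ℕ → ℕ → Prop} {p : ℕ → E3}
    {S : Set E3} (s : Sgn m τ α r p S) (c : ℕ → ℕ) (hc : ∀ a < m, ∀ b < m, r a b → c a = c b)
    (J : Finset ℕ) (hJ : ∀ j ∈ J, ∃ k < m, c k = j ∧ p k ∈ S) : (J.card : ℕ∞) ≤ S.encard := by
  choose! k h1 h2 h3 using hJ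
  rw [← Set.encard_coe_eq_coe_finsetCard]
  refine Set.encard_le_encard_of_injOn (f := fun j => p (k j)) (fun j hj => h3 j hj) ?_
  intro i hi j hj he
  rw [← h2 i hi, ← h2 j hj]
  exact hc _ (h1 i hi) _ (h1 j hj) (s.1 _ (h1 i hi) _ (h1 j hj) he)

theorem zip_sides {K : Subfield ℂ} {m : ℕ} {z τ α β : ℕ → ℂ} {rA rB : ℕ → ℕ → Prop}
    (hA : Side m z τ α rA) (hB : Side m z τ β rB) (kA : ∀ j, α j ∈ K) (kB : ∀ j, β j ∈ K)
    {p q : ℕ → E3} {S T : Set E3} (sA : Sgn m τ α rA p S) (sB : Sgn m τ β rB q T)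
    (htot : ∏ i ∈ range m, α i / β i = 1) (hc : S.encard + T.encard < 6) :
    ∃ x : ℂ, ∀ φ : ℂ →ₗ[K] ℂ, φ x = 0 → DD m z α β φ = 0 := by
  classical
  obtain ⟨c, h1, h2, h3⟩ := two_sides (K := K) hA hB kA kB
  apply h3
  have cA : ∀ a < m, ∀ b < m, rA a b → c a = c b := fun a ha b hb h =>
    (h1 _ _).2 (Relation.ReflTransGen.single ⟨ha, hb, Or.inl h⟩)
  have cB : ∀ a < m, ∀ b < m, rB a b → c a = c b := fun a ha b hb h =>
    (h1 _ _).2 (Relation.ReflTransGen.single ⟨ha, hb, Or.inr h⟩)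
  have hα0 : ∀ j, α j ≠ 0 := fun j h0 => by simpa [h0] using hA.unit j
  have hβ0 : ∀ j, β j ≠ 0 := fun j h0 => by simpa [h0] using hB.unit j
  set γ : ℕ → ℂ := fun j => ∏ i ∈ (range m).filter (fun i => c i = j), α i / β i with hγ
  set J := ((range m).image c).filter (fun j => γ j = -1) with hJ
  have key : ∀ j, γ j = -1 → (∃ k < m, c k = j ∧ p k ∈ S) ∨ ∃ k < m, c k = j ∧ q k ∈ T := by
    intro j hj
    by_contra h4
    push Not at h4
    have e1 := cl_one hA sA c cA j h4.1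
    have e2 := cl_one hB sB c cB j h4.2
    have e3 : γ j * ∏ l ∈ (range m).filter (fun i => c i = j), τ l / α l =
        ∏ l ∈ (range m).filter (fun i => c i = j), τ l / β l := by
      rw [hγ, ← prod_mul_distrib]
      apply prod_congr rfl
      intro i _
      have := hα0 i
      have := hβ0 i
      field_simp
    rw [e1, e2, hj] at e3
    norm_num at e3
  have sub : (range m).filter (fun j => γ j = -1) ⊆ J := by
    intro j hj
    have h4 := (mem_filter.1 hj).2
    refine mem_filter.2 ⟨?_, h4⟩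
    rcases key j h4 with ⟨k, h5, h6, -⟩ | ⟨k, h5, h6, -⟩ <;>
      exact mem_image.2 ⟨k, mem_range.2 h5, h6⟩
  have ev : Even J.card := by
    have e1 := prod_fiberwise_of_maps_to (s := range m) (t := (range m).image c) (g := c)
      (fun i hi => mem_image_of_mem c hi) (fun i => α i / β i)
    rw [htot, ← prod_filter_mul_prod_filter_not _ (fun j => γ j = -1),
      prod_congr rfl (g := fun _ => (-1 : ℂ)) (fun j hj => (mem_filter.1 hj).2),
      prod_eq_one (fun j hj => (sq_eq_one_iff.1 (h2 j)).resolve_right (mem_filter.1 hj).2),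
      prod_const, mul_one] at e1
    exact (neg_one_pow_eq_one_iff_even (by norm_num)).1 e1
  have c1 := cl_card sA c cA (J.filter (fun j => ∃ k < m, c k = j ∧ p k ∈ S))
    (fun j hj => (mem_filter.1 hj).2)
  have c2 := cl_card sB c cB (J.filter (fun j => ¬ ∃ k < m, c k = j ∧ p k ∈ S))
    (fun j hj => (key j (mem_filter.1 (mem_filter.1 hj).1).2).resolve_left (mem_filter.1 hj).2)
  have c3 := (add_le_add c1 c2).trans_lt hc
  rw [← Nat.cast_add, card_filter_add_card_filter_not] at c3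
  have c4 : J.card < 6 := by exact_mod_cast c3
  have c5 := card_le_card sub
  obtain ⟨t, ht⟩ := ev
  exact c5.trans (by omega)

theorem zip_final {m : ℕ} {z τ α β : ℕ → ℂ} {rA rB : ℕ → ℕ → Prop} {χ a w ψ b v : ℂ}
    {nA nB : ℕ → ℂ} {cA cB : ℕ → ZMod 3} {oA oB dA dB e : ℕ} (oA' : 60 = dA * oA)
    (oB' : 60 = dB * oB) (he : e.Coprime 60) (eA : e * dA % 60 = dA)
    (eB : e * dB % 60 = 59 * dB % 60)
    (hA : Fold m z τ oA (oA * 2) (fun x _ => x ∈ On dA) α rA χ a w nA cA)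
    (hB : Fold m z τ oB (oB * 2) (fun x _ => x ∈ On dB) β rB ψ b v nB cB) (h0 : shoe m z ≠ 0)
    {p q : ℕ → E3} {S T : Set E3} (sA : Sgn m τ α rA p S) (sB : Sgn m τ β rB q T) :
    6 ≤ S.encard + T.encard := by
  by_contra hc
  have hαO : ∀ j, α j ∈ On dA := fun j => by
    rcases hA.val j with h1 | h1 <;> rw [h1]
    exacts [(On dA).one_mem, mem_On oA' hA.prim.pow_eq_one]
  have hβO : ∀ j, β j ∈ On dB := fun j => by
    rcases hB.val j with h1 | h1 <;> rw [h1]
    exacts [(On dB).one_mem, mem_On oB' hB.prim.pow_eq_one]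
  have hαK : ∀ j, α j ∈ K60 := fun j => On_le (hαO j)
  have hβK : ∀ j, β j ∈ K60 := fun j => On_le (hβO j)
  obtain ⟨x, hx⟩ := zip_sides (K := K60) hA.side hB.side hαK hβK sA sB (by
    rw [cluster_prod hA.val hB.val, hA.card, hB.card, pow_mul, pow_mul, hA.prim.pow_eq_one,
      hB.prim.pow_eq_one, div_self (by norm_num)]) (not_le.1 hc)
  obtain ⟨sA1, sA2⟩ := shadow_area hA.side.unit hA.side.tot hA.vne hA.pos
  obtain ⟨sB1, sB2⟩ := shadow_area hB.side.unit hB.side.tot hB.vne hB.pos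
  obtain ⟨-, y, hy, hy'⟩ := ar_mem (On dA) (fun x hx => conj_On hx) hA.lat hαO m
  obtain ⟨-, u, hu, hu'⟩ := ar_mem (On dB) (fun x hx => conj_On hx) hB.lat hβO m
  rw [hy'] at sA1 sA2
  rw [hu'] at sB1 sB2
  have hr : y.im * ‖w‖ ^ 2 = u.im * ‖v‖ ^ 2 := by rw [← sA1, ← sB1, hA.area, hB.area]
  have hpos : 0 < y.im * u.im := by
    have h1 : 0 < ‖w‖ ^ 2 := by have := hA.vne; positivity
    have h2 : 0 < ‖v‖ ^ 2 := by have := hB.vne; positivity
    have h4 : u.im ≠ 0 := by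
      intro h3
      rw [hB.area, h3, zero_mul] at sB1
      exact h0 sB1
    have h5 : 0 < u.im ^ 2 * ‖v‖ ^ 2 := by positivity
    have h6 : y.im * u.im * ‖w‖ ^ 2 = u.im ^ 2 * ‖v‖ ^ 2 := by linear_combination u.im * hr
    rw [← h6] at h5
    exact (mul_pos_iff_of_pos_right h1).1 h5
  refine finish K60 hA.vne (fun s hs t ht => nonnorm_Cj he (Cj_fix eA hy) (Cj_bar eB hu) hpos hs ht)
    hr (x := x) (fun φ hφ => ?_)
  have := hx φ hφ
  unfold DD at this
  rw [sA2 K60 hαK (fun j => On_le (hA.lat j)), sB2 K60 hβK (fun j => On_le (hB.lat j))] at this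
  linarith

open scoped Real

/-- The data extracted from any folding onto a solid similar to the one with vertex set `V`. -/
def Zd (V : Set E3) (o d : ℕ) : Prop :=
  ∀ (P : Set ℂ) (m : ℕ) (z : ℕ → ℂ) (f : ℂ → E3), Poly P m z → FoldsSim V P f →
    ∃ α r χ a v n cj, Fold m z (turn m z) o (o * 2) (fun x _ => x ∈ On d) α r χ a v n cj ∧
      Sgn m (turn m z) α r (fun i => f (z i)) (oddPts (f '' frontier P))

lemma cube_zd : Zd cubeV 4 15 := by
  intro P m z f hP hA
  obtain ⟨s, col, h1, h2, -⟩ := cube_chk.solid (by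
    rw [zt_re, Nat.cast_ofNat, Real.cos_pi_div_four, div_pow, Real.sq_sqrt (by norm_num)]
    simp [ev]; norm_num) (fun j => rfl)
  rw [cube_img] at h1 h2
  have := fold_of_sim h1 (lat_ring (by norm_num) (On 15) (fun _ => conj_On)
    fun u hu => mem_On (by norm_num) hu) (ord := 4) (by norm_num) (by push_cast; ring) hP hA
  rwa [h2] at this

lemma dodeca_zd : Zd dodecaV 10 6 := by
  intro P m z f hP hA
  obtain ⟨s, col, h1, h2, -⟩ := dode_chk.solid (by
    rw [zt_re, Nat.cast_ofNat, Real.cos_pi_div_five]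
    have := Real.sq_sqrt (show (0 : ℝ) ≤ 5 by norm_num)
    simp only [ev, Real.goldenRatio]; push_cast
    linear_combination (-1 / 4 : ℝ) * this) (fun j => rfl)
  rw [dode_img] at h1 h2
  have := fold_of_sim h1 (lat_ring (by norm_num) (On 6) (fun _ => conj_On)
    fun u hu => mem_On (by norm_num) hu) (ord := 10) (by norm_num) (by push_cast; ring) hP hA
  rwa [h2] at this

lemma icosa_zd : Zd icosaV 6 10 := by
  intro P m z f hP hA
  obtain ⟨s, col, h1, h2, -⟩ := icos_chk.solid (by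
    rw [zt_re, Nat.cast_ofNat, Real.cos_pi_div_three]; simp [ev]; norm_num) (fun j => rfl)
  rw [icos_img] at h1 h2
  have := fold_of_sim h1 (lat_ring (by norm_num) (On 10) (fun _ => conj_On)
    fun u hu => mem_On (by norm_num) hu) (ord := 6) (by norm_num) (by push_cast; ring) hP hA
  rwa [h2] at this

theorem Zd.six {V W : Set E3} {oA oB dA dB : ℕ} (hA : Zd V oA dA) (hB : Zd W oB dB) (e : ℕ)
    (oA' : 60 = dA * oA) (oB' : 60 = dB * oB) (he : e.Coprime 60) (eA : e * dA % 60 = dA)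
    (eB : e * dB % 60 = 59 * dB % 60) {P : Set ℂ} {f g : ℂ → E3} (hf : FoldsSim V P f)
    (hg : FoldsSim W P g) :
    6 ≤ (oddPts (f '' frontier P)).encard + (oddPts (g '' frontier P)).encard := by
  obtain ⟨m, z, hP⟩ := poly_of_net hf.choose_spec.choose_spec.2.net
  obtain ⟨α, rA, χ, a, w, nA, cA, h1, h2⟩ := hA P m z f hP hf
  obtain ⟨β, rB, ψ, b, v, nB, cB, h3, h4⟩ := hB P m z g hP hg
  exact zip_final oA' oB' he eA eB h1 h3 (shoe_ne hf hP) h2 h4

end

end Pool.Agent.Lib.MP_f2d99b_co
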